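import Pool.Agent.H547S1.Stm
import Pool.Agent.H547R9.T_CLM

/-!
# Assembly
-/

set_option autoImplicit false

namespace Pool.Agent.H547S1

open Pool.Agent.H547R6 Pool.Agent.H547R7 Pool.Agent.H547R8 Pool.Agent.NPC Pool.Agent.H583R2

theorem pr_nn {Ω : Type} [Fintype Ω] (p : Ω → Bool) : 0 ≤ pr p := by
  unfold pr; positivity

theorem gt_of {B : Set BFun} (hM : ¬ B ⊆ Mon) (hA : ¬ B ⊆ Aff) : ∃ τ : Fin 3, Op3 B (Gt τ) := by
  rcases H547R9.t_C3 B hM hA with h | h | h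
  · exact ⟨0, h⟩
  · exact ⟨1, h⟩
  · exact ⟨2, h⟩

theorem pke_main (hN : S_NEG) (h1 : S_PMO) (h2 : S_PAF) (h3 : S_PBT) (h4 : S_PBC) (h5 : S_PBD)
    (h6 : S_PRT) (h7 : S_PRP) (B : Set BFun) :
    PkeOver B ↔ ¬ (B ⊆ Mon ∨ B ⊆ Aff) ∧ PKE := by
  obtain ⟨nAdd, nLe, nK, nP, nE, nC⟩ := hN
  constructor
  · intro h
    refine ⟨?_, ?_⟩
    · rintro (hM | hA)
      · exact h1 B hM h
      · exact h2 B hA h
    · obtain ⟨S, q, hS, -⟩ := h
      exact ⟨S, hS⟩
  · rintro ⟨hB, S, ⟨hpk, hsk, henc, hdec⟩, herr, hsec⟩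
    obtain ⟨hM, hA⟩ := not_or.mp hB
    obtain ⟨τ, hτ⟩ := gt_of hM hA
    obtain ⟨encB, decB, hE, hD, hsp⟩ := h3 τ S henc hdec
    obtain ⟨q, hq⟩ := h4 B τ S encB decB hτ hpk henc hsp
    refine ⟨sch S encB decB, q, ⟨⟨hpk, hsk, hE, hD⟩, ?_, ?_⟩, hq⟩
    · intro b
      refine nLe _ (fun n => (3 / 4 : ℝ) ^ n + S.err n b) 0 (nAdd _ _ nE (herr b)) ?_
      intro n _
      have h0 : 0 ≤ (sch S encB decB).err n b := pr_nn _
      rw [abs_of_nonneg h0]
      exact h5 τ S encB decB hsp n b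
    · intro A t hAt
      obtain ⟨A', hA', hA's⟩ := h6 τ S A t henc hAt
      have h8 := h7 τ S encB decB A A' t hsp hA's
      have h9 := nK _ 2 (hsec A' (1 + (2 * Polynomial.X + (S.e + t))) hA')
      have : (fun n => (sch S encB decB).acp A t n true - (sch S encB decB).acp A t n false) =
          fun n => 2 * (S.acp A' (1 + (2 * Polynomial.X + (S.e + t))) n true -
            S.acp A' (1 + (2 * Polynomial.X + (S.e + t))) n false) := by
        funext n
        rw [h8 n]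
        ring
      rw [this]
      exact h9

theorem ot_main (hN : S_NEG) (hC : S_C4) (h1 : S_TMO) (h2 : S_TSD) (h3 : S_TAF) (h4 : S_TBT)
    (h5 : S_TBC) (h6 : S_TBD) (h7 : S_TRT) (h8 : S_TRP) (B : Set BFun) :
    OtOver B ↔ ¬ (B ⊆ Mon ∨ B ⊆ Aff ∨ B ⊆ SelfDual) ∧ OT := by
  obtain ⟨nAdd, nLe, nK, nP, nE, nC⟩ := hN
  constructor
  · intro h
    refine ⟨?_, ?_⟩
    · rintro (hM | hA | hD)
      · exact h1 B hM h
      · exact h3 B hA h
      · exact h2 B hD h
    · obtain ⟨P, q, hP, -⟩ := h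
      exact ⟨P, hP⟩
  · rintro ⟨hB, P, ⟨hs, hr, ho⟩, herr, hrec, hsnd⟩
    obtain ⟨hM, hB'⟩ := not_or.mp hB
    obtain ⟨hA, hD⟩ := not_or.mp hB'
    obtain ⟨τ, hτ01, hτ⟩ : ∃ τ : Fin 3, (τ = 0 ∨ τ = 1) ∧ Op3 B (Gt τ) := by
      rcases hC B hM hA hD with h | h
      · exact ⟨0, Or.inl rfl, h⟩
      · exact ⟨1, Or.inr rfl, h⟩
    obtain ⟨sndB, rcvB, outB, hsB, hrB, hoB, hsp⟩ := h4 τ P hs hr ho
    obtain ⟨q, hq⟩ := h5 B τ P sndB rcvB outB hτ01 hτ hs hr hsp
    have nE4 : Neg fun n => 4 * (3 / 4 : ℝ) ^ n := nK _ 4 nE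
    refine ⟨pro P sndB rcvB outB, q, ⟨⟨hsB, hrB, hoB⟩, ?_, ?_, ?_⟩, hq⟩
    · intro b₀ b₁ c
      refine nLe _ (fun n => 4 * (3 / 4 : ℝ) ^ n + P.err n b₀ b₁ c) 1
        (nAdd _ _ nE4 (herr b₀ b₁ c)) ?_
      intro n hn
      have h0 : 0 ≤ (pro P sndB rcvB outB).err n b₀ b₁ c := pr_nn _
      rw [abs_of_nonneg h0]
      have := h6 τ P sndB rcvB outB hsp n hn b₀ b₁ c
      have h34 : (0 : ℝ) ≤ (3 / 4 : ℝ) ^ n := by positivity
      linarith
    · intro A t hAt b₀ b₁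
      obtain ⟨As, hAs, hAs'⟩ := h7 τ P A t hAt true
      obtain ⟨Ar, hAr, hAr'⟩ := h7 τ P A t hAt false
      have h9 := h8 τ P sndB rcvB outB A As Ar t hsp hAs' hAr'
      have h10 := hrec As (2 * Polynomial.X + (2 * Polynomial.X + t)) hAs b₀ b₁
      have h11 : Neg fun n => |P.acs As (2 * Polynomial.X + (2 * Polynomial.X + t)) n b₀ b₁ true -
          P.acs As (2 * Polynomial.X + (2 * Polynomial.X + t)) n b₀ b₁ false| := by
        intro c
        obtain ⟨N, hN⟩ := h10 c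
        exact ⟨N, fun n hn => by rw [abs_abs]; exact hN n hn⟩
      refine nLe _ _ 1 (nAdd _ _ nE4 h11) ?_
      intro n hn
      have ht := (h9 n hn b₀ b₁ true).1
      have hf := (h9 n hn b₀ b₁ false).1
      rw [abs_le] at ht hf ⊢
      have := le_abs_self (P.acs As (2 * Polynomial.X + (2 * Polynomial.X + t)) n b₀ b₁ true -
          P.acs As (2 * Polynomial.X + (2 * Polynomial.X + t)) n b₀ b₁ false)
      have := neg_abs_le (P.acs As (2 * Polynomial.X + (2 * Polynomial.X + t)) n b₀ b₁ true -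
          P.acs As (2 * Polynomial.X + (2 * Polynomial.X + t)) n b₀ b₁ false)
      constructor <;> linarith
    · intro A t hAt
      obtain ⟨As, hAs, hAs'⟩ := h7 τ P A t hAt true
      obtain ⟨Ar, hAr, hAr'⟩ := h7 τ P A t hAt false
      have h9 := h8 τ P sndB rcvB outB A As Ar t hsp hAs' hAr'
      have key : ∀ (a b c a' b' : Bool),
          (Neg fun n => P.acr Ar (2 * Polynomial.X + (2 * Polynomial.X + t)) n a b c -
            P.acr Ar (2 * Polynomial.X + (2 * Polynomial.X + t)) n a' b' c) →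
          Neg fun n => (pro P sndB rcvB outB).acr A t n a b c -
            (pro P sndB rcvB outB).acr A t n a' b' c := by
        intro a b c a' b' h10
        have h11 : Neg fun n => |P.acr Ar (2 * Polynomial.X + (2 * Polynomial.X + t)) n a b c -
            P.acr Ar (2 * Polynomial.X + (2 * Polynomial.X + t)) n a' b' c| := by
          intro c
          obtain ⟨N, hN⟩ := h10 c
          exact ⟨N, fun n hn => by rw [abs_abs]; exact hN n hn⟩
        refine nLe _ _ 1 (nAdd _ _ nE4 h11) ?_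
        intro n hn
        have ht := (h9 n hn a b c).2
        have hf := (h9 n hn a' b' c).2
        rw [abs_le] at ht hf ⊢
        have := le_abs_self (P.acr Ar (2 * Polynomial.X + (2 * Polynomial.X + t)) n a b c -
            P.acr Ar (2 * Polynomial.X + (2 * Polynomial.X + t)) n a' b' c)
        have := neg_abs_le (P.acr Ar (2 * Polynomial.X + (2 * Polynomial.X + t)) n a b c -
            P.acr Ar (2 * Polynomial.X + (2 * Polynomial.X + t)) n a' b' c)
        constructor <;> linarith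
      obtain ⟨hk1, hk2⟩ := hsnd Ar (2 * Polynomial.X + (2 * Polynomial.X + t)) hAr
      exact ⟨fun b => key _ _ _ _ _ (hk1 b), fun b => key _ _ _ _ _ (hk2 b)⟩

end Pool.Agent.H547S1
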