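import Pool.Agent.H547S1.Asm

/-!
# Assembly, one-way functions
-/

set_option autoImplicit false

namespace Pool.Agent.H547S1

open Pool.Agent.H547R6 Pool.Agent.H547R7 Pool.Agent.H547R8 Pool.Agent.NPC Pool.Agent.H583R2

theorem sz_ge (l : List Bool) : l.length ≤ H583R2.sz l := by
  induction l with
  | nil => simp
  | cons b l ih => rw [H583R2.sz_cons, List.length_cons]; have := H583R2.sz_pos b; omega

theorem sz_le4 (l : List Bool) : H583R2.sz l ≤ 4 * l.length + 1 := by
  induction l with
  | nil => simp [H583R2.sz_nil]
  | cons b l ih => rw [H583R2.sz_cons, List.length_cons]; have := H583R2.sz_bool b; omega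

theorem out_len {f : List Bool → List Bool} (hf : PolyTime f) :
    ∃ K : Polynomial ℕ, ∀ x, (f x).length ≤ K.eval x.length := by
  obtain ⟨k, hk⟩ := (H545R2.KS.pf_of_polyTime hf).size
  refine ⟨(4 * Polynomial.X + 3) ^ k, fun x => ?_⟩
  have h1 := hk x
  have h2 := sz_le4 x
  simp only [Polynomial.eval_pow, Polynomial.eval_add, Polynomial.eval_mul, Polynomial.eval_X,
    Polynomial.eval_ofNat]
  calc (f x).length ≤ H583R2.sz (f x) := sz_ge _
    _ ≤ (H583R2.sz x + 2) ^ k := h1
    _ ≤ (4 * x.length + 3) ^ k := Nat.pow_le_pow_left (by omega) _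

/-- number of coins of the one-way function -/
noncomputable def eO : Polynomial ℕ :=
  (4 * Polynomial.X * (2 * (8 * (Polynomial.X + 1) ^ 2) + 1)) *
    (2 + 2 * (8 * (Polynomial.X + 1) ^ 2))

theorem eO_eval (n : ℕ) : eO.eval n = kF n * lF n := by
  unfold eO kF lF hF H547R9.hh
  simp [Polynomial.eval_mul, Polynomial.eval_add, Polynomial.eval_pow, Polynomial.eval_ofNat]

theorem pr_mono {Ω : Type} [Fintype Ω] (p q : Ω → Bool) (h : ∀ x, p x = true → q x = true) :
    pr p ≤ pr q := by
  unfold pr
  refine div_le_div_of_nonneg_right ?_ (by positivity)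
  exact_mod_cast Finset.card_le_card fun x hx => by
    simp only [Finset.mem_filter, Finset.mem_univ, true_and] at hx ⊢
    exact h x hx

theorem pr_le_add {Ω : Type} [Fintype Ω] (p q r : Ω → Bool)
    (h : ∀ x, p x = true → q x = true ∨ r x = true) : pr p ≤ pr q + pr r := by
  classical
  unfold pr
  rw [← add_div]
  refine div_le_div_of_nonneg_right ?_ (by positivity)
  have : (Finset.univ.filter fun x => p x = true) ⊆
      (Finset.univ.filter fun x => q x = true) ∪ (Finset.univ.filter fun x => r x = true) := by
    intro x hx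
    simp only [Finset.mem_union, Finset.mem_filter, Finset.mem_univ, true_and] at hx ⊢
    exact h x hx
  exact_mod_cast (Finset.card_le_card this).trans (Finset.card_union_le _ _)

theorem pr_equiv {Ω Ω' : Type} [Fintype Ω] [Fintype Ω'] (e : Ω ≃ Ω') (p : Ω' → Bool) :
    pr (fun x => p (e x)) = pr p := by
  unfold pr
  rw [Fintype.card_congr e]
  congr 2
  refine Finset.card_bij (fun x _ => e x) ?_ ?_ ?_
  · intro x hx
    simpa using hx
  · intro x _ y _ h
    exact e.injective h
  · intro y hy
    exact ⟨e.symm y, by simpa using hy, by simp⟩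

theorem pr_fst {Ω Ω' : Type} [Fintype Ω] [Fintype Ω'] [Nonempty Ω'] (p : Ω → Bool) :
    pr (fun x : Ω × Ω' => p x.1) = pr p := by
  classical
  unfold pr
  have h : (Finset.univ.filter fun x : Ω × Ω' => p x.1 = true) =
      (Finset.univ.filter fun x : Ω => p x = true) ×ˢ (Finset.univ : Finset Ω') := by
    ext x
    simp
  rw [h, Finset.card_product, Fintype.card_prod, Finset.card_univ]
  have : (Fintype.card Ω' : ℝ) ≠ 0 := by
    exact_mod_cast Fintype.card_ne_zero
  push_cast
  rw [mul_div_mul_right _ _ this]

theorem plant_congr (τ : Fin 3) (f : List Bool → List Bool) (K n i : ℕ) (v X X' : List Bool)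
    (h : ∀ l, l ≠ i → bk n l X = bk n l X') : plant τ f K n i v X = plant τ f K n i v X' := by
  unfold plant
  congr 1
  funext l
  by_cases hl : l = i
  · simp [hl]
  · simp [hl, h l hl]

theorem kl_pos (n : ℕ) (hn : 1 ≤ n) : n ≤ 2 * hF n := H547R9.hh_le n

theorem fv_lt {n i : ℕ} {X : List Bool} (h : fv n X = some i) : i < kF n := by
  unfold fv at h
  have := List.mem_of_find?_eq_some h
  simpa using this

theorem owf_pos (hN : S_NEG) (h5 : S_C5) (h6 : S_OBT) (h7 : S_OBC) (h8 : S_OBL) (h9 : S_OBN)
    (h10 : S_OIT) (h11 : S_OBP) (B : Set BFun)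
    (hB : ¬ (B ⊆ Aff ∨ B ⊆ Conj ∨ B ⊆ Disj)) (h : OWF) : OwfOver B := by
  obtain ⟨nAdd, nLe, nK, nP, nE, nC⟩ := hN
  obtain ⟨f, hf, hinv⟩ := h
  obtain ⟨hA, hB'⟩ := not_or.mp hB
  obtain ⟨hC, hD⟩ := not_or.mp hB'
  obtain ⟨τ, hτ⟩ := h5 B hA hC hD
  obtain ⟨K, hK⟩ := out_len hf
  obtain ⟨F, hF, hFs⟩ := h6 τ f K hf
  obtain ⟨q, hq⟩ := h7 B τ f K hτ hf hK
  have hlen : ∀ n, 1 ≤ n → ∀ x : Fin (eO.eval n) → Bool,
      (List.ofFn x).length = kF n * lF n := by
    intro n _ x
    rw [List.length_ofFn, eO_eval]
  refine ⟨F, eO, q, fun n => kF n * (2 + (2 * K.eval n + 2)), hF, ?_, ?_, ?_⟩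
  · intro n hn x
    rw [hFs]
    exact (h8 τ f K hK n hn _ (hlen n hn x)).1
  · intro n hn j hj
    have := hq n hn j hj
    have e := eO_eval n
    revert this
    rw [← e]
    intro this
    simp only [hFs]
    exact this
  · intro A t hAt
    obtain ⟨A', hA', hA's⟩ := h10 τ f K t A hf hAt
    have hneg := nAdd _ _ nE (nK _ 2 (hinv A' (eO + t) hA'))
    refine nLe _ _ 1 hneg ?_
    intro n hn
    rw [abs_of_nonneg (pr_nn _)]
    -- the success predicate
    set m := kF n * lF n with hm
    have e1 : eO.eval n = m := eO_eval n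
    classical
    let good : (Fin n → Bool) → ℕ → (Fin m → Bool) → (Fin (t.eval n) → Bool) → Bool :=
      fun x i X w => decide ((A (c3 (ones n) (plant τ f (K.eval n) n i (f (List.ofFn x))
        (List.ofFn X)) (List.ofFn w))).length = m ∧
        owF τ f (K.eval n) n (A (c3 (ones n) (plant τ f (K.eval n) n i (f (List.ofFn x))
          (List.ofFn X)) (List.ofFn w))) =
          plant τ f (K.eval n) n i (f (List.ofFn x)) (List.ofFn X))
    have hgood : ∀ x i X X' w, (∀ l, l ≠ i → bk n l (List.ofFn X) = bk n l (List.ofFn X')) →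
        good x i X w = good x i X' w := by
      intro x i X X' w h
      simp only [good]
      rw [plant_congr τ f (K.eval n) n i (f (List.ofFn x)) _ _ h]
    have hP := h11 f n (t.eval n) hn good hgood
    have hnone := (h9 n hn).2
    -- left hand side
    have hL : (pr fun w : (Fin (eO.eval n) → Bool) × (Fin (t.eval n) → Bool) =>
        decide (∃ x : Fin (eO.eval n) → Bool,
          A (c3 (ones n) (F (pairBits (ones n) (List.ofFn w.1))) (List.ofFn w.2)) =
            List.ofFn x ∧
          F (pairBits (ones n) (List.ofFn x)) = F (pairBits (ones n) (List.ofFn w.1)))) ≤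
        (pr fun X : Fin m → Bool => decide (fv n (List.ofFn X) = none)) +
        (pr fun w : (Fin m → Bool) × (Fin (t.eval n) → Bool) =>
          match fv n (List.ofFn w.1) with
          | some i => good (vec n ((bk n i (List.ofFn w.1)).drop 2)) i w.1 w.2
          | none => false) := by
      rw [← pr_fst (Ω' := Fin (t.eval n) → Bool) fun X : Fin m → Bool =>
        decide (fv n (List.ofFn X) = none)]
      have key : ∀ (m' : ℕ) (em : m' = m),
          (pr fun w : (Fin m' → Bool) × (Fin (t.eval n) → Bool) =>
            decide (∃ x : Fin m' → Bool,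
              A (c3 (ones n) (F (pairBits (ones n) (List.ofFn w.1))) (List.ofFn w.2)) =
                List.ofFn x ∧
              F (pairBits (ones n) (List.ofFn x)) = F (pairBits (ones n) (List.ofFn w.1)))) ≤
          (pr fun w : (Fin m → Bool) × (Fin (t.eval n) → Bool) =>
            decide (fv n (List.ofFn w.1) = none)) +
          (pr fun w : (Fin m → Bool) × (Fin (t.eval n) → Bool) =>
          match fv n (List.ofFn w.1) with
          | some i => good (vec n ((bk n i (List.ofFn w.1)).drop 2)) i w.1 w.2
          | none => false) := by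
        intro m' em
        subst em
        refine pr_le_add _ _ _ ?_
        rintro ⟨X, w⟩ hx
        simp only [decide_eq_true_eq] at hx
        obtain ⟨Y, hY, hYF⟩ := hx
        cases hfv : fv n (List.ofFn X) with
        | none => left; simp [hfv]
        | some i =>
          right
          simp only [hfv]
          have hi := fv_lt hfv
          have hlX : (List.ofFn X).length = kF n * lF n := by simp [hm]
          have hpl := (h8 τ f K hK n hn (List.ofFn X) hlX).2.1 i hfv
          have hv : List.ofFn (vec n ((bk n i (List.ofFn X)).drop 2)) =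
              ((bk n i (List.ofFn X)).drop 2).take n := by
            have hblen : (bk n i (List.ofFn X)).length = lF n := by
              unfold bk
              rw [List.length_take, List.length_drop, hlX]
              have : (i + 1) * lF n ≤ kF n * lF n := Nat.mul_le_mul_right _ hi
              have h2 : i * lF n + lF n ≤ kF n * lF n := by
                calc i * lF n + lF n = (i + 1) * lF n := by ring
                  _ ≤ _ := this
              omega
            have hl2 : n ≤ ((bk n i (List.ofFn X)).drop 2).length := by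
              rw [List.length_drop, hblen]
              have := kl_pos n hn
              unfold lF
              omega
            apply List.ext_getElem
            · rw [List.length_ofFn, List.length_take]; omega
            · intro k h1 h2
              simp only [List.getElem_ofFn, vec, List.getElem_take]
              rw [List.getD_eq_getElem _ _ (by simp at h1; omega)]
          simp only [good, decide_eq_true_eq]
          rw [hv, ← hpl, ← hFs, hY]
          refine ⟨by simp, ?_⟩
          rw [← hFs]
          exact hYF
      exact key _ e1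
    -- right hand side
    have hR : (pr fun w : (Fin n → Bool) × (Fin m → Bool) × (Fin (t.eval n) → Bool) =>
        match fv n (List.ofFn w.2.1) with
        | some i => good w.1 i w.2.1 w.2.2
        | none => false) ≤
        pr fun w : (Fin n → Bool) × (Fin ((eO + t).eval n) → Bool) =>
          decide (f (A' (c3 (ones n) (f (List.ofFn w.1)) (List.ofFn w.2))) =
            f (List.ofFn w.1)) := by
      have e2 : (eO + t).eval n = m + t.eval n := by rw [Polynomial.eval_add, e1]
      have key : ∀ (m' : ℕ) (em : m' = m + t.eval n),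
          (pr fun w : (Fin n → Bool) × (Fin m → Bool) × (Fin (t.eval n) → Bool) =>
            match fv n (List.ofFn w.2.1) with
            | some i => good w.1 i w.2.1 w.2.2
            | none => false) ≤
          pr fun w : (Fin n → Bool) × (Fin m' → Bool) =>
            decide (f (A' (c3 (ones n) (f (List.ofFn w.1)) (List.ofFn w.2))) =
              f (List.ofFn w.1)) := by
        intro m' em
        subst em
        rw [← pr_equiv (Equiv.prodCongr (Equiv.refl (Fin n → Bool))
          (Fin.appendEquiv m (t.eval n)))]
        refine pr_mono _ _ ?_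
        rintro ⟨x, X, w⟩ hx
        cases hfv : fv n (List.ofFn X) with
        | none => simp [hfv] at hx
        | some i =>
          simp only [hfv, good, decide_eq_true_eq] at hx
          obtain ⟨hYl, hYo⟩ := hx
          have hi := fv_lt hfv
          have hap : List.ofFn ((Fin.appendEquiv m (t.eval n)) (X, w)) =
              List.ofFn X ++ List.ofFn w := by
            simp [Fin.appendEquiv, List.ofFn_fin_append]
          simp only [Equiv.prodCongr_apply, Equiv.coe_refl, Prod.map_apply, id_eq,
            decide_eq_true_eq, hap]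
          rw [hA's n i (f (List.ofFn x)) (List.ofFn X) (List.ofFn w) (by simp [hm]) (by simp) hfv]
          exact (h8 τ f K hK n hn (List.ofFn X) (by simp [hm])).2.2 i (List.ofFn x) _ hi
            (by simp) hYl hYo
      exact key _ e2
    calc _ ≤ _ := hL
      _ ≤ (3 / 4 : ℝ) ^ n + 2 * _ := add_le_add hnone (hP.trans
        (mul_le_mul_of_nonneg_left hR (by norm_num)))

theorem owf_main (hN : S_NEG) (h1 : S_OAF) (h2 : S_OCO) (h3 : S_ODI) (h4 : S_OPL) (h5 : S_C5)
    (h6 : S_OBT) (h7 : S_OBC) (h8 : S_OBL) (h9 : S_OBN) (h10 : S_OIT) (h11 : S_OBP)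
    (B : Set BFun) : OwfOver B ↔ ¬ (B ⊆ Aff ∨ B ⊆ Conj ∨ B ⊆ Disj) ∧ OWF := by
  constructor
  · intro h
    refine ⟨?_, h4 B h⟩
    rintro (hA | hC | hD)
    · exact h1 B hA h
    · exact h2 B hC h
    · exact h3 B hD h
  · rintro ⟨hB, h⟩
    exact owf_pos hN h5 h6 h7 h8 h9 h10 h11 B hB h

end Pool.Agent.H547S1
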