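import Pool.Agent.H547S1.Stm
import Pool.Agent.H547R9.T_CLM

/-!
# Gate sets that are not monotone, not affine and not self-dual
-/

set_option autoImplicit false

namespace Pool.Agent.H547S1

open Pool.Agent.H547R6 Pool.Agent.H547R7 Pool.Agent.H547R8 Pool.Agent.H547R9 Pool.Agent.NPC

theorem t_C4 : S_C4 := by
  intro B hM hA hS
  rcases t_CLO B hA (fun h => hM (h.trans conj_mon)) (fun h => hM (h.trans disj_mon)) hS with
    h | h
  · right
    have hd : Op3 (dualB B) oD := by
      refine (Gen.dual h).congr fun x => ?_
      simp only [oD]
      cases x 0 <;> cases x 1 <;> cases x 2 <;> rfl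
    have hM' : ¬ dualB B ⊆ Mon := by
      refine not_sub_dual (P := Mon) (Q := Mon) ?_ hM
      intro f hf x y hxy hx
      have := hf (fun i => !y i) (fun i => !x i) (fun i => by
        have := hxy i
        revert this
        cases x i <;> cases y i <;> simp)
      simp only [dualF, Bool.not_not] at this
      revert this hx
      cases f.2 x <;> cases f.2 y <;> simp
    have h3 := Gen.dual (cn_nonmon hd hM')
    rw [dualB_dualB] at h3
    refine h3.congr fun x => ?_
    simp only [Gt]
    cases x 0 <;> cases x 1 <;> cases x 2 <;> rfl
  · left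
    refine (cn_nonmon h hM).congr fun x => ?_
    simp only [Gt]
    cases x 0 <;> cases x 1 <;> cases x 2 <;> rfl

end Pool.Agent.H547S1
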