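import Pool.Agent.H547S1.Stm
import Pool.Agent.H547R9.T_CLM

/-!
# Gate sets that are not affine, conjunctive or disjunctive
-/

set_option autoImplicit false

namespace Pool.Agent.H547S1

open Pool.Agent.H547R6 Pool.Agent.H547R7 Pool.Agent.H547R8 Pool.Agent.H547R9 Pool.Agent.NPC

theorem C5_gm0 {B : Set BFun} (h : Op3 B oD) : Op3 B (Gm 0) :=
  h.congr fun x => by
    simp only [Gm, oD]
    cases x 0 <;> cases x 1 <;> cases x 2 <;> rfl

theorem C5_gm1 {B : Set BFun} (h : Op3 B oS) : Op3 B (Gm 1) :=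
  h.congr fun x => by
    simp only [Gm, oS]
    cases x 0 <;> cases x 1 <;> cases x 2 <;> rfl

theorem C5_gm2 {B : Set BFun} (h : Op3 B bmaj) : Op3 B (Gm 2) :=
  h.congr fun x => by
    simp only [Gm]
    cases x 0 <;> cases x 1 <;> cases x 2 <;> rfl

theorem t_C5 : S_C5 := by
  intro B hA hC hD
  by_cases hS : B ⊆ SelfDual
  · by_cases hM : B ⊆ Mon
    · rcases t_C2 B hM hC hD with h | h | h
      · exact ⟨0, C5_gm0 h⟩
      · exact ⟨1, C5_gm1 h⟩
      · exact ⟨2, C5_gm2 h⟩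
    · have h := case_sd hS hM hA
      refine ⟨2, C5_gm2 ?_⟩
      refine (h.app v0_3 v1_3 (h.app v0_3 v1_3 v2_3)).congr fun x => ?_
      simp only [bmaj]
      cases x 0 <;> cases x 1 <;> cases x 2 <;> rfl
  · rcases t_CLO B hA hC hD hS with h | h
    · exact ⟨1, C5_gm1 h⟩
    · exact ⟨0, C5_gm0 h⟩

end Pool.Agent.H547S1
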