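import Pool.Agent.H547S1.Stm
import Pool.Agent.H547R8.T_TS2
import Pool.Agent.H547R9.T_REN

/-!
# The bits of polynomial-time functions have small circuits
-/

set_option autoImplicit false

namespace Pool.Agent.H547S1

open Pool.Agent.H547R6 Pool.Agent.H547R7 Pool.Agent.H547R8 Pool.Agent.NPC Pool.Agent.H583R2
open Pool.Agent.H545R2.KS

/-- the value of the bit -/
def CK3_b (F : List Bool → List Bool) (x w : List Bool) : Bool :=
  (F (pairBits (spl x).1 (w.take (spl (spl x).2).1.length))).getD (spl (spl x).2).2.length false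

theorem CK3_pf {F : List Bool → List Bool} (hF : PolyTime F) :
    PF (fun z : List Bool => CK3_b F (spl z).1 (spl z).2) := by
  have hx := TS2_pfx
  have hw := TS2_pfw
  have h1 : PF (fun z : List Bool => (spl (spl z).1).1) := PF.fst' (PF.spl hx)
  have h2 : PF (fun z : List Bool => (spl (spl z).1).2) := PF.snd' (PF.spl hx)
  have h3 : PF (fun z : List Bool => (spl (spl (spl z).1).2).1) := PF.fst' (PF.spl h2)
  have h4 : PF (fun z : List Bool => (spl (spl (spl z).1).2).2) := PF.snd' (PF.spl h2)
  unfold CK3_b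
  exact PF.listGetD (PF.length h4)
    ((pf_of_polyTime hF).comp (pf_pairBits h1 (PF.take (PF.length h3) hw))) (PF.const false)

/-- the input that codes `x`, `m` and `j` -/
def CK3_x (x : List Bool) (m j : ℕ) : List Bool :=
  pairBits x (pairBits (List.replicate m true) (List.replicate j true))

theorem CK3_len (x : List Bool) (m j : ℕ) : (CK3_x x m j).length = 2 * x.length + 2 * m + j + 2 := by
  unfold CK3_x
  rw [pairBits_length, pairBits_length, List.length_replicate, List.length_replicate]
  omega

theorem CK3_b_x (F : List Bool → List Bool) (x w : List Bool) (m j : ℕ) :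
    CK3_b F (CK3_x x m j) w = (F (pairBits x (w.take m))).getD j false := by
  unfold CK3_b CK3_x
  rw [spl_pairBits, spl_pairBits]
  simp only [List.length_replicate]

theorem CK3_mono {n s s' : ℕ} {C : BF n} (h : Comp0 n s C) (hs : s ≤ s') : Comp0 n s' C := by
  obtain ⟨l, t, h1, h2, h3⟩ := h
  exact ⟨l, t, h1, h2.trans hs, h3⟩

theorem t_CK3 (h : S_CKT) : S_CK3 := by
  intro F hF
  obtain ⟨V, hV, hacc⟩ := TS2_mk (CK3_b F) (CK3_pf hF)
  obtain ⟨q, hq⟩ := h V hV (Polynomial.X + 1) (by
    intro m
    rw [Polynomial.eval_add, Polynomial.eval_X, Polynomial.eval_one]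
    omega)
  refine ⟨q.comp (2 * Polynomial.X + 2), fun x m j hm => ?_⟩
  have h1 := hq (CK3_x x m j)
  have hP : (Polynomial.X + 1 : Polynomial ℕ).eval (CK3_x x m j).length =
      2 * x.length + 2 * m + j + 2 + 1 := by
    rw [Polynomial.eval_add, Polynomial.eval_X, Polynomial.eval_one, CK3_len]
  rw [hP] at h1
  have hmP : m ≤ 2 * x.length + 2 * m + j + 2 + 1 := by omega
  have h2 := H547R9.t_REN.2.1 _ m _
    (fun i : Fin (2 * x.length + 2 * m + j + 2 + 1) =>
      if hi : i.val < m then (⟨i.val, hi⟩ : Fin m) else ⟨0, hm⟩) _ h1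
  have h3 : (fun z : Fin m → Bool => acc V (CK3_x x m j) (2 * x.length + 2 * m + j + 2 + 1)
      (fun i => z (if hi : i.val < m then (⟨i.val, hi⟩ : Fin m) else ⟨0, hm⟩))) =
      fun r => (F (pairBits x (List.ofFn r))).getD j false := by
    funext z
    rw [hacc, CK3_b_x]
    congr 3
    apply List.ext_getElem
    · rw [List.length_take, List.length_ofFn, List.length_ofFn]
      omega
    · intro k hk1 hk2
      rw [List.length_ofFn] at hk2
      rw [List.getElem_take, List.getElem_ofFn, List.getElem_ofFn, dif_pos hk2]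
  rw [h3] at h2
  refine CK3_mono h2 ?_
  rw [Polynomial.eval_comp, CK3_len]
  apply H545R2.KS.eval_mono
  simp only [Polynomial.eval_add, Polynomial.eval_mul, Polynomial.eval_X, Polynomial.eval_ofNat]
  omega

end Pool.Agent.H547S1
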