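import Pool.Agent.H547S1.Stm

/-!
# Masking and unmasking of strings
-/

set_option autoImplicit false

namespace Pool.Agent.H547S1

open Pool.Agent.H547R6 Pool.Agent.H547R7 Pool.Agent.H547R8 Pool.Agent.NPC

theorem DEM_flat_len (F : ℕ → List Bool) (m : ℕ) (hF : ∀ i, (F i).length = m) (k : ℕ) :
    ((List.range k).flatMap F).length = k * m := by
  induction k with
  | zero => simp
  | succ k ih =>
    rw [List.range_succ, List.flatMap_append, List.length_append, ih]
    simp [hF]
    ring

theorem DEM_flat_getD (F : ℕ → List Bool) (m : ℕ) (hF : ∀ i, (F i).length = m) (k i l : ℕ)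
    (hi : i < k) (hl : l < m) :
    ((List.range k).flatMap F).getD (i * m + l) false = (F i).getD l false := by
  induction k with
  | zero => omega
  | succ k ih =>
    rw [List.range_succ, List.flatMap_append]
    have h1 := DEM_flat_len F m hF k
    rcases Nat.lt_or_ge i k with h | h
    · rw [List.getD_append _ _ _ _ (by
        rw [h1]
        calc i * m + l < i * m + m := by omega
          _ = (i + 1) * m := by ring
          _ ≤ k * m := Nat.mul_le_mul_right _ h)]
      exact ih h
    · have h2 : i = k := by omega
      subst h2
      rw [List.getD_append_right _ _ _ _ (by rw [h1]; omega), h1]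
      simp

theorem DEM_Tf (τ : Fin 3) (c c' : Bool) : Tf τ false true c c' = c := by
  revert τ c c'
  decide

theorem DEM_zip (f : Bool → Bool → Bool) (c c' : List Bool) (m l : ℕ) (hc : c.length = m)
    (hc' : c'.length = m) (hl : l < m) :
    (List.zipWith f c c').getD l false = f (c.getD l false) (c'.getD l false) := by
  rw [List.getD_eq_getElem _ _ (by rw [List.length_zipWith]; omega), List.getElem_zipWith,
    List.getD_eq_getElem _ _ (by omega), List.getD_eq_getElem _ _ (by omega)]

theorem DEM_ext (a b : List Bool) (h : a.length = b.length)
    (h1 : ∀ l, l < a.length → a.getD l false = b.getD l false) : a = b := by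
  refine List.ext_getElem h fun l hl hl' => ?_
  have h2 := h1 l hl
  rwa [List.getD_eq_getElem _ _ hl, List.getD_eq_getElem _ _ hl'] at h2

theorem t_DEM : S_DEM := by
  intro τ k m y c c' hy hc hc'
  have hF : ∀ i, (List.zipWith (Tf τ (y.getD (2 * i) false) (y.getD (2 * i + 1) false)) c
      c').length = m := by
    intro i
    rw [List.length_zipWith, hc, hc', min_self]
  have hlen : (em τ k y c c').length = 2 * k + k * m := by
    unfold em
    rw [List.length_append, hy, DEM_flat_len _ m hF]
  have hhead : ∀ j, j < 2 * k → (em τ k y c c').getD j false = y.getD j false := by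
    intro j hj
    unfold em
    rw [List.getD_append _ _ _ _ (by omega)]
  have hblk : ∀ i l, i < k → l < m → (em τ k y c c').getD (2 * k + i * m + l) false =
      Tf τ (y.getD (2 * i) false) (y.getD (2 * i + 1) false) (c.getD l false)
        (c'.getD l false) := by
    intro i l hi hl
    unfold em
    rw [List.getD_append_right _ _ _ _ (by omega), hy,
      show 2 * k + i * m + l - 2 * k = i * m + l by omega, DEM_flat_getD _ m hF k i l hi hl,
      DEM_zip _ _ _ m l hc hc' hl]
  refine ⟨hlen, fun hv => ?_, hhead, hblk⟩
  have hgood : ∀ i, i < k → good (em τ k y c c') i = good y i := by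
    intro i hi
    unfold good
    rw [hhead _ (by omega), hhead _ (by omega)]
  unfold dm
  rcases hf : (List.range k).find? (good (em τ k y c c')) with _ | i
  · exfalso
    unfold valid at hv
    rw [List.any_eq_true] at hv
    obtain ⟨i, hi, h1⟩ := hv
    rw [List.find?_eq_none] at hf
    exact hf i hi (by rw [hgood i (List.mem_range.1 hi)]; exact h1)
  · simp only
    have h1 := List.find?_some hf
    have h2 : i < k := List.mem_range.1 (List.mem_of_find?_eq_some hf)
    rw [hgood i h2] at h1
    unfold good at h1
    rw [Bool.and_eq_true, Bool.not_eq_true'] at h1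
    have h3 : i * m + m ≤ k * m := by
      calc i * m + m = (i + 1) * m := by ring
        _ ≤ k * m := Nat.mul_le_mul_right _ h2
    have h4 : (((em τ k y c c').drop (2 * k + i * m)).take m).length = m := by
      rw [List.length_take, List.length_drop, hlen]
      omega
    refine DEM_ext _ _ (h4.trans hc.symm) fun l hl => ?_
    rw [h4] at hl
    have h5 := hblk i l h2 hl
    rw [h1.1, h1.2, DEM_Tf] at h5
    rw [← h5, List.getD_eq_getElem _ _ (by rw [h4]; exact hl),
      List.getD_eq_getElem _ _ (by rw [hlen]; omega), List.getElem_take, List.getElem_drop]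

end Pool.Agent.H547S1
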