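import Pool.Agent.H547S1.Stm
import Pool.Agent.H547R8.T_S2C
import Pool.Agent.H547R9.T_SDC
import Pool.Agent.H547R9.T_HJC

/-!
GDC: circuits for the gadgets.
-/

namespace Pool.Agent.H547S1

open Pool.Agent.H547R6 Pool.Agent.H547R7 Pool.Agent.H547R8 Pool.Agent.H547R9

theorem t_GDC : S_GDC := by
  intro B τ hB
  by_cases h0 : τ = 0
  · subst h0
    have e1 : Gt 0 = fun a b c => a || (b && !c) := by
      funext a b c
      simp [Gt]
    rw [e1] at hB
    obtain ⟨c, hc⟩ := t_S2C B hB
    refine ⟨c, fun n s C h => ?_⟩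
    have e2 : (fun y : Fin (n + 2) → Bool =>
        Tf 0 (y 0) (y 1) (C fun i => y i.succ.succ) (C fun i => !y i.succ.succ)) = S2 n C := by
      funext y
      simp [Tf, S2]
    rw [e2]
    exact hc n s C h
  · by_cases h1 : τ = 1
    · subst h1
      have e1 : Gt 1 = fun a b c => a && (b || !c) := by
        funext a b c
        simp [Gt]
      rw [e1] at hB
      obtain ⟨c, hc⟩ := t_SDC B hB
      refine ⟨c, fun n s C h => ?_⟩
      have e2 : (fun y : Fin (n + 2) → Bool =>
          Tf 1 (y 0) (y 1) (C fun i => y i.succ.succ) (C fun i => !y i.succ.succ)) = S3 n C := by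
        funext y
        simp [Tf, S3]
      rw [e2]
      exact hc n s C h
    · have e1 : Gt τ = fun a b c => bmaj a b (!c) := by
        funext a b c
        simp [Gt, h0, h1]
      rw [e1] at hB
      obtain ⟨c, hc⟩ := t_HJC B hB
      refine ⟨c, fun n s C h => ?_⟩
      have e2 : (fun y : Fin (n + 2) → Bool =>
          Tf τ (y 0) (y 1) (C fun i => y i.succ.succ) (C fun i => !y i.succ.succ)) = MJ n C := by
        funext y
        simp only [Tf, MJ, if_neg h0, if_neg h1]
      rw [e2]
      exact hc n s C h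

end Pool.Agent.H547S1
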