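import Pool.Agent.H547S1.T_C5
import Pool.Agent.H547R9.T_MSC
import Pool.Agent.H547R9.T_MSD
import Pool.Agent.H547R8.T_MJC

/-!
# Circuits for the gadgets, monotone gates
-/

set_option autoImplicit false

namespace Pool.Agent.H547S1

open Pool.Agent.H547R6 Pool.Agent.H547R7 Pool.Agent.H547R8 Pool.Agent.H547R9 Pool.Agent.NPC

theorem t_GDM : S_GDM := by
  intro B τ h
  have hτ : τ = 0 ∨ τ = 1 ∨ τ = 2 := by fin_cases τ <;> simp
  rcases hτ with rfl | rfl | rfl
  · have h' : Op3 B oD := h.congr fun x => by
      simp only [Gm, oD]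
      cases x 0 <;> cases x 1 <;> cases x 2 <;> rfl
    obtain ⟨c, hc⟩ := t_MSC B h'
    refine ⟨c, fun n s M hM => ?_⟩
    have := hc n s M hM
    have e : (fun y : Fin (n + 2) → Bool => Tf 0 (y 0) (y 1) (M fun i => y i.succ.succ)
        (M fun i => !y i.succ.succ)) = S2 n M := by
      funext y
      simp only [Tf, S2, if_true]
    rw [e]; exact this
  · have h' : Op3 B oS := h.congr fun x => by
      simp only [Gm, oS]
      cases x 0 <;> cases x 1 <;> cases x 2 <;> rfl
    obtain ⟨c, hc⟩ := t_MSD B h'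
    refine ⟨c, fun n s M hM => ?_⟩
    have := hc n s M hM
    have e : (fun y : Fin (n + 2) → Bool => Tf 1 (y 0) (y 1) (M fun i => y i.succ.succ)
        (M fun i => !y i.succ.succ)) = S3 n M := by
      funext y
      have : (1 : Fin 3) ≠ 0 := by decide
      simp only [Tf, S3, if_true, this, if_false]
    rw [e]; exact this
  · have h' : Op3 B bmaj := h.congr fun x => by
      simp only [Gm]
      cases x 0 <;> cases x 1 <;> cases x 2 <;> rfl
    obtain ⟨c, hc⟩ := t_MJC B h'
    refine ⟨c, fun n s M hM => ?_⟩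
    have := hc n s M hM
    have e : (fun y : Fin (n + 2) → Bool => Tf 2 (y 0) (y 1) (M fun i => y i.succ.succ)
        (M fun i => !y i.succ.succ)) = MJ n M := by
      funext y
      have h0 : (2 : Fin 3) ≠ 0 := by decide
      have h1 : (2 : Fin 3) ≠ 1 := by decide
      simp only [Tf, MJ, h0, h1, if_false]
    rw [e]; exact this

end Pool.Agent.H547S1
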