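import Pool.Agent.H547S1.Stm
import Pool.Agent.H547R8.T_CLS

/-!
# The classes are closed under composition
-/

set_option autoImplicit false

namespace Pool.Agent.H547S1

open Pool.Agent.H547R6 Pool.Agent.H547R7 Pool.Agent.H547R8

theorem t_GL3 : S_GL3 := by
  intro B K hK hB n s C hC
  have h := t_CLS B K
  refine h ?_ hB n s C hC
  rcases hK with h | h | h | h | h <;> simp [h]

end Pool.Agent.H547S1
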