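import Pool.Agent.H547S1.Stm

/-!
# Correctness of Gaussian elimination on lists
-/

set_option autoImplicit false

namespace Pool.Agent.H547S1

/-- a bit list as a vector over the field with two elements -/
private def vec (l : List Bool) : ℕ → ZMod 2 := fun i => if l.getD i false = true then 1 else 0

private lemma vec_apply (l : List Bool) (i : ℕ) :
    vec l i = if l.getD i false = true then 1 else 0 := rfl

private lemma vec_eq_zero_iff (l : List Bool) (i : ℕ) : vec l i = 0 ↔ l.getD i false = false := by
  rw [vec_apply]
  cases l.getD i false <;> simp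

private lemma vec_inj (u v : List Bool) (h : u.length = v.length) (h2 : vec u = vec v) : u = v := by
  apply List.ext_getElem h
  intro i hi hi'
  have := congrFun h2 i
  rw [vec_apply, vec_apply] at this
  rw [List.getD_eq_getElem _ _ hi, List.getD_eq_getElem _ _ hi'] at this
  cases hu : u[i] <;> cases hv : v[i] <;> simp_all

private lemma xorL_length (u v : List Bool) (h : u.length = v.length) :
    (xorL u v).length = u.length := by
  simp [xorL, h]

private lemma vec_xorL (u v : List Bool) (h : u.length = v.length) :
    vec (xorL u v) = vec u + vec v := by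
  funext i
  rw [Pi.add_apply, vec_apply, vec_apply, vec_apply]
  by_cases hi : i < u.length
  · have hi' : i < v.length := h ▸ hi
    have hi'' : i < (xorL u v).length := by rw [xorL_length u v h]; exact hi
    rw [List.getD_eq_getElem _ _ hi, List.getD_eq_getElem _ _ hi', List.getD_eq_getElem _ _ hi'']
    have : (xorL u v)[i] = xor u[i] v[i] := by
      simp [xorL]
    rw [this]
    cases u[i] <;> cases v[i] <;> simp
    decide
  · have hi' : ¬ i < v.length := h ▸ hi
    have hi'' : ¬ i < (xorL u v).length := by rw [xorL_length u v h]; exact hi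
    rw [List.getD_eq_default _ _ (by omega), List.getD_eq_default _ _ (by omega),
      List.getD_eq_default _ _ (by omega)]
    simp

private lemma vec_replicate (m : ℕ) : vec (List.replicate m false) = 0 := by
  funext i
  rw [vec_apply]
  by_cases hi : i < m
  · rw [List.getD_eq_getElem _ _ (by simpa using hi)]
    simp
  · rw [List.getD_eq_default _ _ (by simpa using hi)]
    simp

private lemma vec_nil : vec [] = 0 := by
  funext i
  simp [vec_apply]

private lemma vec_cons (b : Bool) (l : List Bool) (i : ℕ) : vec (b :: l) (i + 1) = vec l i := by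
  simp [vec_apply]

private lemma vec_cons_zero (b : Bool) (l : List Bool) :
    vec (b :: l) 0 = if b = true then 1 else 0 := by
  simp [vec_apply]

/-- the linear combination -/
private def lin (vs : List (List Bool)) (c : ℕ → ZMod 2) : ℕ → ZMod 2 :=
  ∑ i ∈ Finset.range vs.length, c i • vec (vs.getD i [])

private lemma lin_add (vs : List (List Bool)) (c d : ℕ → ZMod 2) :
    lin vs (c + d) = lin vs c + lin vs d := by
  simp [lin, add_smul, Finset.sum_add_distrib]

private lemma lin_zero (vs : List (List Bool)) : lin vs 0 = 0 := by
  simp [lin]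

private lemma comb_spec (m : ℕ) : ∀ (c : List Bool) (vs : List (List Bool)),
    (∀ v ∈ vs, v.length = m) → c.length = vs.length →
    (comb m c vs).length = m ∧ vec (comb m c vs) = lin vs (vec c)
  | [], [], _, _ => by
    simp [comb, lin, vec_replicate]
  | [], v :: vs, _, h => by simp at h
  | b :: c, [], _, h => by simp at h
  | b :: c, v :: vs, hv, h => by
    have ih := comb_spec m c vs (fun v hv' => hv v (List.mem_cons_of_mem _ hv'))
      (by simpa using h)
    have hvm : v.length = m := hv v (by simp)
    have hlin : lin (v :: vs) (vec (b :: c)) = (if b = true then vec v else 0) + lin vs (vec c) := by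
      rw [lin, List.length_cons, Finset.sum_range_succ']
      rw [add_comm]
      congr 1
      rw [vec_cons_zero]
      cases b <;> simp
    rw [hlin]
    cases b with
    | false => simpa [comb] using ih
    | true =>
      have hl : v.length = (comb m c vs).length := by rw [hvm, ih.1]
      constructor
      · simp only [comb, cond_true]
        rw [xorL_length _ _ hl, hvm]
      · simp only [comb, cond_true]
        rw [vec_xorL _ _ hl, ih.2]
        simp

private lemma piv_spec (v : List Bool) (h : v.any id = true) : v.getD (piv v) false = true := by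
  induction v with
  | nil => simp at h
  | cons b v ih =>
    cases b with
    | true => simp [piv]
    | false =>
      have : v.any id = true := by simpa using h
      have ih := ih this
      simpa [piv] using ih

private lemma any_false (v : List Bool) (h : v.any id = false) : vec v = 0 := by
  funext i
  rw [Pi.zero_apply, vec_eq_zero_iff]
  by_cases hi : i < v.length
  · rw [List.getD_eq_getElem _ _ hi]
    rw [List.any_eq_false] at h
    have := h v[i] (List.getElem_mem hi)
    simpa using this
  · rw [List.getD_eq_default _ _ (by omega)]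

private lemma any_true (v : List Bool) (h : v.any id = true) : vec v ≠ 0 := by
  intro h0
  have := piv_spec v h
  have h1 := congrFun h0 (piv v)
  rw [Pi.zero_apply, vec_eq_zero_iff, this] at h1
  simp at h1

/-- good pairs -/
private def Gd (m : ℕ) (vs : List (List Bool)) (s : List Bool × List Bool) : Prop :=
  s.1.length = m ∧ s.2.length = vs.length ∧ vec s.1 = lin vs (vec s.2)

/-- the span of a list of pairs -/
private def Sp (bs : List (List Bool × List Bool)) : Submodule (ZMod 2) (ℕ → ZMod 2) :=
  Submodule.span (ZMod 2) {x | ∃ b ∈ bs, x = vec b.1}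

/-- the invariant -/
private def Inv (m : ℕ) (vs : List (List Bool)) (bs : List (List Bool × List Bool)) : Prop :=
  (∀ b ∈ bs, Gd m vs b ∧ b.1.getD (piv b.1) false = true) ∧
  bs.Pairwise fun b b' => b'.1.getD (piv b.1) false = false

private lemma Inv_cons {m : ℕ} {vs : List (List Bool)} {b : List Bool × List Bool}
    {bs : List (List Bool × List Bool)} (h : Inv m vs (b :: bs)) :
    (Gd m vs b ∧ b.1.getD (piv b.1) false = true) ∧
      (∀ b' ∈ bs, b'.1.getD (piv b.1) false = false) ∧ Inv m vs bs := by
  refine ⟨h.1 b (by simp), ?_, ?_, ?_⟩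
  · exact (List.pairwise_cons.1 h.2).1
  · exact fun b' hb' => h.1 b' (List.mem_cons_of_mem _ hb')
  · exact (List.pairwise_cons.1 h.2).2

private lemma char2 (x : ℕ → ZMod 2) : x + x = 0 := by
  funext i
  rw [Pi.add_apply, Pi.zero_apply]
  exact CharTwo.add_self_eq_zero _

private lemma red1_spec (m : ℕ) (vs : List (List Bool)) (s w : List Bool × List Bool)
    (hs1 : s.1.length = m) (hs2 : s.2.length = vs.length) (hw : Gd m vs w) :
    (red1 s w).1.length = m ∧ (red1 s w).2.length = vs.length ∧
    vec (red1 s w).1 + lin vs (vec (red1 s w).2) = vec s.1 + lin vs (vec s.2) ∧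
    (vec (red1 s w).1 = vec s.1 ∨ vec (red1 s w).1 = vec s.1 + vec w.1) := by
  unfold red1
  cases h : s.1.getD (piv w.1) false with
  | false => simp [hs1, hs2]
  | true =>
    have h1 : s.1.length = w.1.length := by rw [hs1, hw.1]
    have h2 : s.2.length = w.2.length := by rw [hs2, hw.2.1]
    simp only [cond_true]
    refine ⟨?_, ?_, ?_, ?_⟩
    · rw [xorL_length _ _ h1, hs1]
    · rw [xorL_length _ _ h2, hs2]
    · rw [vec_xorL _ _ h1, vec_xorL _ _ h2, lin_add, ← hw.2.2]
      have := char2 (vec w.1)
      calc vec s.1 + vec w.1 + (lin vs (vec s.2) + vec w.1)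
          = vec s.1 + lin vs (vec s.2) + (vec w.1 + vec w.1) := by abel
        _ = _ := by rw [this, add_zero]
    · right
      rw [vec_xorL _ _ h1]

private lemma Sp_cons (b : List Bool × List Bool) (bs : List (List Bool × List Bool)) :
    Sp (b :: bs) = Submodule.span (ZMod 2) (insert (vec b.1) {x | ∃ b ∈ bs, x = vec b.1}) := by
  unfold Sp
  congr 1
  ext x
  simp

private lemma Sp_mono {bs bs' : List (List Bool × List Bool)} (h : ∀ b ∈ bs, b ∈ bs') :
    Sp bs ≤ Sp bs' := by
  apply Submodule.span_mono
  rintro x ⟨b, hb, rfl⟩
  exact ⟨b, h b hb, rfl⟩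

private lemma redL_spec (m : ℕ) (vs : List (List Bool)) :
    ∀ (bs : List (List Bool × List Bool)) (s : List Bool × List Bool), Inv m vs bs →
    s.1.length = m → s.2.length = vs.length →
    (redL bs s).1.length = m ∧ (redL bs s).2.length = vs.length ∧
    vec (redL bs s).1 + lin vs (vec (redL bs s).2) = vec s.1 + lin vs (vec s.2) ∧
    vec (redL bs s).1 + vec s.1 ∈ Sp bs
  | [], s, _, h1, h2 => by
    refine ⟨h1, h2, rfl, ?_⟩
    show vec s.1 + vec s.1 ∈ _
    rw [char2]
    exact Submodule.zero_mem _
  | b :: bs, s, hI, h1, h2 => by
    have hc := Inv_cons hI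
    have hr := red1_spec m vs s b h1 h2 hc.1.1
    have ih := redL_spec m vs bs (red1 s b) hc.2.2 hr.1 hr.2.1
    have heq : redL (b :: bs) s = redL bs (red1 s b) := rfl
    rw [heq]
    refine ⟨ih.1, ih.2.1, ih.2.2.1.trans hr.2.2.1, ?_⟩
    have h3 : vec (redL bs (red1 s b)).1 + vec (red1 s b).1 ∈ Sp (b :: bs) :=
      Sp_mono (fun x hx => List.mem_cons_of_mem _ hx) ih.2.2.2
    have h4 : vec b.1 ∈ Sp (b :: bs) := Submodule.subset_span ⟨b, by simp, rfl⟩
    rcases hr.2.2.2 with h | h
    · rw [h] at h3
      exact h3
    · rw [h] at h3
      have : vec (redL bs (red1 s b)).1 + vec s.1 =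
          (vec (redL bs (red1 s b)).1 + (vec s.1 + vec b.1)) + vec b.1 := by
        have := char2 (vec b.1)
        calc vec (redL bs (red1 s b)).1 + vec s.1
            = vec (redL bs (red1 s b)).1 + vec s.1 + 0 := by rw [add_zero]
          _ = vec (redL bs (red1 s b)).1 + vec s.1 + (vec b.1 + vec b.1) := by rw [this]
          _ = _ := by abel
      rw [this]
      exact Submodule.add_mem _ h3 h4

private lemma red1_keep (m : ℕ) (s w : List Bool × List Bool) (h1 : s.1.length = m)
    (hw : w.1.length = m) (p : ℕ) (hs : s.1.getD p false = false)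
    (hwp : w.1.getD p false = false) : (red1 s w).1.getD p false = false := by
  unfold red1
  cases h : s.1.getD (piv w.1) false with
  | false => simpa using hs
  | true =>
    simp only [cond_true]
    rw [← vec_eq_zero_iff] at hs hwp ⊢
    rw [vec_xorL _ _ (by rw [h1, hw]), Pi.add_apply, hs, hwp, add_zero]

private lemma red1_piv (m : ℕ) (s w : List Bool × List Bool) (h1 : s.1.length = m)
    (hw : w.1.length = m) (hwp : w.1.getD (piv w.1) false = true) :
    (red1 s w).1.getD (piv w.1) false = false := by
  unfold red1
  cases h : s.1.getD (piv w.1) false with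
  | false => simpa using h
  | true =>
    simp only [cond_true]
    rw [← vec_eq_zero_iff]
    rw [vec_xorL _ _ (by rw [h1, hw]), Pi.add_apply, vec_apply, vec_apply, h, hwp]
    decide

private lemma redL_keep (m : ℕ) (vs : List (List Bool)) (p : ℕ) :
    ∀ (bs : List (List Bool × List Bool)) (s : List Bool × List Bool), Inv m vs bs →
    s.1.length = m → s.2.length = vs.length → s.1.getD p false = false →
    (∀ b ∈ bs, b.1.getD p false = false) → (redL bs s).1.getD p false = false
  | [], s, _, _, _, h, _ => h
  | b :: bs, s, hI, h1, h2, h, hb => by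
    have hc := Inv_cons hI
    have hr := red1_spec m vs s b h1 h2 hc.1.1
    show (redL bs (red1 s b)).1.getD p false = false
    exact redL_keep m vs p bs (red1 s b) hc.2.2 hr.1 hr.2.1
      (red1_keep m s b h1 hc.1.1.1 p h (hb b (by simp)))
      (fun b' hb' => hb b' (List.mem_cons_of_mem _ hb'))

private lemma redL_piv (m : ℕ) (vs : List (List Bool)) :
    ∀ (bs : List (List Bool × List Bool)) (s : List Bool × List Bool), Inv m vs bs →
    s.1.length = m → s.2.length = vs.length →
    ∀ b ∈ bs, (redL bs s).1.getD (piv b.1) false = false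
  | [], s, _, _, _, b, hb => by simp at hb
  | b :: bs, s, hI, h1, h2, b', hb' => by
    have hc := Inv_cons hI
    have hr := red1_spec m vs s b h1 h2 hc.1.1
    show (redL bs (red1 s b)).1.getD (piv b'.1) false = false
    rcases List.mem_cons.1 hb' with h | h
    · subst h
      exact redL_keep m vs _ bs (red1 s b') hc.2.2 hr.1 hr.2.1
        (red1_piv m s b' h1 hc.1.1.1 hc.1.2) hc.2.1
    · exact redL_piv m vs bs (red1 s b) hc.2.2 hr.1 hr.2.1 b' h

private lemma insL_spec (m : ℕ) (vs : List (List Bool)) (bs : List (List Bool × List Bool))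
    (s : List Bool × List Bool) (hI : Inv m vs bs) (hs : Gd m vs s) :
    Inv m vs (insL bs s) ∧ Sp bs ≤ Sp (insL bs s) ∧ vec s.1 ∈ Sp (insL bs s) := by
  have hr := redL_spec m vs bs s hI hs.1 hs.2.1
  have hp := redL_piv m vs bs s hI hs.1 hs.2.1
  unfold insL
  cases h : (redL bs s).1.any id with
  | false =>
    simp only [cond_false]
    refine ⟨hI, le_refl _, ?_⟩
    have := hr.2.2.2
    rw [any_false _ h, zero_add] at this
    exact this
  | true =>
    simp only [cond_true]
    have hle : Sp bs ≤ Sp (bs ++ [redL bs s]) := Sp_mono (fun b hb => by simp [hb])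
    refine ⟨⟨?_, ?_⟩, hle, ?_⟩
    · intro b hb
      rcases List.mem_append.1 hb with hb | hb
      · exact hI.1 b hb
      · rw [List.mem_singleton] at hb
        subst hb
        refine ⟨⟨hr.1, hr.2.1, ?_⟩, piv_spec _ h⟩
        have h3 := hr.2.2.1
        rw [hs.2.2, char2] at h3
        have h4 := char2 (lin vs (vec (redL bs s).2))
        have : vec (redL bs s).1 + lin vs (vec (redL bs s).2) =
            lin vs (vec (redL bs s).2) + lin vs (vec (redL bs s).2) := by rw [h3, h4]
        exact add_right_cancel this
    · rw [List.pairwise_append]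
      refine ⟨hI.2, by simp, ?_⟩
      intro b hb b' hb'
      rw [List.mem_singleton] at hb'
      subst hb'
      exact hp b hb
    · have h4 : vec (redL bs s).1 ∈ Sp (bs ++ [redL bs s]) :=
        Submodule.subset_span ⟨redL bs s, by simp, rfl⟩
      have h5 := Submodule.add_mem _ (hle hr.2.2.2) h4
      have : vec (redL bs s).1 + vec s.1 + vec (redL bs s).1 = vec s.1 := by
        have := char2 (vec (redL bs s).1)
        calc vec (redL bs s).1 + vec s.1 + vec (redL bs s).1
            = vec s.1 + (vec (redL bs s).1 + vec (redL bs s).1) := by abel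
          _ = _ := by rw [this, add_zero]
      rwa [this] at h5

private lemma unitL_spec (k i : ℕ) (j : ℕ) :
    vec (unitL k i) j = if j < k ∧ j = i then 1 else 0 := by
  rw [vec_apply]
  unfold unitL
  by_cases hj : j < k
  · rw [List.getD_eq_getElem _ _ (by simpa using hj)]
    simp [hj]
  · rw [List.getD_eq_default _ _ (by simpa using hj)]
    simp [hj]

private lemma Gd_unit (m : ℕ) (vs : List (List Bool)) (hv : ∀ v ∈ vs, v.length = m) (i : ℕ)
    (hi : i < vs.length) : Gd m vs (vs.getD i [], unitL vs.length i) := by
  refine ⟨?_, by simp [unitL], ?_⟩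
  · show (vs.getD i []).length = m
    rw [List.getD_eq_getElem _ _ hi]
    exact hv _ (List.getElem_mem hi)
  · show vec (vs.getD i []) = lin vs (vec (unitL vs.length i))
    rw [lin]
    rw [Finset.sum_eq_single i]
    · rw [unitL_spec]
      simp [hi]
    · intro j _ hj
      rw [unitL_spec]
      simp [hj]
    · intro h
      exact absurd (Finset.mem_range.2 hi) h

private lemma base_aux (m : ℕ) (vs : List (List Bool)) (hv : ∀ v ∈ vs, v.length = m) :
    ∀ n, n ≤ vs.length →
    Inv m vs ((List.range n).foldl
      (fun bs i => insL bs (vs.getD i [], unitL vs.length i)) []) ∧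
    ∀ i < n, vec (vs.getD i []) ∈ Sp ((List.range n).foldl
      (fun bs i => insL bs (vs.getD i [], unitL vs.length i)) [])
  | 0, _ => by
    refine ⟨⟨?_, ?_⟩, ?_⟩
    · intro b hb
      simp at hb
    · simp
    · intro i hi
      omega
  | n + 1, hn => by
    have ih := base_aux m vs hv n (by omega)
    rw [List.range_succ, List.foldl_append]
    simp only [List.foldl_cons, List.foldl_nil]
    have h := insL_spec m vs _ (vs.getD n [], unitL vs.length n) ih.1
      (Gd_unit m vs hv n (by omega))
    refine ⟨h.1, ?_⟩
    intro i hi
    rcases Nat.lt_succ_iff_lt_or_eq.1 hi with h' | h'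
    · exact h.2.1 (ih.2 i h')
    · subst h'
      exact h.2.2

private lemma Sp_zero_at (p : ℕ) (bs : List (List Bool × List Bool))
    (h : ∀ b ∈ bs, b.1.getD p false = false) (x : ℕ → ZMod 2) (hx : x ∈ Sp bs) : x p = 0 := by
  have : Sp bs ≤ LinearMap.ker (LinearMap.proj p : (ℕ → ZMod 2) →ₗ[ZMod 2] ZMod 2) := by
    apply Submodule.span_le.2
    rintro y ⟨b, hb, rfl⟩
    show vec b.1 p = 0
    rw [vec_eq_zero_iff]
    exact h b hb
  exact this hx

private lemma Sp_tri (m : ℕ) (vs : List (List Bool)) :
    ∀ (bs : List (List Bool × List Bool)) (x : ℕ → ZMod 2), Inv m vs bs → x ∈ Sp bs →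
    (∀ b ∈ bs, x (piv b.1) = 0) → x = 0
  | [], x, _, hx, _ => by
    have : {x : ℕ → ZMod 2 | ∃ b ∈ ([] : List (List Bool × List Bool)), x = vec b.1} = ∅ := by
      ext y
      simp
    unfold Sp at hx
    rw [this, Submodule.span_empty] at hx
    exact (Submodule.mem_bot _).1 hx
  | b :: bs, x, hI, hx, h0 => by
    have hc := Inv_cons hI
    rw [Sp_cons, Submodule.mem_span_insert] at hx
    obtain ⟨a, z, hz, rfl⟩ := hx
    have hz' : z ∈ Sp bs := hz
    have hzp := Sp_zero_at (piv b.1) bs hc.2.1 z hz'
    have h1 := h0 b (by simp)
    rw [Pi.add_apply, hzp, add_zero, Pi.smul_apply, vec_apply, hc.1.2] at h1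
    have ha : a = 0 := by simpa using h1
    subst ha
    rw [zero_smul, zero_add] at h0 ⊢
    exact Sp_tri m vs bs z hc.2.2 hz' (fun b' hb' => h0 b' (List.mem_cons_of_mem _ hb'))

/-- correctness of the solution of linear systems -/
theorem t_LN1 : S_LN1 := by
  intro m vs z hv hz
  have hb := base_aux m vs hv vs.length (le_refl _)
  have hI : Inv m vs (baseL vs) := hb.1
  have hS : ∀ i < vs.length, vec (vs.getD i []) ∈ Sp (baseL vs) := hb.2
  have hr := redL_spec m vs (baseL vs) (z, List.replicate vs.length false) hI hz (by simp)
  have hp := redL_piv m vs (baseL vs) (z, List.replicate vs.length false) hI hz (by simp)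
  constructor
  · intro c hc
    unfold solveL at hc
    cases h : (redL (baseL vs) (z, List.replicate vs.length false)).1.any id with
    | true =>
      rw [h] at hc
      simp at hc
    | false =>
      rw [h] at hc
      simp only [cond_false, Option.some.injEq] at hc
      subst hc
      refine ⟨hr.2.1, ?_⟩
      have hcs := comb_spec m (redL (baseL vs) (z, List.replicate vs.length false)).2 vs hv hr.2.1
      apply vec_inj
      · rw [hcs.1, hz]
      · rw [hcs.2]
        have h3 := hr.2.2.1
        rw [any_false _ h, zero_add] at h3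
        rw [h3]
        show vec z + lin vs (vec (List.replicate vs.length false)) = vec z
        rw [vec_replicate, lin_zero, add_zero]
  · intro hn c hc heq
    unfold solveL at hn
    cases h : (redL (baseL vs) (z, List.replicate vs.length false)).1.any id with
    | false =>
      rw [h] at hn
      simp at hn
    | true =>
      apply any_true _ h
      apply Sp_tri m vs (baseL vs) _ hI
      · have h4 : vec z ∈ Sp (baseL vs) := by
          rw [← heq, (comb_spec m c vs hv hc).2, lin]
          apply Submodule.sum_mem
          intro i hi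
          exact Submodule.smul_mem _ _ (hS i (Finset.mem_range.1 hi))
        have h5 := Submodule.add_mem _ hr.2.2.2 h4
        have : vec (redL (baseL vs) (z, List.replicate vs.length false)).1 +
            vec (z, List.replicate vs.length false).1 + vec z =
            vec (redL (baseL vs) (z, List.replicate vs.length false)).1 := by
          show vec (redL (baseL vs) (z, List.replicate vs.length false)).1 + vec z + vec z = _
          rw [add_assoc, char2, add_zero]
        rwa [this] at h5
      · intro b hb
        rw [vec_eq_zero_iff]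
        exact hp b hb

end Pool.Agent.H547S1
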