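import Pool.Agent.H547S1.Stm

/-!
# Closure properties of negligible functions
-/

set_option autoImplicit false

namespace Pool.Agent.H547S1

open Pool.Agent.H547R6 Pool.Agent.H547R7 Pool.Agent.H547R8 Pool.Agent.NPC Pool.Agent.H583R2

open Filter Topology

private lemma NEG_div (n : ℕ) (c d : ℕ) (hn : 1 ≤ n) :
    (n : ℝ) ^ d * (1 / (n : ℝ) ^ (c + d)) = 1 / (n : ℝ) ^ c := by
  have h : (0 : ℝ) < n := by exact_mod_cast hn
  rw [pow_add]
  field_simp

private lemma NEG_bound (ε : ℕ → ℝ) (hε : Neg ε) (g : ℕ → ℝ) (d : ℕ) (M : ℕ)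
    (hg : ∀ n, M ≤ n → |g n| ≤ (n : ℝ) ^ d) : Neg fun n => g n * ε n := by
  intro c
  obtain ⟨N, hN⟩ := hε (c + d)
  refine ⟨max N (max M 1), fun n hn => ?_⟩
  have h1 : N ≤ n := le_trans (le_max_left _ _) hn
  have h2 : M ≤ n := le_trans (le_trans (le_max_left _ _) (le_max_right _ _)) hn
  have h3 : 1 ≤ n := le_trans (le_trans (le_max_right _ _) (le_max_right _ _)) hn
  rw [abs_mul, ← NEG_div n c d h3]
  exact mul_le_mul (hg n h2) (hN n h1) (abs_nonneg _) (by positivity)

private lemma NEG_const (ε : ℕ → ℝ) (K : ℝ) (hε : Neg ε) : Neg fun n => K * ε n := by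
  obtain ⟨M, hM⟩ := exists_nat_ge |K|
  refine NEG_bound ε hε (fun _ => K) 1 M fun n hn => ?_
  rw [pow_one]
  exact hM.trans (by exact_mod_cast hn)

private lemma NEG_poly (p : Polynomial ℕ) : ∃ C : ℕ, ∀ n : ℕ, 1 ≤ n →
    p.eval n ≤ C * n ^ p.natDegree := by
  refine ⟨∑ i ∈ Finset.range (p.natDegree + 1), p.coeff i, fun n hn => ?_⟩
  rw [Polynomial.eval_eq_sum_range, Finset.sum_mul]
  refine Finset.sum_le_sum fun i hi => ?_
  have : i ≤ p.natDegree := by have := Finset.mem_range.1 hi; omega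
  exact Nat.mul_le_mul_left _ (Nat.pow_le_pow_right hn this)

theorem t_NEG : S_NEG := by
  refine ⟨?_, ?_, NEG_const |> fun h ε K => h ε K, ?_, ?_, ?_⟩
  · intro ε δ hε hδ c
    obtain ⟨N, hN⟩ := hε (c + 1)
    obtain ⟨N', hN'⟩ := hδ (c + 1)
    refine ⟨max N (max N' 2), fun n hn => ?_⟩
    have h1 : N ≤ n := le_trans (le_max_left _ _) hn
    have h2 : N' ≤ n := le_trans (le_trans (le_max_left _ _) (le_max_right _ _)) hn
    have h3 : 2 ≤ n := le_trans (le_trans (le_max_right _ _) (le_max_right _ _)) hn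
    have h4 : (2 : ℝ) ≤ n := by exact_mod_cast h3
    rw [← NEG_div n c 1 (by omega), pow_one]
    have h5 : 0 ≤ 1 / (n : ℝ) ^ (c + 1) := by positivity
    have h6 := abs_add_le (ε n) (δ n)
    have h7 := hN n h1
    have h8 := hN' n h2
    nlinarith
  · intro ε δ N hδ h c
    obtain ⟨N', hN'⟩ := hδ c
    refine ⟨max N N', fun n hn => ?_⟩
    exact (h n (le_trans (le_max_left _ _) hn)).trans
      ((le_abs_self _).trans (hN' n (le_trans (le_max_right _ _) hn)))
  · intro ε p hε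
    obtain ⟨C, hC⟩ := NEG_poly p
    refine NEG_bound ε hε (fun n => ((p.eval n : ℕ) : ℝ)) (p.natDegree + 1) (max 1 C)
      fun n hn => ?_
    have h1 : 1 ≤ n := le_trans (le_max_left _ _) hn
    have h2 : C ≤ n := le_trans (le_max_right _ _) hn
    show |((p.eval n : ℕ) : ℝ)| ≤ _
    rw [abs_of_nonneg (Nat.cast_nonneg _)]
    have h3 : p.eval n ≤ n ^ (p.natDegree + 1) := by
      rw [pow_succ, mul_comm (n ^ p.natDegree)]
      exact (hC n h1).trans (Nat.mul_le_mul_right _ h2)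
    exact_mod_cast h3
  · intro c
    have ht := tendsto_pow_const_mul_const_pow_of_abs_lt_one c
      (show |(3 / 4 : ℝ)| < 1 by rw [abs_of_pos] <;> norm_num)
    have he := (ht.eventually (gt_mem_nhds (show (0 : ℝ) < 1 by norm_num))).and
      (eventually_ge_atTop 1)
    obtain ⟨N, hN⟩ := eventually_atTop.1 he
    refine ⟨N, fun n hn => ?_⟩
    obtain ⟨h1, h2⟩ := hN n hn
    have h3 : (0 : ℝ) < n := by exact_mod_cast h2
    rw [abs_of_nonneg (by positivity), le_div_iff₀ (by positivity), mul_comm]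
    exact h1.le
  · intro a ha h
    obtain ⟨N, hN⟩ := h 1
    obtain ⟨M, hM⟩ := exists_nat_gt (1 / a)
    have h1 := hN (max N (max M 1)) (le_max_left _ _)
    have h2 : (1 : ℝ) ≤ ((max N (max M 1) : ℕ) : ℝ) := by
      exact_mod_cast le_trans (le_max_right M 1) (le_max_right N _)
    have h3 : (M : ℝ) ≤ ((max N (max M 1) : ℕ) : ℝ) := by
      exact_mod_cast le_trans (le_max_left M 1) (le_max_right N _)
    rw [abs_of_pos ha, pow_one, le_div_iff₀ (by linarith)] at h1
    have h4 : 1 / a < ((max N (max M 1) : ℕ) : ℝ) := lt_of_lt_of_le hM h3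
    rw [div_lt_iff₀ ha] at h4
    linarith

end Pool.Agent.H547S1
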