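import Pool.Agent.H547S1.Stm
import Pool.Agent.H547R9.T_PA2

/-!
# No one-way functions over conjunctions
-/

set_option autoImplicit false

namespace Pool.Agent.H547S1

open Pool.Agent.H547R6 Pool.Agent.H547R7 Pool.Agent.H547R8 Pool.Agent.H547R9 Pool.Agent.NPC
open Pool.Agent.H583R2 Pool.Agent.H545R2.KS

/-- the inverter finds a preimage -/
theorem OCO_core {k m : ℕ} (G : ℕ → BF k)
    (hG : ∀ j, j < m → ∀ x y, G j (fun i => x i && y i) = (G j x && G j y))
    (ys y : Fin k → Bool)
    (hy : ∀ i, y i = true ↔ ∃ j, j < m ∧ G j ys = true ∧ G j (PA2_z i) = false) :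
    ∀ j, j < m → G j y = G j ys := by
  have hone : ∀ j, j < m → G j ys = true → G j (fun _ => true) = true := fun j hj h =>
    PA2_mono (hG j hj) (v := fun _ => true) (fun _ _ => rfl) h
  have hle : ∀ i, y i = true → ys i = true := by
    intro i hi
    obtain ⟨j, hj, h1, h2⟩ := (hy i).1 hi
    exact (PA2_iff (hG j hj) (hone j hj h1) ys).1 h1 i h2
  intro j hj
  cases h : G j ys with
  | true =>
    rw [PA2_iff (hG j hj) (hone j hj h)]
    intro i hi
    exact (hy i).2 ⟨j, hj, h, hi⟩
  | false =>
    by_contra h2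
    rw [Bool.not_eq_false] at h2
    rw [PA2_mono (hG j hj) hle h2] at h
    exact Bool.noConfusion h

/-- the list of a unit vector, or of its complement -/
def OCO_u (b : Bool) (k i : ℕ) : List Bool :=
  (List.range k).map fun j => b == decide (j = i)

theorem OCO_pf_u {α : Type} [H583R2.TEnc α] (b : Bool) {k i : α → ℕ} (hk : PF k) (hi : PF i) :
    PF (fun a => OCO_u b (k a) (i a)) := by
  unfold OCO_u
  exact PF.map (f := fun a j => b == decide (j = i a)) (PF.range hk)
    (PF.beqBool (PF.const b) (PF.natEq PF.snd (hi.comp PF.fst)))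

theorem OCO_u_eq (b : Bool) (k : ℕ) (i : Fin k) :
    OCO_u b k i.val = List.ofFn (fun j : Fin k => b == decide (j = i)) := by
  unfold OCO_u
  apply List.ext_getElem
  · simp
  · intro l h1 h2
    simp [Fin.ext_iff]

/-- the value of `f` -/
def OCO_f (f : List Bool → List Bool) (n : ℕ) (x : List Bool) : List Bool :=
  f (pairBits (List.replicate n true) x)

/-- the bit number `i` of the inverter: some bit number `j` of `z` is equal to `b`, and the bit
number `j` of `f` at the unit vector (or its complement) number `i` is different from `b` -/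
def OCO_b (f : List Bool → List Bool) (b c : Bool) (k n : ℕ) (z : List Bool) (i : ℕ) : Bool :=
  (List.range z.length).any fun j =>
    (z.getD j false == b) && ((OCO_f f n (OCO_u c k i)).getD j false == !b)

theorem OCO_pf_f {α : Type} [H583R2.TEnc α] {f : List Bool → List Bool} (hf : PolyTime f)
    {n : α → ℕ} {x : α → List Bool} (hn : PF n) (hx : PF x) :
    PF (fun a => OCO_f f (n a) (x a)) := by
  unfold OCO_f
  exact (pf_of_polyTime hf).comp (pf_pairBits (PF.replicate hn (PF.const true)) hx)

theorem OCO_pf_b {α : Type} [H583R2.TEnc α] {f : List Bool → List Bool} (hf : PolyTime f)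
    (b c : Bool) {k n i : α → ℕ} {z : α → List Bool} (hk : PF k) (hn : PF n) (hz : PF z)
    (hi : PF i) : PF (fun a => OCO_b f b c (k a) (n a) (z a) (i a)) := by
  unfold OCO_b
  exact PF.any (f := fun a j => ((z a).getD j false == b) &&
    ((OCO_f f (n a) (OCO_u c (k a) (i a))).getD j false == !b)) (PF.range (PF.length hz))
    (PF.and (PF.beqBool (PF.listGetD PF.snd (hz.comp PF.fst) (PF.const false)) (PF.const b))
      (PF.beqBool (PF.listGetD PF.snd (OCO_pf_f hf (hn.comp PF.fst)
        (OCO_pf_u c (hk.comp PF.fst) (hi.comp PF.fst))) (PF.const false)) (PF.const (!b))))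

/-- the inverter -/
def OCO_A (f : List Bool → List Bool) (e : Polynomial ℕ) (b c d : Bool) (u : List Bool) :
    List Bool :=
  (List.range (e.eval (spl u).1.length)).map fun i =>
    OCO_b f b c (e.eval (spl u).1.length) (spl u).1.length (spl (spl u).2).1 i == d

theorem OCO_pf_A {f : List Bool → List Bool} (hf : PolyTime f) (e : Polynomial ℕ)
    (b c d : Bool) : PF (OCO_A f e b c d) := by
  have hn : PF (fun u : List Bool => (spl u).1.length) := PF.length (PF.fst' (PF.spl PF.id))
  have hk : PF (fun u : List Bool => e.eval (spl u).1.length) := pf_eval hn e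
  have hz : PF (fun u : List Bool => (spl (spl u).2).1) :=
    PF.fst' (PF.spl (PF.snd' (PF.spl PF.id)))
  exact PF.map (f := fun u i => OCO_b f b c (e.eval (spl u).1.length) (spl u).1.length
    (spl (spl u).2).1 i == d) (PF.range hk)
    (PF.beqBool (OCO_pf_b hf b c (hk.comp PF.fst) (hn.comp PF.fst) (hz.comp PF.fst) PF.snd)
      (PF.const d))

theorem OCO_A_eq (f : List Bool → List Bool) (e : Polynomial ℕ) (b c d : Bool) (n : ℕ)
    (z r : List Bool) : OCO_A f e b c d (c3 (ones n) z r) =
      List.ofFn (fun i : Fin (e.eval n) => OCO_b f b c (e.eval n) n z i.val == d) := by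
  unfold OCO_A c3
  rw [spl_pairBits, spl_pairBits]
  have h1 : (ones n).length = n := by simp [ones]
  simp only [h1]
  apply List.ext_getElem
  · simp
  · intro l h1 h2
    simp

theorem OCO_b_iff (f : List Bool → List Bool) (b c : Bool) (k n : ℕ) (z : List Bool)
    (i : Fin k) : OCO_b f b c k n z i.val = true ↔
      ∃ j, j < z.length ∧ z.getD j false = b ∧
        (f (pairBits (ones n) (List.ofFn fun j : Fin k => c == decide (j = i)))).getD j false
          = !b := by
  unfold OCO_b OCO_f ones
  rw [List.any_eq_true]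
  simp only [List.mem_range, Bool.and_eq_true, beq_iff_eq, OCO_u_eq]

/-- a family that can always be inverted is not a one-way function -/
theorem OCO_neg {f : List Bool → List Bool} {e : Polynomial ℕ} (A : List Bool → List Bool)
    (h : ∀ n, 1 ≤ n → ∀ (xs : Fin (e.eval n) → Bool) (r : List Bool),
      ∃ x : Fin (e.eval n) → Bool,
        A (c3 (ones n) (f (pairBits (ones n) (List.ofFn xs))) r) = List.ofFn x ∧
        f (pairBits (ones n) (List.ofFn x)) = f (pairBits (ones n) (List.ofFn xs)))
    (hn : Neg fun n => pr fun w : (Fin (e.eval n) → Bool) × (Fin ((0 : Polynomial ℕ).eval n) → Bool) =>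
        decide (∃ x : Fin (e.eval n) → Bool,
          A (c3 (ones n) (f (pairBits (ones n) (List.ofFn w.1))) (List.ofFn w.2)) =
            List.ofFn x ∧
          f (pairBits (ones n) (List.ofFn x)) = f (pairBits (ones n) (List.ofFn w.1)))) :
    False := by
  obtain ⟨N, hN⟩ := hn 1
  have h1 := hN (N + 2) (by omega)
  have h2 : ∀ w : (Fin (e.eval (N + 2)) → Bool) ×
      (Fin ((0 : Polynomial ℕ).eval (N + 2)) → Bool),
      decide (∃ x : Fin (e.eval (N + 2)) → Bool,
          A (c3 (ones (N + 2)) (f (pairBits (ones (N + 2)) (List.ofFn w.1))) (List.ofFn w.2)) =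
            List.ofFn x ∧
          f (pairBits (ones (N + 2)) (List.ofFn x)) =
            f (pairBits (ones (N + 2)) (List.ofFn w.1))) = true := by
    intro w
    rw [decide_eq_true_eq]
    exact h (N + 2) (by omega) w.1 (List.ofFn w.2)
  simp only [h2] at h1
  have h3 : pr (fun _ : (Fin (e.eval (N + 2)) → Bool) ×
      (Fin ((0 : Polynomial ℕ).eval (N + 2)) → Bool) => true) = 1 := by
    unfold pr
    rw [Finset.filter_true_of_mem (fun _ _ => rfl), Finset.card_univ]
    exact div_self (by exact_mod_cast Fintype.card_ne_zero)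
  rw [h3, abs_one, pow_one] at h1
  have h4 : (1 : ℝ) < ((N + 2 : ℕ) : ℝ) := by
    push_cast
    have : (0 : ℝ) ≤ (N : ℝ) := Nat.cast_nonneg N
    linarith
  have h5 : 1 / ((N + 2 : ℕ) : ℝ) < 1 := by
    rw [div_lt_one (by linarith)]
    exact h4
  linarith

theorem OCO_ext {u v : List Bool} {m : ℕ} (hu : u.length = m) (hv : v.length = m)
    (h : ∀ j, j < m → u.getD j false = v.getD j false) : u = v := by
  apply List.ext_getElem (hu.trans hv.symm)
  intro j h1 h2
  have := h j (by omega)
  rwa [List.getD_eq_getElem _ _ h1, List.getD_eq_getElem _ _ h2] at this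

theorem t_OCO (_h1 : S_NEG) (h2 : S_GL3) : S_OCO := by
  intro B hB hO
  obtain ⟨f, e, q, m, hf, hlen, hcomp, hinv⟩ := hO
  refine OCO_neg (OCO_A f e true false true) ?_
    (hinv _ 0 (polyTime_of_pf (OCO_pf_A hf e true false true)))
  intro n hn xs r
  refine ⟨_, OCO_A_eq f e true false true n _ r, ?_⟩
  have hG : ∀ j, j < m n → ∀ x y : Fin (e.eval n) → Bool,
      (f (pairBits (ones n) (List.ofFn fun i => x i && y i))).getD j false =
      ((f (pairBits (ones n) (List.ofFn x))).getD j false &&
        (f (pairBits (ones n) (List.ofFn y))).getD j false) := by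
    intro j hj
    exact h2 B Conj (Or.inr (Or.inl rfl)) hB _ _ _ (hcomp n hn j hj)
  refine OCO_ext (hlen n hn _) (hlen n hn xs) ?_
  refine OCO_core (fun j x => (f (pairBits (ones n) (List.ofFn x))).getD j false) hG xs _ ?_
  intro i
  rw [beq_true, OCO_b_iff, hlen n hn xs]
  have e1 : (fun j : Fin (e.eval n) => (false == decide (j = i))) = PA2_z i := by
    funext j
    simp [PA2_z]
  rw [e1]
  simp

end Pool.Agent.H547S1
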