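import Pool.Agent.H547S1.T_PAF
import Pool.Agent.H547S1.T_OCO

/-!
# No one-way functions over affine gates
-/

set_option autoImplicit false

namespace Pool.Agent.H547S1

open Pool.Agent.H547R6 Pool.Agent.H547R7 Pool.Agent.H547R8 Pool.Agent.NPC
open Pool.Agent.H583R2 Pool.Agent.H545R2.KS

/-- the value at zero -/
def OAB_a0 (f : List Bool → List Bool) (e : Polynomial ℕ) (n : ℕ) : List Bool :=
  f (pairBits (ones n) (List.replicate (e.eval n) false))

/-- the vectors -/
def OAB_vs (f : List Bool → List Bool) (e : Polynomial ℕ) (n : ℕ) : List (List Bool) :=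
  (List.range (e.eval n)).map fun i =>
    xorL (f (pairBits (ones n) (unitL (e.eval n) i))) (OAB_a0 f e n)

/-- the inverter -/
def OAB_A (f : List Bool → List Bool) (e : Polynomial ℕ) (z : List Bool) : List Bool :=
  (solveL (OAB_vs f e (spl z).1.length)
    (xorL (spl (spl z).2).1 (OAB_a0 f e (spl z).1.length))).getD []

theorem OAB_A_eq (f : List Bool → List Bool) (e : Polynomial ℕ) (n : ℕ) (y w : List Bool) :
    OAB_A f e (c3 (ones n) y w) =
      (solveL (OAB_vs f e n) (xorL y (OAB_a0 f e n))).getD [] := by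
  unfold OAB_A c3
  rw [spl_pairBits, spl_pairBits]
  have : (ones n).length = n := List.length_replicate
  simp only [this]

section pf
variable {α : Type} [H583R2.TEnc α]

theorem OAB_pf_a0 {f : List Bool → List Bool} (hf : PolyTime f) (e : Polynomial ℕ) {n : α → ℕ}
    (hn : PF n) : PF (fun a => OAB_a0 f e (n a)) := by
  unfold OAB_a0 ones
  exact (pf_of_polyTime hf).comp (pf_pairBits (PF.replicate hn (PF.const true))
    (PF.replicate (pf_eval hn e) (PF.const false)))

theorem OAB_pf_vs {f : List Bool → List Bool} (hf : PolyTime f) (e : Polynomial ℕ) {n : α → ℕ}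
    (hn : PF n) : PF (fun a => OAB_vs f e (n a)) := by
  unfold OAB_vs ones
  refine PF.map (f := fun a i => xorL (f (pairBits (List.replicate (n a) true)
    (unitL (e.eval (n a)) i))) (OAB_a0 f e (n a))) (PF.range (pf_eval hn e)) ?_
  exact PAF_pf_xorL ((pf_of_polyTime hf).comp (pf_pairBits
    (PF.replicate (hn.comp PF.fst) (PF.const true))
    (PAF_pf_unitL (pf_eval (hn.comp PF.fst) e) PF.snd))) (OAB_pf_a0 hf e (hn.comp PF.fst))

end pf

theorem OAB_poly {f : List Bool → List Bool} (h4 : S_LN2) (hf : PolyTime f)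
    (e : Polynomial ℕ) : PolyTime (OAB_A f e) := by
  apply polyTime_of_pf
  unfold OAB_A
  have h1 : PF (fun z : List Bool => spl z) := PF.spl PF.id
  have h2 : PF (fun z : List Bool => spl (spl z).2) := PF.spl (PF.snd' h1)
  exact PF.getD (PF.comp₂ h4 (OAB_pf_vs hf e (PF.length (PF.fst' h1)))
    (PAF_pf_xorL (PF.fst' h2) (OAB_pf_a0 hf e (PF.length (PF.fst' h1))))) (PF.const [])

theorem OAB_vs_eq (f : List Bool → List Bool) (e : Polynomial ℕ) (n : ℕ) :
    OAB_vs f e n = List.ofFn fun i : Fin (e.eval n) =>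
      xorL (f (pairBits (ones n) (List.ofFn (PAF_ev i))))
        (f (pairBits (ones n) (List.ofFn fun _ : Fin (e.eval n) => false))) := by
  unfold OAB_vs OAB_a0
  rw [← List.ofFn_const]
  apply List.ext_getElem
  · simp
  · intro k h1 h2
    rw [List.length_ofFn] at h2
    simp only [List.getElem_map, List.getElem_range, List.getElem_ofFn]
    rw [← PAF_unitL]

theorem t_OAFb (_h1 : S_NEG) (h2 : S_GL3) (h3 : S_LN1) (h4 : S_LN2) : S_OAF := by
  intro B hB hO
  obtain ⟨f, e, q, m, hf, hlen, hcomp, hinv⟩ := hO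
  refine OCO_neg (OAB_A f e) ?_ (hinv _ 0 (OAB_poly h4 hf e))
  intro n hn xs r
  rw [OAB_A_eq]
  set a0 := f (pairBits (ones n) (List.ofFn fun _ : Fin (e.eval n) => false)) with ha0
  have ha0' : OAB_a0 f e n = a0 := by
    unfold OAB_a0
    rw [ha0, ← List.ofFn_const]
  rw [ha0', OAB_vs_eq, ← ha0]
  have hl : ∀ x : Fin (e.eval n) → Bool, (f (pairBits (ones n) (List.ofFn x))).length = m n :=
    hlen n hn
  have hla : a0.length = m n := hl _
  have hA : ∀ x y z : Fin (e.eval n) → Bool,
      f (pairBits (ones n) (List.ofFn fun i => xor (x i) (xor (y i) (z i)))) =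
      xorL (f (pairBits (ones n) (List.ofFn x))) (xorL (f (pairBits (ones n) (List.ofFn y)))
        (f (pairBits (ones n) (List.ofFn z)))) := by
    intro x y z
    apply PAF_ext (hl _) (PAF_len_xorL (hl _) (PAF_len_xorL (hl _) (hl _)))
    intro j hj
    rw [PAF_getD_xorL (hl _) (PAF_len_xorL (hl _) (hl _)), PAF_getD_xorL (hl _) (hl _)]
    exact h2 B Aff (Or.inl rfl) hB _ _ _ (hcomp n hn j hj) x y z
  set G : (Fin (e.eval n) → Bool) → List Bool := fun r =>
    xorL (f (pairBits (ones n) (List.ofFn r))) a0 with hG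
  have hGl : ∀ r, (G r).length = m n := fun r => PAF_len_xorL (hl _) hla
  have hG0 : G (fun _ => false) = List.replicate (m n) false := by
    apply PAF_ext (hGl _) (List.length_replicate ..)
    intro j hj
    simp only [hG]
    rw [PAF_getD_xorL (hl _) hla, ← ha0, Bool.xor_self, List.getD_replicate]
    exact hj
  have hGA : ∀ r r', G (fun i => xor (r i) (r' i)) = xorL (G r) (G r') := by
    intro r r'
    have h := hA r r' (fun _ => false)
    simp only [Bool.xor_false] at h
    apply PAF_ext (hGl _) (PAF_len_xorL (hGl _) (hGl _))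
    intro j hj
    rw [PAF_getD_xorL (hGl _) (hGl _)]
    simp only [hG]
    rw [PAF_getD_xorL (hl _) hla, PAF_getD_xorL (hl _) hla, PAF_getD_xorL (hl _) hla, h,
      PAF_getD_xorL (hl _) (PAF_len_xorL (hl _) (hl _)), PAF_getD_xorL (hl _) (hl _),
      ← ha0]
    generalize (f (pairBits (ones n) (List.ofFn r))).getD j false = x
    generalize (f (pairBits (ones n) (List.ofFn r'))).getD j false = y
    generalize a0.getD j false = z
    cases x <;> cases y <;> cases z <;> rfl
  have hcomb := PAF_comb (m n) (e.eval n) G hGl hG0 hGA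
  have hvs : ∀ v ∈ (List.ofFn fun i : Fin (e.eval n) => G (PAF_ev i)), v.length = m n := by
    intro v hv
    rw [List.mem_ofFn] at hv
    obtain ⟨i, rfl⟩ := hv
    exact hGl _
  have hvl : (List.ofFn fun i : Fin (e.eval n) => G (PAF_ev i)).length = e.eval n :=
    List.length_ofFn
  change ∃ x, (solveL (List.ofFn fun i : Fin (e.eval n) => G (PAF_ev i)) (G xs)).getD [] =
    List.ofFn x ∧ _
  cases hs : solveL (List.ofFn fun i : Fin (e.eval n) => G (PAF_ev i)) (G xs) with
  | none =>
    exfalso
    exact (h3 (m n) _ _ hvs (hGl xs)).2 hs (List.ofFn xs) (by rw [hvl, List.length_ofFn])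
      (hcomb xs)
  | some c =>
    obtain ⟨hcl, hcc⟩ := (h3 (m n) _ _ hvs (hGl xs)).1 c hs
    rw [hvl] at hcl
    have hcd : c = List.ofFn (fun i : Fin (e.eval n) => c.getD i.val false) := by
      apply List.ext_getElem (by rw [hcl, List.length_ofFn])
      intro j h1 h2
      rw [List.getElem_ofFn, List.getD_eq_getElem _ _ h1]
    refine ⟨fun i => c.getD i.val false, hcd, ?_⟩
    rw [hcd, hcomb] at hcc
    apply PAF_ext (hl _) (hl _)
    intro j hj
    have h := congrArg (fun l => l.getD j false) hcc
    simp only [hG] at h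
    rw [PAF_getD_xorL (hl _) hla, PAF_getD_xorL (hl _) hla] at h
    revert h
    generalize (f (pairBits (ones n) (List.ofFn fun i => c.getD i.val false))).getD j false = x
    generalize (f (pairBits (ones n) (List.ofFn xs))).getD j false = y
    generalize a0.getD j false = z
    cases x <;> cases y <;> cases z <;> simp

end Pool.Agent.H547S1
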