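import Pool.Agent.H547S1.Stm
import Pool.Agent.H547R8.T_TS2
import Pool.Agent.H547R9.T_REN

/-!
# Circuits for the one-way function
-/

set_option autoImplicit false

namespace Pool.Agent.H547S1

open Pool.Agent.H547R6 Pool.Agent.H547R7 Pool.Agent.H547R8 Pool.Agent.NPC Pool.Agent.H583R2
open Pool.Agent.H545R2.KS

theorem OBC_F {f : List Bool → List Bool} (hf : PolyTime f) :
    ∃ F : List Bool → List Bool, PolyTime F ∧
      ∀ K r, F (pairBits (ones K) r) = fbar K (f r) := by
  refine ⟨fun z => fbar (spl z).1.length (f (spl z).2), polyTime_of_pf ?_, fun K r => ?_⟩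
  · have hx := TS2_pfx
    have hw := TS2_pfw
    have hv : PF (fun z : List Bool => f (spl z).2) := (pf_of_polyTime hf).comp hw
    unfold fbar
    exact PF.cons (PF.const true) (pf_pairBits hv (PF.replicate
      (PF.mul (PF.const 2) (PF.sub (PF.length hx) (PF.length hv))) (PF.const false)))
  · simp only [spl_pairBits, ones, List.length_replicate]

theorem OBC_fm (L : ℕ) (g : ℕ → List Bool) (k : ℕ) (h : ∀ i < k, (g i).length = L) :
    ((List.range k).flatMap g).length = k * L ∧
      ∀ i < k, ∀ l < L, ((List.range k).flatMap g).getD (i * L + l) false = (g i).getD l false := by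
  induction k with
  | zero => simp
  | succ k ih =>
    obtain ⟨e1, e2⟩ := ih (fun i hi => h i (by omega))
    have e3 : [k].flatMap g = g k := by simp
    rw [List.range_succ, List.flatMap_append, e3]
    refine ⟨by rw [List.length_append, e1, h k (by omega)]; ring, fun i hi l hl => ?_⟩
    rcases Nat.lt_or_ge i k with hik | hik
    · have h5 : i * L + l < k * L := by
        calc i * L + l < i * L + L := by omega
          _ = (i + 1) * L := by ring
          _ ≤ k * L := Nat.mul_le_mul_right _ hik
      rw [List.getD_append _ _ _ _ (by rw [e1]; exact h5), e2 i hik l hl]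
    · have h6 : i = k := by omega
      subst h6
      rw [List.getD_append_right _ _ _ _ (by rw [e1]; omega), e1]
      congr 1
      omega

theorem OBC_wt (n : ℕ) (z : Fin n → Bool) : wt z = (List.ofFn z).count true := by
  unfold wt
  induction n with
  | zero => simp
  | succ n ih =>
    rw [Fin.card_filter_univ_succ, List.ofFn_succ, List.count_cons, ← ih fun i => z i.succ]
    cases z 0 <;> simp

theorem OBC_fbar_len {K : ℕ} {v : List Bool} (h : v.length ≤ K) :
    (fbar K v).length = 2 * K + 2 := by
  unfold fbar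
  rw [List.length_cons, pairBits_length, List.length_replicate]
  omega

theorem OBC_mid_len {f : List Bool → List Bool} {K : Polynomial ℕ}
    (hK : ∀ x : List Bool, (f x).length ≤ K.eval x.length) (n h : ℕ) (z : List Bool)
    (hz : z.length = 2 * h) (hn : n ≤ 2 * h) :
    (midL f (K.eval n) n h z).length = 2 * K.eval n + 2 := by
  unfold midL
  split_ifs
  · rw [List.length_replicate]
  · apply OBC_fbar_len
    have := hK (z.take n)
    rw [List.length_take, hz, min_eq_left hn] at this
    exact this
  · rw [List.length_replicate]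

theorem OBC_mono {B : Set BFun} {n s s' : ℕ} {C : BF n} (h : Computes B n s C) (hs : s ≤ s') :
    Computes B n s' C := by
  obtain ⟨l, h1, h2, h3⟩ := h
  exact ⟨l, h1, h2.trans hs, h3⟩

/-- the function computed by bit number `m` of the middle part -/
def OBC_D (f : List Bool → List Bool) (K n m : ℕ) : BF n :=
  fun r => (fbar K (f (List.ofFn r))).getD m false

theorem OBC_take {n N : ℕ} (hn : n ≤ N) (z : Fin N → Bool) :
    (List.ofFn z).take n = List.ofFn fun i : Fin n => z (Fin.castLE hn i) := by
  apply List.ext_getElem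
  · rw [List.length_take, List.length_ofFn, List.length_ofFn, min_eq_left hn]
  · intro i h1 h2
    rw [List.getElem_take, List.getElem_ofFn, List.getElem_ofFn]
    rfl

theorem OBC_M (f : List Bool → List Bool) (K n h m : ℕ) (hm : m < 2 * K + 2) (hn : n ≤ 2 * h) :
    (fun z : Fin (2 * h) → Bool => (midL f K n h (List.ofFn z)).getD m false) =
      slice (2 * h) h (fun z => OBC_D f K n m fun i => z (Fin.castLE hn i)) := by
  funext z
  unfold slice midL OBC_D
  beta_reduce
  rw [OBC_wt, ← OBC_take hn]
  rcases lt_trichotomy h ((List.ofFn z).count true) with h1 | h1 | h1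
  · rw [if_pos h1]
    simp [h1, List.getD_eq_getElem?_getD, hm]
  · rw [if_neg (by omega), if_pos h1.symm]
    simp [← h1]
  · rw [if_neg (by omega), if_neg (by omega)]
    have h2 : ¬ (h < (List.ofFn z).count true) := by omega
    have h3 : ¬ ((List.ofFn z).count true = h) := by omega
    simp [h2, h3, List.getD_eq_getElem?_getD, hm]

theorem OBC_nc (f : List Bool → List Bool) (K n h m : ℕ) (hm : m < 2 * K + 2) (hh : 1 ≤ h) (s : ℕ)
    (hM : MC (2 * h) s (fun z => (midL f K n h (List.ofFn z)).getD m false)) :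
    Computes MB (2 * h) s (fun z => (midL f K n h (List.ofFn z)).getD m false) := by
  rcases hM with ⟨b, hb⟩ | hM
  · exfalso
    have h1 := hb fun _ => true
    have h0 := hb fun _ => false
    have e1 : (List.ofFn fun _ : Fin (2 * h) => true).count true = 2 * h := by
      rw [List.ofFn_const, List.count_replicate_self]
    have e0 : (List.ofFn fun _ : Fin (2 * h) => false).count true = 0 := by
      rw [List.ofFn_const]
      simp [List.count_replicate]
    unfold midL at h1 h0
    beta_reduce at h1 h0
    rw [e1, if_pos (by omega)] at h1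
    rw [e0, if_neg (by omega), if_neg (by omega)] at h0
    rw [← h0] at h1
    simp [List.getD_eq_getElem?_getD, hm] at h1
  · exact hM

theorem OBC_blk {n : ℕ} {i : ℕ} (hi : i < kF n) (t : Fin (2 * hF n + 2)) :
    i * lF n + t < kF n * lF n := by
  have ht := t.2
  calc i * lF n + t < i * lF n + lF n := by
        have : lF n = 2 + 2 * hF n := rfl
        omega
    _ = (i + 1) * lF n := by ring
    _ ≤ kF n * lF n := Nat.mul_le_mul_right _ hi

theorem OBC_bk {n : ℕ} {i : ℕ} (hi : i < kF n) (X : Fin (kF n * lF n) → Bool) :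
    bk n i (List.ofFn X) = List.ofFn fun t : Fin (2 * hF n + 2) =>
      X ⟨i * lF n + t, OBC_blk hi t⟩ := by
  unfold bk
  have h1 : i * lF n + lF n ≤ kF n * lF n := by
    calc i * lF n + lF n = (i + 1) * lF n := by ring
      _ ≤ kF n * lF n := Nat.mul_le_mul_right _ hi
  have h2 : lF n = 2 + 2 * hF n := rfl
  apply List.ext_getElem
  · rw [List.length_take, List.length_drop, List.length_ofFn, List.length_ofFn]
    omega
  · intro l h3 h4
    rw [List.getElem_take, List.getElem_drop, List.getElem_ofFn, List.getElem_ofFn]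

theorem OBC_blkF {f : List Bool → List Bool} {K : Polynomial ℕ}
    (hK : ∀ x : List Bool, (f x).length ≤ K.eval x.length) (τ : Fin 3) (n : ℕ)
    (y : Fin (2 * hF n + 2) → Bool) :
    (blkF τ f (K.eval n) n (List.ofFn y)).length = 2 + (2 * K.eval n + 2) ∧
    (blkF τ f (K.eval n) n (List.ofFn y)).getD 0 false = y 0 ∧
    (blkF τ f (K.eval n) n (List.ofFn y)).getD 1 false = y 1 ∧
    ∀ m < 2 * K.eval n + 2, (blkF τ f (K.eval n) n (List.ofFn y)).getD (m + 2) false =
      Tf τ (y 0) (y 1)
        ((midL f (K.eval n) n (hF n) (List.ofFn fun i => y i.succ.succ)).getD m false)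
        ((midL f (K.eval n) n (hF n) (List.ofFn fun i => !y i.succ.succ)).getD m false) := by
  have e1 : (List.ofFn y).getD 0 false = y 0 := by
    rw [List.ofFn_succ]
    rfl
  have e2 : (List.ofFn y).getD 1 false = y 1 := by
    rw [List.ofFn_succ, List.ofFn_succ]
    rfl
  have e3 : (List.ofFn y).drop 2 = List.ofFn fun i : Fin (2 * hF n) => y i.succ.succ := by
    rw [List.ofFn_succ, List.ofFn_succ]
    rfl
  have e4 : cpl (List.ofFn fun i : Fin (2 * hF n) => y i.succ.succ) =
      List.ofFn fun i : Fin (2 * hF n) => !y i.succ.succ := by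
    unfold cpl
    rw [List.map_ofFn]
    rfl
  have hn : n ≤ 2 * hF n := H547R9.hh_le n
  have l1 := OBC_mid_len hK n (hF n) (List.ofFn fun i : Fin (2 * hF n) => y i.succ.succ)
    List.length_ofFn hn
  have l2 := OBC_mid_len hK n (hF n) (List.ofFn fun i : Fin (2 * hF n) => !y i.succ.succ)
    List.length_ofFn hn
  unfold blkF
  rw [e1, e2, e3, e4]
  refine ⟨?_, rfl, rfl, fun m hm => ?_⟩
  · rw [List.length_cons, List.length_cons, List.length_zipWith, l1, l2, min_self]
    omega
  · rw [List.getD_cons_succ, List.getD_cons_succ]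
    rw [List.getD_eq_getElem _ _ (by rw [List.length_zipWith, l1, l2, min_self]; exact hm),
      List.getElem_zipWith, List.getD_eq_getElem _ _ (by rw [l1]; exact hm),
      List.getD_eq_getElem _ _ (by rw [l2]; exact hm)]

theorem t_OBC (h1 : S_CK3) (h2 : S_GDM) (h3 : S_SLI) : S_OBC := by
  intro B τ f K hop hf hK
  obtain ⟨F, hF1, hF2⟩ := OBC_F hf
  obtain ⟨q, hq⟩ := h1 F hF1
  obtain ⟨c, hc⟩ := h2 B τ hop
  refine ⟨Polynomial.C c * (4 * (2 * (8 * (Polynomial.X + 1) ^ 2) + 1) ^ 3 +
    2 * q.comp (3 * K + Polynomial.X + 2) + 1), fun n hn j hj => ?_⟩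
  set k := K.eval n with hk
  have hL : 0 < 2 + (2 * k + 2) := by omega
  have hi : j / (2 + (2 * k + 2)) < kF n := Nat.div_lt_of_lt_mul (by rw [mul_comm]; exact hj)
  have hl : j % (2 + (2 * k + 2)) < 2 + (2 * k + 2) := Nat.mod_lt _ hL
  have hjj : j = j / (2 + (2 * k + 2)) * (2 + (2 * k + 2)) + j % (2 + (2 * k + 2)) := by
    rw [mul_comm]
    exact (Nat.div_add_mod _ _).symm
  generalize j / (2 + (2 * k + 2)) = i at hi hjj
  generalize j % (2 + (2 * k + 2)) = l at hl hjj
  have key : (fun x : Fin (kF n * lF n) → Bool => (owF τ f k n (List.ofFn x)).getD j false) =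
      fun x => (blkF τ f k n (List.ofFn fun t : Fin (2 * hF n + 2) =>
        x ⟨i * lF n + t, OBC_blk hi t⟩)).getD l false := by
    funext x
    unfold owF
    rw [hjj, (OBC_fm (2 + (2 * k + 2)) (fun i => blkF τ f k n (bk n i (List.ofFn x))) (kF n)
      (fun i hi => ?_)).2 i hi l hl, OBC_bk hi]
    show (blkF τ f k n (bk n i (List.ofFn x))).length = _
    rw [OBC_bk hi]
    exact (OBC_blkF hK τ n _).1
  rw [key]
  match l, hl with
  | 0, _ =>
    refine ⟨[], Gates.nil, Nat.zero_le _, Or.inr ⟨⟨i * lF n + (0 : Fin (2 * hF n + 2)), OBC_blk hi 0⟩, ?_⟩⟩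
    funext x
    rw [(OBC_blkF hK τ n _).2.1]
  | 1, _ =>
    refine ⟨[], Gates.nil, Nat.zero_le _, Or.inr ⟨⟨i * lF n + (1 : Fin (2 * hF n + 2)), OBC_blk hi 1⟩, ?_⟩⟩
    funext x
    rw [(OBC_blkF hK τ n _).2.2.1]
  | m + 2, hl =>
    have hm : m < 2 * k + 2 := by omega
    have hnh : n ≤ 2 * hF n := H547R9.hh_le n
    have hh1 : 1 ≤ hF n := by
      show 1 ≤ 8 * (n + 1) ^ 2
      have : 0 < (n + 1) ^ 2 := by positivity
      omega
    have a1 : Comp0 n (q.eval (k + n + m)) (OBC_D f k n m) := by
      have := hq (ones k) n m hn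
      rw [show (ones k).length = k from List.length_replicate] at this
      simp only [hF2] at this
      exact this
    have a2 := H547R9.t_REN.2.1 n (2 * hF n) _ (fun i => Fin.castLE hnh i) _ a1
    have a3 := h3 (2 * hF n) _ (hF n) _ a2
    rw [← OBC_M f k n (hF n) m hm hnh] at a3
    have a4 := OBC_nc f k n (hF n) m hm hh1 _ a3
    have a5 := hc _ _ _ a4
    have a6 := H547R9.t_REN.1 B _ (kF n * lF n) _
      (fun t : Fin (2 * hF n + 2) => ⟨i * lF n + t, OBC_blk hi t⟩) _ a5
    have a7 := funext fun x : Fin (kF n * lF n) → Bool =>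
      (OBC_blkF hK τ n (fun t : Fin (2 * hF n + 2) =>
        x ⟨i * lF n + t, OBC_blk hi t⟩)).2.2.2 m hm
    rw [← hk] at a7
    rw [a7]
    refine OBC_mono a6 ?_
    simp only [Polynomial.eval_mul, Polynomial.eval_add, Polynomial.eval_C, Polynomial.eval_comp,
      Polynomial.eval_pow, Polynomial.eval_X, Polynomial.eval_one, Polynomial.eval_ofNat, ← hk]
    refine Nat.mul_le_mul_left _ ?_
    have b1 : q.eval (k + n + m) ≤ q.eval (3 * k + n + 2) :=
      H545R2.KS.eval_mono q (by omega)
    have b2 : hF n = 8 * (n + 1) ^ 2 := rfl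
    rw [b2]
    omega

end Pool.Agent.H547S1
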