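import Pool.Agent.H547S1.Stm

set_option autoImplicit false

namespace Pool.Agent.H547S1

open Pool.Agent.H547R6 Pool.Agent.H547R7 Pool.Agent.H547R8 Pool.Agent.NPC Pool.Agent.H583R2

/-- pieces of equal length -/
private theorem OBL_piece (g : ℕ → List Bool) (L : ℕ) (hg : ∀ l, (g l).length = L) (k : ℕ) :
    ((List.range k).flatMap g).length = k * L ∧
    ∀ i, i < k → (((List.range k).flatMap g).drop (i * L)).take L = g i := by
  induction k with
  | zero => exact ⟨by simp, fun i hi => absurd hi (Nat.not_lt_zero i)⟩
  | succ k ih =>
    obtain ⟨ih1, ih2⟩ := ih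
    have e : (List.range (k + 1)).flatMap g = (List.range k).flatMap g ++ g k := by
      rw [List.range_succ, List.flatMap_append]
      simp
    refine ⟨by rw [e, List.length_append, ih1, hg]; ring, fun i hi => ?_⟩
    rw [e]
    rcases Nat.lt_or_ge i k with h | h
    · rw [List.drop_append_of_le_length (by rw [ih1]; exact Nat.mul_le_mul_right L h.le),
        List.take_append_of_le_length, ih2 i h]
      rw [List.length_drop, ih1]
      have : (i + 1) * L ≤ k * L := Nat.mul_le_mul_right L h
      have h2 : (i + 1) * L = i * L + L := by ring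
      omega
    · have hik : i = k := by omega
      subst hik
      have : (List.drop (i * L) (List.flatMap g (List.range i) ++ g i)) = g i := by
        rw [← ih1, List.drop_left]
      rw [this, List.take_of_length_le (by rw [hg])]

private theorem OBL_zip (τ : Fin 3) : ∀ (u u' : List Bool), u.length ≤ u'.length →
    List.zipWith (Tf τ false true) u u' = u
  | [], _, _ => by simp
  | a :: u, [], h => by simp at h
  | a :: u, b :: u', h => by
    have hT : Tf τ false true a b = a := by
      unfold Tf
      fin_cases τ <;> simp
    rw [List.zipWith_cons_cons, hT, OBL_zip τ u u' (by simpa using h)]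

private theorem OBL_fbar_len (K : ℕ) (v : List Bool) (h : v.length ≤ K) :
    (fbar K v).length = 2 * K + 2 := by
  unfold fbar
  rw [List.length_cons, H545R2.KS.pairBits_length, List.length_replicate]
  omega

private theorem OBL_eval_mono (K : Polynomial ℕ) {a b : ℕ} (h : a ≤ b) : K.eval a ≤ K.eval b := by
  rw [Polynomial.eval_eq_sum, Polynomial.eval_eq_sum]
  exact Finset.sum_le_sum fun i _ => Nat.mul_le_mul_left _ (Nat.pow_le_pow_left h i)

private theorem OBL_mid_len (f : List Bool → List Bool) (K : Polynomial ℕ)
    (hf : ∀ x : List Bool, (f x).length ≤ K.eval x.length) (n h : ℕ) (z : List Bool) :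
    (midL f (K.eval n) n h z).length = 2 * K.eval n + 2 := by
  unfold midL
  split_ifs
  · simp
  · exact OBL_fbar_len _ _ ((hf _).trans (OBL_eval_mono K (by simp)))
  · simp

private theorem OBL_blk_len (τ : Fin 3) (f : List Bool → List Bool) (K : Polynomial ℕ)
    (hf : ∀ x : List Bool, (f x).length ≤ K.eval x.length) (n : ℕ) (β : List Bool) :
    (blkF τ f (K.eval n) n β).length = 2 + (2 * K.eval n + 2) := by
  unfold blkF
  rw [List.length_cons, List.length_cons, List.length_zipWith, OBL_mid_len f K hf,
    OBL_mid_len f K hf, min_self]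
  omega

private theorem OBL_fbar_true (K : ℕ) (v : List Bool) : true ∈ fbar K v := by
  unfold fbar; simp

private theorem OBL_fbar_false (K : ℕ) (v : List Bool) : false ∈ fbar K v := by
  unfold fbar pairBits; simp

private theorem OBL_fbar_inj {K : ℕ} {v w : List Bool} (h : fbar K v = fbar K w) : v = w := by
  unfold fbar at h
  have h1 := (List.cons.injEq _ _ _ _ ▸ h).2
  have h2 := congrArg spl h1
  rw [H545R2.KS.spl_pairBits, H545R2.KS.spl_pairBits] at h2
  exact (Prod.ext_iff.1 h2).1

theorem t_OBL : S_OBL := by
  intro τ f K hf n hn X hX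
  have hlen := OBL_piece (fun i => blkF τ f (K.eval n) n (bk n i X)) (2 + (2 * K.eval n + 2))
    (fun l => OBL_blk_len τ f K hf n _) (kF n)
  refine ⟨hlen.1, fun i hi => ?_, fun i x Y hi hx hY h => ?_⟩
  · have hv : vb n (bk n i X) = true := by
      have := List.find?_some hi
      exact this
    have h0 : (bk n i X).getD 0 false = false ∧ (bk n i X).getD 1 false = true ∧
        ((bk n i X).drop 2).count true = hF n := by
      unfold vb at hv
      simp only [Bool.and_eq_true, Bool.not_eq_true', decide_eq_true_eq] at hv
      exact ⟨hv.1.1, hv.1.2, hv.2⟩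
    unfold owF plant
    congr 1
    funext l
    by_cases hl : l = i
    · subst hl
      rw [if_pos rfl]
      unfold blkF
      rw [h0.1, h0.2.1, OBL_zip τ _ _ (by rw [OBL_mid_len f K hf, OBL_mid_len f K hf])]
      unfold midL
      rw [if_neg (by rw [h0.2.2]; exact lt_irrefl _), if_pos h0.2.2]
    · rw [if_neg hl]
  · have hxn : (f x).length ≤ K.eval n := by rw [← hx]; exact hf x
    have hL : ∀ l, (if l = i then false :: true :: fbar (K.eval n) (f x)
        else blkF τ f (K.eval n) n (bk n l X)).length = 2 + (2 * K.eval n + 2) := by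
      intro l
      split_ifs
      · rw [List.length_cons, List.length_cons, OBL_fbar_len _ _ hxn]
        omega
      · exact OBL_blk_len τ f K hf n _
    have h1 := (OBL_piece (fun i => blkF τ f (K.eval n) n (bk n i Y)) (2 + (2 * K.eval n + 2))
      (fun l => OBL_blk_len τ f K hf n _) (kF n)).2 i hi
    have h2 := (OBL_piece (fun l => if l = i then false :: true :: fbar (K.eval n) (f x)
      else blkF τ f (K.eval n) n (bk n l X)) (2 + (2 * K.eval n + 2)) hL (kF n)).2 i hi
    have h3 : blkF τ f (K.eval n) n (bk n i Y) = false :: true :: fbar (K.eval n) (f x) := by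
      unfold owF plant at h
      rw [h] at h1
      rw [← h1, h2, if_pos rfl]
    unfold blkF at h3
    simp only [List.cons.injEq] at h3
    obtain ⟨a0, a1, h4⟩ := h3
    rw [a0, a1, OBL_zip τ _ _ (by rw [OBL_mid_len f K hf, OBL_mid_len f K hf])] at h4
    unfold midL at h4
    split_ifs at h4 with b1 b2
    · have := OBL_fbar_false (K.eval n) (f x)
      rw [← h4] at this
      simp at this
    · exact OBL_fbar_inj h4
    · have := OBL_fbar_true (K.eval n) (f x)
      rw [← h4] at this
      simp at this

end Pool.Agent.H547S1
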