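import Pool.Agent.H547S1.Stm
import Pool.Agent.H547R9.T_MID
import Pool.Agent.H547R9.T_BPC

/-!
# OBN: the number of strings of half weight with given first bits
-/

set_option autoImplicit false

namespace Pool.Agent.H547S1

open Pool.Agent.H547R6 Pool.Agent.H547R7 Pool.Agent.H547R8 Pool.Agent.H547R9 Pool.Agent.NPC

open Finset

theorem OBN_count {n : ℕ} (z : Fin n → Bool) : (List.ofFn z).count true = wt z := by
  rw [MID_wt_sum]
  induction n with
  | zero => simp
  | succ n ih =>
    rw [List.ofFn_succ, List.count_cons, ih, Fin.sum_univ_succ, add_comm]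
    congr 1
    cases z 0 <;> simp

theorem OBN_one (n M h : ℕ) (hT : n + M = 2 * h) (hh : 8 * (n + 1) ^ 2 ≤ h) (T : ℕ)
    (hTT : T = n + M) (x : Fin n → Bool) :
    ((univ.filter fun z : Fin T → Bool =>
      (List.ofFn z).count true = h ∧ (List.ofFn z).take n = List.ofFn x).card : ℝ) * 2 ^ n ≤
    2 * ((univ.filter fun z : Fin T → Bool => (List.ofFn z).count true = h).card : ℝ) := by
  subst hTT
  simp only [OBN_count]
  have hnh : n ≤ h := by nlinarith
  obtain ⟨N, hN⟩ : ∃ N : (Fin n → Bool) → ℝ, ∀ r, N r = (M.choose (h - wt r) : ℝ) := ⟨_, fun r => rfl⟩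
  have hNcard : ∀ r : Fin n → Bool,
      ((univ.filter fun y : Fin M → Bool => wt r + wt y = h).card : ℝ) = N r := by
    intro r
    rw [hN, ← MID_card_wt]
    congr 2
    ext y
    have := MID_wt_le r
    simp only [mem_filter, mem_univ, true_and]
    constructor
    · intro hy
      omega
    · intro hy
      omega
  have hE : ((univ.filter fun z : Fin (n + M) → Bool => wt z = h).card : ℝ) = ∑ r, N r := by
    rw [MID_card_append]
    push_cast
    apply sum_congr rfl
    intro r _
    rw [← hNcard]
    congr 2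
    ext y
    simp only [mem_filter, mem_univ, true_and, MID_wt_append]
  have hx : ((univ.filter fun z : Fin (n + M) → Bool =>
      wt z = h ∧ (List.ofFn z).take n = List.ofFn x).card : ℝ) = N x := by
    rw [MID_card_append]
    push_cast
    rw [← hNcard]
    rw [sum_eq_single x]
    · congr 2
      ext y
      simp only [mem_filter, mem_univ, true_and, MID_wt_append, List.ofFn_fin_append]
      rw [List.take_left' (by simp)]
      simp
    · intro r _ hr
      rw [filter_false_of_mem]
      · simp
      · intro y _ hy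
        apply hr
        have h2 := hy.2
        rw [List.ofFn_fin_append, List.take_left' (by simp)] at h2
        exact List.ofFn_injective h2
    · intro h0
      exact absurd (mem_univ x) h0
  rw [hx, hE]
  have h1 : N x * 2 ^ n = ∑ _r : Fin n → Bool, N x := by
    rw [sum_const, card_univ]
    simp [mul_comm]
  rw [h1, mul_sum]
  apply sum_le_sum
  intro r _
  have h2 := MID_ratio n M h hT hh (wt x) (wt r) (MID_wt_le _) (MID_wt_le _)
  rw [← hN, ← hN] at h2
  have h3 : 0 ≤ N r := by rw [hN]; exact Nat.cast_nonneg _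
  linarith

theorem OBN_blk (k l : ℕ) (q : (Fin l → Bool) → Prop) [DecidablePred q] :
    (univ.filter fun X : Fin (k * l) → Bool => ∀ i, q (blk X i)).card =
      (univ.filter q).card ^ k := by
  have h : (Fintype.piFinset fun _ : Fin k => univ.filter q).card = (univ.filter q).card ^ k := by
    rw [Fintype.card_piFinset]
    simp
  rw [← h]
  refine card_bij (fun X _ => blk X) ?_ ?_ ?_
  · intro X hX
    rw [mem_filter] at hX
    rw [Fintype.mem_piFinset]
    intro i
    rw [mem_filter]
    exact ⟨mem_univ _, hX.2 i⟩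
  · intro X _ Y _ hXY
    funext j
    have h1 := congrFun (congrFun hXY (finProdFinEquiv.symm j).1) (finProdFinEquiv.symm j).2
    unfold blk at h1
    have h2 : finProdFinEquiv ((finProdFinEquiv.symm j).1, (finProdFinEquiv.symm j).2) = j :=
      finProdFinEquiv.apply_symm_apply j
    rw [h2] at h1
    exact h1
  · intro f hf
    rw [Fintype.mem_piFinset] at hf
    refine ⟨fun j => f (finProdFinEquiv.symm j).1 (finProdFinEquiv.symm j).2, ?_, ?_⟩
    · rw [mem_filter]
      refine ⟨mem_univ _, fun i => ?_⟩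
      have h1 := hf i
      rw [mem_filter] at h1
      convert h1.2 using 1
      funext j
      unfold blk
      simp
    · funext i j
      unfold blk
      simp

theorem OBN_vb (n : ℕ) (y : Fin (2 * hF n) → Bool) :
    vb n (List.ofFn (Fin.append ![false, true] y)) = decide (wt y = hF n) := by
  unfold vb
  rw [List.ofFn_fin_append]
  have h1 : List.ofFn (![false, true] : Fin 2 → Bool) = [false, true] := rfl
  rw [h1, ← OBN_count]
  simp

theorem OBN_key (h C P : ℝ) (h0 : 0 < h) (hC : 0 ≤ C) (hP : P ≤ 2 * h * C) :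
    1 / (4 * (2 * h + 1)) * (4 * P) ≤ C := by
  rw [div_mul_eq_mul_div, div_le_iff₀ (by positivity)]
  nlinarith

theorem OBN_fin (q W a b C : ℝ) (h1 : W = a + b) (h2 : C ≤ a) (h3 : q * W ≤ C) :
    (1 - q) * W ≥ b := by
  rw [sub_mul, one_mul]
  linarith

theorem OBN_two (n : ℕ) :
    (1 - 1 / (4 * (2 * (hF n : ℝ) + 1))) * 2 ^ lF n ≥
      ((univ.filter fun β : Fin (lF n) → Bool => ¬ (vb n (List.ofFn β) = true)).card : ℝ) := by
  have hpos : 0 < hF n := by
    unfold hF hh
    positivity
  have hcv : ((2 * hF n).choose (hF n) : ℝ) ≤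
      ((univ.filter fun β : Fin (lF n) → Bool => vb n (List.ofFn β) = true).card : ℝ) := by
    rw [← MID_card_wt]
    unfold lF
    rw [MID_card_append]
    push_cast
    refine le_trans ?_ (single_le_sum (f := fun r : Fin 2 → Bool =>
      ((univ.filter fun y : Fin (2 * hF n) → Bool =>
        vb n (List.ofFn (Fin.append r y)) = true).card : ℝ)) (fun _ _ => Nat.cast_nonneg _)
        (mem_univ ![false, true]))
    apply le_of_eq
    congr 2
    ext y
    simp only [mem_filter, mem_univ, true_and, OBN_vb, decide_eq_true_eq]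
  have htot : (2 : ℝ) ^ lF n = ((univ.filter fun β : Fin (lF n) → Bool => vb n (List.ofFn β) = true).card : ℝ) + ((univ.filter fun β : Fin (lF n) → Bool => ¬ (vb n (List.ofFn β) = true)).card : ℝ) := by
    have h1 := card_filter_add_card_filter_not (s := (univ : Finset (Fin (lF n) → Bool))) (fun β => vb n (List.ofFn β) = true)
    rw [card_univ] at h1
    simp only [Fintype.card_fun, Fintype.card_bool, Fintype.card_fin] at h1
    exact_mod_cast h1.symm
  have hcb := Nat.four_pow_le_two_mul_self_mul_centralBinom (hF n) hpos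
  rw [Nat.centralBinom_eq_two_mul_choose] at hcb
  have hcb' : (4 : ℝ) ^ hF n ≤ 2 * (hF n : ℝ) * ((2 * hF n).choose (hF n) : ℝ) := by exact_mod_cast hcb
  have hl : (2 : ℝ) ^ lF n = 4 * 4 ^ hF n := by
    unfold lF
    rw [pow_add, pow_mul]
    norm_num
  have h0 : (0 : ℝ) < hF n := by exact_mod_cast hpos
  have hC : (0 : ℝ) ≤ ((2 * hF n).choose (hF n) : ℝ) := Nat.cast_nonneg _
  have key : 1 / (4 * (2 * (hF n : ℝ) + 1)) * 2 ^ lF n ≤ ((2 * hF n).choose (hF n) : ℝ) := by
    rw [hl]
    exact OBN_key _ _ _ h0 hC hcb'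
  exact OBN_fin _ _ _ _ _ htot hcv key

theorem OBN_fv (n : ℕ) (X : Fin (kF n * lF n) → Bool) :
    fv n (List.ofFn X) = none ↔ ∀ i : Fin (kF n), ¬ (vb n (List.ofFn (blk X i)) = true) := by
  unfold fv
  rw [List.find?_eq_none]
  constructor
  · intro h i
    have h1 := h i.val (List.mem_range.2 i.2)
    unfold bk at h1
    rw [Nat.mul_comm, BPC_blk] at h1
    exact h1
  · intro h i hi
    rw [List.mem_range] at hi
    have h1 := h ⟨i, hi⟩
    unfold bk
    rw [← BPC_blk] at h1
    rw [Nat.mul_comm]
    exact h1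

theorem t_OBN : S_OBN := by
  intro n hn
  constructor
  · intro x
    obtain ⟨M, hM⟩ := Nat.exists_eq_add_of_le (hh_le n)
    exact OBN_one n M (hF n) (by unfold hF; omega) (by unfold hF hh; exact le_rfl) _ hM x
  · unfold pr
    have h1 : (univ.filter fun X : Fin (kF n * lF n) → Bool =>
        decide (fv n (List.ofFn X) = none) = true).card =
        (univ.filter fun β : Fin (lF n) → Bool => ¬ (vb n (List.ofFn β) = true)).card ^ kF n := by
      rw [← OBN_blk]
      congr 1
      ext X
      simp only [mem_filter, mem_univ, true_and, decide_eq_true_eq]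
      exact OBN_fv n X
    rw [h1]
    simp only [Fintype.card_fun, Fintype.card_bool, Fintype.card_fin]
    push_cast
    have h2 := OBN_two n
    obtain ⟨c, hc⟩ : ∃ c : ℝ, c = ((univ.filter fun β : Fin (lF n) → Bool =>
      ¬ (vb n (List.ofFn β) = true)).card : ℝ) := ⟨_, rfl⟩
    rw [← hc] at h2 ⊢
    have hc0 : 0 ≤ c := by rw [hc]; exact Nat.cast_nonneg _
    obtain ⟨q, hq⟩ : ∃ q : ℝ, q = 1 / (4 * (2 * (hF n : ℝ) + 1)) := ⟨_, rfl⟩
    rw [← hq] at h2
    have hq0 : 0 ≤ q := by rw [hq]; positivity
    have h3 : c / 2 ^ lF n ≤ Real.exp (-q) := by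
      rw [div_le_iff₀ (by positivity)]
      have h4 : 1 - q ≤ Real.exp (-q) := by
        have := Real.add_one_le_exp (-q)
        linarith
      have h5 : (0 : ℝ) < 2 ^ lF n := by positivity
      nlinarith
    have h4 : c ^ kF n / 2 ^ (kF n * lF n) = (c / 2 ^ lF n) ^ kF n := by
      rw [div_pow, ← pow_mul, Nat.mul_comm]
    rw [h4]
    have h5 : (c / 2 ^ lF n) ^ kF n ≤ (Real.exp (-q)) ^ kF n :=
      pow_le_pow_left₀ (by positivity) h3 _
    refine h5.trans ?_
    rw [← Real.exp_nat_mul]
    have h6 : ((kF n : ℕ) : ℝ) * (-q) = (n : ℝ) * (-1) := by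
      unfold kF
      rw [hq]
      push_cast
      field_simp
    rw [h6, Real.exp_nat_mul]
    refine pow_le_pow_left₀ (Real.exp_pos _).le ?_ n
    have h7 := Real.add_one_le_exp (1 : ℝ)
    rw [Real.exp_neg]
    rw [inv_le_comm₀ (Real.exp_pos _) (by norm_num)]
    linarith

end Pool.Agent.H547S1
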