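import Pool.Agent.H547S1.Stm

set_option autoImplicit false

namespace Pool.Agent.H547S1

open Pool.Agent.H547R6 Pool.Agent.H547R7 Pool.Agent.H547R8 Pool.Agent.NPC

/-- indicator -/
private def aI (b : Bool) : ℝ := if b = true then 1 else 0

private theorem aI_nonneg (b : Bool) : 0 ≤ aI b := by
  unfold aI; split_ifs <;> norm_num

private theorem pr_sum {Ω : Type} [Fintype Ω] (p : Ω → Bool) :
    pr p = (∑ x, aI (p x)) / Fintype.card Ω := by
  unfold pr aI
  rw [Finset.sum_boole]

/-- block as a function -/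
private def OBP_blk {k L : ℕ} (i : ℕ) (hi : i < k) (X : Fin (k * L) → Bool) : Fin L → Bool :=
  fun j => X ⟨i * L + j, by
    have h1 : (i + 1) * L ≤ k * L := Nat.mul_le_mul_right _ hi
    have h2 := j.2
    rw [Nat.add_mul, Nat.one_mul] at h1
    omega⟩

/-- replace block `i` -/
private def OBP_upd {k L : ℕ} (i : ℕ) (X : Fin (k * L) → Bool) (β : Fin L → Bool) :
    Fin (k * L) → Bool :=
  fun m => if h : i * L ≤ m ∧ m < i * L + L then β ⟨m - i * L, by omega⟩ else X m

private theorem OBP_blk_upd {k L : ℕ} (i : ℕ) (hi : i < k) (X : Fin (k * L) → Bool)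
    (β : Fin L → Bool) : OBP_blk i hi (OBP_upd i X β) = β := by
  funext j
  unfold OBP_blk OBP_upd
  have h2 := j.2
  rw [dif_pos (by simp only; omega)]
  congr 1
  apply Fin.ext
  simp only
  omega

private theorem OBP_upd_upd {k L : ℕ} (i : ℕ) (hi : i < k) (X : Fin (k * L) → Bool)
    (β : Fin L → Bool) : OBP_upd i (OBP_upd i X β) (OBP_blk i hi X) = X := by
  funext m
  unfold OBP_upd OBP_blk
  split_ifs with h
  · congr 1
    apply Fin.ext
    simp only
    omega
  · rfl

private theorem OBP_avg {k L : ℕ} (i : ℕ) (hi : i < k) (F : (Fin (k * L) → Bool) → ℝ) :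
    (2:ℝ) ^ L * ∑ X, F X = ∑ X, ∑ β : Fin L → Bool, F (OBP_upd i X β) := by
  have hT : Function.Involutive (fun p : (Fin (k * L) → Bool) × (Fin L → Bool) =>
      (OBP_upd i p.1 p.2, OBP_blk i hi p.1)) := by
    rintro ⟨X, β⟩
    simp only [OBP_upd_upd, OBP_blk_upd]
  have h1 : ∑ X, ∑ β : Fin L → Bool, F (OBP_upd i X β) =
      ∑ p : (Fin (k * L) → Bool) × (Fin L → Bool), F (OBP_upd i p.1 p.2) :=
    (Fintype.sum_prod_type (f := fun p : (Fin (k * L) → Bool) × (Fin L → Bool) =>
      F (OBP_upd i p.1 p.2))).symm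
  have h2 := Equiv.sum_comp hT.toPerm
    (fun p : (Fin (k * L) → Bool) × (Fin L → Bool) => F p.1)
  have h3 : ∑ p : (Fin (k * L) → Bool) × (Fin L → Bool), F (OBP_upd i p.1 p.2) =
      ∑ p : (Fin (k * L) → Bool) × (Fin L → Bool), F p.1 := h2
  rw [h1, h3, Fintype.sum_prod_type]
  simp only [Finset.sum_const, Finset.card_univ, Fintype.card_pi, Fintype.card_bool,
    Finset.prod_const, Fintype.card_fin, nsmul_eq_mul]
  rw [Finset.mul_sum]
  push_cast
  rfl

/-! ### blocks as lists -/

private theorem OBP_bk_get (n l : ℕ) (X : Fin (kF n * lF n) → Bool) (j : ℕ) :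
    (bk n l (List.ofFn X))[j]? =
      if j < lF n then (List.ofFn X)[l * lF n + j]? else none := by
  unfold bk
  rw [List.getElem?_take]
  split_ifs with h
  · rw [List.getElem?_drop]
  · rfl

private theorem OBP_bk_ne {n i l : ℕ} (hl : l ≠ i) (X : Fin (kF n * lF n) → Bool)
    (β : Fin (lF n) → Bool) :
    bk n l (List.ofFn (OBP_upd i X β)) = bk n l (List.ofFn X) := by
  apply List.ext_getElem?
  intro j
  rw [OBP_bk_get, OBP_bk_get]
  split_ifs with hj
  · rw [List.getElem?_ofFn, List.getElem?_ofFn]
    split_ifs with h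
    · congr 1
      unfold OBP_upd
      rw [dif_neg]
      simp only
      rintro ⟨h1, h2⟩
      rcases lt_or_gt_of_ne hl with h3 | h3
      · have h4 : (l + 1) * lF n ≤ i * lF n := Nat.mul_le_mul_right _ h3
        rw [Nat.add_mul, Nat.one_mul] at h4
        omega
      · have h4 : (i + 1) * lF n ≤ l * lF n := Nat.mul_le_mul_right _ h3
        rw [Nat.add_mul, Nat.one_mul] at h4
        omega
    · rfl
  · rfl

private theorem OBP_bk_eq {n i : ℕ} (hi : i < kF n) (X : Fin (kF n * lF n) → Bool)
    (β : Fin (lF n) → Bool) :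
    bk n i (List.ofFn (OBP_upd i X β)) = List.ofFn β := by
  apply List.ext_getElem?
  intro j
  rw [OBP_bk_get, List.getElem?_ofFn, List.getElem?_ofFn]
  have h4 : (i + 1) * lF n ≤ kF n * lF n := Nat.mul_le_mul_right _ hi
  rw [Nat.add_mul, Nat.one_mul] at h4
  by_cases hj : j < lF n
  · rw [if_pos hj, dif_pos (by omega), dif_pos hj]
    congr 1
    unfold OBP_upd
    rw [dif_pos (by simp only; omega)]
    congr 1
    apply Fin.ext
    simp only
    omega
  · rw [if_neg hj, dif_neg hj]

private theorem OBP_fv {n i : ℕ} (X : List Bool) :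
    fv n X = some i ↔ i < kF n ∧ vb n (bk n i X) = true ∧ ∀ j, j < i → vb n (bk n j X) = false := by
  unfold fv
  rw [List.find?_range_eq_some]
  simp only [List.mem_range, Bool.not_eq_true']
  tauto

/-! ### valid blocks -/

private theorem OBP_hn (n : ℕ) : n ≤ 2 * hF n := H547R9.hh_le n

/-- second part of a block -/
private def OBP_z {n : ℕ} (β : Fin (lF n) → Bool) : Fin (2 * hF n) → Bool :=
  fun j => β ⟨2 + j, by unfold lF; omega⟩

private theorem OBP_drop {n : ℕ} (β : Fin (lF n) → Bool) :
    (List.ofFn β).drop 2 = List.ofFn (OBP_z β) := by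
  apply List.ext_getElem?
  intro j
  rw [List.getElem?_drop, List.getElem?_ofFn, List.getElem?_ofFn]
  by_cases h : j < 2 * hF n
  · rw [dif_pos h, dif_pos (by unfold lF; omega)]
    rfl
  · rw [dif_neg h, dif_neg (by unfold lF; omega)]

private theorem OBP_vb {n : ℕ} (β : Fin (lF n) → Bool) :
    vb n (List.ofFn β) = true ↔ β ⟨0, by unfold lF; omega⟩ = false ∧
      β ⟨1, by unfold lF; omega⟩ = true ∧ (List.ofFn (OBP_z β)).count true = hF n := by
  unfold vb
  rw [OBP_drop]
  have e0 : (List.ofFn β).getD 0 false = β ⟨0, by unfold lF; omega⟩ := by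
    rw [List.getD_eq_getElem?_getD, List.getElem?_ofFn, dif_pos (by unfold lF; omega)]
    rfl
  have e1 : (List.ofFn β).getD 1 false = β ⟨1, by unfold lF; omega⟩ := by
    rw [List.getD_eq_getElem?_getD, List.getElem?_ofFn, dif_pos (by unfold lF; omega)]
    rfl
  rw [e0, e1]
  simp only [Bool.and_eq_true, Bool.not_eq_true', decide_eq_true_eq, and_assoc]

private theorem OBP_vec {n : ℕ} (z : Fin (2 * hF n) → Bool) (x : Fin n → Bool) :
    vec n (List.ofFn z) = x ↔ (List.ofFn z).take n = List.ofFn x := by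
  have hn := OBP_hn n
  constructor
  · rintro rfl
    apply List.ext_getElem?
    intro j
    rw [List.getElem?_take, List.getElem?_ofFn, List.getElem?_ofFn]
    by_cases hj : j < n
    · rw [if_pos hj, dif_pos (by omega), dif_pos hj]
      unfold vec
      simp only
      rw [List.getD_eq_getElem?_getD, List.getElem?_ofFn, dif_pos (by omega)]
      rfl
    · rw [if_neg hj, dif_neg hj]
  · intro h
    funext j
    have h1 : ((List.ofFn z).take n)[(j : ℕ)]? = (List.ofFn x)[(j : ℕ)]? := by rw [h]
    rw [List.getElem?_take, if_pos j.2, List.getElem?_ofFn, List.getElem?_ofFn,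
      dif_pos (by have := j.2; omega), dif_pos j.2] at h1
    unfold vec
    rw [List.getD_eq_getElem?_getD, List.getElem?_ofFn, dif_pos (by have := j.2; omega)]
    simpa using h1

/-- the block with the second part `z` -/
private def OBP_c {n : ℕ} (z : Fin (2 * hF n) → Bool) : Fin (lF n) → Bool :=
  fun m => if h0 : (m : ℕ) = 0 then false else if h1 : (m : ℕ) = 1 then true else
    z ⟨m - 2, by have := m.2; unfold lF at this; omega⟩

private theorem OBP_zc {n : ℕ} (z : Fin (2 * hF n) → Bool) : OBP_z (OBP_c z) = z := by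
  funext j
  unfold OBP_z OBP_c
  simp only
  rw [dif_neg (by omega), dif_neg (by omega)]
  congr 1
  apply Fin.ext
  simp only
  omega

private theorem OBP_cz {n : ℕ} {β : Fin (lF n) → Bool} (h : vb n (List.ofFn β) = true) :
    OBP_c (OBP_z β) = β := by
  rw [OBP_vb] at h
  obtain ⟨h0, h1, -⟩ := h
  funext m
  unfold OBP_c
  split_ifs with a b
  · rw [← h0]
    congr 1
    exact Fin.ext a.symm
  · rw [← h1]
    congr 1
    exact Fin.ext b.symm
  · unfold OBP_z
    congr 1
    apply Fin.ext
    simp only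
    omega

private theorem OBP_vc {n : ℕ} {z : Fin (2 * hF n) → Bool}
    (h : (List.ofFn z).count true = hF n) : vb n (List.ofFn (OBP_c z)) = true := by
  rw [OBP_vb, OBP_zc]
  exact ⟨rfl, rfl, h⟩

private theorem OBP_N {n : ℕ} (x : Fin n → Bool) :
    ((Finset.univ : Finset (Fin (lF n) → Bool)).filter fun β =>
      vb n (List.ofFn β) = true ∧ vec n ((List.ofFn β).drop 2) = x).card ≤
    ((Finset.univ : Finset (Fin (2 * hF n) → Bool)).filter fun z =>
      (List.ofFn z).count true = hF n ∧ (List.ofFn z).take n = List.ofFn x).card := by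
  apply Finset.card_le_card_of_injOn OBP_z
  · intro β hβ
    simp only [Finset.coe_filter, Finset.mem_univ, true_and, Set.mem_ofPred_eq] at hβ ⊢
    obtain ⟨h1, h2⟩ := hβ
    rw [OBP_drop] at h2
    exact ⟨((OBP_vb β).mp h1).2.2, (OBP_vec _ _).mp h2⟩
  · intro β hβ β' hβ' he
    simp only [Finset.coe_filter, Finset.mem_univ, true_and, Set.mem_ofPred_eq] at hβ hβ'
    rw [← OBP_cz hβ.1, ← OBP_cz hβ'.1, he]

private theorem OBP_V (n : ℕ) :
    ((Finset.univ : Finset (Fin (2 * hF n) → Bool)).filter fun z =>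
      (List.ofFn z).count true = hF n).card ≤
    ((Finset.univ : Finset (Fin (lF n) → Bool)).filter fun β => vb n (List.ofFn β) = true).card := by
  apply Finset.card_le_card_of_injOn OBP_c
  · intro z hz
    simp only [Finset.coe_filter, Finset.mem_univ, true_and, Set.mem_ofPred_eq] at hz ⊢
    exact OBP_vc hz
  · intro z _ z' _ he
    rw [← OBP_zc z, ← OBP_zc z', he]

/-- the inequality for one block -/
private theorem OBP_one (h : S_OBN) {n : ℕ} (hn : 1 ≤ n) (g : (Fin n → Bool) → Bool) :
    (2:ℝ) ^ n * ∑ β : Fin (lF n) → Bool,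
      aI (vb n (List.ofFn β)) * aI (g (vec n ((List.ofFn β).drop 2))) ≤
    2 * ∑ x, ∑ β : Fin (lF n) → Bool, aI (vb n (List.ofFn β)) * aI (g x) := by
  have h1 : ∑ β : Fin (lF n) → Bool,
      aI (vb n (List.ofFn β)) * aI (g (vec n ((List.ofFn β).drop 2))) =
      ∑ x, aI (g x) * (((Finset.univ : Finset (Fin (lF n) → Bool)).filter fun β =>
        vb n (List.ofFn β) = true ∧ vec n ((List.ofFn β).drop 2) = x).card : ℝ) := by
    have e1 : ∀ β : Fin (lF n) → Bool,
        aI (vb n (List.ofFn β)) * aI (g (vec n ((List.ofFn β).drop 2))) =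
        ∑ x, aI (g x) * (if vb n (List.ofFn β) = true ∧ vec n ((List.ofFn β).drop 2) = x
          then (1:ℝ) else 0) := by
      intro β
      rw [Finset.sum_eq_single (vec n ((List.ofFn β).drop 2))]
      · unfold aI
        by_cases hv : vb n (List.ofFn β) = true
        · simp [hv]
        · simp [hv]
      · intro x _ hx
        rw [if_neg (fun hc => hx hc.2.symm), mul_zero]
      · intro hc
        exact absurd (Finset.mem_univ _) hc
    rw [Finset.sum_congr rfl (fun β _ => e1 β), Finset.sum_comm]
    apply Finset.sum_congr rfl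
    intro x _
    rw [← Finset.mul_sum, Finset.sum_boole]
  have h2 : ∀ x, ∑ β : Fin (lF n) → Bool, aI (vb n (List.ofFn β)) * aI (g x) =
      aI (g x) * (((Finset.univ : Finset (Fin (lF n) → Bool)).filter fun β =>
        vb n (List.ofFn β) = true).card : ℝ) := by
    intro x
    rw [← Finset.sum_mul]
    unfold aI
    rw [Finset.sum_boole]
    ring
  rw [h1, Finset.sum_congr rfl (fun x _ => h2 x), Finset.mul_sum, Finset.mul_sum]
  apply Finset.sum_le_sum
  intro x _
  have h3 := (h n hn).1 x
  have h4 : (((Finset.univ : Finset (Fin (lF n) → Bool)).filter fun β =>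
        vb n (List.ofFn β) = true ∧ vec n ((List.ofFn β).drop 2) = x).card : ℝ) ≤
      (((Finset.univ : Finset (Fin (2 * hF n) → Bool)).filter fun z =>
      (List.ofFn z).count true = hF n ∧ (List.ofFn z).take n = List.ofFn x).card : ℝ) := by
    exact_mod_cast OBP_N x
  have h5 : (((Finset.univ : Finset (Fin (2 * hF n) → Bool)).filter fun z =>
      (List.ofFn z).count true = hF n).card : ℝ) ≤
      (((Finset.univ : Finset (Fin (lF n) → Bool)).filter fun β =>
        vb n (List.ofFn β) = true).card : ℝ) := by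
    exact_mod_cast OBP_V n
  have h6 := aI_nonneg (g x)
  have h7 : (0:ℝ) < 2 ^ n := by positivity
  have h8 : (2:ℝ) ^ n * (((Finset.univ : Finset (Fin (lF n) → Bool)).filter fun β =>
        vb n (List.ofFn β) = true ∧ vec n ((List.ofFn β).drop 2) = x).card : ℝ) ≤
      2 * (((Finset.univ : Finset (Fin (lF n) → Bool)).filter fun β =>
        vb n (List.ofFn β) = true).card : ℝ) := by
    nlinarith
  calc (2:ℝ) ^ n * (aI (g x) * (((Finset.univ : Finset (Fin (lF n) → Bool)).filter fun β =>
        vb n (List.ofFn β) = true ∧ vec n ((List.ofFn β).drop 2) = x).card : ℝ))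
      = aI (g x) * ((2:ℝ) ^ n * (((Finset.univ : Finset (Fin (lF n) → Bool)).filter fun β =>
        vb n (List.ofFn β) = true ∧ vec n ((List.ofFn β).drop 2) = x).card : ℝ)) := by ring
    _ ≤ aI (g x) * (2 * (((Finset.univ : Finset (Fin (lF n) → Bool)).filter fun β =>
        vb n (List.ofFn β) = true).card : ℝ)) := mul_le_mul_of_nonneg_left h8 h6
    _ = _ := by ring

/-- the event that the first valid block is number `i`, by blocks -/
private theorem OBP_fv_upd {n i : ℕ} (hi : i < kF n) (X : Fin (kF n * lF n) → Bool)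
    (β : Fin (lF n) → Bool) :
    aI (decide (fv n (List.ofFn (OBP_upd i X β)) = some i)) =
      aI (decide (∀ j, j < i → vb n (bk n j (List.ofFn X)) = false)) *
        aI (vb n (List.ofFn β)) := by
  have h1 : fv n (List.ofFn (OBP_upd i X β)) = some i ↔
      (∀ j, j < i → vb n (bk n j (List.ofFn X)) = false) ∧ vb n (List.ofFn β) = true := by
    rw [OBP_fv, OBP_bk_eq hi]
    constructor
    · rintro ⟨-, h2, h3⟩
      refine ⟨fun j hj => ?_, h2⟩
      rw [← OBP_bk_ne (ne_of_lt hj) X β]
      exact h3 j hj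
    · rintro ⟨h2, h3⟩
      refine ⟨hi, h3, fun j hj => ?_⟩
      rw [OBP_bk_ne (ne_of_lt hj) X β]
      exact h2 j hj
  unfold aI
  by_cases h2 : ∀ j, j < i → vb n (bk n j (List.ofFn X)) = false
  · by_cases h3 : vb n (List.ofFn β) = true
    · simp [h1, h2, h3]
    · simp [h1, h3]
  · simp [h1, h2]

/-- the sum for the block number `i` -/
private theorem OBP_i (h : S_OBN) {n t : ℕ} (hn : 1 ≤ n)
    (good : (Fin n → Bool) → ℕ → (Fin (kF n * lF n) → Bool) → (Fin t → Bool) → Bool)
    (hg : ∀ x i X X' w, (∀ l, l ≠ i → bk n l (List.ofFn X) = bk n l (List.ofFn X')) →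
      good x i X w = good x i X' w) {i : ℕ} (hi : i < kF n) (w : Fin t → Bool) :
    (2:ℝ) ^ n * ∑ X : Fin (kF n * lF n) → Bool, aI (decide (fv n (List.ofFn X) = some i)) *
      aI (good (vec n ((bk n i (List.ofFn X)).drop 2)) i X w) ≤
    2 * ∑ x, ∑ X : Fin (kF n * lF n) → Bool, aI (decide (fv n (List.ofFn X) = some i)) *
      aI (good x i X w) := by
  have hpos : (0:ℝ) < 2 ^ (lF n) := by positivity
  have e1 := OBP_avg i hi (fun X : Fin (kF n * lF n) → Bool =>
    aI (decide (fv n (List.ofFn X) = some i)) *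
      aI (good (vec n ((bk n i (List.ofFn X)).drop 2)) i X w))
  have e2 : ∀ x, _ := fun x => OBP_avg i hi (fun X : Fin (kF n * lF n) → Bool =>
    aI (decide (fv n (List.ofFn X) = some i)) * aI (good x i X w))
  have hgood : ∀ x X (β : Fin (lF n) → Bool), good x i (OBP_upd i X β) w = good x i X w := by
    intro x X β
    exact hg x i _ _ w (fun l hl => OBP_bk_ne hl X β)
  refine le_of_mul_le_mul_left ?_ hpos
  calc (2:ℝ) ^ lF n * (2 ^ n * ∑ X : Fin (kF n * lF n) → Bool,
        aI (decide (fv n (List.ofFn X) = some i)) *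
        aI (good (vec n ((bk n i (List.ofFn X)).drop 2)) i X w))
      = 2 ^ n * ((2:ℝ) ^ lF n * ∑ X : Fin (kF n * lF n) → Bool,
        aI (decide (fv n (List.ofFn X) = some i)) *
        aI (good (vec n ((bk n i (List.ofFn X)).drop 2)) i X w)) := by ring
    _ = 2 ^ n * ∑ X : Fin (kF n * lF n) → Bool, ∑ β : Fin (lF n) → Bool,
        aI (decide (∀ j, j < i → vb n (bk n j (List.ofFn X)) = false)) *
        (aI (vb n (List.ofFn β)) * aI (good (vec n ((List.ofFn β).drop 2)) i X w)) := by
        rw [e1]
        congr 1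
        apply Finset.sum_congr rfl
        intro X _
        apply Finset.sum_congr rfl
        intro β _
        rw [OBP_fv_upd hi, OBP_bk_eq hi, hgood]
        ring
    _ = ∑ X : Fin (kF n * lF n) → Bool,
        aI (decide (∀ j, j < i → vb n (bk n j (List.ofFn X)) = false)) *
        (2 ^ n * ∑ β : Fin (lF n) → Bool,
          aI (vb n (List.ofFn β)) * aI (good (vec n ((List.ofFn β).drop 2)) i X w)) := by
        rw [Finset.mul_sum]
        apply Finset.sum_congr rfl
        intro X _
        rw [← Finset.mul_sum]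
        ring
    _ ≤ ∑ X : Fin (kF n * lF n) → Bool,
        aI (decide (∀ j, j < i → vb n (bk n j (List.ofFn X)) = false)) *
        (2 * ∑ x, ∑ β : Fin (lF n) → Bool, aI (vb n (List.ofFn β)) * aI (good x i X w)) := by
        apply Finset.sum_le_sum
        intro X _
        exact mul_le_mul_of_nonneg_left (OBP_one h hn (fun x => good x i X w)) (aI_nonneg _)
    _ = 2 * ∑ x, ∑ X : Fin (kF n * lF n) → Bool, ∑ β : Fin (lF n) → Bool,
        aI (decide (∀ j, j < i → vb n (bk n j (List.ofFn X)) = false)) *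
        (aI (vb n (List.ofFn β)) * aI (good x i X w)) := by
        rw [Finset.sum_comm, Finset.mul_sum]
        apply Finset.sum_congr rfl
        intro X _
        rw [Finset.mul_sum, Finset.mul_sum, Finset.mul_sum]
        apply Finset.sum_congr rfl
        intro x _
        rw [← Finset.mul_sum]
        ring
    _ = 2 * ∑ x, ((2:ℝ) ^ lF n * ∑ X : Fin (kF n * lF n) → Bool,
        aI (decide (fv n (List.ofFn X) = some i)) * aI (good x i X w)) := by
        congr 1
        apply Finset.sum_congr rfl
        intro x _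
        rw [e2 x]
        apply Finset.sum_congr rfl
        intro X _
        apply Finset.sum_congr rfl
        intro β _
        rw [OBP_fv_upd hi, hgood]
        ring
    _ = (2:ℝ) ^ lF n * (2 * ∑ x, ∑ X : Fin (kF n * lF n) → Bool,
        aI (decide (fv n (List.ofFn X) = some i)) * aI (good x i X w)) := by
        rw [← Finset.mul_sum]
        ring

private theorem OBP_match {n : ℕ} (X : List Bool) (G : ℕ → Bool) :
    aI (match fv n X with
      | some i => G i
      | none => false) =
    ∑ i ∈ Finset.range (kF n), aI (decide (fv n X = some i)) * aI (G i) := by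
  rcases hX : fv n X with _ | i
  · simp only [reduceCtorEq, decide_false]
    unfold aI
    simp
  · have hi : i < kF n := ((OBP_fv X).mp hX).1
    rw [Finset.sum_eq_single i]
    · simp [aI]
    · intro j _ hj
      have : ¬ (some i = some j) := by
        intro hc
        exact hj (Option.some.inj hc).symm
      unfold aI
      simp [this]
    · intro hc
      exact absurd (Finset.mem_range.mpr hi) hc

/-- the probabilities in the reduction -/
theorem t_OBP (h : S_OBN) : S_OBP := by
  intro f n t hn good hg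
  have e1 : ∀ w : (Fin (kF n * lF n) → Bool) × (Fin t → Bool),
      aI (match fv n (List.ofFn w.1) with
        | some i => good (vec n ((bk n i (List.ofFn w.1)).drop 2)) i w.1 w.2
        | none => false) =
      ∑ i ∈ Finset.range (kF n), aI (decide (fv n (List.ofFn w.1) = some i)) *
        aI (good (vec n ((bk n i (List.ofFn w.1)).drop 2)) i w.1 w.2) := fun w =>
    OBP_match (List.ofFn w.1) (fun i => good (vec n ((bk n i (List.ofFn w.1)).drop 2)) i w.1 w.2)
  have e2 : ∀ w : (Fin n → Bool) × (Fin (kF n * lF n) → Bool) × (Fin t → Bool),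
      aI (match fv n (List.ofFn w.2.1) with
        | some i => good w.1 i w.2.1 w.2.2
        | none => false) =
      ∑ i ∈ Finset.range (kF n), aI (decide (fv n (List.ofFn w.2.1) = some i)) *
        aI (good w.1 i w.2.1 w.2.2) := fun w =>
    OBP_match (List.ofFn w.2.1) (fun i => good w.1 i w.2.1 w.2.2)
  suffices hmain : (∑ w : (Fin (kF n * lF n) → Bool) × (Fin t → Bool),
      ∑ i ∈ Finset.range (kF n), aI (decide (fv n (List.ofFn w.1) = some i)) *
        aI (good (vec n ((bk n i (List.ofFn w.1)).drop 2)) i w.1 w.2)) /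
        (Fintype.card ((Fin (kF n * lF n) → Bool) × (Fin t → Bool)) : ℝ) ≤
      2 * ((∑ w : (Fin n → Bool) × (Fin (kF n * lF n) → Bool) × (Fin t → Bool),
      ∑ i ∈ Finset.range (kF n), aI (decide (fv n (List.ofFn w.2.1) = some i)) *
        aI (good w.1 i w.2.1 w.2.2)) /
        (Fintype.card ((Fin n → Bool) × (Fin (kF n * lF n) → Bool) × (Fin t → Bool)) : ℝ)) by
    refine le_of_eq_of_le ?_ (hmain.trans (le_of_eq ?_))
    · rw [pr_sum]
      congr 1
      exact Finset.sum_congr rfl (fun w _ => e1 w)
    · rw [pr_sum]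
      congr 2
      exact (Finset.sum_congr rfl (fun w _ => e2 w)).symm
  have s1 : ∑ w : (Fin (kF n * lF n) → Bool) × (Fin t → Bool),
      ∑ i ∈ Finset.range (kF n), aI (decide (fv n (List.ofFn w.1) = some i)) *
        aI (good (vec n ((bk n i (List.ofFn w.1)).drop 2)) i w.1 w.2) =
      ∑ i ∈ Finset.range (kF n), ∑ w : Fin t → Bool, ∑ X : Fin (kF n * lF n) → Bool,
        aI (decide (fv n (List.ofFn X) = some i)) *
        aI (good (vec n ((bk n i (List.ofFn X)).drop 2)) i X w) := by
    rw [Finset.sum_comm]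
    apply Finset.sum_congr rfl
    intro i _
    rw [Fintype.sum_prod_type, Finset.sum_comm]
  have s2 : ∑ w : (Fin n → Bool) × (Fin (kF n * lF n) → Bool) × (Fin t → Bool),
      ∑ i ∈ Finset.range (kF n), aI (decide (fv n (List.ofFn w.2.1) = some i)) *
        aI (good w.1 i w.2.1 w.2.2) =
      ∑ i ∈ Finset.range (kF n), ∑ w : Fin t → Bool, ∑ x, ∑ X : Fin (kF n * lF n) → Bool,
        aI (decide (fv n (List.ofFn X) = some i)) * aI (good x i X w) := by
    rw [Finset.sum_comm]
    apply Finset.sum_congr rfl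
    intro i _
    rw [Fintype.sum_prod_type]
    have e3 : ∀ x : Fin n → Bool, ∑ p : (Fin (kF n * lF n) → Bool) × (Fin t → Bool),
        aI (decide (fv n (List.ofFn p.1) = some i)) * aI (good x i p.1 p.2) =
        ∑ w : Fin t → Bool, ∑ X : Fin (kF n * lF n) → Bool,
          aI (decide (fv n (List.ofFn X) = some i)) * aI (good x i X w) := by
      intro x
      rw [Fintype.sum_prod_type, Finset.sum_comm]
    rw [Finset.sum_congr rfl (fun x _ => e3 x), Finset.sum_comm]
  rw [s1, s2]
  have s3 : (2:ℝ) ^ n * ∑ i ∈ Finset.range (kF n), ∑ w : Fin t → Bool,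
      ∑ X : Fin (kF n * lF n) → Bool, aI (decide (fv n (List.ofFn X) = some i)) *
        aI (good (vec n ((bk n i (List.ofFn X)).drop 2)) i X w) ≤
      2 * ∑ i ∈ Finset.range (kF n), ∑ w : Fin t → Bool, ∑ x,
        ∑ X : Fin (kF n * lF n) → Bool,
        aI (decide (fv n (List.ofFn X) = some i)) * aI (good x i X w) := by
    rw [Finset.mul_sum, Finset.mul_sum]
    apply Finset.sum_le_sum
    intro i hi
    rw [Finset.mul_sum, Finset.mul_sum]
    apply Finset.sum_le_sum
    intro w _
    exact OBP_i h hn good hg (Finset.mem_range.mp hi) w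
  have c1 : (Fintype.card ((Fin n → Bool) × (Fin (kF n * lF n) → Bool) × (Fin t → Bool)) : ℝ) =
      2 ^ n * Fintype.card ((Fin (kF n * lF n) → Bool) × (Fin t → Bool)) := by
    rw [Fintype.card_prod]
    push_cast
    congr 1
    simp
  rw [c1]
  have hcpos : (0:ℝ) < Fintype.card ((Fin (kF n * lF n) → Bool) × (Fin t → Bool)) := by
    exact_mod_cast Fintype.card_pos
  have h2n : (0:ℝ) < 2 ^ n := by positivity
  rw [div_le_iff₀ hcpos]
  rw [mul_div_assoc', div_mul_eq_mul_div, le_div_iff₀ (by positivity)]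
  nlinarith

end Pool.Agent.H547S1
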