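import Pool.Agent.H547S1.Stm

/-!
# Task OBT: the one-way function in polynomial time
-/

set_option autoImplicit false

namespace Pool.Agent.H547S1

open Pool.Agent.H547R6 Pool.Agent.H547R7 Pool.Agent.H547R8 Pool.Agent.NPC Pool.Agent.H583R2
open Pool.Agent.H545R2.KS

section
variable {α : Type} [H583R2.TEnc α]

theorem OBT_zw {g : α → Bool → Bool → Bool} {u v : α → List Bool}
    (hg : PF (fun p : α × (Bool × Bool) => g p.1 p.2.1 p.2.2)) (hu : PF u) (hv : PF v) :
    PF (fun a => List.zipWith (g a) (u a) (v a)) := by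
  have h1 : PF (fun a => (List.range (min (u a).length (v a).length)).map
      fun i => g a ((u a).getD i false) ((v a).getD i false)) :=
    PF.map (f := fun a i => g a ((u a).getD i false) ((v a).getD i false))
      (PF.range (PF.min (PF.length hu) (PF.length hv)))
      (hg.comp (PF.pair PF.fst (PF.pair
        (PF.listGetD PF.snd (hu.comp PF.fst) (PF.const false))
        (PF.listGetD PF.snd (hv.comp PF.fst) (PF.const false)))))
  refine h1.congr fun a => ?_
  apply List.ext_getElem
  · simp
  · intro i h2 h3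
    simp only [List.length_map, List.length_range, lt_min_iff] at h2
    simp only [List.getElem_map, List.getElem_range, List.getElem_zipWith]
    rw [List.getD_eq_getElem _ _ h2.1, List.getD_eq_getElem _ _ h2.2]

theorem OBT_Tf (τ : Fin 3) {y₀ y₁ c c' : α → Bool} (h0 : PF y₀) (h1 : PF y₁) (hc : PF c)
    (hc' : PF c') : PF (fun a => Tf τ (y₀ a) (y₁ a) (c a) (c' a)) := by
  fin_cases τ
  · refine (PF.or h0 (PF.and h1 hc)).congr fun a => ?_
    simp [Tf]
  · refine (PF.and h1 (PF.or h0 hc)).congr fun a => ?_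
    simp [Tf]
  · refine (PF.or (PF.and h0 h1) (PF.and (PF.not (PF.beqBool h0 h1))
      (PF.or (PF.and h1 hc) (PF.and (PF.not h1) (PF.not hc'))))).congr fun a => ?_
    simp only [Tf]
    cases y₀ a <;> cases y₁ a <;> cases c a <;> cases c' a <;> decide

theorem OBT_cpl {u : α → List Bool} (hu : PF u) : PF (fun a => cpl (u a)) := by
  unfold cpl
  exact PF.map (f := fun _ b => !b) hu (PF.not PF.snd)

theorem OBT_count {u : α → List Bool} (hu : PF u) : PF (fun a => (u a).count true) := by
  refine (PF.length (PF.filter (f := fun _ b => b) hu PF.snd)).congr fun a => ?_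
  rw [List.count_eq_length_filter]
  congr 1
  apply List.filter_congr
  intro b _
  cases b <;> rfl

theorem OBT_fbar {K : α → ℕ} {v : α → List Bool} (hK : PF K) (hv : PF v) :
    PF (fun a => fbar (K a) (v a)) := by
  unfold fbar
  exact PF.cons (PF.const true) (pf_pairBits hv (PF.replicate
    (PF.mul (PF.const 2) (PF.sub hK (PF.length hv))) (PF.const false)))

theorem OBT_mid {f : List Bool → List Bool} (hf : PF f) {K n h : α → ℕ} {z : α → List Bool}
    (hK : PF K) (hn : PF n) (hh : PF h) (hz : PF z) :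
    PF (fun a => midL f (K a) (n a) (h a) (z a)) := by
  have hm : PF (fun a => 2 * K a + 2) := PF.add (PF.mul (PF.const 2) hK) (PF.const 2)
  refine (PF.ite (PF.lt hh (OBT_count hz)) (PF.replicate hm (PF.const true))
    (PF.ite (PF.natEq (OBT_count hz) hh) (OBT_fbar hK (hf.comp (PF.take hn hz)))
      (PF.replicate hm (PF.const false)))).congr fun a => ?_
  unfold midL
  simp only [decide_eq_true_eq]

theorem OBT_hF {n : α → ℕ} (hn : PF n) : PF (fun a => hF (n a)) := by
  unfold hF H547R9.hh
  exact PF.mul (PF.const 8) (pf_pow (PF.add hn (PF.const 1)) 2)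

theorem OBT_lF {n : α → ℕ} (hn : PF n) : PF (fun a => lF (n a)) := by
  unfold lF
  exact PF.add (PF.const 2) (PF.mul (PF.const 2) (OBT_hF hn))

theorem OBT_kF {n : α → ℕ} (hn : PF n) : PF (fun a => kF (n a)) := by
  unfold kF
  exact PF.mul (PF.mul (PF.const 4) hn) (PF.add (PF.mul (PF.const 2) (OBT_hF hn)) (PF.const 1))

theorem OBT_bk {n i : α → ℕ} {X : α → List Bool} (hn : PF n) (hi : PF i) (hX : PF X) :
    PF (fun a => bk (n a) (i a) (X a)) := by
  unfold bk
  exact PF.take (OBT_lF hn) (PF.drop (PF.mul hi (OBT_lF hn)) hX)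

theorem OBT_blkF (τ : Fin 3) {f : List Bool → List Bool} (hf : PF f) {K n : α → ℕ}
    {β : α → List Bool} (hK : PF K) (hn : PF n) (hβ : PF β) :
    PF (fun a => blkF τ f (K a) (n a) (β a)) := by
  have h0 : PF (fun a => (β a).getD 0 false) := PF.listGetD (PF.const 0) hβ (PF.const false)
  have h1 : PF (fun a => (β a).getD 1 false) := PF.listGetD (PF.const 1) hβ (PF.const false)
  have h2 : PF (fun a => (β a).drop 2) := PF.drop (PF.const 2) hβ
  unfold blkF
  refine PF.cons h0 (PF.cons h1 (OBT_zw ?_ (OBT_mid hf hK hn (OBT_hF hn) h2)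
    (OBT_mid hf hK hn (OBT_hF hn) (OBT_cpl h2))))
  exact OBT_Tf τ (h0.comp PF.fst) (h1.comp PF.fst) (PF.fst' PF.snd) (PF.snd' PF.snd)

theorem OBT_owF (τ : Fin 3) {f : List Bool → List Bool} (hf : PF f) {K n : α → ℕ}
    {X : α → List Bool} (hK : PF K) (hn : PF n) (hX : PF X) :
    PF (fun a => owF τ f (K a) (n a) (X a)) := by
  unfold owF
  exact PF.flatMap (f := fun a i => blkF τ f (K a) (n a) (bk (n a) i (X a))) (PF.range (OBT_kF hn))
    (OBT_blkF τ hf (hK.comp PF.fst) (hn.comp PF.fst)
      (OBT_bk (hn.comp PF.fst) PF.snd (hX.comp PF.fst)))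

end

theorem t_OBT : S_OBT := by
  intro τ f K hf
  have hn : PF (fun z : List Bool => (spl z).1.length) := PF.length (PF.fst' (PF.spl PF.id))
  refine ⟨fun z => owF τ f (K.eval (spl z).1.length) (spl z).1.length (spl z).2,
    polyTime_of_pf (OBT_owF τ (pf_of_polyTime hf) (pf_eval hn K) hn (PF.snd' (PF.spl PF.id))),
    fun n X => ?_⟩
  simp only [spl_pairBits]
  unfold ones
  rw [List.length_replicate]

end Pool.Agent.H547S1
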