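import Pool.Agent.H547S1.T_OCO

/-!
# No one-way functions over disjunctions
-/

set_option autoImplicit false

namespace Pool.Agent.H547S1

open Pool.Agent.H547R6 Pool.Agent.H547R7 Pool.Agent.H547R8 Pool.Agent.H547R9 Pool.Agent.NPC
open Pool.Agent.H583R2 Pool.Agent.H545R2.KS

theorem t_ODI (_h1 : S_NEG) (h2 : S_GL3) : S_ODI := by
  intro B hB hO
  obtain ⟨f, e, q, m, hf, hlen, hcomp, hinv⟩ := hO
  refine OCO_neg (OCO_A f e false true false) ?_
    (hinv _ 0 (polyTime_of_pf (OCO_pf_A hf e false true false)))
  intro n hn xs r
  refine ⟨_, OCO_A_eq f e false true false n _ r, ?_⟩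
  have hF : ∀ j, j < m n → ∀ x y : Fin (e.eval n) → Bool,
      (f (pairBits (ones n) (List.ofFn fun i => x i || y i))).getD j false =
      ((f (pairBits (ones n) (List.ofFn x))).getD j false ||
        (f (pairBits (ones n) (List.ofFn y))).getD j false) := by
    intro j hj
    exact h2 B Disj (Or.inr (Or.inr (Or.inl rfl))) hB _ _ _ (hcomp n hn j hj)
  have hG : ∀ j, j < m n → ∀ x y : Fin (e.eval n) → Bool,
      (!(f (pairBits (ones n) (List.ofFn fun i => !(x i && y i)))).getD j false) =
      ((!(f (pairBits (ones n) (List.ofFn fun i => !x i))).getD j false) &&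
        (!(f (pairBits (ones n) (List.ofFn fun i => !y i))).getD j false)) := by
    intro j hj x y
    have h3 : (fun i => !(x i && y i)) = fun i => (!x i) || (!y i) := by
      funext i
      exact Bool.not_and _ _
    rw [h3, hF j hj, Bool.not_or]
  refine OCO_ext (hlen n hn _) (hlen n hn xs) ?_
  have hc := OCO_core (m := m n)
    (fun j (x : Fin (e.eval n) → Bool) =>
      !(f (pairBits (ones n) (List.ofFn fun i => !x i))).getD j false) hG (fun i => !xs i)
    (fun i : Fin (e.eval n) => OCO_b f false true (e.eval n) n
      (f (pairBits (ones n) (List.ofFn xs))) i.val) ?_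
  · intro j hj
    have h4 := hc j hj
    have h5 : (fun i : Fin (e.eval n) => !(!xs i)) = xs := by
      funext i
      exact Bool.not_not _
    have h6 : (fun i : Fin (e.eval n) => (OCO_b f false true (e.eval n) n
        (f (pairBits (ones n) (List.ofFn xs))) i.val == false)) =
        fun i : Fin (e.eval n) => !(OCO_b f false true (e.eval n) n
        (f (pairBits (ones n) (List.ofFn xs))) i.val) := by
      funext i
      exact beq_false _
    rw [h6]
    simp only [h5] at h4
    exact Bool.not_inj h4
  · intro i
    rw [OCO_b_iff, hlen n hn xs]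
    have e1 : (fun j : Fin (e.eval n) => (true == decide (j = i))) =
        fun j => !(PA2_z i j) := by
      funext j
      simp [PA2_z]
    have e2 : (fun i : Fin (e.eval n) => !(!xs i)) = xs := by
      funext i
      exact Bool.not_not _
    rw [e1]
    simp only [e2]
    simp

end Pool.Agent.H547S1
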