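import Pool.Agent.H547S1.Stm

/-!
# The inverter in polynomial time
-/

set_option autoImplicit false

namespace Pool.Agent.H547S1

open Pool.Agent.H547R6 Pool.Agent.H547R7 Pool.Agent.H547R8 Pool.Agent.H583R2
open Pool.Agent.H545R2.KS
open Pool.Agent.NPC (PolyTime pairBits)

/-! ### closure properties -/

section

variable {α : Type} [TEnc α]

theorem OIT_boolEq {b c : α → Bool} (hb : PF b) (hc : PF c) :
    PF (fun a => decide (b a = c a)) :=
  (PF.beqBool hb hc).congr fun a => by
    cases b a <;> cases c a <;> rfl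

theorem OIT_ite {β : Type} [TEnc β] {p : α → Prop} [∀ a, Decidable (p a)] {f g : α → β}
    (hp : PF (fun a => decide (p a))) (hf : PF f) (hg : PF g) :
    PF (fun a => if p a then f a else g a) :=
  (PF.ite hp hf hg).congr fun a => by
    by_cases h : p a
    · simp [h]
    · simp [h]

theorem OIT_Tf (τ : Fin 3) {y₀ y₁ c c' : α → Bool} (h₀ : PF y₀) (h₁ : PF y₁) (hc : PF c)
    (hc' : PF c') : PF (fun a => Tf τ (y₀ a) (y₁ a) (c a) (c' a)) := by
  unfold Tf
  by_cases e0 : τ = 0
  · simp only [e0, if_true]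
    exact PF.or h₀ (PF.and h₁ hc)
  · by_cases e1 : τ = 1
    · simp only [e1, if_true]
      exact PF.and h₁ (PF.or h₀ hc)
    · simp only [e0, e1, if_false]
      exact OIT_ite (OIT_boolEq h₀ h₁) h₀
        (OIT_ite (OIT_boolEq h₁ (PF.const true)) hc (PF.not hc'))

theorem OIT_zipWith (g : Bool → Bool → Bool) (u v : List Bool) :
    (List.range (min u.length v.length)).map (fun j => g (u.getD j false) (v.getD j false)) =
      List.zipWith g u v := by
  apply List.ext_getElem
  · simp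
  · intro i h1 h2
    simp at h1
    simp [List.getElem?_eq_getElem h1.1, List.getElem?_eq_getElem h1.2]

theorem OIT_zip (τ : Fin 3) {y₀ y₁ : α → Bool} {u v : α → List Bool} (h₀ : PF y₀) (h₁ : PF y₁)
    (hu : PF u) (hv : PF v) :
    PF (fun a => List.zipWith (Tf τ (y₀ a) (y₁ a)) (u a) (v a)) := by
  refine (PF.map (l := fun a => List.range (min (u a).length (v a).length))
    (f := fun a j => Tf τ (y₀ a) (y₁ a) ((u a).getD j false) ((v a).getD j false))
    (PF.range (PF.min (PF.length hu) (PF.length hv))) ?_).congr fun a => OIT_zipWith _ _ _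
  exact OIT_Tf τ (h₀.comp PF.fst) (h₁.comp PF.fst)
    (PF.listGetD PF.snd (hu.comp PF.fst) (PF.const false))
    (PF.listGetD PF.snd (hv.comp PF.fst) (PF.const false))

theorem OIT_count {z : α → List Bool} (hz : PF z) : PF (fun a => (z a).count true) := by
  refine (PF.length (PF.filter (f := fun _ c => c) hz PF.snd)).congr fun a => ?_
  rw [List.count_eq_length_filter]
  congr 2
  funext b
  cases b <;> rfl

theorem OIT_cpl {z : α → List Bool} (hz : PF z) : PF (fun a => cpl (z a)) :=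
  PF.map (f := fun _ b => !b) hz (PF.not PF.snd)

theorem OIT_fbar {K : α → ℕ} {v : α → List Bool} (hK : PF K) (hv : PF v) :
    PF (fun a => fbar (K a) (v a)) :=
  PF.cons (PF.const true) (pf_pairBits hv
    (PF.replicate (PF.mul (PF.const 2) (PF.sub hK (PF.length hv))) (PF.const false)))

theorem OIT_midL {f : List Bool → List Bool} (hf : PF f) {K n h : α → ℕ} {z : α → List Bool}
    (hK : PF K) (hn : PF n) (hh : PF h) (hz : PF z) :
    PF (fun a => midL f (K a) (n a) (h a) (z a)) := by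
  unfold midL
  have hr : ∀ b : Bool, PF (fun a => List.replicate (2 * K a + 2) b) := fun b =>
    PF.replicate (PF.add (PF.mul (PF.const 2) hK) (PF.const 2)) (PF.const b)
  exact OIT_ite (PF.lt hh (OIT_count hz)) (hr true)
    (OIT_ite (PF.natEq (OIT_count hz) hh) (OIT_fbar hK (hf.comp (PF.take hn hz))) (hr false))

theorem OIT_hF {n : α → ℕ} (hn : PF n) : PF (fun a => hF (n a)) := by
  unfold hF H547R9.hh
  exact PF.mul (PF.const 8) (pf_pow (PF.succ hn) 2)

theorem OIT_lF {n : α → ℕ} (hn : PF n) : PF (fun a => lF (n a)) :=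
  PF.add (PF.const 2) (PF.mul (PF.const 2) (OIT_hF hn))

theorem OIT_kF {n : α → ℕ} (hn : PF n) : PF (fun a => kF (n a)) :=
  PF.mul (PF.mul (PF.const 4) hn) (PF.add (PF.mul (PF.const 2) (OIT_hF hn)) (PF.const 1))

theorem OIT_blkF (τ : Fin 3) {f : List Bool → List Bool} (hf : PF f) {K n : α → ℕ}
    {z : α → List Bool} (hK : PF K) (hn : PF n) (hz : PF z) :
    PF (fun a => blkF τ f (K a) (n a) (z a)) := by
  have h0 : PF (fun a => (z a).getD 0 false) := PF.listGetD (PF.const 0) hz (PF.const false)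
  have h1 : PF (fun a => (z a).getD 1 false) := PF.listGetD (PF.const 1) hz (PF.const false)
  have hd : PF (fun a => (z a).drop 2) := PF.drop (PF.const 2) hz
  exact PF.cons h0 (PF.cons h1 (OIT_zip τ h0 h1 (OIT_midL hf hK hn (OIT_hF hn) hd)
    (OIT_midL hf hK hn (OIT_hF hn) (OIT_cpl hd))))

theorem OIT_bk {n i : α → ℕ} {z : α → List Bool} (hn : PF n) (hi : PF i) (hz : PF z) :
    PF (fun a => bk (n a) (i a) (z a)) :=
  PF.take (OIT_lF hn) (PF.drop (PF.mul hi (OIT_lF hn)) hz)

theorem OIT_vb {n : α → ℕ} {z : α → List Bool} (hn : PF n) (hz : PF z) :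
    PF (fun a => vb (n a) (z a)) :=
  PF.and (PF.and (PF.not (PF.listGetD (PF.const 0) hz (PF.const false)))
    (PF.listGetD (PF.const 1) hz (PF.const false)))
    (PF.natEq (OIT_count (PF.drop (PF.const 2) hz)) (OIT_hF hn))

theorem OIT_fv {n : α → ℕ} {z : α → List Bool} (hn : PF n) (hz : PF z) :
    PF (fun a => fv (n a) (z a)) :=
  PF.find (f := fun a i => vb (n a) (bk (n a) i (z a))) (PF.range (OIT_kF hn))
    (OIT_vb (hn.comp PF.fst) (OIT_bk (hn.comp PF.fst) PF.snd (hz.comp PF.fst)))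

theorem OIT_plant (τ : Fin 3) {f : List Bool → List Bool} (hf : PF f) {K n i : α → ℕ}
    {v z : α → List Bool} (hK : PF K) (hn : PF n) (hi : PF i) (hv : PF v) (hz : PF z) :
    PF (fun a => plant τ f (K a) (n a) (i a) (v a) (z a)) :=
  PF.flatMap (f := fun a l =>
      if l = i a then false :: true :: fbar (K a) (v a) else blkF τ f (K a) (n a) (bk (n a) l (z a)))
    (PF.range (OIT_kF hn))
    (OIT_ite (PF.natEq PF.snd (hi.comp PF.fst))
      (PF.cons (PF.const false) (PF.cons (PF.const true)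
        (OIT_fbar (hK.comp PF.fst) (hv.comp PF.fst))))
      (OIT_blkF τ hf (hK.comp PF.fst) (hn.comp PF.fst)
        (OIT_bk (hn.comp PF.fst) PF.snd (hz.comp PF.fst))))

end

/-! ### the inverter -/

/-- the security parameter -/
def OIT_n (z : List Bool) : ℕ := (spl z).1.length

/-- the value of the function -/
def OIT_v (z : List Bool) : List Bool := (spl (spl z).2).1

/-- the blocks -/
def OIT_X (z : List Bool) : List Bool :=
  ((spl (spl z).2).2).take (kF (OIT_n z) * lF (OIT_n z))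

/-- the coins -/
def OIT_w (z : List Bool) : List Bool :=
  ((spl (spl z).2).2).drop (kF (OIT_n z) * lF (OIT_n z))

/-- the inverter -/
def OIT_A (τ : Fin 3) (f : List Bool → List Bool) (K : Polynomial ℕ)
    (A : List Bool → List Bool) (z : List Bool) : List Bool :=
  match fv (OIT_n z) (OIT_X z) with
  | none => []
  | some i => ((bk (OIT_n z) i (A (c3 (List.replicate (OIT_n z) true)
      (plant τ f (K.eval (OIT_n z)) (OIT_n z) i (OIT_v z) (OIT_X z)) (OIT_w z)))).drop 2).take
      (OIT_n z)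

theorem OIT_pf_n : PF OIT_n := PF.length (PF.fst' (PF.spl PF.id))

theorem OIT_pf_v : PF OIT_v := PF.fst' (PF.spl (PF.snd' (PF.spl PF.id)))

theorem OIT_pf_X : PF OIT_X :=
  PF.take (PF.mul (OIT_kF OIT_pf_n) (OIT_lF OIT_pf_n)) (PF.snd' (PF.spl (PF.snd' (PF.spl PF.id))))

theorem OIT_pf_w : PF OIT_w :=
  PF.drop (PF.mul (OIT_kF OIT_pf_n) (OIT_lF OIT_pf_n)) (PF.snd' (PF.spl (PF.snd' (PF.spl PF.id))))

theorem OIT_pf_A (τ : Fin 3) {f : List Bool → List Bool} (K : Polynomial ℕ)
    {A : List Bool → List Bool} (hf : PF f) (hA : PF A) : PF (OIT_A τ f K A) := by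
  have hn : PF (fun p : List Bool × ℕ => OIT_n p.1) := OIT_pf_n.comp PF.fst
  have hX : PF (fun p : List Bool × ℕ => OIT_X p.1) := OIT_pf_X.comp PF.fst
  have hv : PF (fun p : List Bool × ℕ => OIT_v p.1) := OIT_pf_v.comp PF.fst
  have hw : PF (fun p : List Bool × ℕ => OIT_w p.1) := OIT_pf_w.comp PF.fst
  have hp : PF (fun p : List Bool × ℕ =>
      plant τ f (K.eval (OIT_n p.1)) (OIT_n p.1) p.2 (OIT_v p.1) (OIT_X p.1)) :=
    OIT_plant τ hf (pf_eval hn K) hn PF.snd hv hX
  have hc : PF (fun p : List Bool × ℕ => c3 (List.replicate (OIT_n p.1) true)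
      (plant τ f (K.eval (OIT_n p.1)) (OIT_n p.1) p.2 (OIT_v p.1) (OIT_X p.1)) (OIT_w p.1)) :=
    pf_pairBits (PF.replicate hn (PF.const true)) (pf_pairBits hp hw)
  have hm : PF (fun p : List Bool × ℕ => ((bk (OIT_n p.1) p.2
      (A (c3 (List.replicate (OIT_n p.1) true)
      (plant τ f (K.eval (OIT_n p.1)) (OIT_n p.1) p.2 (OIT_v p.1) (OIT_X p.1))
      (OIT_w p.1)))).drop 2).take (OIT_n p.1)) :=
    PF.take hn (PF.drop (PF.const 2) (OIT_bk hn PF.snd (hA.comp hc)))
  refine (PF.optCase (l := fun z => fv (OIT_n z) (OIT_X z)) (g := fun _ => ([] : List Bool))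
    (h := fun z i => ((bk (OIT_n z) i (A (c3 (List.replicate (OIT_n z) true)
      (plant τ f (K.eval (OIT_n z)) (OIT_n z) i (OIT_v z) (OIT_X z)) (OIT_w z)))).drop 2).take
      (OIT_n z)) (OIT_fv OIT_pf_n OIT_pf_X) (PF.const []) hm).congr fun z => ?_
  unfold OIT_A
  cases fv (OIT_n z) (OIT_X z) <;> rfl

theorem t_OIT : S_OIT := by
  intro τ f K t A hf hA
  refine ⟨OIT_A τ f K A, polyTime_of_pf (OIT_pf_A τ K (pf_of_polyTime hf) (pf_of_polyTime hA)),
    ?_⟩
  intro n i v X w hX _ hi
  have e1 : OIT_n (c3 (ones n) v (X ++ w)) = n := by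
    unfold OIT_n c3 ones
    rw [spl_pairBits]
    exact List.length_replicate
  have e2 : OIT_v (c3 (ones n) v (X ++ w)) = v := by
    unfold OIT_v c3
    rw [spl_pairBits, spl_pairBits]
  have e3 : OIT_X (c3 (ones n) v (X ++ w)) = X := by
    unfold OIT_X
    rw [e1]
    unfold c3
    rw [spl_pairBits, spl_pairBits]
    exact List.take_left' hX
  have e4 : OIT_w (c3 (ones n) v (X ++ w)) = w := by
    unfold OIT_w
    rw [e1]
    unfold c3
    rw [spl_pairBits, spl_pairBits]
    exact List.drop_left' hX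
  unfold OIT_A
  rw [e1, e2, e3, e4, hi]
  rfl

end Pool.Agent.H547S1
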