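import Pool.Agent.H547S1.Stm

/-!
# From a family of one-way functions to a single one-way function
-/

set_option autoImplicit false

namespace Pool.Agent.H547S1

open Pool.Agent.H547R6 Pool.Agent.H547R7 Pool.Agent.H547R8 Pool.Agent.H583R2
open Pool.Agent.H545R2.KS
open Pool.Agent.NPC (PolyTime pairBits)

/-! ### probabilities -/

theorem OPL_pr_equiv {α β : Type} [Fintype α] [Fintype β] (e : α ≃ β) (p : β → Bool) :
    pr (fun w => p (e w)) = pr p := by
  unfold pr
  congr 1
  · have h : (Finset.univ.filter fun x => p (e x) = true).card =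
        (Finset.univ.filter fun x => p x = true).card := by
      rw [← Fintype.card_subtype, ← Fintype.card_subtype]
      exact Fintype.card_congr (e.subtypeEquiv fun _ => Iff.rfl)
    rw [h]
  · rw [Fintype.card_congr e]

theorem OPL_pr_fst {α β : Type} [Fintype α] [Fintype β] [Nonempty β] (p : α → Bool) :
    pr (fun w : α × β => p w.1) = pr p := by
  unfold pr
  have h : (Finset.univ.filter fun w : α × β => p w.1 = true) =
      (Finset.univ.filter fun x => p x = true) ×ˢ (Finset.univ : Finset β) := by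
    ext w
    simp
  rw [h, Finset.card_product, Finset.card_univ, Fintype.card_prod]
  push_cast
  have hb : (Fintype.card β : ℝ) ≠ 0 := by
    have : 0 < Fintype.card β := Fintype.card_pos
    positivity
  rw [mul_div_mul_right _ _ hb]

theorem OPL_restr {a N : ℕ} (h : a ≤ N) {β : Type} [Fintype β] (p : (Fin a → Bool) × β → Bool) :
    pr (fun w : (Fin N → Bool) × β => p (fun i => w.1 (Fin.castLE h i), w.2)) = pr p := by
  obtain ⟨b, rfl⟩ := Nat.exists_eq_add_of_le h
  let E : ((Fin a → Bool) × β) × (Fin b → Bool) ≃ (Fin (a + b) → Bool) × β :=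
    { toFun := fun z => (Fin.append z.1.1 z.2, z.1.2)
      invFun := fun w => ((fun i => w.1 (Fin.castAdd b i), w.2), fun i => w.1 (Fin.natAdd a i))
      left_inv := fun z => by simp
      right_inv := fun w => by simp [Fin.append_castAdd_natAdd] }
  rw [← OPL_pr_equiv E, ← OPL_pr_fst (β := Fin b → Bool) p]
  congr 1
  funext z
  have h1 : (fun i => (E z).1 (Fin.castLE h i)) = z.1.1 := by
    funext i
    exact Fin.append_left z.1.1 z.2 i
  have h2 : (E z).2 = z.1.2 := rfl
  rw [h1, h2]

theorem OPL_pr_mono {α : Type} [Fintype α] (p q : α → Bool) (h : ∀ x, p x = true → q x = true) :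
    pr p ≤ pr q := by
  unfold pr
  apply div_le_div_of_nonneg_right _ (Nat.cast_nonneg _)
  have : (Finset.univ.filter fun x => p x = true) ⊆ Finset.univ.filter fun x => q x = true := by
    intro x hx
    rw [Finset.mem_filter] at hx ⊢
    exact ⟨hx.1, h x hx.2⟩
  exact_mod_cast Finset.card_le_card this

theorem OPL_pr_nonneg {α : Type} [Fintype α] (p : α → Bool) : 0 ≤ pr p := by
  unfold pr
  positivity

theorem OPL_pr (a N tN s : ℕ) (h1 : a ≤ N) (h2 : tN ≤ s)
    (P : (Fin N → Bool) × (Fin tN → Bool) → Bool) (Q : (Fin a → Bool) × (Fin s → Bool) → Bool)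
    (h : ∀ X W, P (X, fun i => W (Fin.castLE h2 i)) = true →
      Q (fun i => X (Fin.castLE h1 i), W) = true) : pr P ≤ pr Q := by
  have e1 : pr P = pr (fun w : (Fin N → Bool) × (Fin s → Bool) =>
      P (w.1, fun i => w.2 (Fin.castLE h2 i))) := by
    rw [← OPL_pr_equiv (Equiv.prodComm _ _) P, ← OPL_restr h2]
    rw [← OPL_pr_equiv (Equiv.prodComm (Fin N → Bool) (Fin s → Bool))]
    rfl
  rw [e1, ← OPL_restr h1 Q]
  exact OPL_pr_mono _ _ fun w hw => h w.1 w.2 hw

/-! ### lists -/

theorem OPL_ofFn_take {a N : ℕ} (h : a ≤ N) (X : Fin N → Bool) :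
    List.ofFn (fun i => X (Fin.castLE h i)) = (List.ofFn X).take a := by
  apply List.ext_getElem
  · simp [h]
  · intro i h1 h2
    simp

/-- the value of the security parameter for the length `N` -/
def OPL_l (E : Polynomial ℕ) (N : ℕ) : ℕ :=
  ((List.range (N + 1)).filter fun i => decide (E.eval (i + 1) ≤ N)).length

theorem OPL_l_spec (E : Polynomial ℕ) (hE : ∀ n, n ≤ E.eval n) (N i : ℕ) :
    i < OPL_l E N ↔ E.eval (i + 1) ≤ N := by
  classical
  have hex : ∃ i, ¬ E.eval (i + 1) ≤ N := ⟨N, by have := hE (N + 1); omega⟩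
  set K := Nat.find hex with hK
  have hKN : K ≤ N := Nat.find_min' hex (by have := hE (N + 1); omega)
  have hiff : ∀ i, E.eval (i + 1) ≤ N ↔ i < K := by
    intro i
    constructor
    · intro hi
      by_contra hc
      have h1 := Nat.find_spec hex
      apply h1
      exact (eval_mono E (by omega : Nat.find hex + 1 ≤ i + 1)).trans hi
    · intro hi
      by_contra hc
      exact Nat.find_min hex hi hc
  have hl : OPL_l E N = K := by
    unfold OPL_l
    have h1 : ((List.range (N + 1)).filter fun i => decide (E.eval (i + 1) ≤ N)) =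
        (List.range (N + 1)).filter fun i => decide (i < K) := by
      apply List.filter_congr
      intro i _
      rw [decide_eq_decide]
      exact hiff i
    rw [h1]
    have h2 : ((List.range (N + 1)).filter fun i => decide (i < K)).length =
        ((Finset.range (N + 1)).filter fun i => i < K).card := rfl
    rw [h2]
    have h3 : ((Finset.range (N + 1)).filter fun i => i < K) = Finset.range K := by
      ext i
      simp only [Finset.mem_filter, Finset.mem_range]
      omega
    rw [h3, Finset.card_range]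
  rw [hl]
  exact (hiff i).symm

section
variable {α : Type} [TEnc α]

theorem OPL_pf_ones {n : α → ℕ} (hn : PF n) : PF (fun a => ones (n a)) :=
  PF.replicate hn (PF.const true)

theorem OPL_pf_c3 {x y z : α → List Bool} (hx : PF x) (hy : PF y) (hz : PF z) :
    PF (fun a => c3 (x a) (y a) (z a)) :=
  pf_pairBits hx (pf_pairBits hy hz)

theorem OPL_pf_l (E : Polynomial ℕ) {n : α → ℕ} (hn : PF n) : PF (fun a => OPL_l E (n a)) :=
  PF.length (PF.filter (f := fun a i => decide (E.eval (i + 1) ≤ n a)) (PF.range hn.succ)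
    (PF.le (pf_eval PF.snd.succ E) (hn.comp PF.fst)))

end

theorem OPL_c3_inj {x y z x' y' z' : List Bool} (h : c3 x y z = c3 x' y' z') :
    x = x' ∧ y = y' ∧ z = z' := by
  obtain ⟨h1, h2⟩ := pairBits_inj h
  obtain ⟨h3, h4⟩ := pairBits_inj h2
  exact ⟨h1, h3, h4⟩

theorem OPL_ones_inj {n m : ℕ} (h : ones n = ones m) : n = m := by
  have := congrArg List.length h
  simpa [ones] using this

/-- the single function -/
def OPL_F (f : List Bool → List Bool) (e E : Polynomial ℕ) (X : List Bool) : List Bool :=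
  c3 (ones X.length) (ones (OPL_l E X.length))
    (f (pairBits (ones (OPL_l E X.length)) (X.take (e.eval (OPL_l E X.length)))))

/-- the candidate -/
def OPL_cand (A : List Bool → List Bool) (t : Polynomial ℕ) (u : List Bool) (N : ℕ) : List Bool :=
  A (c3 (ones N) (c3 (ones N) (spl u).1 (spl (spl u).2).1) ((spl (spl u).2).2.take (t.eval N)))

/-- the test of the candidate -/
def OPL_ok (f A : List Bool → List Bool) (e E t : Polynomial ℕ) (u : List Bool) (N : ℕ) : Bool :=
  (decide ((OPL_cand A t u N).length = N) && decide (E.eval (spl u).1.length ≤ N)) &&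
    (f (pairBits (spl u).1 ((OPL_cand A t u N).take (e.eval (spl u).1.length))) ==
      (spl (spl u).2).1)

/-- the inverter -/
def OPL_A (f A : List Bool → List Bool) (e E t : Polynomial ℕ) (u : List Bool) : List Bool :=
  match (List.range (E.eval ((spl u).1.length + 1))).find? (OPL_ok f A e E t u) with
  | none => []
  | some N => (OPL_cand A t u N).take (e.eval (spl u).1.length)

theorem OPL_pf_F {f : List Bool → List Bool} (hf : PF f) (e E : Polynomial ℕ) :
    PF (OPL_F f e E) := by
  have hl : PF (fun X : List Bool => OPL_l E X.length) := OPL_pf_l E (PF.length PF.id)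
  exact OPL_pf_c3 (OPL_pf_ones (PF.length PF.id)) (OPL_pf_ones hl)
    (hf.comp (pf_pairBits (OPL_pf_ones hl) (PF.take (pf_eval hl e) PF.id)))

theorem OPL_pf_cand {A : List Bool → List Bool} (hA : PF A) (t : Polynomial ℕ) :
    PF (fun p : List Bool × ℕ => OPL_cand A t p.1 p.2) := by
  have hs : PF (fun p : List Bool × ℕ => spl p.1) := PF.spl PF.fst
  have hs2 : PF (fun p : List Bool × ℕ => spl (spl p.1).2) := PF.spl (PF.snd' hs)
  exact hA.comp (OPL_pf_c3 (OPL_pf_ones PF.snd)
    (OPL_pf_c3 (OPL_pf_ones PF.snd) (PF.fst' hs) (PF.fst' hs2))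
    (PF.take (pf_eval PF.snd t) (PF.snd' hs2)))

theorem OPL_pf_ok {f A : List Bool → List Bool} (hf : PF f) (hA : PF A) (e E t : Polynomial ℕ) :
    PF (fun p : List Bool × ℕ => OPL_ok f A e E t p.1 p.2) := by
  have hs : PF (fun p : List Bool × ℕ => spl p.1) := PF.spl PF.fst
  have hs2 : PF (fun p : List Bool × ℕ => spl (spl p.1).2) := PF.spl (PF.snd' hs)
  have hc := OPL_pf_cand hA t
  have hlen : PF (fun p : List Bool × ℕ => (spl p.1).1.length) := PF.length (PF.fst' hs)
  exact PF.and (PF.and (PF.natEq (PF.length hc) PF.snd) (PF.le (pf_eval hlen E) PF.snd))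
    (PF.beqStr (hf.comp (pf_pairBits (PF.fst' hs) (PF.take (pf_eval hlen e) hc))) (PF.fst' hs2))

theorem OPL_pf_A {f A : List Bool → List Bool} (hf : PF f) (hA : PF A) (e E t : Polynomial ℕ) :
    PF (OPL_A f A e E t) := by
  have hs : PF (fun u : List Bool => spl u) := PF.spl PF.id
  have hlen : PF (fun u : List Bool => (spl u).1.length) := PF.length (PF.fst' hs)
  refine (PF.optCase (g := fun _ => []) (h := fun u N => (OPL_cand A t u N).take
    (e.eval (spl u).1.length))
    (PF.find (f := fun u N => OPL_ok f A e E t u N) (PF.range (pf_eval hlen.succ E))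
      (OPL_pf_ok hf hA e E t))
    (PF.const []) (PF.take (pf_eval (hlen.comp PF.fst) e) (OPL_pf_cand hA t))).congr fun u => ?_
  unfold OPL_A
  cases (List.range (E.eval ((spl u).1.length + 1))).find? (OPL_ok f A e E t u) <;> rfl

/-- the main step -/
theorem OPL_step (f A : List Bool → List Bool) (e E t : Polynomial ℕ) (N l : ℕ)
    (heE : ∀ n, e.eval n ≤ E.eval n) (hl : OPL_l E N = l) (h1 : E.eval l ≤ N)
    (h2 : N < E.eval (l + 1)) (X w : List Bool) (hX : X.length = N)
    (hw : OPL_F f e E (A (c3 (ones N) (OPL_F f e E X) (w.take (t.eval N)))) = OPL_F f e E X) :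
    (OPL_A f A e E t (c3 (ones l) (f (pairBits (ones l) (X.take (e.eval l)))) w)).length =
      e.eval l ∧
    f (pairBits (ones l) (OPL_A f A e E t
      (c3 (ones l) (f (pairBits (ones l) (X.take (e.eval l)))) w))) =
      f (pairBits (ones l) (X.take (e.eval l))) := by
  obtain ⟨z, hz⟩ : ∃ z, z = f (pairBits (ones l) (X.take (e.eval l))) := ⟨_, rfl⟩
  rw [← hz]
  have hFX : OPL_F f e E X = c3 (ones N) (ones l) z := by
    unfold OPL_F
    rw [hX, hl, hz]
  obtain ⟨u, hu⟩ : ∃ u, u = c3 (ones l) z w := ⟨_, rfl⟩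
  rw [← hu]
  have hs1 : (spl u).1 = ones l := by rw [hu, c3, spl_pairBits]
  have hs2 : (spl (spl u).2).1 = z := by rw [hu, c3, spl_pairBits, spl_pairBits]
  have hs3 : (spl (spl u).2).2 = w := by rw [hu, c3, spl_pairBits, spl_pairBits]
  have hlen : (ones l).length = l := by simp [ones]
  have hcand : ∀ N', OPL_cand A t u N' =
      A (c3 (ones N') (c3 (ones N') (ones l) z) (w.take (t.eval N'))) := by
    intro N'
    unfold OPL_cand
    rw [hs1, hs2, hs3]
  rw [hFX, ← hcand] at hw
  -- the candidate `N` is accepted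
  obtain ⟨g1, g2, g3⟩ := OPL_c3_inj hw
  have g1' := OPL_ones_inj g1
  rw [g1', hl] at g3
  have hok : OPL_ok f A e E t u N = true := by
    unfold OPL_ok
    rw [hs1, hs2, hlen, g1', g3]
    simp [h1]
  have hmem : N ∈ List.range (E.eval ((spl u).1.length + 1)) := by
    rw [hs1, hlen, List.mem_range]
    exact h2
  have hA : ∃ N', OPL_ok f A e E t u N' = true ∧
      OPL_A f A e E t u = (OPL_cand A t u N').take (e.eval l) := by
    cases hfind : (List.range (E.eval ((spl u).1.length + 1))).find? (OPL_ok f A e E t u) with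
    | none =>
      rw [List.find?_eq_none] at hfind
      exact absurd hok (hfind N hmem)
    | some N' =>
      refine ⟨N', List.find?_some hfind, ?_⟩
      unfold OPL_A
      rw [hfind, hs1, hlen]
  obtain ⟨N', hok', hA'⟩ := hA
  unfold OPL_ok at hok'
  rw [hs1, hs2, hlen, Bool.and_eq_true, Bool.and_eq_true, decide_eq_true_iff, decide_eq_true_iff,
    beq_iff_eq] at hok'
  obtain ⟨⟨k1, k2⟩, k3⟩ := hok'
  rw [hA']
  refine ⟨?_, k3⟩
  rw [List.length_take, k1]
  have := heE l
  omega

theorem t_OPL : S_OPL := by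
  rintro B ⟨f, e, q, m, hf, -, -, hsec⟩
  obtain ⟨E, hE⟩ : ∃ E : Polynomial ℕ, E = e + Polynomial.X := ⟨_, rfl⟩
  have hEev : ∀ n, E.eval n = e.eval n + n := by
    intro n
    rw [hE, Polynomial.eval_add, Polynomial.eval_X]
  have hEn : ∀ n, n ≤ E.eval n := fun n => by rw [hEev]; omega
  have heE : ∀ n, e.eval n ≤ E.eval n := fun n => by rw [hEev]; omega
  have hpf : PF f := pf_of_polyTime hf
  refine ⟨OPL_F f e E, polyTime_of_pf (OPL_pf_F hpf e E), ?_⟩
  intro A t hA
  have hpA : PF A := pf_of_polyTime hA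
  have hδ := hsec (OPL_A f A e E t) (t.comp (E.comp (Polynomial.X + 1)))
    (polyTime_of_pf (OPL_pf_A hpf hpA e E t))
  obtain ⟨k, hk⟩ := poly_le_pow E
  intro c
  obtain ⟨L1, hL1⟩ := hδ (2 * k * c)
  obtain ⟨L, hL⟩ : ∃ L, L = max L1 3 := ⟨_, rfl⟩
  refine ⟨E.eval L, fun N hN => ?_⟩
  obtain ⟨l, hl⟩ : ∃ l, l = OPL_l E N := ⟨_, rfl⟩
  have hspec := OPL_l_spec E hEn N
  rw [← hl] at hspec
  have hLl : L ≤ l := by
    have h3 : 3 ≤ L := by rw [hL]; exact le_max_right _ _
    have h4 : L - 1 < l := (hspec (L - 1)).2 (by rw [show L - 1 + 1 = L by omega]; exact hN)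
    omega
  have hl3 : 3 ≤ l := le_trans (by rw [hL]; exact le_max_right _ _) hLl
  have hlL1 : L1 ≤ l := le_trans (by rw [hL]; exact le_max_left _ _) hLl
  have h1 : E.eval l ≤ N := by
    have := (hspec (l - 1)).1 (by omega)
    rwa [show l - 1 + 1 = l by omega] at this
  have h2 : N < E.eval (l + 1) := by
    by_contra hc
    have := (hspec l).2 (by omega)
    omega
  have ha : e.eval l ≤ N := (heE l).trans h1
  have htN : t.eval N ≤ (t.comp (E.comp (Polynomial.X + 1))).eval l := by
    rw [Polynomial.eval_comp, Polynomial.eval_comp, Polynomial.eval_add, Polynomial.eval_X,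
      Polynomial.eval_one]
    exact eval_mono t h2.le
  have hN0 : (0 : ℝ) < N := by
    have : 3 ≤ N := (hEn l |>.trans h1).trans' hl3
    have : 0 < N := by omega
    exact_mod_cast this
  rw [abs_of_nonneg (OPL_pr_nonneg _)]
  refine le_trans (OPL_pr (e.eval l) N (t.eval N) _ ha htN _ _ ?_)
    ((le_abs_self _).trans ((hL1 l hlL1).trans ?_))
  · intro X W hXW
    rw [decide_eq_true_iff] at hXW
    rw [decide_eq_true_iff]
    simp only at hXW ⊢
    rw [OPL_ofFn_take htN W] at hXW
    rw [OPL_ofFn_take ha X]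
    obtain ⟨r1, r2⟩ := OPL_step f A e E t N l heE hl.symm h1 h2 (List.ofFn X) (List.ofFn W)
      (by simp) hXW
    obtain ⟨Y, hY⟩ : ∃ Y, Y = OPL_A f A e E t (c3 (ones l)
      (f (pairBits (ones l) ((List.ofFn X).take (e.eval l)))) (List.ofFn W)) := ⟨_, rfl⟩
    rw [← hY] at r1 r2 ⊢
    refine ⟨fun i => Y.get (Fin.cast r1.symm i), ?_, ?_⟩
    · apply List.ext_getElem
      · simp [r1]
      · intro i _ _
        simp
    · have hYY : List.ofFn (fun i : Fin (e.eval l) => Y.get (Fin.cast r1.symm i)) = Y := by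
        apply List.ext_getElem
        · simp [r1]
        · intro i _ _
          simp
      rw [hYY]
      exact r2
  · have h5 : N ^ c ≤ l ^ (2 * k * c) := by
      have h6 : N ≤ l ^ (2 * k) := by
        calc N ≤ (l + 1 + 2) ^ k := h2.le.trans (hk (l + 1))
          _ ≤ (l ^ 2) ^ k := Nat.pow_le_pow_left (by nlinarith) k
          _ = l ^ (2 * k) := by rw [← pow_mul]
      calc N ^ c ≤ (l ^ (2 * k)) ^ c := Nat.pow_le_pow_left h6 c
        _ = l ^ (2 * k * c) := by rw [← pow_mul]
    have h7 : (N : ℝ) ^ c ≤ (l : ℝ) ^ (2 * k * c) := by exact_mod_cast h5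
    exact one_div_le_one_div_of_le (by positivity) h7

end Pool.Agent.H547S1
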