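import Pool.Agent.H547S1.Stm

/-!
# No public-key encryption over affine gates
-/

set_option autoImplicit false

namespace Pool.Agent.H547S1

open Pool.Agent.H547R6 Pool.Agent.H547R7 Pool.Agent.H547R8 Pool.Agent.NPC
open Pool.Agent.H583R2 Pool.Agent.H545R2.KS

/-! ### vectors as lists -/

theorem PAF_len_xorL {u v : List Bool} {m : ℕ} (hu : u.length = m) (hv : v.length = m) :
    (xorL u v).length = m := by
  unfold xorL
  rw [List.length_zipWith, hu, hv, min_self]

theorem PAF_getD_xorL {u v : List Bool} {m : ℕ} (hu : u.length = m) (hv : v.length = m) (j : ℕ) :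
    (xorL u v).getD j false = xor (u.getD j false) (v.getD j false) := by
  have hl := PAF_len_xorL hu hv
  by_cases hj : j < m
  · rw [List.getD_eq_getElem _ _ (by rw [hl]; exact hj),
      List.getD_eq_getElem _ _ (by rw [hu]; exact hj),
      List.getD_eq_getElem _ _ (by rw [hv]; exact hj)]
    unfold xorL
    rw [List.getElem_zipWith]
  · rw [List.getD_eq_default _ _ (by rw [hl]; omega),
      List.getD_eq_default _ _ (by rw [hu]; omega),
      List.getD_eq_default _ _ (by rw [hv]; omega)]
    rfl

theorem PAF_ext {u v : List Bool} {m : ℕ} (hu : u.length = m) (hv : v.length = m)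
    (h : ∀ j, j < m → u.getD j false = v.getD j false) : u = v := by
  apply List.ext_getElem (by rw [hu, hv])
  intro j h1 h2
  have := h j (by omega)
  rwa [List.getD_eq_getElem _ _ h1, List.getD_eq_getElem _ _ h2] at this

theorem PAF_len_fit (m : ℕ) (l : List Bool) : (fit m l).length = m := by
  unfold fit
  rw [List.length_take, List.length_append, List.length_replicate]
  omega

/-- unit vector -/
def PAF_ev {e : ℕ} (i : Fin e) : Fin e → Bool := fun j => decide (j = i)

theorem PAF_cons_zero (e : ℕ) : (Fin.cons false (fun _ => false) : Fin (e + 1) → Bool) =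
    fun _ => false := by
  funext j
  refine Fin.cases ?_ (fun i => ?_) j
  · rfl
  · rfl

theorem PAF_cons_ev {e : ℕ} (i : Fin e) :
    (Fin.cons false (PAF_ev i) : Fin (e + 1) → Bool) = PAF_ev i.succ := by
  funext j
  refine Fin.cases ?_ (fun k => ?_) j
  · simp only [Fin.cons_zero, PAF_ev]
    symm
    rw [decide_eq_false_iff_not]
    exact (Fin.succ_ne_zero i).symm
  · simp only [Fin.cons_succ, PAF_ev, Fin.succ_inj]

theorem PAF_cons_xor {e : ℕ} (a b : Bool) (r r' : Fin e → Bool) :
    (fun i => xor ((Fin.cons a r : Fin (e + 1) → Bool) i) ((Fin.cons b r' : Fin (e + 1) → Bool) i)) =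
    (Fin.cons (xor a b) (fun i => xor (r i) (r' i)) : Fin (e + 1) → Bool) := by
  funext j
  refine Fin.cases ?_ (fun k => ?_) j
  · rfl
  · rfl

/-- a linear map is given by the images of the unit vectors -/
theorem PAF_comb (m : ℕ) : ∀ (e : ℕ) (G : (Fin e → Bool) → List Bool),
    (∀ r, (G r).length = m) → G (fun _ => false) = List.replicate m false →
    (∀ r r', G (fun i => xor (r i) (r' i)) = xorL (G r) (G r')) →
    ∀ r, comb m (List.ofFn r) (List.ofFn fun i => G (PAF_ev i)) = G r := by
  intro e
  induction e with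
  | zero =>
    intro G _ h0 _ r
    rw [List.ofFn_zero]
    have : r = fun _ => false := funext fun i => i.elim0
    rw [this, h0]
    simp [comb]
  | succ e ih =>
    intro G hl h0 hG r
    rw [List.ofFn_succ, List.ofFn_succ]
    have h1 := ih (fun r' => G (Fin.cons false r')) (fun r' => hl _)
      (by rw [PAF_cons_zero]; exact h0)
      (fun r r' => by
        have := hG (Fin.cons false r) (Fin.cons false r')
        rw [PAF_cons_xor] at this
        exact this)
      (fun i => r i.succ)
    simp only [PAF_cons_ev] at h1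
    unfold comb
    rw [h1]
    cases hr : r 0
    · rw [cond_false]
      congr 1
      funext j
      refine Fin.cases ?_ (fun k => ?_) j
      · rw [Fin.cons_zero, hr]
      · rfl
    · rw [cond_true, ← hG]
      congr 1
      funext j
      refine Fin.cases ?_ (fun k => ?_) j
      · rw [Fin.cons_zero, hr]
        simp [PAF_ev]
      · rw [Fin.cons_succ]
        simp [PAF_ev, Fin.succ_ne_zero]

/-- consequences of affinity -/
theorem PAF_alg (h3 : S_LN1) (m e : ℕ) (CT : Bool → (Fin e → Bool) → List Bool)
    (hl : ∀ b r, (CT b r).length = m)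
    (hA : ∀ b b' b'' r r' r'', CT (xor b (xor b' b'')) (fun i => xor (r i) (xor (r' i) (r'' i))) =
      xorL (CT b r) (xorL (CT b' r') (CT b'' r''))) :
    (∀ r, (solveL (List.ofFn fun i => xorL (CT false (PAF_ev i)) (CT false fun _ => false))
      (xorL (CT false r) (CT false fun _ => false))).isSome = true) ∧
    ∀ r, (solveL (List.ofFn fun i => xorL (CT false (PAF_ev i)) (CT false fun _ => false))
      (xorL (CT true r) (CT false fun _ => false))).isSome = true →
      ∃ d : Fin e → Bool, ∀ r', CT true r' = CT false (fun i => xor (r' i) (d i)) := by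
  set a0 := CT false (fun _ => false) with ha0
  have hla : a0.length = m := hl _ _
  set G : (Fin e → Bool) → List Bool := fun r => xorL (CT false r) a0 with hG
  have hGl : ∀ r, (G r).length = m := fun r => PAF_len_xorL (hl _ _) hla
  have hG0 : G (fun _ => false) = List.replicate m false := by
    apply PAF_ext (hGl _) (List.length_replicate ..)
    intro j hj
    simp only [hG]
    rw [PAF_getD_xorL (hl _ _) hla, ← ha0, Bool.xor_self, List.getD_replicate]
    exact hj
  have hGA : ∀ r r', G (fun i => xor (r i) (r' i)) = xorL (G r) (G r') := by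
    intro r r'
    have h := hA false false false r r' (fun _ => false)
    simp only [Bool.xor_false, Bool.xor_self] at h
    apply PAF_ext (hGl _) (PAF_len_xorL (hGl _) (hGl _))
    intro j hj
    rw [PAF_getD_xorL (hGl _) (hGl _)]
    simp only [hG]
    rw [PAF_getD_xorL (hl _ _) hla, PAF_getD_xorL (hl _ _) hla, PAF_getD_xorL (hl _ _) hla, h,
      PAF_getD_xorL (hl _ _) (PAF_len_xorL (hl _ _) (hl _ _)), PAF_getD_xorL (hl _ _) (hl _ _),
      ← ha0]
    generalize (CT false r).getD j false = x
    generalize (CT false r').getD j false = y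
    generalize a0.getD j false = z
    cases x <;> cases y <;> cases z <;> rfl
  have hcomb := PAF_comb m e G hGl hG0 hGA
  have hvs : ∀ v ∈ (List.ofFn fun i : Fin e => G (PAF_ev i)), v.length = m := by
    intro v hv
    rw [List.mem_ofFn] at hv
    obtain ⟨i, rfl⟩ := hv
    exact hGl _
  have hvl : (List.ofFn fun i : Fin e => G (PAF_ev i)).length = e := List.length_ofFn
  constructor
  · intro r
    change (solveL (List.ofFn fun i : Fin e => G (PAF_ev i)) (G r)).isSome = true
    cases hs : solveL (List.ofFn fun i : Fin e => G (PAF_ev i)) (G r) with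
    | some c => rfl
    | none =>
      exfalso
      exact (h3 m _ _ hvs (hGl r)).2 hs (List.ofFn r) (by rw [hvl, List.length_ofFn]) (hcomb r)
  · intro r hr
    change (solveL (List.ofFn fun i : Fin e => G (PAF_ev i)) (xorL (CT true r) a0)).isSome = true
      at hr
    obtain ⟨c, hc⟩ := Option.isSome_iff_exists.1 hr
    obtain ⟨hcl, hcc⟩ := (h3 m _ _ hvs (PAF_len_xorL (hl _ _) hla)).1 c hc
    rw [hvl] at hcl
    have hcd : c = List.ofFn (fun i : Fin e => c.getD i.val false) := by
      apply List.ext_getElem (by rw [hcl, List.length_ofFn])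
      intro j h1 h2
      rw [List.getElem_ofFn, List.getD_eq_getElem _ _ h1]
    set d' : Fin e → Bool := fun i => c.getD i.val false with hd'
    rw [hcd, hcomb] at hcc
    have hkey : CT true r = CT false d' := by
      apply PAF_ext (hl _ _) (hl _ _)
      intro j hj
      have h := congrArg (fun l => l.getD j false) hcc
      simp only [hG] at h
      rw [PAF_getD_xorL (hl _ _) hla, PAF_getD_xorL (hl _ _) hla] at h
      revert h
      generalize (CT false d').getD j false = x
      generalize (CT true r).getD j false = y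
      generalize a0.getD j false = z
      cases x <;> cases y <;> cases z <;> simp
    refine ⟨fun i => xor (d' i) (r i), fun r' => ?_⟩
    have h4 := hA true false false r r r'
    have h5 := hA false false false d' r r'
    rw [hkey, ← h5] at h4
    have e1 : (fun i => xor (r i) (xor (r i) (r' i))) = r' := by
      funext i
      rw [← Bool.xor_assoc, Bool.xor_self, Bool.false_xor]
    have e2 : (fun i => xor (r' i) (xor (d' i) (r i))) =
        fun i => xor (d' i) (xor (r i) (r' i)) := by
      funext i
      rw [← Bool.xor_assoc, Bool.xor_comm (r' i) (d' i), Bool.xor_assoc, Bool.xor_comm (r' i)]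
    rw [e1] at h4
    rw [e2]
    exact h4

/-! ### the adversary -/

/-- ciphertext from the public key -/
def PAF_ct (S : Scheme) (n : ℕ) (pk : List Bool) (b : Bool) (r : List Bool) : List Bool :=
  fit (S.len.eval n) (S.enc (c4 (ones n) pk [b] r))

/-- the encryption of zero with zero coins -/
def PAF_a0 (S : Scheme) (n : ℕ) (pk : List Bool) : List Bool :=
  PAF_ct S n pk false (List.replicate (S.e.eval n) false)

/-- the vectors -/
def PAF_vs (S : Scheme) (n : ℕ) (pk : List Bool) : List (List Bool) :=
  (List.range (S.e.eval n)).map fun i =>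
    xorL (PAF_ct S n pk false (unitL (S.e.eval n) i)) (PAF_a0 S n pk)

/-- acceptance -/
def PAF_acc (S : Scheme) (n : ℕ) (pk c : List Bool) : Bool :=
  (solveL (PAF_vs S n pk) (xorL c (PAF_a0 S n pk))).isSome

/-- the adversary -/
def PAF_A (S : Scheme) (z : List Bool) : List Bool :=
  if PAF_acc S (spl z).1.length (spl (spl z).2).1 (spl (spl (spl z).2).2).1 then [true] else []

theorem PAF_A_eq (S : Scheme) (n : ℕ) (pk c w : List Bool) :
    decide (PAF_A S (c4 (ones n) pk c w) = [true]) = PAF_acc S n pk c := by
  unfold PAF_A c4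
  rw [spl_pairBits, spl_pairBits, spl_pairBits]
  have : (ones n).length = n := List.length_replicate
  simp only [this]
  cases PAF_acc S n pk c <;> simp

section pf
variable {α : Type} [H583R2.TEnc α]

theorem PAF_pf_xorL {u v : α → List Bool} (hu : PF u) (hv : PF v) :
    PF (fun a => xorL (u a) (v a)) := by
  have h : PF (fun a => (List.range (min (u a).length (v a).length)).map fun i =>
      !((u a).getD i false == (v a).getD i false)) := by
    refine PF.map (f := fun a i => !((u a).getD i false == (v a).getD i false))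
      (PF.range (PF.min (PF.length hu) (PF.length hv))) ?_
    exact PF.not (PF.beqBool (PF.listGetD PF.snd (hu.comp PF.fst) (PF.const false))
      (PF.listGetD PF.snd (hv.comp PF.fst) (PF.const false)))
  refine h.congr fun a => ?_
  unfold xorL
  apply List.ext_getElem
  · simp
  · intro k h1 h2
    rw [List.length_map, List.length_range] at h1
    have h3 : k < (u a).length := lt_of_lt_of_le h1 (min_le_left _ _)
    have h4 : k < (v a).length := lt_of_lt_of_le h1 (min_le_right _ _)
    simp only [List.getElem_map, List.getElem_range, List.getElem_zipWith]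
    rw [List.getD_eq_getElem _ _ h3, List.getD_eq_getElem _ _ h4]
    cases (u a)[k] <;> cases (v a)[k] <;> rfl

theorem PAF_pf_fit {m : α → ℕ} {l : α → List Bool} (hm : PF m) (hl : PF l) :
    PF (fun a => fit (m a) (l a)) := by
  unfold fit
  exact PF.take hm (PF.append hl (PF.replicate hm (PF.const false)))

theorem PAF_pf_unitL {k i : α → ℕ} (hk : PF k) (hi : PF i) :
    PF (fun a => unitL (k a) (i a)) := by
  unfold unitL
  exact PF.map (f := fun a j => decide (j = i a)) (PF.range hk) (PF.natEq PF.snd (hi.comp PF.fst))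

theorem PAF_pf_ct {S : Scheme} (hS : PolyTime S.enc) {n : α → ℕ} {pk r : α → List Bool}
    (hn : PF n) (hpk : PF pk) (b : Bool) (hr : PF r) :
    PF (fun a => PAF_ct S (n a) (pk a) b (r a)) := by
  unfold PAF_ct c4 ones
  exact PAF_pf_fit (pf_eval hn S.len) ((pf_of_polyTime hS).comp
    (pf_pairBits (PF.replicate hn (PF.const true)) (pf_pairBits hpk
      (pf_pairBits (PF.const [b]) hr))))

theorem PAF_pf_a0 {S : Scheme} (hS : PolyTime S.enc) {n : α → ℕ} {pk : α → List Bool}
    (hn : PF n) (hpk : PF pk) : PF (fun a => PAF_a0 S (n a) (pk a)) := by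
  unfold PAF_a0
  exact PAF_pf_ct hS hn hpk false (PF.replicate (pf_eval hn S.e) (PF.const false))

theorem PAF_pf_vs {S : Scheme} (hS : PolyTime S.enc) {n : α → ℕ} {pk : α → List Bool}
    (hn : PF n) (hpk : PF pk) : PF (fun a => PAF_vs S (n a) (pk a)) := by
  unfold PAF_vs
  refine PF.map (f := fun a i => xorL (PAF_ct S (n a) (pk a) false (unitL (S.e.eval (n a)) i))
    (PAF_a0 S (n a) (pk a))) (PF.range (pf_eval hn S.e)) ?_
  exact PAF_pf_xorL (PAF_pf_ct hS (hn.comp PF.fst) (hpk.comp PF.fst) false
    (PAF_pf_unitL (pf_eval (hn.comp PF.fst) S.e) PF.snd))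
    (PAF_pf_a0 hS (hn.comp PF.fst) (hpk.comp PF.fst))

theorem PAF_pf_acc {S : Scheme} (h4 : S_LN2) (hS : PolyTime S.enc) {n : α → ℕ}
    {pk c : α → List Bool} (hn : PF n) (hpk : PF pk) (hc : PF c) :
    PF (fun a => PAF_acc S (n a) (pk a) (c a)) := by
  unfold PAF_acc
  exact PF.isSome (PF.comp₂ h4 (PAF_pf_vs hS hn hpk) (PAF_pf_xorL hc (PAF_pf_a0 hS hn hpk)))

end pf

theorem PAF_poly {S : Scheme} (h4 : S_LN2) (hS : PolyTime S.enc) : PolyTime (PAF_A S) := by
  apply polyTime_of_pf
  unfold PAF_A
  have h1 : PF (fun z : List Bool => spl z) := PF.spl PF.id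
  have h2 : PF (fun z : List Bool => spl (spl z).2) := PF.spl (PF.snd' h1)
  have h3 : PF (fun z : List Bool => spl (spl (spl z).2).2) := PF.spl (PF.snd' h2)
  exact PF.ite (PAF_pf_acc h4 hS (PF.length (PF.fst' h1)) (PF.fst' h2) (PF.fst' h3))
    (PF.const [true]) (PF.const [])

/-! ### probabilities -/

theorem PAF_pr {Ω : Type} [Fintype Ω] (p : Ω → Bool) :
    pr p = (((∑ x : Ω, if p x = true then 1 else 0 : ℕ)) : ℝ) / Fintype.card Ω := by
  unfold pr
  rw [Finset.card_filter]

theorem PAF_shift {e : ℕ} (d : Fin e → Bool) (f : (Fin e → Bool) → ℕ) :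
    ∑ r : Fin e → Bool, f (fun i => xor (r i) (d i)) = ∑ r : Fin e → Bool, f r := by
  let E : (Fin e → Bool) ≃ (Fin e → Bool) :=
    { toFun := fun r i => xor (r i) (d i)
      invFun := fun r i => xor (r i) (d i)
      left_inv := fun r => by funext i; simp
      right_inv := fun r => by funext i; simp }
  exact Equiv.sum_comp E f

theorem PAF_unitL {e : ℕ} (i : Fin e) : unitL e i.val = List.ofFn (PAF_ev i) := by
  unfold unitL
  apply List.ext_getElem
  · simp
  · intro k h1 h2
    simp [PAF_ev, Fin.ext_iff]

theorem PAF_vs_eq (S : Scheme) (n : ℕ) (s : List Bool) :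
    PAF_vs S n (S.pk (pairBits (ones n) s)) = List.ofFn fun i : Fin (S.e.eval n) =>
      xorL (S.ct n s false (List.ofFn (PAF_ev i)))
        (S.ct n s false (List.ofFn fun _ : Fin (S.e.eval n) => false)) := by
  unfold PAF_vs PAF_a0
  rw [← List.ofFn_const]
  apply List.ext_getElem
  · simp
  · intro k h1 h2
    rw [List.length_ofFn] at h2
    simp only [List.getElem_map, List.getElem_range, List.getElem_ofFn]
    rw [← PAF_unitL]
    rfl

/-- affinity of the ciphertexts -/
theorem PAF_aff (h1 : S_GL3) {B : Set BFun} (hB : B ⊆ Aff) (S : Scheme) (q n : ℕ)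
    (s : List Bool)
    (hC : ∀ j, j < S.len.eval n → Computes B (S.e.eval n + 1) q
        fun z => (S.ct n s (z 0) (List.ofFn fun i => z i.succ)).getD j false)
    (b b' b'' : Bool) (r r' r'' : Fin (S.e.eval n) → Bool) :
    S.ct n s (xor b (xor b' b'')) (List.ofFn fun i => xor (r i) (xor (r' i) (r'' i))) =
      xorL (S.ct n s b (List.ofFn r)) (xorL (S.ct n s b' (List.ofFn r'))
        (S.ct n s b'' (List.ofFn r''))) := by
  have hl : ∀ b r, (S.ct n s b r).length = S.len.eval n := fun b r => PAF_len_fit _ _
  apply PAF_ext (hl _ _) (PAF_len_xorL (hl _ _) (PAF_len_xorL (hl _ _) (hl _ _)))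
  intro j hj
  rw [PAF_getD_xorL (hl _ _) (PAF_len_xorL (hl _ _) (hl _ _)), PAF_getD_xorL (hl _ _) (hl _ _)]
  have h := h1 B Aff (Or.inl rfl) hB _ _ _ (hC j hj)
  exact h (Fin.cons b r) (Fin.cons b' r') (Fin.cons b'' r'')

/-- the acceptance probabilities -/
theorem PAF_main (h1 : S_GL3) (h3 : S_LN1) {B : Set BFun} (hB : B ⊆ Aff) (S : Scheme) (q n : ℕ)
    (hC : ∀ s : List Bool, s.length = S.g.eval n → ∀ j, j < S.len.eval n →
      Computes B (S.e.eval n + 1) q
        fun z => (S.ct n s (z 0) (List.ofFn fun i => z i.succ)).getD j false) :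
    1 ≤ S.err n true + S.err n false -
      (S.acp (PAF_A S) 0 n true - S.acp (PAF_A S) 0 n false) := by
  set G := S.g.eval n with hGdef
  set E := S.e.eval n with hEdef
  -- the algebra for each key
  have hkey : ∀ s : Fin G → Bool,
      (∀ r : Fin E → Bool, PAF_acc S n (S.pk (pairBits (ones n) (List.ofFn s)))
        (S.ct n (List.ofFn s) false (List.ofFn r)) = true) ∧
      ∀ r : Fin E → Bool, PAF_acc S n (S.pk (pairBits (ones n) (List.ofFn s)))
        (S.ct n (List.ofFn s) true (List.ofFn r)) = true →
        ∃ d : Fin E → Bool, ∀ r' : Fin E → Bool, S.ct n (List.ofFn s) true (List.ofFn r') =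
          S.ct n (List.ofFn s) false (List.ofFn fun i => xor (r' i) (d i)) := by
    intro s
    have halg := PAF_alg h3 (S.len.eval n) E
      (fun b r => S.ct n (List.ofFn s) b (List.ofFn r)) (fun b r => PAF_len_fit _ _)
      (fun b b' b'' r r' r'' => PAF_aff h1 hB S q n (List.ofFn s)
        (hC (List.ofFn s) List.length_ofFn) b b' b'' r r' r'')
    have hacc : ∀ c, PAF_acc S n (S.pk (pairBits (ones n) (List.ofFn s))) c =
        (solveL (List.ofFn fun i : Fin E =>
          xorL (S.ct n (List.ofFn s) false (List.ofFn (PAF_ev i)))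
            (S.ct n (List.ofFn s) false (List.ofFn fun _ : Fin E => false)))
          (xorL c (S.ct n (List.ofFn s) false (List.ofFn fun _ : Fin E => false)))).isSome := by
      intro c
      unfold PAF_acc
      rw [PAF_vs_eq]
      unfold PAF_a0
      rw [← List.ofFn_const]
      rfl
    refine ⟨fun r => ?_, fun r hr => ?_⟩
    · rw [hacc]
      exact halg.1 r
    · rw [hacc] at hr
      exact halg.2 r hr
  -- indicator functions
  set A : Bool → (Fin G → Bool) → (Fin E → Bool) → ℕ := fun b s r =>
    if PAF_acc S n (S.pk (pairBits (ones n) (List.ofFn s)))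
      (S.ct n (List.ofFn s) b (List.ofFn r)) = true then 1 else 0 with hA
  set D : Bool → (Fin G → Bool) → (Fin E → Bool) → ℕ := fun b s r =>
    if decide (S.dec (c3 (ones n) (S.sk (pairBits (ones n) (List.ofFn s)))
      (S.ct n (List.ofFn s) b (List.ofFn r))) ≠ [b]) = true then 1 else 0 with hD
  have hacp : ∀ b, S.acp (PAF_A S) 0 n b = ((∑ s, ∑ r, A b s r : ℕ) : ℝ) /
      ((Fintype.card (Fin G → Bool) : ℝ) * (Fintype.card (Fin E → Bool) : ℝ)) := by
    intro b
    unfold Scheme.acp
    rw [PAF_pr, Fintype.sum_prod_type]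
    congr 1
    · norm_cast
      refine Finset.sum_congr rfl fun s _ => ?_
      rw [Fintype.sum_prod_type]
      refine Finset.sum_congr rfl fun r _ => ?_
      simp only [PAF_A_eq]
      rw [Finset.sum_const, Finset.card_univ]
      have : Fintype.card (Fin (Polynomial.eval n (0 : Polynomial ℕ)) → Bool) = 1 := by
        rw [Fintype.card_fun, Fintype.card_fin, Polynomial.eval_zero, pow_zero]
      rw [this, one_smul]
    · rw [Fintype.card_prod, Fintype.card_prod]
      have : Fintype.card (Fin (Polynomial.eval n (0 : Polynomial ℕ)) → Bool) = 1 := by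
        rw [Fintype.card_fun, Fintype.card_fin, Polynomial.eval_zero, pow_zero]
      rw [this, mul_one, Nat.cast_mul]
  have herr : ∀ b, S.err n b = ((∑ s, ∑ r, D b s r : ℕ) : ℝ) /
      ((Fintype.card (Fin G → Bool) : ℝ) * (Fintype.card (Fin E → Bool) : ℝ)) := by
    intro b
    unfold Scheme.err
    rw [PAF_pr, Fintype.sum_prod_type, Fintype.card_prod, Nat.cast_mul]
  have hpos : (0 : ℝ) < (Fintype.card (Fin G → Bool) : ℝ) * (Fintype.card (Fin E → Bool) : ℝ) := by
    have h1 : 0 < Fintype.card (Fin G → Bool) := Fintype.card_pos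
    have h2 : 0 < Fintype.card (Fin E → Bool) := Fintype.card_pos
    positivity
  have hfalse : S.acp (PAF_A S) 0 n false = 1 := by
    rw [hacp false, div_eq_one_iff_eq hpos.ne']
    have : ∀ s r, A false s r = 1 := by
      intro s r
      simp only [hA]
      rw [if_pos ((hkey s).1 r)]
    simp only [this, Finset.sum_const, Finset.card_univ, smul_eq_mul, mul_one, Nat.cast_mul]
  have htrue : S.acp (PAF_A S) 0 n true ≤ S.err n true + S.err n false := by
    rw [hacp, herr, herr, ← add_div]
    refine div_le_div_of_nonneg_right ?_ hpos.le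
    rw [← Nat.cast_add, Nat.cast_le, ← Finset.sum_add_distrib]
    refine Finset.sum_le_sum fun s _ => ?_
    by_cases hs : ∃ r, A true s r ≠ 0
    · obtain ⟨r, hr⟩ := hs
      have hr' : PAF_acc S n (S.pk (pairBits (ones n) (List.ofFn s)))
          (S.ct n (List.ofFn s) true (List.ofFn r)) = true := by
        by_contra h
        apply hr
        simp only [hA]
        rw [if_neg h]
      obtain ⟨d, hd⟩ := (hkey s).2 r hr'
      rw [← PAF_shift d (fun r => D false s r), ← Finset.sum_add_distrib]
      refine Finset.sum_le_sum fun r _ => ?_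
      have hA1 : A true s r ≤ 1 := by
        simp only [hA]
        split_ifs <;> simp
      refine hA1.trans ?_
      simp only [hD]
      rw [← hd r]
      set x := S.dec (c3 (ones n) (S.sk (pairBits (ones n) (List.ofFn s)))
        (S.ct n (List.ofFn s) true (List.ofFn r))) with hx
      by_cases h5 : x = [true]
      · rw [h5]; simp
      · simp [h5]
    · push Not at hs
      rw [Finset.sum_eq_zero fun r _ => hs r]
      exact Nat.zero_le _
  rw [hfalse]
  linarith

theorem t_PAF (h1 : S_NEG) (h2 : S_GL3) (h3 : S_LN1) (h4 : S_LN2) : S_PAF := by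
  rintro B hB ⟨S, q, ⟨⟨-, -, henc, -⟩, herr, hsec⟩, hC⟩
  have h5 := hsec (PAF_A S) 0 (PAF_poly h4 henc)
  obtain ⟨hadd, hdom, hmul, -, -, hone⟩ := h1
  have h6 : Neg fun n => (S.err n true + S.err n false) +
      (-1) * (S.acp (PAF_A S) 0 n true - S.acp (PAF_A S) 0 n false) :=
    hadd _ _ (hadd _ _ (herr true) (herr false)) (hmul _ (-1) h5)
  refine hone 1 one_pos (hdom (fun _ => 1) _ 1 h6 fun n hn => ?_)
  have := PAF_main h2 h3 hB S (q.eval n) n (hC n hn)
  rw [abs_one]
  linarith

end Pool.Agent.H547S1
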