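import Pool.Agent.H547S1.Stm
import Pool.Agent.H547R9.T_REN

/-!
# The circuits of the scheme over `B`
-/

set_option autoImplicit false

namespace Pool.Agent.H547S1

open Pool.Agent.H547R6 Pool.Agent.H547R7 Pool.Agent.H547R8 Pool.Agent.NPC
open Pool.Agent.H583R2 Pool.Agent.H545R2.KS

/-! ### polynomial time -/

section

variable {α : Type} [H583R2.TEnc α]

theorem PBC_pf_fit {m : α → ℕ} {l : α → List Bool} (hm : PF m) (hl : PF l) :
    PF (fun a => fit (m a) (l a)) := by
  unfold fit
  exact PF.take hm (PF.append hl (PF.replicate hm (PF.const false)))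

theorem PBC_pf_enc1 (S : Scheme) (hE : PolyTime S.enc) {n : α → ℕ} {pk R : α → List Bool}
    {b : α → Bool} (hn : PF n) (hp : PF pk) (hb : PF b) (hR : PF R) :
    PF (fun a => enc1 S (n a) (pk a) (b a) (R a)) := by
  unfold enc1
  refine PBC_pf_fit (pf_eval hn S.len) ((pf_of_polyTime hE).comp ?_)
  unfold c4 ones
  refine pf_pairBits (PF.replicate hn (PF.const true)) (pf_pairBits hp
    (pf_pairBits (PF.cons hb (PF.const [])) ?_))
  have h2 : PF (fun a => 2 * n a) := PF.mul (PF.const 2) hn
  have he : PF (fun a => S.e.eval (n a)) := pf_eval hn S.e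
  refine (PF.ite hb (PF.take he (PF.drop h2 hR))
    (PF.take he (PF.drop (PF.add h2 he) hR))).congr fun a => ?_
  cases b a <;> rfl

end

/-- the encryption as a function of the message bit and the coins -/
def PBC_F (S : Scheme) (z : List Bool) : List Bool :=
  enc1 S (spl (spl z).1).1.length (spl (spl (spl z).1).2).1 ((spl z).2.headD false) (spl z).2.tail

theorem PBC_pf_F (S : Scheme) (hE : PolyTime S.enc) : PF (PBC_F S) := by
  have h1 : PF (fun z : List Bool => (spl z).1) := PF.fst' (PF.spl PF.id)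
  have h2 : PF (fun z : List Bool => (spl z).2) := PF.snd' (PF.spl PF.id)
  unfold PBC_F
  exact PBC_pf_enc1 S hE (PF.length (PF.fst' (PF.spl h1)))
    (PF.fst' (PF.spl (PF.snd' (PF.spl h1)))) (PF.headD h2 (PF.const false)) (PF.tail h2)

theorem PBC_F_eq (S : Scheme) (n m : ℕ) (pk : List Bool) (y : Fin (m + 1) → Bool) :
    PBC_F S (pairBits (c3 (ones n) pk []) (List.ofFn y)) =
      enc1 S n pk (y 0) (List.ofFn fun i : Fin m => y i.succ) := by
  unfold PBC_F c3
  rw [spl_pairBits, spl_pairBits, spl_pairBits, List.ofFn_succ]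
  simp [ones]

/-! ### lengths -/

theorem PBC_fit_len (m : ℕ) (l : List Bool) : (fit m l).length = m := by
  unfold fit
  simp

theorem PBC_fit_self (m : ℕ) (l : List Bool) (h : l.length = m) : fit m l = l := by
  unfold fit
  rw [← h, List.take_left]

theorem PBC_len (S : Scheme) (hP : PolyTime S.pk) : ∃ P : Polynomial ℕ, ∀ (n : ℕ) (s : List Bool),
    s.length = S.g.eval n →
    (c3 (ones n) (S.pk (pairBits (ones n) s)) []).length ≤ P.eval n := by
  obtain ⟨k, hk⟩ := (pf_of_polyTime hP).size
  refine ⟨2 * Polynomial.X + 1 + (2 * (4 * (2 * Polynomial.X + 1 + S.g) + 3) ^ k + 1),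
    fun n s hs => ?_⟩
  unfold c3
  rw [pairBits_length, pairBits_length]
  have h1 : (S.pk (pairBits (ones n) s)).length ≤ (4 * (2 * n + 1 + S.g.eval n) + 3) ^ k := by
    refine (len_le_sz _).trans ((hk _).trans (Nat.pow_le_pow_left ?_ k))
    have h2 := sz_str_le (pairBits (ones n) s)
    rw [pairBits_length, hs] at h2
    have h3 : (ones n).length = n := by simp [ones]
    rw [h3] at h2
    omega
  have h3 : (ones n).length = n := by simp [ones]
  rw [h3]
  simp only [Polynomial.eval_add, Polynomial.eval_mul, Polynomial.eval_pow, Polynomial.eval_X,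
    Polynomial.eval_one, Polynomial.eval_ofNat, List.length_nil]
  omega

theorem PBC_cpl {m : ℕ} (y : Fin m → Bool) : cpl (List.ofFn y) = List.ofFn fun i => !y i := by
  unfold cpl
  rw [List.map_ofFn]
  rfl

theorem PBC_take {m k : ℕ} (y : Fin m → Bool) (i : ℕ) (hi : i < k) (hm : i < m) :
    ((List.ofFn y).take k).getD i false = y ⟨i, hm⟩ := by
  rw [List.getD_eq_getElem?_getD, List.getElem?_take_of_lt hi]
  simp [hm]

/-- the index function of the gadget -/
def PBC_s {m : ℕ} (a b : Fin m) : Fin (m + 2) → Fin m := Fin.cons a (Fin.cons b fun i => i)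

theorem t_PBC (h1 : S_CK3) (h2 : S_GDC) (h3 : S_DEM) : S_PBC := by
  intro B τ S encB decB hB hpk henc hsp
  obtain ⟨q, hq⟩ := h1 (PBC_F S) (polyTime_of_pf (PBC_pf_F S henc))
  obtain ⟨c, hc⟩ := h2 B τ hB
  obtain ⟨P, hP⟩ := PBC_len S hpk
  refine ⟨Polynomial.C c * (q.comp (P + (2 * Polynomial.X + 2 * S.e + 1) + S.len) +
    (2 * Polynomial.X + 2 * S.e + 1) + 1), fun n hn s hs j hj => ?_⟩
  have hE : (sch S encB decB).e.eval n = 2 * n + 2 * S.e.eval n := by
    simp [sch]
  have hL : (sch S encB decB).len.eval n = 2 * n + n * S.len.eval n := by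
    simp [sch]
  have hQ : (Polynomial.C c * (q.comp (P + (2 * Polynomial.X + 2 * S.e + 1) + S.len) +
      (2 * Polynomial.X + 2 * S.e + 1) + 1)).eval n =
      c * (q.eval (P.eval n + (2 * n + 2 * S.e.eval n + 1) + S.len.eval n) +
        (2 * n + 2 * S.e.eval n + 1) + 1) := by
    simp
  rw [hQ]
  rw [hL] at hj
  have hsch : ∀ (b : Bool) (r : List Bool), (sch S encB decB).ct n s b r =
      fit (2 * n + n * S.len.eval n) (em τ n (r.take (2 * n))
        (enc1 S n (S.pk (pairBits (ones n) s)) b r)
        (enc1 S n (S.pk (pairBits (ones n) s)) (!b) (cpl r))) := by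
    intro b r
    rw [← hL, ← hsp.1]
    rfl
  simp only [hsch]
  have hcl : (c3 (ones n) (S.pk (pairBits (ones n) s)) []).length ≤ P.eval n := hP n s hs
  generalize S.pk (pairBits (ones n) s) = pk at hcl ⊢
  have henl : ∀ b R, (enc1 S n pk b R).length = S.len.eval n := fun b R => PBC_fit_len _ _
  generalize S.len.eval n = len at hj henl ⊢
  suffices key : ∀ E : ℕ, E = 2 * n + 2 * S.e.eval n → Computes B (E + 1)
      (c * (q.eval (P.eval n + (2 * n + 2 * S.e.eval n + 1) + len) +
        (2 * n + 2 * S.e.eval n + 1) + 1)) fun z : Fin (E + 1) → Bool =>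
      (fit (2 * n + n * len) (em τ n ((List.ofFn fun i : Fin E => z i.succ).take (2 * n))
        (enc1 S n pk (z 0) (List.ofFn fun i : Fin E => z i.succ))
        (enc1 S n pk (!z 0) (cpl (List.ofFn fun i : Fin E => z i.succ))))).getD j false from
    key _ hE
  clear hE hL hQ hsch
  intro E hEd
  rw [← hEd]
  have hEn : 2 * n ≤ E := by omega
  have hdem : ∀ z : Fin (E + 1) → Bool, ((List.ofFn fun i : Fin E => z i.succ).take
      (2 * n)).length = 2 * n := by
    intro z
    rw [List.length_take, List.length_ofFn]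
    omega
  have hfit : ∀ z : Fin (E + 1) → Bool, fit (2 * n + n * len) (em τ n
      ((List.ofFn fun i : Fin E => z i.succ).take (2 * n))
      (enc1 S n pk (z 0) (List.ofFn fun i : Fin E => z i.succ))
      (enc1 S n pk (!z 0) (cpl (List.ofFn fun i : Fin E => z i.succ)))) = em τ n
      ((List.ofFn fun i : Fin E => z i.succ).take (2 * n))
      (enc1 S n pk (z 0) (List.ofFn fun i : Fin E => z i.succ))
      (enc1 S n pk (!z 0) (cpl (List.ofFn fun i : Fin E => z i.succ))) := by
    intro z
    exact PBC_fit_self _ _ (h3 τ n len _ _ _ (hdem z) (henl _ _) (henl _ _)).1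
  simp only [hfit]
  rcases lt_or_ge j (2 * n) with hj1 | hj1
  · -- a bit of the mask
    have e : (fun z : Fin (E + 1) → Bool => (em τ n
        ((List.ofFn fun i : Fin E => z i.succ).take (2 * n))
        (enc1 S n pk (z 0) (List.ofFn fun i : Fin E => z i.succ))
        (enc1 S n pk (!z 0) (cpl (List.ofFn fun i : Fin E => z i.succ)))).getD j false) =
        fun z => z (⟨j, by omega⟩ : Fin E).succ := by
      funext z
      rw [(h3 τ n len _ _ _ (hdem z) (henl _ _) (henl _ _)).2.2.1 j hj1,
        PBC_take _ j hj1 (by omega)]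
    rw [e]
    exact ⟨[], Gates.nil, Nat.zero_le _, Or.inr ⟨_, rfl⟩⟩
  · -- a bit of a copy
    have hlen0 : 0 < len := by
      rcases Nat.eq_zero_or_pos len with h0 | h0
      · rw [h0] at hj
        omega
      · exact h0
    obtain ⟨i, l, hi, hl, rfl⟩ : ∃ i l, i < n ∧ l < len ∧ j = 2 * n + i * len + l := by
      refine ⟨(j - 2 * n) / len, (j - 2 * n) % len, ?_, Nat.mod_lt _ hlen0, ?_⟩
      · rw [Nat.div_lt_iff_lt_mul hlen0]
        omega
      · have := Nat.div_add_mod' (j - 2 * n) len
        omega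
    set C : BF (E + 1) := fun y =>
      (enc1 S n pk (y 0) (List.ofFn fun i : Fin E => y i.succ)).getD l false with hC
    have hComp : Comp0 (E + 1) (q.eval ((c3 (ones n) pk []).length + (E + 1) + l)) C := by
      have h4 := hq (c3 (ones n) pk []) (E + 1) l (by omega)
      simp only [PBC_F_eq] at h4
      exact h4
    have h5 := (H547R9.t_REN).1 B _ _ _ (PBC_s (⟨2 * i, by omega⟩ : Fin E).succ
      (⟨2 * i + 1, by omega⟩ : Fin E).succ) _ (hc (E + 1) _ C hComp)
    have e : (fun z : Fin (E + 1) → Bool => (em τ n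
        ((List.ofFn fun i : Fin E => z i.succ).take (2 * n))
        (enc1 S n pk (z 0) (List.ofFn fun i : Fin E => z i.succ))
        (enc1 S n pk (!z 0) (cpl (List.ofFn fun i : Fin E => z i.succ)))).getD
          (2 * n + i * len + l) false) =
        fun z => Tf τ (z (⟨2 * i, by omega⟩ : Fin E).succ) (z (⟨2 * i + 1, by omega⟩ : Fin E).succ)
          (C z) (C fun i => !z i) := by
      funext z
      rw [(h3 τ n len _ _ _ (hdem z) (henl _ _) (henl _ _)).2.2.2 i l hi hl,
        PBC_take _ _ (by omega) (by omega), PBC_take _ _ (by omega) (by omega), PBC_cpl]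
    rw [e]
    obtain ⟨g, g1, g2, g3⟩ := h5
    refine ⟨g, g1, g2.trans ?_, g3⟩
    refine Nat.mul_le_mul_left _ ?_
    have h6 : q.eval ((c3 (ones n) pk []).length + (E + 1) + l) ≤
        q.eval (P.eval n + (E + 1) + len) :=
      H545R2.KS.eval_mono q (by omega)
    omega

end Pool.Agent.H547S1
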