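import Pool.Agent.H547S1.Stm

/-!
# PBT: the algorithms of the scheme over `B`
-/

set_option autoImplicit false

namespace Pool.Agent.H547S1

open Pool.Agent.H547R6 Pool.Agent.H547R7 Pool.Agent.H547R8 Pool.Agent.NPC
open Pool.Agent.H583R2 Pool.Agent.H545R2.KS

section

variable {α : Type} [H583R2.TEnc α]

theorem PBT_bif {β : Type} [H583R2.TEnc β] {b : α → Bool} {f g : α → β} (hb : PF b) (hf : PF f)
    (hg : PF g) : PF (fun a => bif b a then f a else g a) :=
  (PF.ite hb hf hg).congr fun a => by cases b a <;> rfl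

theorem PBT_Tf (τ : Fin 3) {a b c d : α → Bool} (ha : PF a) (hb : PF b) (hc : PF c)
    (hd : PF d) : PF (fun x => Tf τ (a x) (b x) (c x) (d x)) := by
  unfold Tf
  by_cases h0 : τ = 0
  · exact (PF.or ha (PF.and hb hc)).congr fun x => by rw [if_pos h0]
  · by_cases h1 : τ = 1
    · exact (PF.and hb (PF.or ha hc)).congr fun x => by rw [if_neg h0, if_pos h1]
    · refine (PF.ite (PF.beqBool ha hb) ha (PF.ite hb hc (PF.not hd))).congr fun x => ?_
      rw [if_neg h0, if_neg h1]
      cases a x <;> cases b x <;> rfl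

theorem PBT_zip (g : Bool → Bool → Bool) (c c' : List Bool) : List.zipWith g c c' =
    (List.range (min c.length c'.length)).map fun j => g (c.getD j false) (c'.getD j false) := by
  apply List.ext_getElem
  · simp
  · intro i h1 h2
    simp only [List.length_zipWith, lt_inf_iff] at h1
    rw [List.getElem_zipWith, List.getElem_map, List.getElem_range,
      List.getD_eq_getElem _ _ h1.1, List.getD_eq_getElem _ _ h1.2]

theorem PBT_pf_zip (τ : Fin 3) {y₀ y₁ : α → Bool} {c c' : α → List Bool} (h0 : PF y₀)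
    (h1 : PF y₁) (hc : PF c) (hc' : PF c') :
    PF (fun a => List.zipWith (Tf τ (y₀ a) (y₁ a)) (c a) (c' a)) := by
  refine (PF.map (l := fun a => List.range (min (c a).length (c' a).length))
    (f := fun a j => Tf τ (y₀ a) (y₁ a) ((c a).getD j false) ((c' a).getD j false))
    (PF.range (PF.min (PF.length hc) (PF.length hc')))
    (PBT_Tf τ (h0.comp PF.fst) (h1.comp PF.fst)
      (PF.listGetD PF.snd (hc.comp PF.fst) (PF.const false))
      (PF.listGetD PF.snd (hc'.comp PF.fst) (PF.const false)))).congr fun a => ?_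
  rw [PBT_zip]

theorem PBT_em (τ : Fin 3) {k : α → ℕ} {y c c' : α → List Bool} (hk : PF k) (hy : PF y)
    (hc : PF c) (hc' : PF c') : PF (fun a => em τ (k a) (y a) (c a) (c' a)) :=
  PF.append hy (PF.flatMap (l := fun a => List.range (k a))
    (f := fun a i => List.zipWith (Tf τ ((y a).getD (2 * i) false)
      ((y a).getD (2 * i + 1) false)) (c a) (c' a)) (PF.range hk)
    (PBT_pf_zip τ (PF.listGetD (PF.mul (PF.const 2) PF.snd) (hy.comp PF.fst) (PF.const false))
      (PF.listGetD (PF.add (PF.mul (PF.const 2) PF.snd) (PF.const 1)) (hy.comp PF.fst)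
        (PF.const false)) (hc.comp PF.fst) (hc'.comp PF.fst)))

theorem PBT_dm {k m : α → ℕ} {u : α → List Bool} (hk : PF k) (hm : PF m) (hu : PF u) :
    PF (fun a => dm (k a) (m a) (u a)) := by
  have ho : PF (fun a => (List.range (k a)).find? (good (u a))) :=
    PF.find (l := fun a => List.range (k a)) (f := fun a i => good (u a) i) (PF.range hk)
      (PF.and (PF.not (PF.listGetD (PF.mul (PF.const 2) PF.snd) (hu.comp PF.fst)
        (PF.const false))) (PF.listGetD (PF.add (PF.mul (PF.const 2) PF.snd) (PF.const 1))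
          (hu.comp PF.fst) (PF.const false)))
  refine (PF.ite (PF.isSome ho) (PF.take hm (PF.drop (PF.add (PF.mul (PF.const 2) hk)
    (PF.mul (PF.getD ho (PF.const 0)) hm)) hu)) (PF.replicate hm (PF.const false))).congr
      fun a => ?_
  unfold dm
  cases (List.range (k a)).find? (good (u a)) <;> rfl

theorem PBT_fit {m : α → ℕ} {l : α → List Bool} (hm : PF m) (hl : PF l) :
    PF (fun a => fit (m a) (l a)) :=
  PF.take hm (PF.append hl (PF.replicate hm (PF.const false)))

theorem PBT_cpl {l : α → List Bool} (hl : PF l) : PF (fun a => cpl (l a)) :=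
  PF.map (f := fun _ b => !b) hl (PF.not PF.snd)

theorem PBT_ones {n : α → ℕ} (hn : PF n) : PF (fun a => ones (n a)) :=
  PF.replicate hn (PF.const true)

theorem PBT_c3 {a b c : α → List Bool} (ha : PF a) (hb : PF b) (hc : PF c) :
    PF (fun x => c3 (a x) (b x) (c x)) :=
  pf_pairBits ha (pf_pairBits hb hc)

theorem PBT_c4 {a b c d : α → List Bool} (ha : PF a) (hb : PF b) (hc : PF c) (hd : PF d) :
    PF (fun x => c4 (a x) (b x) (c x) (d x)) :=
  pf_pairBits ha (pf_pairBits hb (pf_pairBits hc hd))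

theorem PBT_enc1 {S : Scheme} (hS : PolyTime S.enc) {n : α → ℕ} {pk R : α → List Bool}
    {b : α → Bool} (hn : PF n) (hpk : PF pk) (hb : PF b) (hR : PF R) :
    PF (fun a => enc1 S (n a) (pk a) (b a) (R a)) :=
  PBT_fit (pf_eval hn S.len) ((pf_of_polyTime hS).comp (PBT_c4 (PBT_ones hn) hpk
    (PF.cons hb (PF.const []))
    (PBT_bif hb (PF.take (pf_eval hn S.e) (PF.drop (PF.mul (PF.const 2) hn) hR))
      (PF.take (pf_eval hn S.e) (PF.drop (PF.add (PF.mul (PF.const 2) hn) (pf_eval hn S.e))
        hR)))))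

end

theorem PBT_length_ones (n : ℕ) : (ones n).length = n := List.length_replicate

theorem PBT_p1 : PF (fun z : List Bool => (spl z).1) := PF.fst' (PF.spl PF.id)

theorem PBT_q1 : PF (fun z : List Bool => (spl z).2) := PF.snd' (PF.spl PF.id)

theorem PBT_p2 : PF (fun z : List Bool => (spl (spl z).2).1) := PF.fst' (PF.spl PBT_q1)

theorem PBT_q2 : PF (fun z : List Bool => (spl (spl z).2).2) := PF.snd' (PF.spl PBT_q1)

theorem PBT_p3 : PF (fun z : List Bool => (spl (spl (spl z).2).2).1) := PF.fst' (PF.spl PBT_q2)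

theorem PBT_q3 : PF (fun z : List Bool => (spl (spl (spl z).2).2).2) := PF.snd' (PF.spl PBT_q2)

theorem t_PBT : S_PBT := by
  intro τ S hE hDc
  refine ⟨fun z => em τ (spl z).1.length
      ((spl (spl (spl z).2).2).2.take (2 * (spl z).1.length))
      (enc1 S (spl z).1.length (spl (spl z).2).1 ((spl (spl (spl z).2).2).1.headD false)
        (spl (spl (spl z).2).2).2)
      (enc1 S (spl z).1.length (spl (spl z).2).1 (!((spl (spl (spl z).2).2).1.headD false))
        (cpl (spl (spl (spl z).2).2).2)),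
    fun z => S.dec (c3 (ones (spl z).1.length) (spl (spl z).2).1
      (dm (spl z).1.length (S.len.eval (spl z).1.length) (spl (spl z).2).2)),
    ?_, ?_, ?_, ?_⟩
  · apply polyTime_of_pf
    have hn := PF.length PBT_p1
    have hb := PF.headD PBT_p3 (PF.const false)
    exact PBT_em τ hn (PF.take (PF.mul (PF.const 2) hn) PBT_q3)
      (PBT_enc1 hE hn PBT_p2 hb PBT_q3) (PBT_enc1 hE hn PBT_p2 (PF.not hb) (PBT_cpl PBT_q3))
  · apply polyTime_of_pf
    have hn := PF.length PBT_p1
    exact (pf_of_polyTime hDc).comp (PBT_c3 (PBT_ones hn) PBT_p2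
      (PBT_dm hn (pf_eval hn S.len) PBT_q2))
  · intro n pk b R
    simp only [c4, spl_pairBits, PBT_length_ones, List.headD_cons]
  · intro n sk u
    simp only [c3, spl_pairBits, PBT_length_ones]

end Pool.Agent.H547S1
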