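import Pool.Agent.H547S1.Stm

/-!
# No public-key encryption over monotone gates
-/

set_option autoImplicit false

namespace Pool.Agent.H547S1

open Pool.Agent.H547R6 Pool.Agent.H547R7 Pool.Agent.H547R8 Pool.Agent.NPC Pool.Agent.H583R2
open Pool.Agent.H545R2.KS (polyTime_of_pf pf_eval spl_pairBits)

/-- number of random bits used for the position -/
def PMO_d (L : ℕ) : ℕ := (str L).length + 1

theorem PMO_d_le (L : ℕ) : PMO_d L ≤ L + 1 := by
  have := length_str_le L
  unfold PMO_d
  omega

theorem PMO_d_lo (L : ℕ) : L + 2 ≤ 2 ^ PMO_d L := by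
  have := idx_lt (str L)
  rwa [idx_str] at this

theorem PMO_d_hi (L : ℕ) : 2 ^ PMO_d L ≤ 2 * (L + 1) := by
  have := le_idx (str L)
  rw [idx_str] at this
  unfold PMO_d
  rw [pow_succ]
  omega

/-- the position chosen by the coins `w` -/
def PMO_pos (L : ℕ) (w : List Bool) : ℕ :=
  min (idx (w.take (PMO_d L))) (4 * (L + 1)) -
    min (idx (List.replicate (PMO_d L) false)) (4 * (L + 1))

theorem PMO_idx_rep (d : ℕ) : idx (List.replicate d false) + 1 = 2 ^ d := by
  unfold idx
  rw [List.reverse_replicate]
  induction d with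
  | zero => rfl
  | succ d ih =>
    rw [List.replicate_succ, idxR, pow_succ, ← ih]
    simp
    ring

theorem PMO_pos_str (L j : ℕ) (hj : j < L) (w : List Bool)
    (h : w.take (PMO_d L) = str (2 ^ PMO_d L - 1 + j)) : PMO_pos L w = j := by
  unfold PMO_pos
  rw [h, idx_str]
  have h1 := PMO_d_lo L
  have h2 := PMO_d_hi L
  have h3 := PMO_idx_rep (PMO_d L)
  omega

theorem PMO_str_len (L j : ℕ) (hj : j < L) : (str (2 ^ PMO_d L - 1 + j)).length = PMO_d L := by
  have h1 := PMO_d_lo L
  refine length_str_eq ?_ ?_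
  · omega
  · rw [pow_succ]
    omega

/-- the adversary -/
def PMO_adv (S : Scheme) (u : List Bool) : List Bool :=
  [(spl (spl (spl u).2).2).1.getD
    (PMO_pos (S.len.eval (spl u).1.length) (spl (spl (spl u).2).2).2) false]

theorem PMO_adv_pf (S : Scheme) : PF (PMO_adv S) := by
  have hL : PF fun u : List Bool => S.len.eval (spl u).1.length :=
    pf_eval (PF.length (PF.fst' (PF.spl PF.id))) S.len
  have hd : PF fun u : List Bool => PMO_d (S.len.eval (spl u).1.length) :=
    (PF.succ (PF.length (PF.str hL)) : _)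
  have hN : PF fun u : List Bool => 4 * (S.len.eval (spl u).1.length + 1) :=
    PF.mul (PF.const 4) (PF.succ hL)
  have hs : PF fun u : List Bool => spl (spl (spl u).2).2 :=
    PF.spl (PF.snd' (PF.spl (PF.snd' (PF.spl PF.id))))
  have hp : PF fun u : List Bool =>
      PMO_pos (S.len.eval (spl u).1.length) (spl (spl (spl u).2).2).2 :=
    PF.sub (pf_idxCap (PF.take hd (PF.snd' hs)) hN)
      (pf_idxCap (PF.replicate hd (PF.const false)) hN)
  exact PF.cons (PF.listGetD hp (PF.fst' hs) (PF.const false)) (PF.const [])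

theorem PMO_adv_c4 (S : Scheme) (n : ℕ) (pk c w : List Bool) :
    PMO_adv S (c4 (ones n) pk c w) = [c.getD (PMO_pos (S.len.eval n) w) false] := by
  unfold PMO_adv c4
  rw [spl_pairBits]
  simp only
  rw [spl_pairBits]
  simp only
  rw [spl_pairBits]
  simp only [ones, List.length_replicate]

theorem PMO_fit_len (m : ℕ) (l : List Bool) : (fit m l).length = m := by
  unfold fit
  rw [List.length_take, List.length_append, List.length_replicate]
  omega

/-- probability as a sum -/
theorem PMO_pr {Ω : Type} [Fintype Ω] (p : Ω → Bool) :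
    pr p = (∑ x, if p x = true then (1 : ℝ) else 0) / Fintype.card Ω := by
  unfold pr
  rw [Finset.sum_boole]

/-- strings with a given beginning -/
theorem PMO_count (d t : ℕ) (h : d ≤ t) (y : List Bool) (hy : y.length = d) :
    ((2 : ℝ) ^ t) ≤ 2 ^ d * ∑ w : Fin t → Bool, if (List.ofFn w).take d = y then (1 : ℝ) else 0 := by
  rw [Finset.sum_boole]
  have hinj : Function.Injective fun (v : Fin (t - d) → Bool) (i : Fin t) =>
      (y ++ List.ofFn v).getD i false := by
    intro v v' hv
    funext i
    have := congrFun hv ⟨d + i, by omega⟩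
    simp only [List.getD_eq_getElem?_getD] at this
    rw [List.getElem?_append_right (by omega), List.getElem?_append_right (by omega)] at this
    simpa [hy] using this
  have hsub : (Finset.univ.image fun (v : Fin (t - d) → Bool) (i : Fin t) =>
      (y ++ List.ofFn v).getD i false) ⊆
      Finset.univ.filter fun w : Fin t → Bool => (List.ofFn w).take d = y := by
    intro w hw
    rw [Finset.mem_image] at hw
    obtain ⟨v, -, rfl⟩ := hw
    rw [Finset.mem_filter]
    refine ⟨Finset.mem_univ _, ?_⟩
    refine List.ext_getElem ?_ ?_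
    · rw [List.length_take, List.length_ofFn, hy]
      omega
    · intro i h1 h2
      rw [List.getElem_take, List.getElem_ofFn, List.getD_eq_getElem?_getD,
        List.getElem?_append_left (by exact h2), List.getElem?_eq_getElem h2]
      rfl
  have hcard := Finset.card_le_card hsub
  rw [Finset.card_image_of_injective _ hinj, Finset.card_univ, Fintype.card_fun, Fintype.card_bool,
    Fintype.card_fin] at hcard
  have : ((2 : ℕ) ^ (t - d) : ℝ) ≤
      ((Finset.univ.filter fun w : Fin t → Bool => (List.ofFn w).take d = y).card : ℝ) := by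
    exact_mod_cast hcard
  calc (2 : ℝ) ^ t = 2 ^ d * 2 ^ (t - d) := by rw [← pow_add]; congr 1; omega
    _ ≤ _ := by
      refine mul_le_mul_of_nonneg_left ?_ (by positivity)
      exact_mod_cast hcard

/-- the gain of the adversary for fixed coins of the keys and of the encryption -/
theorem PMO_gain (L t : ℕ) (ht : L + 1 ≤ t) (c c' : List Bool) (hc : c.length = L)
    (hc' : c'.length = L)
    (hm : ∀ j, j < L → c'.getD j false = true → c.getD j false = true) :
    (2 : ℝ) ^ t * (if c = c' then (0 : ℝ) else 1) ≤ ((2 * (L + 1) : ℕ) : ℝ) *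
      ∑ w : Fin t → Bool,
        ((if c.getD (PMO_pos L (List.ofFn w)) false = true then (1 : ℝ) else 0) -
          (if c'.getD (PMO_pos L (List.ofFn w)) false = true then (1 : ℝ) else 0)) := by
  by_cases he : c = c'
  · subst he
    simp
  rw [if_neg he, mul_one]
  have hex : ∃ j, j < L ∧ c.getD j false = true ∧ c'.getD j false = false := by
    by_contra hno
    push Not at hno
    apply he
    refine List.ext_getElem (hc.trans hc'.symm) fun j h1 h2 => ?_
    have h3 := hm j (by omega)
    have h4 := hno j (by omega)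
    rw [List.getD_eq_getElem?_getD, List.getD_eq_getElem?_getD, List.getElem?_eq_getElem h1,
      List.getElem?_eq_getElem h2, Option.getD_some, Option.getD_some] at h3 h4
    revert h3 h4
    generalize (c)[j] = x
    generalize (c')[j] = y
    cases x <;> cases y <;> simp
  obtain ⟨j, hj, h1, h2⟩ := hex
  have hcnt := PMO_count (PMO_d L) t ((PMO_d_le L).trans ht) (str (2 ^ PMO_d L - 1 + j))
    (PMO_str_len L j hj)
  have hle : (∑ w : Fin t → Bool,
      if (List.ofFn w).take (PMO_d L) = str (2 ^ PMO_d L - 1 + j) then (1 : ℝ) else 0) ≤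
      ∑ w : Fin t → Bool,
        ((if c.getD (PMO_pos L (List.ofFn w)) false = true then (1 : ℝ) else 0) -
          (if c'.getD (PMO_pos L (List.ofFn w)) false = true then (1 : ℝ) else 0)) := by
    refine Finset.sum_le_sum fun w _ => ?_
    by_cases hw : (List.ofFn w).take (PMO_d L) = str (2 ^ PMO_d L - 1 + j)
    · rw [if_pos hw, PMO_pos_str L j hj _ hw, h1, h2]
      simp
    · rw [if_neg hw]
      by_cases h3 : c'.getD (PMO_pos L (List.ofFn w)) false = true
      · have h4 : PMO_pos L (List.ofFn w) < L := by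
          by_contra hge
          rw [List.getD_eq_default _ _ (by omega)] at h3
          exact Bool.false_ne_true h3
        rw [if_pos h3, if_pos (hm _ h4 h3)]
        simp
      · rw [if_neg h3, sub_zero]
        split <;> norm_num
  have hnn : (0 : ℝ) ≤ ∑ w : Fin t → Bool,
      if (List.ofFn w).take (PMO_d L) = str (2 ^ PMO_d L - 1 + j) then (1 : ℝ) else 0 :=
    Finset.sum_nonneg fun w _ => by split <;> norm_num
  have hd : (2 : ℝ) ^ PMO_d L ≤ ((2 * (L + 1) : ℕ) : ℝ) := by
    exact_mod_cast PMO_d_hi L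
  calc (2 : ℝ) ^ t ≤ 2 ^ PMO_d L * _ := hcnt
    _ ≤ ((2 * (L + 1) : ℕ) : ℝ) * _ := mul_le_mul_of_nonneg_right hd hnn
    _ ≤ _ := mul_le_mul_of_nonneg_left hle (by positivity)

/-- the main inequality for the probabilities -/
theorem PMO_main (S : Scheme) (n : ℕ)
    (hm : ∀ (a : Fin (S.g.eval n) → Bool) (r : Fin (S.e.eval n) → Bool) (j : ℕ), j < S.len.eval n →
      (S.ct n (List.ofFn a) false (List.ofFn r)).getD j false = true →
      (S.ct n (List.ofFn a) true (List.ofFn r)).getD j false = true) :
    1 ≤ ((2 * (S.len.eval n + 1) : ℕ) : ℝ) *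
      (S.acp (PMO_adv S) (S.len + 1) n true - S.acp (PMO_adv S) (S.len + 1) n false) +
      (S.err n true + S.err n false) := by
  have ht : S.len.eval n + 1 ≤ (S.len + 1).eval n := by simp
  generalize htt : (S.len + 1).eval n = t at ht
  have hacp : ∀ b, S.acp (PMO_adv S) (S.len + 1) n b =
      (∑ a : Fin (S.g.eval n) → Bool, ∑ r : Fin (S.e.eval n) → Bool, ∑ w : Fin t → Bool,
        if (S.ct n (List.ofFn a) b (List.ofFn r)).getD (PMO_pos (S.len.eval n) (List.ofFn w))
          false = true then (1 : ℝ) else 0) /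
        ((2 : ℝ) ^ S.g.eval n * (2 ^ S.e.eval n * 2 ^ t)) := by
    intro b
    unfold Scheme.acp
    rw [htt, PMO_pr, Fintype.card_prod, Fintype.card_prod, Fintype.card_fun, Fintype.card_fun,
      Fintype.card_fun, Fintype.card_bool, Fintype.card_fin, Fintype.card_fin, Fintype.card_fin,
      Fintype.sum_prod_type]
    push_cast
    congr 1
    refine Finset.sum_congr rfl fun a _ => ?_
    rw [Fintype.sum_prod_type]
    refine Finset.sum_congr rfl fun r _ => Finset.sum_congr rfl fun w _ => ?_
    simp only [PMO_adv_c4, decide_eq_true_eq, List.cons.injEq, and_true]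
  have herr : ∀ b, S.err n b =
      (∑ a : Fin (S.g.eval n) → Bool, ∑ r : Fin (S.e.eval n) → Bool,
        if S.dec (c3 (ones n) (S.sk (pairBits (ones n) (List.ofFn a)))
          (S.ct n (List.ofFn a) b (List.ofFn r))) ≠ [b] then (1 : ℝ) else 0) /
        ((2 : ℝ) ^ S.g.eval n * 2 ^ S.e.eval n) := by
    intro b
    unfold Scheme.err
    rw [PMO_pr, Fintype.card_prod, Fintype.card_fun, Fintype.card_fun,
      Fintype.card_bool, Fintype.card_fin, Fintype.card_fin, Fintype.sum_prod_type]
    push_cast
    congr 1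
    refine Finset.sum_congr rfl fun a _ => Finset.sum_congr rfl fun r _ => ?_
    simp only [decide_eq_true_eq]
  rw [hacp, hacp, herr, herr]
  have hG : (0 : ℝ) < 2 ^ S.g.eval n := by positivity
  have hE : (0 : ℝ) < 2 ^ S.e.eval n := by positivity
  have hW : (0 : ℝ) < 2 ^ t := by positivity
  rw [← sub_div, ← add_div, ← mul_div_assoc]
  have hkey : (2 : ℝ) ^ t * (2 ^ S.g.eval n * 2 ^ S.e.eval n) ≤
      ((2 * (S.len.eval n + 1) : ℕ) : ℝ) *
      ((∑ a : Fin (S.g.eval n) → Bool, ∑ r : Fin (S.e.eval n) → Bool, ∑ w : Fin t → Bool,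
        if (S.ct n (List.ofFn a) true (List.ofFn r)).getD (PMO_pos (S.len.eval n) (List.ofFn w))
          false = true then (1 : ℝ) else 0) -
       (∑ a : Fin (S.g.eval n) → Bool, ∑ r : Fin (S.e.eval n) → Bool, ∑ w : Fin t → Bool,
        if (S.ct n (List.ofFn a) false (List.ofFn r)).getD (PMO_pos (S.len.eval n) (List.ofFn w))
          false = true then (1 : ℝ) else 0)) +
      (2 : ℝ) ^ t * ((∑ a : Fin (S.g.eval n) → Bool, ∑ r : Fin (S.e.eval n) → Bool,
        if S.dec (c3 (ones n) (S.sk (pairBits (ones n) (List.ofFn a)))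
          (S.ct n (List.ofFn a) true (List.ofFn r))) ≠ [true] then (1 : ℝ) else 0) +
       (∑ a : Fin (S.g.eval n) → Bool, ∑ r : Fin (S.e.eval n) → Bool,
        if S.dec (c3 (ones n) (S.sk (pairBits (ones n) (List.ofFn a)))
          (S.ct n (List.ofFn a) false (List.ofFn r))) ≠ [false] then (1 : ℝ) else 0)) := by
    have hones : (2 : ℝ) ^ t * (2 ^ S.g.eval n * 2 ^ S.e.eval n) =
        ∑ _a : Fin (S.g.eval n) → Bool, ∑ _r : Fin (S.e.eval n) → Bool, (2 : ℝ) ^ t := by
      rw [Finset.sum_const, Finset.sum_const, Finset.card_univ, Finset.card_univ, Fintype.card_fun,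
        Fintype.card_fun, Fintype.card_bool, Fintype.card_fin, Fintype.card_fin, nsmul_eq_mul,
        nsmul_eq_mul]
      push_cast
      ring
    rw [hones]
    simp only [← Finset.sum_sub_distrib, ← Finset.sum_add_distrib, Finset.mul_sum]
    refine Finset.sum_le_sum fun a _ => Finset.sum_le_sum fun r _ => ?_
    have hg := PMO_gain (S.len.eval n) t ht (S.ct n (List.ofFn a) true (List.ofFn r))
      (S.ct n (List.ofFn a) false (List.ofFn r)) (PMO_fit_len _ _) (PMO_fit_len _ _)
      (hm a r)
    rw [Finset.mul_sum] at hg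
    refine le_trans ?_ (add_le_add_left hg _)
    by_cases he : S.ct n (List.ofFn a) true (List.ofFn r) = S.ct n (List.ofFn a) false (List.ofFn r)
    · rw [if_pos he, mul_zero, zero_add, he]
      have h1 : (1 : ℝ) ≤ (if S.dec (c3 (ones n) (S.sk (pairBits (ones n) (List.ofFn a)))
          (S.ct n (List.ofFn a) false (List.ofFn r))) ≠ [true] then (1 : ℝ) else 0) +
          (if S.dec (c3 (ones n) (S.sk (pairBits (ones n) (List.ofFn a)))
          (S.ct n (List.ofFn a) false (List.ofFn r))) ≠ [false] then (1 : ℝ) else 0) := by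
        by_cases h2 : S.dec (c3 (ones n) (S.sk (pairBits (ones n) (List.ofFn a)))
          (S.ct n (List.ofFn a) false (List.ofFn r))) = [true]
        · rw [h2]
          norm_num
        · rw [if_pos h2]
          split <;> norm_num
      nlinarith
    · rw [if_neg he, mul_one]
      have h1 : (0 : ℝ) ≤ (if S.dec (c3 (ones n) (S.sk (pairBits (ones n) (List.ofFn a)))
          (S.ct n (List.ofFn a) true (List.ofFn r))) ≠ [true] then (1 : ℝ) else 0) := by
        split <;> norm_num
      have h2 : (0 : ℝ) ≤ (if S.dec (c3 (ones n) (S.sk (pairBits (ones n) (List.ofFn a)))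
          (S.ct n (List.ofFn a) false (List.ofFn r))) ≠ [false] then (1 : ℝ) else 0) := by
        split <;> norm_num
      nlinarith
  have hpos : (0 : ℝ) < 2 ^ t * (2 ^ S.g.eval n * 2 ^ S.e.eval n) := by positivity
  rw [← div_le_div_iff_of_pos_right hpos, div_self hpos.ne'] at hkey
  refine hkey.trans (le_of_eq ?_)
  field_simp

theorem t_PMO (h1 : S_NEG) (h2 : S_GL3) : S_PMO := by
  rintro B hB ⟨S, q, ⟨-, herr, hsec⟩, hc⟩
  obtain ⟨hadd, hdom, -, hpoly, -, hconst⟩ := h1
  have hA := hsec (PMO_adv S) (S.len + 1) (polyTime_of_pf (PMO_adv_pf S))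
  have hN := hadd _ _ (hpoly _ (2 * (S.len + 1)) hA) (hadd _ _ (herr true) (herr false))
  refine hconst 1 one_pos (hdom (fun _ => 1) _ 1 hN fun n hn => ?_)
  rw [abs_one]
  have h := PMO_main S n fun a r j hj h3 => ?_
  · have e : (2 * (S.len + 1)).eval n = 2 * (S.len.eval n + 1) := by simp
    simp only [e]
    exact h
  · have h4 := h2 B Mon (Or.inr (Or.inr (Or.inr (Or.inr rfl)))) hB _ _ _
      (hc n hn (List.ofFn a) (by simp) j hj)
    have h5 := h4 (Fin.cons false r) (Fin.cons true r) (by
      intro i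
      refine Fin.cases ?_ ?_ i
      · simp
      · intro i
        simp)
    simp only [Fin.cons_zero, Fin.cons_succ] at h5
    exact h5 h3

end Pool.Agent.H547S1
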