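import Pool.Agent.H547S1.Stm

set_option autoImplicit false

namespace Pool.Agent.H547S1

open Pool.Agent.H547R6 Pool.Agent.H547R7 Pool.Agent.H547R8 Pool.Agent.NPC

private theorem PRP_equiv {Ω Ω' : Type} [Fintype Ω] [Fintype Ω'] (e : Ω ≃ Ω') (p : Ω → Bool)
    (q : Ω' → Bool) (h : ∀ x, p x = q (e x)) : pr p = pr q := by
  classical
  unfold pr
  rw [Fintype.card_congr e]
  congr 2
  apply Finset.card_bij (fun x _ => e x)
  · intro x hx
    simp only [Finset.mem_filter, Finset.mem_univ, true_and] at hx ⊢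
    rw [← h, hx]
  · intro x _ y _ hxy
    exact e.injective hxy
  · intro y hy
    simp only [Finset.mem_filter, Finset.mem_univ, true_and] at hy
    refine ⟨e.symm y, ?_, by simp⟩
    simp only [Finset.mem_filter, Finset.mem_univ, true_and]
    rw [h, Equiv.apply_symm_apply, hy]

private theorem PRP_sum {Ω : Type} [Fintype Ω] (p : Ω → Bool) :
    pr p = (∑ x, if p x = true then (1 : ℝ) else 0) / Fintype.card Ω := by
  unfold pr
  rw [Finset.sum_boole]

private theorem PRP_bool {Ω : Type} [Fintype Ω] (p : Bool × Ω → Bool) :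
    pr p = 1 / 2 * (pr (fun x => p (true, x)) + pr (fun x => p (false, x))) := by
  rw [PRP_sum, PRP_sum, PRP_sum, Fintype.sum_prod_type, Fintype.sum_bool, Fintype.card_prod,
    Fintype.card_bool]
  push_cast
  by_cases h : (Fintype.card Ω : ℝ) = 0
  · rw [h]; simp
  · field_simp

private theorem PRP_not {Ω : Type} [Fintype Ω] [Nonempty Ω] (p : Ω → Bool) :
    pr (fun x => !p x) = 1 - pr p := by
  rw [PRP_sum, PRP_sum]
  have hc : (Fintype.card Ω : ℝ) ≠ 0 := by exact_mod_cast Fintype.card_ne_zero
  have h : (∑ x : Ω, if (!p x) = true then (1 : ℝ) else 0) =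
      Fintype.card Ω - ∑ x : Ω, if p x = true then (1 : ℝ) else 0 := by
    rw [eq_sub_iff_add_eq, ← Finset.sum_add_distrib]
    have : ∀ x : Ω, ((if (!p x) = true then (1 : ℝ) else 0) + if p x = true then (1 : ℝ) else 0)
        = 1 := by
      intro x
      cases p x <;> simp
    rw [Finset.sum_congr rfl fun x _ => this x]
    simp
  rw [h]
  field_simp

/-- the event -/
private noncomputable def PRP_Q (τ : Fin 3) (S : Scheme) (A : List Bool → List Bool)
    (t : Polynomial ℕ) (n : ℕ) (x x' : Bool) :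
    (Fin (S.g.eval n) → Bool) × (Fin (2 * n) → Bool) × (Fin (S.e.eval n) → Bool) ×
      (Fin (S.e.eval n) → Bool) × (Fin (t.eval n) → Bool) → Bool :=
  fun w => decide (A (c4 (ones n) (S.pk (pairBits (ones n) (List.ofFn w.1)))
    (em τ n (List.ofFn w.2.1) (S.ct n (List.ofFn w.1) x (List.ofFn w.2.2.1))
      (S.ct n (List.ofFn w.1) x' (List.ofFn w.2.2.2.1))) (List.ofFn w.2.2.2.2)) = [true])

private theorem PRP_fit (m : ℕ) (l : List Bool) (h : l.length = m) : fit m l = l := by
  unfold fit
  rw [List.take_append_of_le_length h.ge, List.take_of_length_le h.le]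

private theorem PRP_fitlen (m : ℕ) (l : List Bool) : (fit m l).length = m := by
  unfold fit
  rw [List.length_take, List.length_append, List.length_replicate]
  omega

private theorem PRP_ctlen (S : Scheme) (n : ℕ) (s : List Bool) (b : Bool) (r : List Bool) :
    (S.ct n s b r).length = S.len.eval n := PRP_fitlen _ _

/-- splitting of a vector -/
private def PRP_sp (a b : ℕ) : (Fin (a + b) → Bool) ≃ (Fin a → Bool) × (Fin b → Bool) :=
  (Fin.appendEquiv a b).symm

private theorem PRP_sp_ofFn (a b : ℕ) (f : Fin (a + b) → Bool) :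
    List.ofFn f = List.ofFn (PRP_sp a b f).1 ++ List.ofFn (PRP_sp a b f).2 := by
  have h : f = Fin.append (PRP_sp a b f).1 (PRP_sp a b f).2 :=
    ((Fin.appendEquiv a b).apply_symm_apply f).symm
  conv_lhs => rw [h]
  rw [List.ofFn_fin_append]

/-- first coin and the rest -/
private def PRP_one (b : ℕ) : (Fin (1 + b) → Bool) ≃ Bool × (Fin b → Bool) :=
  (PRP_sp 1 b).trans (Equiv.prodCongr (Equiv.funUnique (Fin 1) Bool) (Equiv.refl _))

private theorem PRP_one_ofFn (b : ℕ) (f : Fin (1 + b) → Bool) :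
    List.ofFn f = (PRP_one b f).1 :: List.ofFn (PRP_one b f).2 := by
  rw [PRP_sp_ofFn 1 b f]
  simp [PRP_one, List.ofFn_succ]

private def PRP_cplE (b : ℕ) : (Fin b → Bool) ≃ (Fin b → Bool) where
  toFun f i := !f i
  invFun f i := !f i
  left_inv f := by funext i; simp
  right_inv f := by funext i; simp

private theorem PRP_cplE_ofFn (b : ℕ) (f : Fin b → Bool) :
    List.ofFn (PRP_cplE b f) = cpl (List.ofFn f) := by
  unfold cpl
  rw [List.map_ofFn]
  rfl

private abbrev PV (k : ℕ) : Type := Fin k → Bool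

private def PRP_E1 (g a e t : ℕ) : PV g × PV e × PV (1 + (a + (e + t))) ≃
    Bool × PV g × PV a × PV e × PV e × PV t where
  toFun w := ((PRP_one _ w.2.2).1, w.1, (PRP_sp _ _ (PRP_one _ w.2.2).2).1, w.2.1,
          (PRP_sp _ _ (PRP_sp _ _ (PRP_one _ w.2.2).2).2).1,
          (PRP_sp _ _ (PRP_sp _ _ (PRP_one _ w.2.2).2).2).2)
  invFun z := (z.2.1, z.2.2.2.1, (PRP_one _).symm (z.1, (PRP_sp _ _).symm (z.2.2.1,
        (PRP_sp _ _).symm (z.2.2.2.2.1, z.2.2.2.2.2))))
  left_inv := by
    rintro ⟨s, r, c⟩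
    simp
  right_inv := by
    rintro ⟨a, s, y, r, r', w⟩
    simp

private def PRP_E2 (g a e t : ℕ) : PV g × PV (a + (e + e)) × PV t ≃
    PV g × PV a × PV e × PV e × PV t where
  toFun w := (w.1, (PRP_sp _ _ w.2.1).1, (PRP_sp _ _ (PRP_sp _ _ w.2.1).2).2,
            PRP_cplE _ (PRP_sp _ _ (PRP_sp _ _ w.2.1).2).1, w.2.2)
  invFun z := (z.1, (PRP_sp _ _).symm (z.2.1, (PRP_sp _ _).symm
          ((PRP_cplE _).symm z.2.2.2.1, z.2.2.1)), z.2.2.2.2)
  left_inv := by
    rintro ⟨s, R, w⟩
    simp
  right_inv := by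
    rintro ⟨s, y, r, r', w⟩
    simp

private def PRP_E3 (g a e t : ℕ) : PV g × PV (a + (e + e)) × PV t ≃
    PV g × PV a × PV e × PV e × PV t where
  toFun w := (w.1, (PRP_sp _ _ w.2.1).1, (PRP_sp _ _ (PRP_sp _ _ w.2.1).2).1,
            PRP_cplE _ (PRP_sp _ _ (PRP_sp _ _ w.2.1).2).2, w.2.2)
  invFun z := (z.1, (PRP_sp _ _).symm (z.2.1, (PRP_sp _ _).symm
          (z.2.2.1, (PRP_cplE _).symm z.2.2.2.1)), z.2.2.2.2)
  left_inv := by
    rintro ⟨s, R, w⟩
    simp
  right_inv := by
    rintro ⟨s, y, r, r', w⟩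
    simp

private def PRP_E4 (g a e t : ℕ) : PV g × PV a × PV e × PV e × PV t ≃
    PV g × PV a × PV e × PV e × PV t where
  toFun x := (x.1, x.2.1, x.2.2.2.1, x.2.2.1, x.2.2.2.2)
  invFun x := (x.1, x.2.1, x.2.2.2.1, x.2.2.1, x.2.2.2.2)
  left_inv := fun _ => rfl
  right_inv := fun _ => rfl

/-- probabilities in the reduction -/
theorem t_PRP (h1 : S_DEM) : S_PRP := by
  intro τ S encB decB A A' t hS hA' n
  -- left hand side
  have hL : ∀ b, S.acp A' (1 + (2 * Polynomial.X + (S.e + t))) n b =
      1 / 2 * (pr (PRP_Q τ S A t n b true) + (1 - pr (PRP_Q τ S A t n true b))) := by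
    intro b
    rw [← PRP_not]
    unfold Scheme.acp
    have hK : Polynomial.eval n (1 + (2 * Polynomial.X + (S.e + t))) =
        1 + (2 * n + (S.e.eval n + t.eval n)) := by
      simp
    rw [hK]
    have key := PRP_bool (Ω := (Fin (S.g.eval n) → Bool) × (Fin (2 * n) → Bool) ×
      (Fin (S.e.eval n) → Bool) × (Fin (S.e.eval n) → Bool) × (Fin (t.eval n) → Bool))
      (fun z => bif z.1 then PRP_Q τ S A t n b true z.2
        else !PRP_Q τ S A t n true b (z.2.1, z.2.2.1, z.2.2.2.2.1, z.2.2.2.1, z.2.2.2.2.2))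
    simp only [cond_true, cond_false] at key
    have hsw : pr (fun x : (Fin (S.g.eval n) → Bool) × (Fin (2 * n) → Bool) ×
      (Fin (S.e.eval n) → Bool) × (Fin (S.e.eval n) → Bool) × (Fin (t.eval n) → Bool) =>
        !PRP_Q τ S A t n true b (x.1, x.2.1, x.2.2.2.1, x.2.2.1, x.2.2.2.2)) =
        pr (fun x => !PRP_Q τ S A t n true b x) := by
      apply PRP_equiv (PRP_E4 (S.g.eval n) (2 * n) (S.e.eval n) (t.eval n))
      intro x
      rfl
    rw [hsw] at key
    rw [← key]
    apply PRP_equiv (PRP_E1 (S.g.eval n) (2 * n) (S.e.eval n) (t.eval n))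
    · rintro ⟨s, r, c⟩
      show decide (A' (c4 (ones n) (S.pk (pairBits (ones n) (List.ofFn s)))
        (S.ct n (List.ofFn s) b (List.ofFn r)) (List.ofFn c)) = [true]) = _
      rw [PRP_one_ofFn _ c, PRP_sp_ofFn _ _ (PRP_one _ c).2,
        PRP_sp_ofFn _ _ (PRP_sp _ _ (PRP_one _ c).2).2,
        hA' n _ _ _ _ _ _ (by simp) (by simp) (by simp)]
      have hd : ∀ v : Bool, decide ([v] = [true]) = v := by decide
      rw [hd]
      show _ = bif (PRP_one _ c).1 then _ else _
      cases (PRP_one _ c).1 <;> rfl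
  -- right hand side
  have hR : ∀ b, (sch S encB decB).acp A t n b = pr (PRP_Q τ S A t n b (!b)) := by
    intro b
    unfold Scheme.acp
    have hK : Polynomial.eval n (sch S encB decB).e =
        2 * n + (S.e.eval n + S.e.eval n) := by
      simp [sch]
      ring
    rw [hK]
    have hct : ∀ (s : List Bool) (y : Fin (2 * n) → Bool) (r r' : Fin (S.e.eval n) → Bool),
        (sch S encB decB).ct n s b (List.ofFn y ++ (List.ofFn r ++ List.ofFn r')) =
        em τ n (List.ofFn y)
          (S.ct n s b (bif b then List.ofFn r else List.ofFn r'))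
          (S.ct n s (!b) (bif b then cpl (List.ofFn r') else cpl (List.ofFn r))) := by
      intro s y r r'
      have e1 : (List.ofFn y ++ (List.ofFn r ++ List.ofFn r')).take (2 * n) = List.ofFn y := by
        rw [List.take_append_of_le_length (by simp), List.take_of_length_le (by simp)]
      have d1 : ∀ (u v : List Bool) (k : ℕ), u.length = k → (u ++ v).drop k = v := by
        intro u v k hk
        rw [List.drop_append_of_le_length hk.ge, List.drop_of_length_le hk.le, List.nil_append]
      have tk : ∀ (u v : List Bool) (k : ℕ), u.length = k → (u ++ v).take k = u := by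
        intro u v k hk
        rw [List.take_append_of_le_length hk.ge, List.take_of_length_le hk.le]
      have e2 : ((List.ofFn y ++ (List.ofFn r ++ List.ofFn r')).drop (2 * n)).take (S.e.eval n) =
          List.ofFn r := by
        rw [d1 _ _ _ (by simp), tk _ _ _ (by simp)]
      have e3 : ((List.ofFn y ++ (List.ofFn r ++ List.ofFn r')).drop
          (2 * n + S.e.eval n)).take (S.e.eval n) = List.ofFn r' := by
        rw [← List.append_assoc, d1 _ _ _ (by simp), List.take_of_length_le (by simp)]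
      have c1 : cpl (List.ofFn y ++ (List.ofFn r ++ List.ofFn r')) =
          cpl (List.ofFn y) ++ (cpl (List.ofFn r) ++ cpl (List.ofFn r')) := by
        simp [cpl]
      have e4 : ((cpl (List.ofFn y ++ (List.ofFn r ++ List.ofFn r'))).drop (2 * n)).take
          (S.e.eval n) = cpl (List.ofFn r) := by
        rw [c1, d1 _ _ _ (by simp [cpl]), tk _ _ _ (by simp [cpl])]
      have e5 : ((cpl (List.ofFn y ++ (List.ofFn r ++ List.ofFn r'))).drop
          (2 * n + S.e.eval n)).take (S.e.eval n) = cpl (List.ofFn r') := by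
        rw [c1, ← List.append_assoc, d1 _ _ _ (by simp [cpl]),
          List.take_of_length_le (by simp [cpl])]
      have hlen : Polynomial.eval n (sch S encB decB).len = 2 * n + n * S.len.eval n := by
        simp [sch]
      have hem : (sch S encB decB).enc (c4 (ones n) ((sch S encB decB).pk (pairBits (ones n) s))
          [b] (List.ofFn y ++ (List.ofFn r ++ List.ofFn r'))) =
          em τ n (List.ofFn y)
          (S.ct n s b (bif b then List.ofFn r else List.ofFn r'))
          (S.ct n s (!b) (bif b then cpl (List.ofFn r') else cpl (List.ofFn r))) := by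
        show encB (c4 (ones n) (S.pk (pairBits (ones n) s))
          [b] (List.ofFn y ++ (List.ofFn r ++ List.ofFn r'))) = _
        rw [hS.1, e1]
        unfold enc1 Scheme.ct
        rw [e2, e3, e4, e5]
        cases b <;> rfl
      show fit (Polynomial.eval n (sch S encB decB).len) _ = _
      rw [hem]
      apply PRP_fit
      rw [hlen]
      exact (h1 τ n (S.len.eval n) _ _ _ (by simp) (PRP_ctlen _ _ _ _ _)
        (PRP_ctlen _ _ _ _ _)).1
    cases b
    · apply PRP_equiv (PRP_E2 (S.g.eval n) (2 * n) (S.e.eval n) (t.eval n))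
      · rintro ⟨s, R, w⟩
        show decide (A (c4 (ones n) (S.pk (pairBits (ones n) (List.ofFn s)))
          ((sch S encB decB).ct n (List.ofFn s) false (List.ofFn R)) (List.ofFn w)) = [true]) = _
        rw [PRP_sp_ofFn _ _ R, PRP_sp_ofFn _ _ (PRP_sp _ _ R).2, hct]
        simp only [cond_false, Bool.not_false]
        rw [← PRP_cplE_ofFn]
        rfl
    · apply PRP_equiv (PRP_E3 (S.g.eval n) (2 * n) (S.e.eval n) (t.eval n))
      · rintro ⟨s, R, w⟩
        show decide (A (c4 (ones n) (S.pk (pairBits (ones n) (List.ofFn s)))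
          ((sch S encB decB).ct n (List.ofFn s) true (List.ofFn R)) (List.ofFn w)) = [true]) = _
        rw [PRP_sp_ofFn _ _ R, PRP_sp_ofFn _ _ (PRP_sp _ _ R).2, hct]
        simp only [cond_true, Bool.not_true]
        rw [← PRP_cplE_ofFn]
        rfl
  rw [hL, hL, hR, hR]
  simp only [Bool.not_true, Bool.not_false]
  ring

end Pool.Agent.H547S1
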