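import Pool.Agent.H547S1.T_PBT

/-!
# PRT: the reduction in polynomial time
-/

set_option autoImplicit false

namespace Pool.Agent.H547S1

open Pool.Agent.H547R6 Pool.Agent.H547R7 Pool.Agent.H547R8 Pool.Agent.NPC
open Pool.Agent.H583R2 Pool.Agent.H545R2.KS

theorem PRT_dec {α : Type} [H583R2.TEnc α] {x : α → List Bool} (hx : PF x) :
    PF (fun a => decide (x a = [true])) := by
  refine (PF.beqStr hx (PF.const [true])).congr fun a => ?_
  rw [Bool.eq_iff_iff]
  simp

theorem PRT_redP {α : Type} [H583R2.TEnc α] (τ : Fin 3) {S : Scheme}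
    {A : List Bool → List Bool} (hE : PolyTime S.enc) (hA : PolyTime A) {n : α → ℕ}
    {pk c y r w : α → List Bool} {a : α → Bool} (hn : PF n) (hpk : PF pk) (hc : PF c)
    (ha : PF a) (hy : PF y) (hr : PF r) (hw : PF w) :
    PF (fun x => redP τ S A (n x) (pk x) (c x) (a x) (y x) (r x) (w x)) := by
  have hf : PF (fun x => fit (S.len.eval (n x)) (S.enc (c4 (ones (n x)) (pk x) [true] (r x)))) :=
    PBT_fit (pf_eval hn S.len) ((pf_of_polyTime hE).comp
      (PBT_c4 (PBT_ones hn) hpk (PF.const [true]) hr))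
  exact PBT_bif ha
    (PRT_dec ((pf_of_polyTime hA).comp (PBT_c4 (PBT_ones hn) hpk (PBT_em τ hn hy hc hf) hw)))
    (PF.not (PRT_dec ((pf_of_polyTime hA).comp
      (PBT_c4 (PBT_ones hn) hpk (PBT_em τ hn hy hf hc) hw))))

theorem t_PRT : S_PRT := by
  intro τ S A t hE hA
  refine ⟨fun z => [redP τ S A (spl z).1.length (spl (spl z).2).1 (spl (spl (spl z).2).2).1
      ((spl (spl (spl z).2).2).2.headD false)
      ((spl (spl (spl z).2).2).2.tail.take (2 * (spl z).1.length))
      (((spl (spl (spl z).2).2).2.tail.drop (2 * (spl z).1.length)).take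
        (S.e.eval (spl z).1.length))
      (((spl (spl (spl z).2).2).2.tail.drop (2 * (spl z).1.length)).drop
        (S.e.eval (spl z).1.length))], ?_, ?_⟩
  · apply polyTime_of_pf
    have hn := PF.length PBT_p1
    have ht := PF.tail PBT_q3
    have hd := PF.drop (PF.mul (PF.const 2) hn) ht
    exact PF.cons (PRT_redP τ hE hA hn PBT_p2 PBT_p3 (PF.headD PBT_q3 (PF.const false))
      (PF.take (PF.mul (PF.const 2) hn) ht) (PF.take (pf_eval hn S.e) hd)
      (PF.drop (pf_eval hn S.e) hd)) (PF.const [])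
  · intro n pk c a y r w hy hr hw
    simp only [c4, spl_pairBits, PBT_length_ones, List.headD_cons, List.tail_cons]
    rw [List.take_left' hy, List.drop_left' hy, List.take_left' hr, List.drop_left' hr]

end Pool.Agent.H547S1
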