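import Pool.Agent.H547S1.Stm

/-!
# No oblivious transfer over affine gates
-/

set_option autoImplicit false

namespace Pool.Agent.H547S1

open Pool.Agent.H547R6 Pool.Agent.H547R7 Pool.Agent.H547R8 Pool.Agent.NPC
open Pool.Agent.H583R2 Pool.Agent.H545R2.KS

/-! ### lists of bits -/

theorem TAF_xorL_length {u v : List Bool} (h : u.length = v.length) :
    (xorL u v).length = u.length := by
  unfold xorL
  rw [List.length_zipWith, ← h, min_self]

theorem TAF_xorL_getD {u v : List Bool} (h : u.length = v.length) (j : ℕ) :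
    (xorL u v).getD j false = xor (u.getD j false) (v.getD j false) := by
  by_cases hj : j < u.length
  · have h1 : j < (xorL u v).length := by rw [TAF_xorL_length h]; exact hj
    have h2 : j < v.length := by omega
    rw [List.getD_eq_getElem _ _ h1, List.getD_eq_getElem _ _ hj, List.getD_eq_getElem _ _ h2]
    exact List.getElem_zipWith ..
  · have h1 : (xorL u v).length ≤ j := by rw [TAF_xorL_length h]; omega
    rw [List.getD_eq_default _ _ h1, List.getD_eq_default _ _ (by omega),
      List.getD_eq_default _ _ (by omega)]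
    rfl

theorem TAF_ext {m : ℕ} {u v : List Bool} (hu : u.length = m) (hv : v.length = m)
    (h : ∀ j < m, u.getD j false = v.getD j false) : u = v := by
  apply List.ext_getElem (by rw [hu, hv])
  intro j h1 h2
  have := h j (by omega)
  rwa [List.getD_eq_getElem _ _ h1, List.getD_eq_getElem _ _ h2] at this

/-- the zero vector -/
abbrev TAF_z (m : ℕ) : List Bool := List.replicate m false

theorem TAF_z_getD (m j : ℕ) : (TAF_z m).getD j false = false := by
  by_cases hj : j < m
  · rw [List.getD_eq_getElem _ _ (by simpa using hj)]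
    simp
  · rw [List.getD_eq_default _ _ (by simpa using hj)]

theorem TAF_z_length (m : ℕ) : (TAF_z m).length = m := by simp

/-- sum of three vectors -/
def TAF_x3 (x y z : List Bool) : List Bool := xorL x (xorL y z)

theorem TAF_x3_length {m : ℕ} {x y z : List Bool} (hx : x.length = m) (hy : y.length = m)
    (hz : z.length = m) : (TAF_x3 x y z).length = m := by
  unfold TAF_x3
  have h1 : (xorL y z).length = m := by rw [TAF_xorL_length (by rw [hy, hz]), hy]
  rw [TAF_xorL_length (by rw [hx, h1]), hx]

theorem TAF_x3_getD {m : ℕ} {x y z : List Bool} (hx : x.length = m) (hy : y.length = m)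
    (hz : z.length = m) (j : ℕ) : (TAF_x3 x y z).getD j false =
      xor (x.getD j false) (xor (y.getD j false) (z.getD j false)) := by
  unfold TAF_x3
  have h1 : (xorL y z).length = m := by rw [TAF_xorL_length (by rw [hy, hz]), hy]
  rw [TAF_xorL_getD (by rw [hx, h1]), TAF_xorL_getD (by rw [hy, hz])]

theorem TAF_x3_cons (a b c : Bool) (x y z : List Bool) :
    TAF_x3 (a :: x) (b :: y) (c :: z) = xor a (xor b c) :: TAF_x3 x y z := rfl

theorem TAF_x3_append {m : ℕ} {x y z : List Bool} (hx : x.length = m) (hy : y.length = m)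
    (hz : z.length = m) (x' y' z' : List Bool) :
    TAF_x3 (x ++ x') (y ++ y') (z ++ z') = TAF_x3 x y z ++ TAF_x3 x' y' z' := by
  induction m generalizing x y z with
  | zero =>
    rw [List.length_eq_zero_iff.1 hx, List.length_eq_zero_iff.1 hy, List.length_eq_zero_iff.1 hz]
    rfl
  | succ m ih =>
    obtain ⟨a, x, rfl⟩ := List.exists_cons_of_length_eq_add_one hx
    obtain ⟨b, y, rfl⟩ := List.exists_cons_of_length_eq_add_one hy
    obtain ⟨c, z, rfl⟩ := List.exists_cons_of_length_eq_add_one hz
    rw [List.cons_append, List.cons_append, List.cons_append, TAF_x3_cons, TAF_x3_cons,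
      List.cons_append, ih (by simpa using hx) (by simpa using hy) (by simpa using hz)]

theorem TAF_ofFn_vec {N : ℕ} {l : List Bool} (h : l.length = N) : List.ofFn (vec N l) = l := by
  apply List.ext_getElem (by simp [h])
  intro j h1 h2
  rw [List.getElem_ofFn]
  unfold vec
  rw [List.getD_eq_getElem _ _ h2]

/-- functions with affine bits respect sums of three vectors -/
theorem TAF_aff {N m : ℕ} (G : List Bool → List Bool) (hl : ∀ l, (G l).length = m)
    (hG : ∀ j < m, (⟨N, fun z => (G (List.ofFn z)).getD j false⟩ : BFun) ∈ Aff)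
    {x y z : List Bool} (hx : x.length = N) (hy : y.length = N) (hz : z.length = N) :
    G (TAF_x3 x y z) = TAF_x3 (G x) (G y) (G z) := by
  apply TAF_ext (hl _) (TAF_x3_length (hl _) (hl _) (hl _))
  intro j hj
  rw [TAF_x3_getD (hl x) (hl y) (hl z)]
  have h := hG j hj (vec N x) (vec N y) (vec N z)
  have e : (fun i => xor (vec N x i) (xor (vec N y i) (vec N z i))) = vec N (TAF_x3 x y z) := by
    funext i
    unfold vec
    rw [TAF_x3_getD hx hy hz]
  simp only [] at h
  rw [e, TAF_ofFn_vec hx, TAF_ofFn_vec hy, TAF_ofFn_vec hz,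
    TAF_ofFn_vec (TAF_x3_length hx hy hz)] at h
  exact h

theorem TAF_fit_length (m : ℕ) (l : List Bool) : (fit m l).length = m := by
  unfold fit
  rw [List.length_take, List.length_append, List.length_replicate]
  omega

/-! ### the transcript is affine -/

/-- the condition on the circuits, for affine gate sets -/
def TAF_C (P : Protocol) (n : ℕ) : Prop := ∀ i, i < P.rounds.eval n → ∀ j, j < P.len.eval n →
  ((⟨2 + (P.e.eval n + 2 * i * P.len.eval n), fun z =>
        (P.ms n ((List.ofFn z).getD 0 false) ((List.ofFn z).getD 1 false)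
          (((List.ofFn z).drop 2).take (P.e.eval n))
          ((List.ofFn z).drop (2 + P.e.eval n))).getD j false⟩ : BFun) ∈ Aff) ∧
  ((⟨1 + (P.e.eval n + (2 * i + 1) * P.len.eval n), fun z =>
        (P.mr n ((List.ofFn z).getD 0 false)
          (((List.ofFn z).drop 1).take (P.e.eval n))
          ((List.ofFn z).drop (1 + P.e.eval n))).getD j false⟩ : BFun) ∈ Aff)

theorem TAF_tr_length (P : Protocol) (n : ℕ) (b₀ b₁ c : Bool) (rs rr : List Bool) (i : ℕ) :
    (P.tr n b₀ b₁ c rs rr i).length = 2 * i * P.len.eval n := by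
  induction i with
  | zero => simp [Protocol.tr]
  | succ i ih =>
    unfold Protocol.tr
    rw [List.length_append, List.length_append, ih]
    unfold Protocol.ms Protocol.mr
    rw [TAF_fit_length, TAF_fit_length]
    ring

theorem TAF_ms {P : Protocol} {n : ℕ} (hC : TAF_C P n) {i : ℕ} (hi : i < P.rounds.eval n)
    {a b a' b' a'' b'' : Bool} {r r' r'' u u' u'' : List Bool} (hr : r.length = P.e.eval n)
    (hr' : r'.length = P.e.eval n) (hr'' : r''.length = P.e.eval n)
    (hu : u.length = 2 * i * P.len.eval n) (hu' : u'.length = 2 * i * P.len.eval n)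
    (hu'' : u''.length = 2 * i * P.len.eval n) :
    P.ms n (xor a (xor a' a'')) (xor b (xor b' b'')) (TAF_x3 r r' r'') (TAF_x3 u u' u'') =
      TAF_x3 (P.ms n a b r u) (P.ms n a' b' r' u') (P.ms n a'' b'' r'' u'') := by
  have h := TAF_aff (N := 2 + (P.e.eval n + 2 * i * P.len.eval n)) (m := P.len.eval n)
    (fun l => P.ms n (l.getD 0 false) (l.getD 1 false) ((l.drop 2).take (P.e.eval n))
      (l.drop (2 + P.e.eval n))) (fun l => TAF_fit_length _ _) (fun j hj => (hC i hi j hj).1)
    (x := a :: b :: (r ++ u)) (y := a' :: b' :: (r' ++ u')) (z := a'' :: b'' :: (r'' ++ u''))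
    (by simp only [List.length_cons, List.length_append]; omega)
    (by simp only [List.length_cons, List.length_append]; omega)
    (by simp only [List.length_cons, List.length_append]; omega)
  have key : ∀ (a b : Bool) (r u : List Bool), r.length = P.e.eval n →
      P.ms n ((a :: b :: (r ++ u)).getD 0 false) ((a :: b :: (r ++ u)).getD 1 false)
        (((a :: b :: (r ++ u)).drop 2).take (P.e.eval n))
        ((a :: b :: (r ++ u)).drop (2 + P.e.eval n)) = P.ms n a b r u := by
    intro a b r u hr
    have e1 : ((a :: b :: (r ++ u)).drop 2).take (P.e.eval n) = r := by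
      show (r ++ u).take (P.e.eval n) = r
      rw [← hr, List.take_left]
    have e2 : (a :: b :: (r ++ u)).drop (2 + P.e.eval n) = u := by
      rw [add_comm]
      show (r ++ u).drop (P.e.eval n) = u
      rw [← hr, List.drop_left]
    rw [e1, e2]
    rfl
  rw [key a b r u hr, key a' b' r' u' hr', key a'' b'' r'' u'' hr'', TAF_x3_cons, TAF_x3_cons,
    TAF_x3_append hr hr' hr'', key _ _ _ _ (TAF_x3_length hr hr' hr'')] at h
  exact h

theorem TAF_mr {P : Protocol} {n : ℕ} (hC : TAF_C P n) {i : ℕ} (hi : i < P.rounds.eval n)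
    {a a' a'' : Bool} {r r' r'' u u' u'' : List Bool} (hr : r.length = P.e.eval n)
    (hr' : r'.length = P.e.eval n) (hr'' : r''.length = P.e.eval n)
    (hu : u.length = (2 * i + 1) * P.len.eval n) (hu' : u'.length = (2 * i + 1) * P.len.eval n)
    (hu'' : u''.length = (2 * i + 1) * P.len.eval n) :
    P.mr n (xor a (xor a' a'')) (TAF_x3 r r' r'') (TAF_x3 u u' u'') =
      TAF_x3 (P.mr n a r u) (P.mr n a' r' u') (P.mr n a'' r'' u'') := by
  have h := TAF_aff (N := 1 + (P.e.eval n + (2 * i + 1) * P.len.eval n)) (m := P.len.eval n)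
    (fun l => P.mr n (l.getD 0 false) ((l.drop 1).take (P.e.eval n))
      (l.drop (1 + P.e.eval n))) (fun l => TAF_fit_length _ _) (fun j hj => (hC i hi j hj).2)
    (x := a :: (r ++ u)) (y := a' :: (r' ++ u')) (z := a'' :: (r'' ++ u''))
    (by simp only [List.length_cons, List.length_append]; omega)
    (by simp only [List.length_cons, List.length_append]; omega)
    (by simp only [List.length_cons, List.length_append]; omega)
  have key : ∀ (a : Bool) (r u : List Bool), r.length = P.e.eval n →
      P.mr n ((a :: (r ++ u)).getD 0 false)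
        (((a :: (r ++ u)).drop 1).take (P.e.eval n))
        ((a :: (r ++ u)).drop (1 + P.e.eval n)) = P.mr n a r u := by
    intro a r u hr
    have e1 : ((a :: (r ++ u)).drop 1).take (P.e.eval n) = r := by
      show (r ++ u).take (P.e.eval n) = r
      rw [← hr, List.take_left]
    have e2 : (a :: (r ++ u)).drop (1 + P.e.eval n) = u := by
      rw [add_comm]
      show (r ++ u).drop (P.e.eval n) = u
      rw [← hr, List.drop_left]
    rw [e1, e2]
    rfl
  rw [key a r u hr, key a' r' u' hr', key a'' r'' u'' hr'', TAF_x3_cons,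
    TAF_x3_append hr hr' hr'', key _ _ _ (TAF_x3_length hr hr' hr'')] at h
  exact h

theorem TAF_tr {P : Protocol} {n : ℕ} (hC : TAF_C P n) {a b c a' b' c' a'' b'' c'' : Bool}
    {r r' r'' s s' s'' : List Bool} (hr : r.length = P.e.eval n) (hr' : r'.length = P.e.eval n)
    (hr'' : r''.length = P.e.eval n) (hs : s.length = P.e.eval n) (hs' : s'.length = P.e.eval n)
    (hs'' : s''.length = P.e.eval n) (i : ℕ) (hi : i ≤ P.rounds.eval n) :
    P.tr n (xor a (xor a' a'')) (xor b (xor b' b'')) (xor c (xor c' c'')) (TAF_x3 r r' r'')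
      (TAF_x3 s s' s'') i =
      TAF_x3 (P.tr n a b c r s i) (P.tr n a' b' c' r' s' i) (P.tr n a'' b'' c'' r'' s'' i) := by
  induction i with
  | zero => rfl
  | succ i ih =>
    have ih' := ih (by omega)
    have hlt : i < P.rounds.eval n := by omega
    have h1 := TAF_tr_length P n a b c r s i
    have h2 := TAF_tr_length P n a' b' c' r' s' i
    have h3 := TAF_tr_length P n a'' b'' c'' r'' s'' i
    have h4 := TAF_ms hC hlt (a := a) (b := b) (a' := a') (b' := b') (a'' := a'') (b'' := b'')
      hr hr' hr'' h1 h2 h3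
    have hl : ∀ (a b : Bool) (r u : List Bool), (P.ms n a b r u).length = P.len.eval n :=
      fun a b r u => TAF_fit_length _ _
    have hl' : ∀ (a : Bool) (r u : List Bool), (P.mr n a r u).length = P.len.eval n :=
      fun a r u => TAF_fit_length _ _
    have e : 2 * i * P.len.eval n + P.len.eval n = (2 * i + 1) * P.len.eval n := by ring
    show (P.tr n _ _ _ _ _ i ++ P.ms n _ _ _ (P.tr n _ _ _ _ _ i)) ++
      P.mr n _ _ (P.tr n _ _ _ _ _ i ++ P.ms n _ _ _ (P.tr n _ _ _ _ _ i)) = _
    rw [ih', h4, ← TAF_x3_append h1 h2 h3,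
      TAF_mr hC hlt hs hs' hs''
        (by rw [List.length_append, h1, hl, e]) (by rw [List.length_append, h2, hl, e])
        (by rw [List.length_append, h3, hl, e]),
      ← TAF_x3_append (m := (2 * i + 1) * P.len.eval n) (by rw [List.length_append, h1, hl, e])
        (by rw [List.length_append, h2, hl, e])
        (by rw [List.length_append, h3, hl, e])]
    rfl

/-! ### linear algebra -/

theorem TAF_unit_succ (e i : ℕ) : unitL (e + 1) (i + 1) = false :: unitL e i := by
  unfold unitL
  rw [List.range_succ_eq_map, List.map_cons, List.map_map]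
  congr 1
  apply List.map_congr_left
  intro j _
  show decide (j + 1 = i + 1) = decide (j = i)
  congr 1
  rw [Nat.add_right_cancel_iff]

theorem TAF_unit_zero (e : ℕ) : unitL (e + 1) 0 = true :: TAF_z e := by
  unfold unitL
  rw [List.range_succ_eq_map, List.map_cons, List.map_map]
  congr 1
  apply List.ext_getElem (by simp)
  intro j h1 h2
  simp

theorem TAF_z_xorL {e : ℕ} {c : List Bool} (h : c.length = e) : xorL (TAF_z e) c = c := by
  apply TAF_ext (m := e) (by rw [TAF_xorL_length (by rw [TAF_z_length, h]), TAF_z_length]) h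
  intro j _
  rw [TAF_xorL_getD (by rw [TAF_z_length, h]), TAF_z_getD, Bool.false_xor]

theorem TAF_lin {m : ℕ} (e : ℕ) : ∀ (L : List Bool → List Bool),
    (∀ x, x.length = e → (L x).length = m) →
    (∀ x y, x.length = e → y.length = e → L (xorL x y) = xorL (L x) (L y)) →
    ∀ c, c.length = e → L c = comb m c ((List.range e).map fun i => L (unitL e i)) := by
  induction e with
  | zero =>
    intro L h1 h2 c hc
    have hc' : c = [] := List.length_eq_zero_iff.1 hc
    subst hc'
    have h3 : L [] = xorL (L []) (L []) := h2 [] [] rfl rfl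
    have h4 : L [] = TAF_z m := by
      apply TAF_ext (h1 [] rfl) (TAF_z_length m)
      intro j _
      rw [h3, TAF_xorL_getD rfl, TAF_z_getD, Bool.xor_self]
    rw [h4]
    rfl
  | succ e ih =>
    intro L h1 h2 c hc
    obtain ⟨b, c', rfl⟩ := List.exists_cons_of_length_eq_add_one hc
    have hc' : c'.length = e := by simpa using hc
    have h3 := ih (fun x => L (false :: x)) (fun x hx => h1 _ (by simp [hx]))
      (fun x y hx hy => h2 (false :: x) (false :: y) (by simp [hx]) (by simp [hy])) c' hc'
    have h4 : ((List.range (e + 1)).map fun i => L (unitL (e + 1) i)) =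
        L (unitL (e + 1) 0) :: ((List.range e).map fun i => L (false :: unitL e i)) := by
      rw [List.range_succ_eq_map, List.map_cons, List.map_map]
      congr 1
      apply List.map_congr_left
      intro j _
      show L (unitL (e + 1) (j + 1)) = _
      rw [TAF_unit_succ]
    rw [h4]
    have h5 : comb m (b :: c') (L (unitL (e + 1) 0) ::
        ((List.range e).map fun i => L (false :: unitL e i))) =
        bif b then xorL (L (unitL (e + 1) 0)) (L (false :: c')) else L (false :: c') := by
      rw [h3]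
      rfl
    rw [h5]
    cases b
    · rfl
    · have h6 : true :: c' = xorL (true :: TAF_z e) (false :: c') := by
        show true :: c' = true :: xorL (TAF_z e) c'
        rw [TAF_z_xorL hc']
      show L (true :: c') = xorL (L (unitL (e + 1) 0)) (L (false :: c'))
      rw [h6, h2 _ _ (by simp) (by simp [hc']), TAF_unit_zero]

/-- base transcript -/
def TAF_O (P : Protocol) (n : ℕ) : List Bool :=
  P.run n false false false (TAF_z (P.e.eval n)) (TAF_z (P.e.eval n))

/-- the vectors `q_i` -/
def TAF_q (P : Protocol) (n : ℕ) : List (List Bool) := (List.range (P.e.eval n)).map fun i =>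
  xorL (P.run n false false false (TAF_z (P.e.eval n)) (unitL (P.e.eval n) i)) (TAF_O P n)

/-- the vector `γ` -/
def TAF_g (P : Protocol) (n : ℕ) : List Bool :=
  xorL (P.run n false false true (TAF_z (P.e.eval n)) (TAF_z (P.e.eval n))) (TAF_O P n)

/-- length of the transcript -/
def TAF_m (P : Protocol) (n : ℕ) : ℕ := 2 * P.rounds.eval n * P.len.eval n

theorem TAF_run_length (P : Protocol) (n : ℕ) (b₀ b₁ c : Bool) (rs rr : List Bool) :
    (P.run n b₀ b₁ c rs rr).length = TAF_m P n := TAF_tr_length _ _ _ _ _ _ _ _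

theorem TAF_x3_zz {e : ℕ} {c : List Bool} (h : c.length = e) :
    TAF_x3 c (TAF_z e) (TAF_z e) = c := by
  apply TAF_ext (TAF_x3_length h (TAF_z_length e) (TAF_z_length e)) h
  intro j _
  rw [TAF_x3_getD h (TAF_z_length e) (TAF_z_length e), TAF_z_getD]
  simp

theorem TAF_x3_zcz {e : ℕ} {c : List Bool} (h : c.length = e) :
    TAF_x3 (TAF_z e) c (TAF_z e) = c := by
  apply TAF_ext (TAF_x3_length (TAF_z_length e) h (TAF_z_length e)) h
  intro j _
  rw [TAF_x3_getD (TAF_z_length e) h (TAF_z_length e), TAF_z_getD]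
  simp

theorem TAF_lin_run {P : Protocol} {n : ℕ} (hC : TAF_C P n) {rr : List Bool}
    (hr : rr.length = P.e.eval n) :
    xorL (P.run n false false false (TAF_z (P.e.eval n)) rr) (TAF_O P n) =
      comb (TAF_m P n) rr (TAF_q P n) := by
  refine TAF_lin (m := TAF_m P n) (P.e.eval n)
    (fun x => xorL (P.run n false false false (TAF_z (P.e.eval n)) x) (TAF_O P n)) ?_ ?_ rr hr
  · intro x _
    unfold TAF_O
    rw [TAF_xorL_length (by rw [TAF_run_length, TAF_run_length]), TAF_run_length]
  · intro x y hx hy
    have h1 := TAF_tr hC (a := false) (a' := false) (a'' := false) (b := false) (b' := false)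
      (b'' := false) (c := false) (c' := false) (c'' := false) (TAF_z_length (P.e.eval n))
      (TAF_z_length (P.e.eval n)) (TAF_z_length (P.e.eval n)) hx hy (TAF_z_length (P.e.eval n))
      (P.rounds.eval n) le_rfl
    have h2 : TAF_x3 x y (TAF_z (P.e.eval n)) = xorL x y := by
      apply TAF_ext (TAF_x3_length hx hy (TAF_z_length _))
        (by rw [TAF_xorL_length (by rw [hx, hy]), hx])
      intro j _
      rw [TAF_x3_getD hx hy (TAF_z_length _), TAF_z_getD, TAF_xorL_getD (by rw [hx, hy])]
      simp
    rw [h2, TAF_x3_zz (TAF_z_length _)] at h1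
    change P.run n false false false (TAF_z (P.e.eval n)) (xorL x y) = TAF_x3
      (P.run n false false false (TAF_z (P.e.eval n)) x)
      (P.run n false false false (TAF_z (P.e.eval n)) y) (TAF_O P n) at h1
    rw [h1]
    have l1 := TAF_run_length P n false false false (TAF_z (P.e.eval n)) x
    have l2 := TAF_run_length P n false false false (TAF_z (P.e.eval n)) y
    have l3 : (TAF_O P n).length = TAF_m P n := TAF_run_length _ _ _ _ _ _ _
    generalize P.run n false false false (TAF_z (P.e.eval n)) x = u1 at *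
    generalize P.run n false false false (TAF_z (P.e.eval n)) y = u2 at *
    generalize TAF_O P n = u3 at *
    have l4 := TAF_x3_length l1 l2 l3
    have l5 : (xorL u1 u3).length = TAF_m P n := by rw [TAF_xorL_length (by rw [l1, l3]), l1]
    have l6 : (xorL u2 u3).length = TAF_m P n := by rw [TAF_xorL_length (by rw [l2, l3]), l2]
    apply TAF_ext (m := TAF_m P n) (by rw [TAF_xorL_length (by rw [l4, l3]), l4])
      (by rw [TAF_xorL_length (by rw [l5, l6]), l5])
    intro j _
    rw [TAF_xorL_getD (by rw [l4, l3]), TAF_xorL_getD (by rw [l5, l6]), TAF_x3_getD l1 l2 l3,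
      TAF_xorL_getD (by rw [l1, l3]), TAF_xorL_getD (by rw [l2, l3])]
    cases u1.getD j false <;> cases u2.getD j false <;> cases u3.getD j false <;> rfl

theorem TAF_comb_length {P : Protocol} {n : ℕ} (hC : TAF_C P n) {rr : List Bool}
    (hr : rr.length = P.e.eval n) : (comb (TAF_m P n) rr (TAF_q P n)).length = TAF_m P n := by
  rw [← TAF_lin_run hC hr]
  unfold TAF_O
  rw [TAF_xorL_length (by rw [TAF_run_length, TAF_run_length]), TAF_run_length]

theorem TAF_g_length (P : Protocol) (n : ℕ) : (TAF_g P n).length = TAF_m P n := by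
  unfold TAF_g TAF_O
  rw [TAF_xorL_length (by rw [TAF_run_length, TAF_run_length]), TAF_run_length]

/-- the transcript, bit by bit -/
theorem TAF_main {P : Protocol} {n : ℕ} (hC : TAF_C P n) (b₀ b₁ c : Bool) {rs rr : List Bool}
    (hs : rs.length = P.e.eval n) (hr : rr.length = P.e.eval n) (j : ℕ) :
    (P.run n b₀ b₁ c rs rr).getD j false =
      xor ((P.run n b₀ b₁ false rs (TAF_z (P.e.eval n))).getD j false)
        (xor (c && (TAF_g P n).getD j false)
          ((comb (TAF_m P n) rr (TAF_q P n)).getD j false)) := by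
  have hz := TAF_z_length (P.e.eval n)
  have h1 := TAF_tr hC (a := b₀) (a' := false) (a'' := false) (b := b₁) (b' := false)
    (b'' := false) (c := false) (c' := c) (c'' := false) hs hz hz hz hr hz
    (P.rounds.eval n) le_rfl
  have h2 := TAF_tr hC (a := false) (a' := false) (a'' := false) (b := false) (b' := false)
    (b'' := false) (c := c) (c' := false) (c'' := false) hz hz hz hz hr hz
    (P.rounds.eval n) le_rfl
  rw [TAF_x3_zz hs, TAF_x3_zcz hr] at h1
  rw [TAF_x3_zz hz, TAF_x3_zcz hr] at h2
  simp only [Bool.xor_false, Bool.false_xor] at h1 h2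
  change P.run n b₀ b₁ c rs rr = TAF_x3 (P.run n b₀ b₁ false rs (TAF_z (P.e.eval n)))
    (P.run n false false c (TAF_z (P.e.eval n)) rr) (TAF_O P n) at h1
  change P.run n false false c (TAF_z (P.e.eval n)) rr = TAF_x3
    (P.run n false false c (TAF_z (P.e.eval n)) (TAF_z (P.e.eval n)))
    (P.run n false false false (TAF_z (P.e.eval n)) rr) (TAF_O P n) at h2
  have l3 : (TAF_O P n).length = TAF_m P n := TAF_run_length _ _ _ _ _ _ _
  have l0 : ∀ b₀ b₁ c rs rr, (P.run n b₀ b₁ c rs rr).length = TAF_m P n :=
    fun _ _ _ _ _ => TAF_run_length _ _ _ _ _ _ _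
  rw [h1, TAF_x3_getD (l0 _ _ _ _ _) (l0 _ _ _ _ _) l3, h2,
    TAF_x3_getD (l0 _ _ _ _ _) (l0 _ _ _ _ _) l3, ← TAF_lin_run hC hr,
    TAF_xorL_getD (by rw [l0, l3])]
  cases c
  · change xor ((P.run n b₀ b₁ false rs (TAF_z (P.e.eval n))).getD j false)
      (xor (xor ((TAF_O P n).getD j false) (xor _ ((TAF_O P n).getD j false)))
        ((TAF_O P n).getD j false)) = _
    generalize (P.run n b₀ b₁ false rs (TAF_z (P.e.eval n))).getD j false = x1
    generalize (TAF_O P n).getD j false = x2
    generalize (P.run n false false false (TAF_z (P.e.eval n)) rr).getD j false = x3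
    cases x1 <;> cases x2 <;> cases x3 <;> rfl
  · unfold TAF_g
    rw [TAF_xorL_getD (by rw [l0, l3])]
    generalize (P.run n b₀ b₁ false rs (TAF_z (P.e.eval n))).getD j false = x1
    generalize (TAF_O P n).getD j false = x2
    generalize (P.run n false false false (TAF_z (P.e.eval n)) rr).getD j false = x3
    generalize (P.run n false false true (TAF_z (P.e.eval n)) (TAF_z (P.e.eval n))).getD j false =
      x4
    cases x1 <;> cases x2 <;> cases x3 <;> cases x4 <;> rfl

theorem TAF_comb_add {P : Protocol} {n : ℕ} (hC : TAF_C P n) {x y : List Bool}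
    (hx : x.length = P.e.eval n) (hy : y.length = P.e.eval n) (j : ℕ) :
    (comb (TAF_m P n) (xorL x y) (TAF_q P n)).getD j false =
      xor ((comb (TAF_m P n) x (TAF_q P n)).getD j false)
        ((comb (TAF_m P n) y (TAF_q P n)).getD j false) := by
  have hz := TAF_z_length (P.e.eval n)
  have hxy : (xorL x y).length = P.e.eval n := by rw [TAF_xorL_length (by rw [hx, hy]), hx]
  have h1 := TAF_tr hC (a := false) (a' := false) (a'' := false) (b := false) (b' := false)
      (b'' := false) (c := false) (c' := false) (c'' := false) hz hz hz hx hy hz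
      (P.rounds.eval n) le_rfl
  have h2 : TAF_x3 x y (TAF_z (P.e.eval n)) = xorL x y := by
    apply TAF_ext (TAF_x3_length hx hy (TAF_z_length _)) hxy
    intro j _
    rw [TAF_x3_getD hx hy (TAF_z_length _), TAF_z_getD, TAF_xorL_getD (by rw [hx, hy])]
    simp
  rw [h2, TAF_x3_zz hz] at h1
  change P.run n false false false (TAF_z (P.e.eval n)) (xorL x y) = TAF_x3
    (P.run n false false false (TAF_z (P.e.eval n)) x)
    (P.run n false false false (TAF_z (P.e.eval n)) y) (TAF_O P n) at h1
  have l3 : (TAF_O P n).length = TAF_m P n := TAF_run_length _ _ _ _ _ _ _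
  have l0 : ∀ b₀ b₁ c rs rr, (P.run n b₀ b₁ c rs rr).length = TAF_m P n :=
    fun _ _ _ _ _ => TAF_run_length _ _ _ _ _ _ _
  rw [← TAF_lin_run hC hxy, ← TAF_lin_run hC hx, ← TAF_lin_run hC hy,
    TAF_xorL_getD (by rw [l0, l3]), TAF_xorL_getD (by rw [l0, l3]),
    TAF_xorL_getD (by rw [l0, l3]), h1, TAF_x3_getD (l0 _ _ _ _ _) (l0 _ _ _ _ _) l3]
  generalize (P.run n false false false (TAF_z (P.e.eval n)) x).getD j false = x1
  generalize (TAF_O P n).getD j false = x2
  generalize (P.run n false false false (TAF_z (P.e.eval n)) y).getD j false = x3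
  cases x1 <;> cases x2 <;> cases x3 <;> rfl

/-! ### polynomial time -/

section pf

variable {α : Type} [H583R2.TEnc α]

theorem TAF_pf_xor {b c : α → Bool} (hb : PF b) (hc : PF c) : PF (fun a => xor (b a) (c a)) :=
  (hb.ite hc.not hc).congr (fun a => by cases b a <;> cases c a <;> rfl)

theorem TAF_xorL_eq (u v : List Bool) : xorL u v =
    (List.range (min u.length v.length)).map fun i => xor (u.getD i false) (v.getD i false) := by
  apply List.ext_getElem
  · unfold xorL
    simp
  · intro j h1 h2
    have h3 : j < min u.length v.length := by simpa using h2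
    rw [List.getElem_map, List.getElem_range, List.getD_eq_getElem _ _ (by omega),
      List.getD_eq_getElem _ _ (by omega)]
    exact List.getElem_zipWith ..

theorem TAF_pf_xorL {u v : α → List Bool} (hu : PF u) (hv : PF v) :
    PF (fun a => xorL (u a) (v a)) := by
  have h : PF (fun a => (List.range (min (u a).length (v a).length)).map
      fun i => xor ((u a).getD i false) ((v a).getD i false)) :=
    PF.map (f := fun a i => xor ((u a).getD i false) ((v a).getD i false))
      (PF.range (PF.min (PF.length hu) (PF.length hv)))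
      (TAF_pf_xor (PF.listGetD PF.snd (hu.comp PF.fst) (PF.const false))
        (PF.listGetD PF.snd (hv.comp PF.fst) (PF.const false)))
  exact h.congr fun a => (TAF_xorL_eq _ _).symm

theorem TAF_pf_fit {m : α → ℕ} {l : α → List Bool} (hm : PF m) (hl : PF l) :
    PF (fun a => fit (m a) (l a)) :=
  PF.take hm (PF.append hl (PF.replicate hm (PF.const false)))

theorem TAF_pf_ones {n : α → ℕ} (hn : PF n) : PF (fun a => ones (n a)) :=
  PF.replicate hn (PF.const true)

theorem TAF_pf_unit {N i : α → ℕ} (hN : PF N) (hi : PF i) : PF (fun a => unitL (N a) (i a)) := by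
  unfold unitL
  exact PF.map (f := fun a j => decide (j = i a)) (PF.range hN) (PF.natEq PF.snd (hi.comp PF.fst))

theorem TAF_pf_c4 {a b c d : α → List Bool} (ha : PF a) (hb : PF b) (hc : PF c) (hd : PF d) :
    PF (fun x => c4 (a x) (b x) (c x) (d x)) :=
  pf_pairBits ha (pf_pairBits hb (pf_pairBits hc hd))

/-- one round -/
def TAF_step (P : Protocol) (n : ℕ) (b₀ b₁ c : Bool) (rs rr u : List Bool) : List Bool :=
  (u ++ P.ms n b₀ b₁ rs u) ++ P.mr n c rr (u ++ P.ms n b₀ b₁ rs u)

theorem TAF_tr_iter (P : Protocol) (n : ℕ) (b₀ b₁ c : Bool) (rs rr : List Bool) (i : ℕ) :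
    P.tr n b₀ b₁ c rs rr i = (TAF_step P n b₀ b₁ c rs rr)^[i] [] := by
  induction i with
  | zero => rfl
  | succ i ih =>
    rw [Function.iterate_succ_apply', ← ih]
    rfl

theorem TAF_pf_run {P : Protocol} (hS : PolyTime P.snd) (hR : PolyTime P.rcv) {n : α → ℕ}
    {b₀ b₁ c : α → Bool} {rs rr : α → List Bool} (hn : PF n) (h0 : PF b₀) (h1 : PF b₁)
    (hc : PF c) (hs : PF rs) (hr : PF rr) :
    PF (fun a => P.run (n a) (b₀ a) (b₁ a) (c a) (rs a) (rr a)) := by
  have hlen : PF (fun a => P.len.eval (n a)) := pf_eval hn _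
  have hrou : PF (fun a => P.rounds.eval (n a)) := pf_eval hn _
  have hms : PF (fun p : α × List Bool => P.ms (n p.1) (b₀ p.1) (b₁ p.1) (rs p.1) p.2) :=
    TAF_pf_fit (hlen.comp PF.fst) ((pf_of_polyTime hS).comp (TAF_pf_c4
      (TAF_pf_ones (hn.comp PF.fst)) (PF.cons (h0.comp PF.fst) (PF.cons (h1.comp PF.fst)
        (PF.const []))) (hs.comp PF.fst) PF.snd))
  have hum : PF (fun p : α × List Bool =>
      p.2 ++ P.ms (n p.1) (b₀ p.1) (b₁ p.1) (rs p.1) p.2) := PF.append PF.snd hms
  have hstep : PF (fun p : α × List Bool =>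
      TAF_step P (n p.1) (b₀ p.1) (b₁ p.1) (c p.1) (rs p.1) (rr p.1) p.2) :=
    PF.append hum (TAF_pf_fit (hlen.comp PF.fst) ((pf_of_polyTime hR).comp (TAF_pf_c4
      (TAF_pf_ones (hn.comp PF.fst)) (PF.cons (hc.comp PF.fst) (PF.const []))
        (hr.comp PF.fst) hum)))
  have hb : H583R2.PB (fun a => 4 * (2 * P.rounds.eval (n a) * P.len.eval (n a)) + 1) := by
    have e1 := hrou.size
    have e2 := hlen.size
    refine ((((H583R2.PB.const 8).mul e1).mul e2).add (H583R2.PB.const 1)).mono ?_
    intro a
    rw [H583R2.sz_nat, H583R2.sz_nat]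
    have : 4 * (2 * P.rounds.eval (n a) * P.len.eval (n a)) =
        8 * P.rounds.eval (n a) * P.len.eval (n a) := by ring
    rw [this]
    apply Nat.add_le_add_right
    apply Nat.mul_le_mul
    · apply Nat.mul_le_mul_left
      omega
    · omega
  have h := PF.iterate (n := fun a => P.rounds.eval (n a)) (s := fun _ => ([] : List Bool))
    (f := fun a u => TAF_step P (n a) (b₀ a) (b₁ a) (c a) (rs a) (rr a) u) hrou (PF.const [])
    hstep hb (by
      intro a j hj
      have e := TAF_tr_iter P (n a) (b₀ a) (b₁ a) (c a) (rs a) (rr a) j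
      refine (sz_str_le _).trans ?_
      have e2 : ((fun u => TAF_step P (n a) (b₀ a) (b₁ a) (c a) (rs a) (rr a) u)^[j] []).length =
          2 * j * P.len.eval (n a) := by
        rw [← TAF_tr_length P (n a) (b₀ a) (b₁ a) (c a) (rs a) (rr a) j, e]
      rw [e2]
      have e3 : 2 * j * P.len.eval (n a) ≤ 2 * P.rounds.eval (n a) * P.len.eval (n a) :=
        Nat.mul_le_mul_right _ (Nat.mul_le_mul_left _ hj)
      omega)
  refine h.congr fun a => ?_
  unfold Protocol.run
  rw [TAF_tr_iter]

theorem TAF_pf_O {P : Protocol} (hS : PolyTime P.snd) (hR : PolyTime P.rcv) {n : α → ℕ}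
    (hn : PF n) : PF (fun a => TAF_O P (n a)) := by
  have he : PF (fun a => P.e.eval (n a)) := pf_eval hn _
  exact TAF_pf_run hS hR hn (PF.const _) (PF.const _) (PF.const _)
    (PF.replicate he (PF.const _)) (PF.replicate he (PF.const _))

theorem TAF_pf_g {P : Protocol} (hS : PolyTime P.snd) (hR : PolyTime P.rcv) {n : α → ℕ}
    (hn : PF n) : PF (fun a => TAF_g P (n a)) := by
  have he : PF (fun a => P.e.eval (n a)) := pf_eval hn _
  exact TAF_pf_xorL (TAF_pf_run hS hR hn (PF.const _) (PF.const _) (PF.const _)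
    (PF.replicate he (PF.const _)) (PF.replicate he (PF.const _))) (TAF_pf_O hS hR hn)

theorem TAF_pf_q {P : Protocol} (hS : PolyTime P.snd) (hR : PolyTime P.rcv) {n : α → ℕ}
    (hn : PF n) : PF (fun a => TAF_q P (n a)) := by
  have he : PF (fun a => P.e.eval (n a)) := pf_eval hn _
  unfold TAF_q
  exact PF.map (f := fun a i => xorL (P.run (n a) false false false (TAF_z (P.e.eval (n a)))
    (unitL (P.e.eval (n a)) i)) (TAF_O P (n a))) (PF.range he)
    (TAF_pf_xorL (TAF_pf_run hS hR (hn.comp PF.fst) (PF.const _) (PF.const _) (PF.const _)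
      (PF.replicate (he.comp PF.fst) (PF.const _)) (TAF_pf_unit (he.comp PF.fst) PF.snd))
      (TAF_pf_O hS hR (hn.comp PF.fst)))

end pf

/-- the adversary against the receiver -/
def TAF_A1 (P : Protocol) (x : List Bool) : List Bool :=
  if (solveL (TAF_q P (spl x).1.length) (xorL (spl (spl (spl x).2).2).1
    (P.run (spl x).1.length false false false (spl (spl x).2).1
      (TAF_z (P.e.eval (spl x).1.length))))).isSome = true then [] else [true]

/-- the adversary against the sender -/
def TAF_A2 (P : Protocol) (x : List Bool) : List Bool :=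
  P.out (c4 (ones (spl x).1.length) [true] (xorL (spl (spl x).2).1
    ((solveL (TAF_q P (spl x).1.length) (TAF_g P (spl x).1.length)).getD []))
    (spl (spl (spl x).2).2).1)

theorem TAF_pt_A1 (h : S_LN2) {P : Protocol} (hS : PolyTime P.snd) (hR : PolyTime P.rcv) :
    PolyTime (TAF_A1 P) := by
  apply polyTime_of_pf
  have hx : PF (fun x : List Bool => spl x) := PF.spl PF.id
  have hn : PF (fun x : List Bool => (spl x).1.length) := PF.length (PF.fst' hx)
  have hx2 : PF (fun x : List Bool => spl (spl x).2) := PF.spl (PF.snd' hx)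
  have hx3 : PF (fun x : List Bool => spl (spl (spl x).2).2) := PF.spl (PF.snd' hx2)
  have he : PF (fun x : List Bool => P.e.eval (spl x).1.length) := pf_eval hn _
  have h0 : PF (fun p : List (List Bool) × List Bool => solveL p.1 p.2) := h
  have h1 := h0.comp (PF.pair (TAF_pf_q hS hR hn) (TAF_pf_xorL (PF.fst' hx3)
        (TAF_pf_run hS hR hn (PF.const false) (PF.const false) (PF.const false) (PF.fst' hx2)
          (PF.replicate he (PF.const false)))))
  refine (PF.ite (PF.isSome h1) (PF.const ([] : List Bool)) (PF.const [true])).congr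
    (fun x => ?_)
  unfold TAF_A1
  rfl

theorem TAF_pt_A2 (h : S_LN2) {P : Protocol} (hS : PolyTime P.snd) (hR : PolyTime P.rcv)
    (hO : PolyTime P.out) : PolyTime (TAF_A2 P) := by
  apply polyTime_of_pf
  have hx : PF (fun x : List Bool => spl x) := PF.spl PF.id
  have hn : PF (fun x : List Bool => (spl x).1.length) := PF.length (PF.fst' hx)
  have hx2 : PF (fun x : List Bool => spl (spl x).2) := PF.spl (PF.snd' hx)
  have hx3 : PF (fun x : List Bool => spl (spl (spl x).2).2) := PF.spl (PF.snd' hx2)
  have h0 : PF (fun p : List (List Bool) × List Bool => solveL p.1 p.2) := h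
  have h1 := h0.comp (PF.pair (TAF_pf_q hS hR hn) (TAF_pf_g hS hR hn))
  have h2 := (pf_of_polyTime hO).comp (TAF_pf_c4 (TAF_pf_ones hn) (PF.const [true])
    (TAF_pf_xorL (PF.fst' hx2) (PF.getD h1 (PF.const []))) (PF.fst' hx3))
  refine h2.congr (fun x => ?_)
  unfold TAF_A2
  rfl

theorem TAF_spl1 (n : ℕ) (a b c : List Bool) : (spl (c4 (ones n) a b c)).1.length = n := by
  unfold c4
  rw [spl_pairBits]
  unfold ones
  simp

theorem TAF_spl2 (n : ℕ) (a b c : List Bool) : (spl (spl (c4 (ones n) a b c)).2).1 = a := by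
  unfold c4
  rw [spl_pairBits, spl_pairBits]

theorem TAF_spl3 (n : ℕ) (a b c : List Bool) :
    (spl (spl (spl (c4 (ones n) a b c)).2).2).1 = b := by
  unfold c4
  rw [spl_pairBits, spl_pairBits, spl_pairBits]

theorem TAF_A1_eq (P : Protocol) (n : ℕ) (rs u w : List Bool) :
    TAF_A1 P (c4 (ones n) rs u w) = if (solveL (TAF_q P n) (xorL u
      (P.run n false false false rs (TAF_z (P.e.eval n))))).isSome = true then [] else [true] := by
  unfold TAF_A1
  rw [TAF_spl1, TAF_spl2, TAF_spl3]

theorem TAF_A2_eq (P : Protocol) (n : ℕ) (rr u w : List Bool) :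
    TAF_A2 P (c4 (ones n) rr u w) = P.out (c4 (ones n) [true] (xorL rr
      ((solveL (TAF_q P n) (TAF_g P n)).getD [])) u) := by
  unfold TAF_A2
  rw [TAF_spl1, TAF_spl2, TAF_spl3]

/-! ### the span of the vectors -/

theorem TAF_q_length (P : Protocol) (n : ℕ) : (TAF_q P n).length = P.e.eval n := by
  unfold TAF_q
  simp

theorem TAF_q_mem (P : Protocol) (n : ℕ) : ∀ v ∈ TAF_q P n, v.length = TAF_m P n := by
  intro v hv
  unfold TAF_q at hv
  obtain ⟨i, _, rfl⟩ := List.mem_map.1 hv
  unfold TAF_O
  rw [TAF_xorL_length (by rw [TAF_run_length, TAF_run_length]), TAF_run_length]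

theorem TAF_diff_length (P : Protocol) (n : ℕ) (b₀ b₁ c b₀' b₁' c' : Bool)
    (rs rr rs' rr' : List Bool) :
    (xorL (P.run n b₀ b₁ c rs rr) (P.run n b₀' b₁' c' rs' rr')).length = TAF_m P n := by
  rw [TAF_xorL_length (by rw [TAF_run_length, TAF_run_length]), TAF_run_length]

/-- on the views for `c = 0` the adversary never accepts -/
theorem TAF_acc0 (hL : S_LN1) {P : Protocol} {n : ℕ} (hC : TAF_C P n) {rs rr : List Bool}
    (hs : rs.length = P.e.eval n) (hr : rr.length = P.e.eval n) (w : List Bool) :
    TAF_A1 P (c4 (ones n) rs (P.run n false false false rs rr) w) ≠ [true] := by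
  rw [TAF_A1_eq]
  have h1 := hL (TAF_m P n) (TAF_q P n) (xorL (P.run n false false false rs rr)
    (P.run n false false false rs (TAF_z (P.e.eval n)))) (TAF_q_mem P n)
    (TAF_diff_length P n _ _ _ _ _ _ _ _ _ _)
  have h2 : comb (TAF_m P n) rr (TAF_q P n) = xorL (P.run n false false false rs rr)
      (P.run n false false false rs (TAF_z (P.e.eval n))) := by
    apply TAF_ext (TAF_comb_length hC hr) (TAF_diff_length P n _ _ _ _ _ _ _ _ _ _)
    intro j _
    rw [TAF_xorL_getD (by rw [TAF_run_length, TAF_run_length]), TAF_main hC _ _ _ hs hr]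
    generalize (P.run n false false false rs (TAF_z (P.e.eval n))).getD j false = x1
    generalize (TAF_g P n).getD j false = x2
    generalize (comb (TAF_m P n) rr (TAF_q P n)).getD j false = x3
    cases x1 <;> cases x2 <;> cases x3 <;> rfl
  cases hsol : solveL (TAF_q P n) (xorL (P.run n false false false rs rr)
    (P.run n false false false rs (TAF_z (P.e.eval n)))) with
  | none => exact absurd h2 (h1.2 hsol rr (by rw [hr, TAF_q_length]))
  | some d =>
    rw [Option.isSome_some, if_pos rfl]
    exact (List.cons_ne_nil _ _).symm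

/-- if `γ` is not in the span, the adversary accepts all views for `c = 1` -/
theorem TAF_acc1 (hL : S_LN1) {P : Protocol} {n : ℕ} (hC : TAF_C P n) {rs rr : List Bool}
    (hs : rs.length = P.e.eval n) (hr : rr.length = P.e.eval n) (w : List Bool)
    (hnone : solveL (TAF_q P n) (TAF_g P n) = none) :
    TAF_A1 P (c4 (ones n) rs (P.run n false false true rs rr) w) = [true] := by
  rw [TAF_A1_eq]
  have h1 := hL (TAF_m P n) (TAF_q P n) (xorL (P.run n false false true rs rr)
    (P.run n false false false rs (TAF_z (P.e.eval n)))) (TAF_q_mem P n)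
    (TAF_diff_length P n _ _ _ _ _ _ _ _ _ _)
  have h3 := hL (TAF_m P n) (TAF_q P n) (TAF_g P n) (TAF_q_mem P n) (TAF_g_length P n)
  cases hsol : solveL (TAF_q P n) (xorL (P.run n false false true rs rr)
    (P.run n false false false rs (TAF_z (P.e.eval n)))) with
  | none =>
    rw [Option.isSome_none, if_neg (by decide)]
  | some d =>
    exfalso
    obtain ⟨h4, h5⟩ := h1.1 d hsol
    rw [TAF_q_length] at h4
    have h6 : (xorL d rr).length = P.e.eval n := by rw [TAF_xorL_length (by rw [h4, hr]), h4]
    refine h3.2 hnone (xorL d rr) (by rw [h6, TAF_q_length]) ?_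
    apply TAF_ext (TAF_comb_length hC h6) (TAF_g_length P n)
    intro j _
    have h7 := congrArg (fun l => l.getD j false) h5
    rw [TAF_xorL_getD (by rw [TAF_run_length, TAF_run_length]), TAF_main hC _ _ _ hs hr] at h7
    rw [TAF_comb_add hC h4 hr, h7]
    generalize (P.run n false false false rs (TAF_z (P.e.eval n))).getD j false = x1
    generalize (TAF_g P n).getD j false = x2
    generalize (comb (TAF_m P n) rr (TAF_q P n)).getD j false = x3
    cases x1 <;> cases x2 <;> cases x3 <;> rfl

theorem TAF_shift {P : Protocol} {n : ℕ} (hC : TAF_C P n) (b₀ b₁ : Bool) {rs rr d : List Bool}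
    (hs : rs.length = P.e.eval n) (hr : rr.length = P.e.eval n) (hd : d.length = P.e.eval n)
    (hg : comb (TAF_m P n) d (TAF_q P n) = TAF_g P n) :
    P.run n b₀ b₁ false rs rr = P.run n b₀ b₁ true rs (xorL rr d) := by
  have h6 : (xorL rr d).length = P.e.eval n := by rw [TAF_xorL_length (by rw [hd, hr]), hr]
  apply TAF_ext (TAF_run_length _ _ _ _ _ _ _) (TAF_run_length _ _ _ _ _ _ _)
  intro j _
  rw [TAF_main hC b₀ b₁ false hs hr, TAF_main hC b₀ b₁ true hs h6, TAF_comb_add hC hr hd, hg]
  generalize (P.run n b₀ b₁ false rs (TAF_z (P.e.eval n))).getD j false = x1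
  generalize (TAF_g P n).getD j false = x2
  generalize (comb (TAF_m P n) rr (TAF_q P n)).getD j false = x3
  cases x1 <;> cases x2 <;> cases x3 <;> rfl

/-! ### probabilities -/

theorem TAF_pr_equiv {Ω Ω' : Type} [Fintype Ω] [Fintype Ω'] (e : Ω ≃ Ω') (p : Ω' → Bool) :
    pr (fun w => p (e w)) = pr p := by
  unfold pr
  rw [Fintype.card_congr e]
  congr 2
  exact Finset.card_equiv e (by intro i; simp)

theorem TAF_pr_true {Ω : Type} [Fintype Ω] [Nonempty Ω] (p : Ω → Bool) (h : ∀ w, p w = true) :
    pr p = 1 := by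
  unfold pr
  rw [Finset.filter_true_of_mem (fun w _ => h w), Finset.card_univ, div_self]
  exact_mod_cast Fintype.card_ne_zero

theorem TAF_pr_false {Ω : Type} [Fintype Ω] (p : Ω → Bool) (h : ∀ w, p w ≠ true) :
    pr p = 0 := by
  unfold pr
  rw [Finset.filter_false_of_mem (fun w _ => h w)]
  simp

theorem TAF_pr_mono {Ω : Type} [Fintype Ω] (p q : Ω → Bool) (h : ∀ w, p w = true → q w = true) :
    pr p ≤ pr q := by
  unfold pr
  apply div_le_div_of_nonneg_right _ (Nat.cast_nonneg _)
  exact_mod_cast Finset.card_le_card (Finset.monotone_filter_right _ fun a _ => h a)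

open Classical in
theorem TAF_pr_add {Ω : Type} [Fintype Ω] [Nonempty Ω] (p q : Ω → Bool)
    (h : ∀ w, p w = true ∨ q w = true) : 1 ≤ pr p + pr q := by
  unfold pr
  rw [← add_div, le_div_iff₀ (by exact_mod_cast Fintype.card_pos), one_mul]
  have h1 : (Finset.univ : Finset Ω) ⊆ (Finset.univ.filter fun x => p x = true) ∪
      (Finset.univ.filter fun x => q x = true) := by
    intro w _
    rw [Finset.mem_union, Finset.mem_filter, Finset.mem_filter]
    rcases h w with h2 | h2
    · exact Or.inl ⟨Finset.mem_univ _, h2⟩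
    · exact Or.inr ⟨Finset.mem_univ _, h2⟩
  have h2 := (Finset.card_le_card h1).trans (Finset.card_union_le _ _)
  rw [Finset.card_univ] at h2
  exact_mod_cast h2

/-- removing the unused coins and shifting -/
def TAF_E (m n : ℕ) (d : Fin m → Bool) :
    (Fin m → Bool) × (Fin m → Bool) × (Fin ((0 : Polynomial ℕ).eval n) → Bool) ≃
      (Fin m → Bool) × (Fin m → Bool) where
  toFun w := (w.1, fun i => xor (w.2.1 i) (d i))
  invFun w := (w.1, fun i => xor (w.2 i) (d i), fun _ => false)
  left_inv w := by
    obtain ⟨a, b, c⟩ := w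
    refine Prod.ext rfl (Prod.ext ?_ ?_)
    · funext i
      show xor (xor (b i) (d i)) (d i) = b i
      cases b i <;> cases d i <;> rfl
    · funext i
      have h := i.2
      have h0 : (0 : Polynomial ℕ).eval n = 0 := Polynomial.eval_zero
      exact absurd h (by omega)
  right_inv w := by
    obtain ⟨a, b⟩ := w
    refine Prod.ext rfl ?_
    funext i
    show xor (xor (b i) (d i)) (d i) = b i
    cases b i <;> cases d i <;> rfl

theorem TAF_ofFn_xor {m : ℕ} (x : Fin m → Bool) {d : List Bool} (hd : d.length = m) :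
    List.ofFn (fun i => xor (x i) (vec m d i)) = xorL (List.ofFn x) d := by
  apply TAF_ext (m := m) (by simp) (by rw [TAF_xorL_length (by simp [hd])]; simp)
  intro j hj
  rw [TAF_xorL_getD (by simp [hd]), List.getD_eq_getElem _ _ (by simpa using hj),
    List.getD_eq_getElem _ _ (by simpa using hj), List.getElem_ofFn, List.getElem_ofFn]
  rfl

/-- the correct-output events -/
theorem TAF_acr {P : Protocol} {n : ℕ} (hC : TAF_C P n) (b₀ b₁ : Bool) {d : List Bool}
    (hd : d.length = P.e.eval n) (hsol : solveL (TAF_q P n) (TAF_g P n) = some d)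
    (hg : comb (TAF_m P n) d (TAF_q P n) = TAF_g P n) :
    P.acr (TAF_A2 P) 0 n b₀ b₁ false =
      pr fun w : (Fin (P.e.eval n) → Bool) × (Fin (P.e.eval n) → Bool) =>
        decide (P.out (c4 (ones n) [true] (List.ofFn w.2)
          (P.run n b₀ b₁ true (List.ofFn w.1) (List.ofFn w.2))) = [true]) := by
  rw [← TAF_pr_equiv (TAF_E (P.e.eval n) n (vec (P.e.eval n) d))]
  unfold Protocol.acr
  congr 1
  funext w
  obtain ⟨x, y, t⟩ := w
  show decide (TAF_A2 P (c4 (ones n) (List.ofFn y)
    (P.run n b₀ b₁ false (List.ofFn x) (List.ofFn y)) (List.ofFn t)) = [true]) =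
    decide (P.out (c4 (ones n) [true] (List.ofFn fun i => xor (y i) (vec (P.e.eval n) d i))
      (P.run n b₀ b₁ true (List.ofFn x)
        (List.ofFn fun i => xor (y i) (vec (P.e.eval n) d i)))) = [true])
  rw [TAF_A2_eq, hsol, TAF_ofFn_xor y hd, TAF_shift hC b₀ b₁ (by simp) (by simp) hd hg]
  rfl

theorem t_TAF (h1 : S_NEG) (h2 : S_GL3) (h3 : S_LN1) (h4 : S_LN2) : S_TAF := by
  rintro B hB ⟨P, q, ⟨⟨hS, hR, hO⟩, hcor, hsnd, hrcv⟩, hcirc⟩
  obtain ⟨hadd, hle, hmulc, _, _, hconst⟩ := h1
  have hC : ∀ n, 1 ≤ n → TAF_C P n := by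
    intro n hn i hi j hj
    obtain ⟨ha, hb⟩ := hcirc n hn i hi j hj
    exact ⟨h2 B Aff (Or.inl rfl) hB _ _ _ ha, h2 B Aff (Or.inl rfl) hB _ _ _ hb⟩
  -- `γ` is in the span
  obtain ⟨N, hN⟩ := hsnd (TAF_A1 P) 0 (TAF_pt_A1 h4 hS hR) false false 1
  have hsome : ∀ n, max N 2 ≤ n → ∃ d, solveL (TAF_q P n) (TAF_g P n) = some d := by
    intro n hn
    have hn1 : N ≤ n := (le_max_left _ _).trans hn
    have hn2 : 2 ≤ n := (le_max_right _ _).trans hn
    have hCn := hC n (by omega)
    cases hsol : solveL (TAF_q P n) (TAF_g P n) with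
    | some d => exact ⟨d, rfl⟩
    | none =>
      exfalso
      have e1 : P.acs (TAF_A1 P) 0 n false false true = 1 := by
        apply TAF_pr_true
        intro w
        rw [decide_eq_true_eq]
        exact TAF_acc1 h3 hCn (by simp) (by simp) _ hsol
      have e2 : P.acs (TAF_A1 P) 0 n false false false = 0 := by
        apply TAF_pr_false
        intro w
        rw [ne_eq, decide_eq_true_eq]
        exact TAF_acc0 h3 hCn (by simp) (by simp) _
      have e3 := hN n hn1
      simp only [e1, e2, sub_zero, abs_one, pow_one] at e3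
      have e4 : (2 : ℝ) ≤ n := by exact_mod_cast hn2
      rw [le_div_iff₀ (by linarith)] at e3
      linarith
  -- the adversary against the sender
  have hF := (hrcv (TAF_A2 P) 0 (TAF_pt_A2 h4 hS hR hO)).1 false
  have hG := hadd _ _ hF (hadd _ _ (hcor false true true) (hcor false false true))
  refine hconst 1 one_pos (hle _ _ (max N 2) hG ?_)
  intro n hn
  have hn2 : 2 ≤ n := (le_max_right _ _).trans hn
  have hCn := hC n (by omega)
  obtain ⟨d, hd⟩ := hsome n hn
  obtain ⟨hd1, hd2⟩ := (h3 (TAF_m P n) (TAF_q P n) (TAF_g P n) (TAF_q_mem P n)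
    (TAF_g_length P n)).1 d hd
  rw [TAF_q_length] at hd1
  rw [TAF_acr hCn false true hd1 hd hd2, TAF_acr hCn false false hd1 hd hd2]
  have e1 : 1 ≤ (pr fun w : (Fin (P.e.eval n) → Bool) × (Fin (P.e.eval n) → Bool) =>
        decide (P.out (c4 (ones n) [true] (List.ofFn w.2)
          (P.run n false true true (List.ofFn w.1) (List.ofFn w.2))) = [true])) +
      P.err n false true true := by
    apply TAF_pr_add
    intro w
    rw [decide_eq_true_eq, decide_eq_true_eq]
    exact Classical.em _
  have e2 : (pr fun w : (Fin (P.e.eval n) → Bool) × (Fin (P.e.eval n) → Bool) =>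
        decide (P.out (c4 (ones n) [true] (List.ofFn w.2)
          (P.run n false false true (List.ofFn w.1) (List.ofFn w.2))) = [true])) ≤
      P.err n false false true := by
    apply TAF_pr_mono
    intro w hw
    rw [decide_eq_true_eq] at hw ⊢
    rw [hw]
    decide
  rw [abs_one]
  linarith

end Pool.Agent.H547S1
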