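import Pool.Agent.H547S1.Stm
import Pool.Agent.H547R9.T_REN

/-!
# Circuits of the protocol over `B`
-/

set_option autoImplicit false

namespace Pool.Agent.H547S1

open Pool.Agent.H547R6 Pool.Agent.H547R7 Pool.Agent.H547R8 Pool.Agent.NPC Pool.Agent.H583R2
open Pool.Agent.H545R2.KS

/-! ### polynomial time -/

section

variable {α : Type} [H583R2.TEnc α]

theorem TBC_pf_fit {m : α → ℕ} {l : α → List Bool} (hm : PF m) (hl : PF l) :
    PF (fun a => fit (m a) (l a)) := by
  unfold fit
  exact PF.take hm (PF.append hl (PF.replicate hm (PF.const false)))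

theorem TBC_pf_c4 {a b c d : α → List Bool} (ha : PF a) (hb : PF b) (hc : PF c) (hd : PF d) :
    PF (fun x => c4 (a x) (b x) (c x) (d x)) :=
  pf_pairBits ha (pf_pairBits hb (pf_pairBits hc hd))

theorem TBC_pf_good {u : α → List Bool} {i : α → ℕ} (hu : PF u) (hi : PF i) :
    PF (fun a => good (u a) (i a)) := by
  unfold good
  exact PF.and (PF.not (PF.listGetD (PF.mul (PF.const 2) hi) hu (PF.const false)))
    (PF.listGetD (PF.add (PF.mul (PF.const 2) hi) (PF.const 1)) hu (PF.const false))

theorem TBC_pf_dm {k m : α → ℕ} {u : α → List Bool} (hk : PF k) (hm : PF m) (hu : PF u) :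
    PF (fun a => dm (k a) (m a) (u a)) := by
  have h := PF.optCase (l := fun a => (List.range (k a)).find? (good (u a)))
    (g := fun a => List.replicate (m a) false)
    (h := fun a i => ((u a).drop (2 * k a + i * m a)).take (m a))
    (PF.find (f := fun a i => good (u a) i) (PF.range hk)
      (TBC_pf_good (hu.comp PF.fst) PF.snd))
    (PF.replicate hm (PF.const false))
    (PF.take (hm.comp PF.fst) (PF.drop (PF.add (PF.mul (PF.const 2) (hk.comp PF.fst))
      (PF.mul PF.snd (hm.comp PF.fst))) (hu.comp PF.fst)))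
  refine h.congr fun a => ?_
  unfold dm
  cases (List.range (k a)).find? (good (u a)) <;> rfl

theorem TBC_len_filter (q L : ℕ) :
    ((List.range L).filter fun k => decide (k < q)).length = min L q := by
  induction L with
  | zero => simp
  | succ L ih =>
    rw [List.range_succ, List.filter_append, List.length_append, ih]
    by_cases h : L < q
    · simp [h]; omega
    · simp [h]; omega

theorem TBC_pf_div {a b : α → ℕ} (ha : PF a) (hb : PF b) : PF (fun x => a x / b x) := by
  have h := PF.length (PF.filter (l := fun x => List.range (a x))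
    (f := fun x k => decide (1 ≤ b x) && decide ((k + 1) * b x ≤ a x)) (PF.range ha)
    (PF.and (PF.le (PF.const 1) (hb.comp PF.fst))
      (PF.le (PF.mul (PF.succ PF.snd) (hb.comp PF.fst)) (ha.comp PF.fst))))
  refine h.congr fun x => ?_
  rcases Nat.eq_zero_or_pos (b x) with h0 | h0
  · simp [h0]
  · have e : (fun k => decide (1 ≤ b x) && decide ((k + 1) * b x ≤ a x)) =
        fun k => decide (k < a x / b x) := by
      funext k
      have h1 : decide (1 ≤ b x) = true := decide_eq_true h0
      rw [h1, Bool.true_and, decide_eq_decide, Nat.lt_iff_add_one_le,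
        Nat.le_div_iff_mul_le h0]
    rw [e, TBC_len_filter]
    exact min_eq_right (Nat.div_le_self _ _)

theorem TBC_pf_dcd {n m : α → ℕ} {u : α → List Bool} (hn : PF n) (hm : PF m) (hu : PF u) :
    PF (fun a => dcd (n a) (m a) (u a)) := by
  unfold dcd
  have hB : PF (fun a => 2 * n a + n a * m a) := PF.add (PF.mul (PF.const 2) hn) (PF.mul hn hm)
  exact PF.flatMap (f := fun a i => dm (n a) (m a)
      (((u a).drop (i * (2 * n a + n a * m a))).take (2 * n a + n a * m a)))
    (PF.range (TBC_pf_div (PF.length hu) hB))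
    (TBC_pf_dm (hn.comp PF.fst) (hm.comp PF.fst) (PF.take (hB.comp PF.fst)
      (PF.drop (PF.mul PF.snd (hB.comp PF.fst)) (hu.comp PF.fst))))

theorem TBC_pf_ones {n : α → ℕ} (hn : PF n) : PF (fun a => ones (n a)) :=
  PF.replicate hn (PF.const true)

theorem TBC_pf_ms {P : Protocol} (hP : PolyTime P.snd) {n : α → ℕ} {b₀ b₁ : α → Bool}
    {r u : α → List Bool} (hn : PF n) (h0 : PF b₀) (h1 : PF b₁) (hr : PF r) (hu : PF u) :
    PF (fun a => P.ms (n a) (b₀ a) (b₁ a) (r a) (u a)) := by
  unfold Protocol.ms
  exact TBC_pf_fit (pf_eval hn _) ((pf_of_polyTime hP).comp (TBC_pf_c4 (TBC_pf_ones hn)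
    (PF.cons h0 (PF.cons h1 (PF.const []))) hr hu))

theorem TBC_pf_mr {P : Protocol} (hP : PolyTime P.rcv) {n : α → ℕ} {c : α → Bool}
    {r u : α → List Bool} (hn : PF n) (h0 : PF c) (hr : PF r) (hu : PF u) :
    PF (fun a => P.mr (n a) (c a) (r a) (u a)) := by
  unfold Protocol.mr
  exact TBC_pf_fit (pf_eval hn _) ((pf_of_polyTime hP).comp (TBC_pf_c4 (TBC_pf_ones hn)
    (PF.cons h0 (PF.const [])) hr hu))

end

/-- the message of the sender as a function of all variables -/
def TBC_ms (P : Protocol) (n : ℕ) (r : List Bool) : List Bool :=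
  P.ms n (r.getD 0 false) (r.getD 1 false)
    (((r.drop 2).take (2 * n + P.e.eval n)).drop (2 * n))
    (dcd n (P.len.eval n) (r.drop (2 + (2 * n + P.e.eval n))))

/-- the message of the receiver as a function of all variables -/
def TBC_mr (P : Protocol) (n : ℕ) (r : List Bool) : List Bool :=
  P.mr n (r.getD 0 false)
    (((r.drop 1).take (2 * n + P.e.eval n)).drop (2 * n))
    (dcd n (P.len.eval n) (r.drop (1 + (2 * n + P.e.eval n))))

theorem TBC_poly_ms {P : Protocol} (hP : PolyTime P.snd) :
    PolyTime (fun w => TBC_ms P (spl w).1.length (spl w).2) := by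
  apply polyTime_of_pf
  have hs : PF (fun w : List Bool => spl w) := PF.spl PF.id
  have hn : PF (fun w : List Bool => (spl w).1.length) := PF.length (PF.fst' hs)
  have hr : PF (fun w : List Bool => (spl w).2) := PF.snd' hs
  have hE : PF (fun w : List Bool => 2 * (spl w).1.length + P.e.eval (spl w).1.length) :=
    PF.add (PF.mul (PF.const 2) hn) (pf_eval hn _)
  exact TBC_pf_ms hP hn (PF.listGetD (PF.const 0) hr (PF.const false))
    (PF.listGetD (PF.const 1) hr (PF.const false))
    (PF.drop (PF.mul (PF.const 2) hn) (PF.take hE (PF.drop (PF.const 2) hr)))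
    (TBC_pf_dcd hn (pf_eval hn _) (PF.drop (PF.add (PF.const 2) hE) hr))

theorem TBC_poly_mr {P : Protocol} (hP : PolyTime P.rcv) :
    PolyTime (fun w => TBC_mr P (spl w).1.length (spl w).2) := by
  apply polyTime_of_pf
  have hs : PF (fun w : List Bool => spl w) := PF.spl PF.id
  have hn : PF (fun w : List Bool => (spl w).1.length) := PF.length (PF.fst' hs)
  have hr : PF (fun w : List Bool => (spl w).2) := PF.snd' hs
  have hE : PF (fun w : List Bool => 2 * (spl w).1.length + P.e.eval (spl w).1.length) :=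
    PF.add (PF.mul (PF.const 2) hn) (pf_eval hn _)
  exact TBC_pf_mr hP hn (PF.listGetD (PF.const 0) hr (PF.const false))
    (PF.drop (PF.mul (PF.const 2) hn) (PF.take hE (PF.drop (PF.const 1) hr)))
    (TBC_pf_dcd hn (pf_eval hn _) (PF.drop (PF.add (PF.const 1) hE) hr))

/-! ### circuits -/

theorem TBC_mono {B : Set BFun} {n s s' : ℕ} {C : BF n} (h : Computes B n s C) (hs : s ≤ s') :
    Computes B n s' C := by
  obtain ⟨l, h1, h2, h3⟩ := h
  exact ⟨l, h1, h2.trans hs, h3⟩

theorem TBC_fit {m : ℕ} {l : List Bool} (h : l.length = m) : fit m l = l := by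
  unfold fit
  subst h
  exact List.take_left

theorem TBC_length_fit (m : ℕ) (l : List Bool) : (fit m l).length = m := by
  unfold fit
  simp

theorem TBC_core {B : Set BFun} {τ : Fin 3} (hτ : τ = 0 ∨ τ = 1) {c : ℕ}
    (hc : ∀ (n s : ℕ) (C : BF n), Comp0 n s C → Computes B (n + 2) (c * (s + n + 1))
      fun y => Tf τ (y 0) (y 1) (C fun i => y i.succ.succ) (C fun i => !y i.succ.succ))
    (h3 : S_DEM) {n N a E m s j : ℕ} (Mf : (Fin N → Bool) → List Bool)
    (hM : ∀ z, (Mf z).length = m)
    (hC : ∀ l, l < m → Comp0 N s (fun z => (Mf z).getD l false)) (hN : a + E ≤ N)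
    (hE : 2 * n ≤ E) (hj : j < 2 * n + n * m) :
    Computes B N (c * (s + N + 1)) (fun z => (fit (2 * n + n * m)
      (em τ n ((((List.ofFn z).drop a).take E).take (2 * n)) (Mf z) (Mf z))).getD j false) := by
  have hy : ∀ z : Fin N → Bool,
      ((((List.ofFn z).drop a).take E).take (2 * n)).length = 2 * n := by
    intro z
    simp only [List.length_take, List.length_drop, List.length_ofFn]
    omega
  have hg : ∀ (z : Fin N → Bool) (k : ℕ) (hk : k < 2 * n),
      ((((List.ofFn z).drop a).take E).take (2 * n)).getD k false =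
        z ⟨a + k, by omega⟩ := by
    intro z k hk
    rw [List.getD_eq_getElem?_getD, List.getElem?_take_of_lt hk,
      List.getElem?_take_of_lt (by omega), List.getElem?_drop,
      List.getElem?_eq_getElem (by rw [List.length_ofFn]; omega), Option.getD_some,
      List.getElem_ofFn]
  have hem := fun z => h3 τ n m _ _ _ (hy z) (hM z) (hM z)
  have e : (fun z : Fin N → Bool => (fit (2 * n + n * m)
      (em τ n ((((List.ofFn z).drop a).take E).take (2 * n)) (Mf z) (Mf z))).getD j false) =
      fun z => (em τ n ((((List.ofFn z).drop a).take E).take (2 * n)) (Mf z) (Mf z)).getD j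
        false := by
    funext z
    rw [TBC_fit (hem z).1]
  rw [e]
  by_cases hj2 : j < 2 * n
  · have e2 : (fun z : Fin N → Bool =>
        (em τ n ((((List.ofFn z).drop a).take E).take (2 * n)) (Mf z) (Mf z)).getD j false) =
        fun z => z ⟨a + j, by omega⟩ := by
      funext z
      rw [(hem z).2.2.1 j hj2, hg z j hj2]
    rw [e2]
    exact ⟨[], Gates.nil, by simp, Or.inr ⟨_, rfl⟩⟩
  · have hm : 0 < m := by
      rcases Nat.eq_zero_or_pos m with h | h
      · subst h
        simp only [Nat.mul_zero, Nat.add_zero] at hj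
        omega
      · exact h
    obtain ⟨i, l, hi, hl, hjl⟩ : ∃ i l, i < n ∧ l < m ∧ j = 2 * n + i * m + l := by
      refine ⟨(j - 2 * n) / m, (j - 2 * n) % m, ?_, Nat.mod_lt _ hm, ?_⟩
      · exact (Nat.div_lt_iff_lt_mul hm).2 (by omega)
      · have h1 := Nat.div_add_mod' (j - 2 * n) m
        omega
    let σ : Fin (N + 2) → Fin N := Fin.cons ⟨a + 2 * i, by omega⟩
      (Fin.cons ⟨a + (2 * i + 1), by omega⟩ fun k => k)
    have h4 := (Pool.Agent.H547R9.t_REN).1 B (N + 2) N _ σ _ (hc N s _ (hC l hl))
    have e3 : (fun z : Fin N → Bool =>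
        (em τ n ((((List.ofFn z).drop a).take E).take (2 * n)) (Mf z) (Mf z)).getD j false) =
        fun z : Fin N → Bool => Tf τ (z (σ 0)) (z (σ 1))
          ((Mf fun i => z (σ i.succ.succ)).getD l false)
          ((Mf fun i => !z (σ i.succ.succ)).getD l false) := by
      funext z
      rw [hjl, (hem z).2.2.2 i l hi hl, hg z (2 * i) (by omega), hg z (2 * i + 1) (by omega)]
      have s0 : σ 0 = ⟨a + 2 * i, by omega⟩ := rfl
      have s1 : σ 1 = ⟨a + (2 * i + 1), by omega⟩ := rfl
      have s2 : ∀ k : Fin N, σ k.succ.succ = k := fun k => rfl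
      simp only [s0, s1, s2]
      rcases hτ with rfl | rfl <;> simp [Tf]
    rw [e3]
    exact h4

theorem t_TBC (h1 : S_CK3) (h2 : S_GDC) (h3 : S_DEM) : S_TBC := by
  intro B τ P sndB rcvB outB hτ hB hs hr hSp
  obtain ⟨c, hc⟩ := h2 B τ hB
  obtain ⟨q1, hq1⟩ := h1 _ (TBC_poly_ms hs)
  obtain ⟨q2, hq2⟩ := h1 _ (TBC_poly_mr hr)
  have hlen : ∀ n, (pro P sndB rcvB outB).len.eval n = 2 * n + n * P.len.eval n := by
    intro n; simp [pro]
  have he : ∀ n, (pro P sndB rcvB outB).e.eval n = 2 * n + P.e.eval n := by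
    intro n; simp [pro]
  set Np : Polynomial ℕ := 2 + ((pro P sndB rcvB outB).e +
    2 * P.rounds * (pro P sndB rcvB outB).len) with hNp
  have hNpe : ∀ n, Np.eval n = 2 + ((2 * n + P.e.eval n) +
      2 * P.rounds.eval n * (2 * n + n * P.len.eval n)) := by
    intro n
    rw [hNp]
    simp only [Polynomial.eval_add, Polynomial.eval_mul, Polynomial.eval_ofNat, hlen, he]
  refine ⟨Polynomial.C c * (q1.comp (Polynomial.X + Np + P.len) + Np + 1) +
    Polynomial.C c * (q2.comp (Polynomial.X + Np + P.len) + Np + 1), fun n hn i hi j hj => ?_⟩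
  have hqe : (Polynomial.C c * (q1.comp (Polynomial.X + Np + P.len) + Np + 1) +
      Polynomial.C c * (q2.comp (Polynomial.X + Np + P.len) + Np + 1)).eval n =
      c * (q1.eval (n + Np.eval n + P.len.eval n) + Np.eval n + 1) +
      c * (q2.eval (n + Np.eval n + P.len.eval n) + Np.eval n + 1) := by
    simp only [Polynomial.eval_add, Polynomial.eval_mul, Polynomial.eval_C,
      Polynomial.eval_comp, Polynomial.eval_X, Polynomial.eval_one]
  rw [hqe, hlen, he]
  rw [hlen] at hj
  have hones : ∀ n, (ones n).length = n := fun n => List.length_replicate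
  constructor
  · have hNle : 2 + (2 * n + P.e.eval n + 2 * i * (2 * n + n * P.len.eval n)) ≤ Np.eval n := by
      rw [hNpe]
      have h5 : 2 * i * (2 * n + n * P.len.eval n) ≤
          2 * P.rounds.eval n * (2 * n + n * P.len.eval n) :=
        Nat.mul_le_mul_right _ (by omega)
      omega
    set N := 2 + (2 * n + P.e.eval n + 2 * i * (2 * n + n * P.len.eval n)) with hNdef
    have key := TBC_core (j := j) (a := 2) (E := 2 * n + P.e.eval n) (N := N)
      (m := P.len.eval n) (s := q1.eval (n + Np.eval n + P.len.eval n)) hτ hc h3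
      (fun z => TBC_ms P n (List.ofFn z)) (fun z => TBC_length_fit _ _) (fun l hl => by
        have h6 := hq1 (ones n) N l (by omega)
        simp only [spl_pairBits, hones] at h6
        obtain ⟨L, s', g1, g2, g3⟩ := h6
        exact ⟨L, s', g1, g2.trans (H545R2.KS.eval_mono q1 (by omega)), g3⟩)
      (by omega) (by omega) hj
    refine TBC_mono (?_ : Computes B N (c * (q1.eval (n + Np.eval n + P.len.eval n) + N + 1)) _)
      ?_
    · convert key using 2 with z
      unfold Protocol.ms
      rw [hlen]
      have h7 : (pro P sndB rcvB outB).snd = sndB := rfl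
      rw [h7, hSp.1]
      rfl
    · exact (Nat.mul_le_mul_left _ (by omega)).trans (Nat.le_add_right _ _)
  · have hNle : 1 + (2 * n + P.e.eval n + (2 * i + 1) * (2 * n + n * P.len.eval n)) ≤
        Np.eval n := by
      rw [hNpe]
      have h5 : (2 * i + 1) * (2 * n + n * P.len.eval n) ≤
          2 * P.rounds.eval n * (2 * n + n * P.len.eval n) :=
        Nat.mul_le_mul_right _ (by omega)
      omega
    set N := 1 + (2 * n + P.e.eval n + (2 * i + 1) * (2 * n + n * P.len.eval n)) with hNdef
    have key := TBC_core (j := j) (a := 1) (E := 2 * n + P.e.eval n) (N := N)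
      (m := P.len.eval n) (s := q2.eval (n + Np.eval n + P.len.eval n)) hτ hc h3
      (fun z => TBC_mr P n (List.ofFn z)) (fun z => TBC_length_fit _ _) (fun l hl => by
        have h6 := hq2 (ones n) N l (by omega)
        simp only [spl_pairBits, hones] at h6
        obtain ⟨L, s', g1, g2, g3⟩ := h6
        exact ⟨L, s', g1, g2.trans (H545R2.KS.eval_mono q2 (by omega)), g3⟩)
      (by omega) (by omega) hj
    refine TBC_mono (?_ : Computes B N (c * (q2.eval (n + Np.eval n + P.len.eval n) + N + 1)) _)
      ?_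
    · convert key using 2 with z
      unfold Protocol.mr
      rw [hlen]
      have h7 : (pro P sndB rcvB outB).rcv = rcvB := rfl
      rw [h7, hSp.2.1]
      rfl
    · exact (Nat.mul_le_mul_left _ (by omega)).trans (Nat.le_add_left _ _)

end Pool.Agent.H547S1
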