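import Pool.Agent.H547S1.Stm

/-!
# Task TBD: correctness of the protocol over `B`
-/

set_option autoImplicit false

namespace Pool.Agent.H547S1

open Pool.Agent.H547R6 Pool.Agent.H547R7 Pool.Agent.H547R8 Pool.Agent.NPC Pool.Agent.H583R2

private lemma TBD_equiv {A B : Type} [Fintype A] [Fintype B] (e : A ≃ B) (p : B → Bool) :
    pr p = pr fun a => p (e a) := by
  unfold pr
  rw [Fintype.card_congr e]
  congr 2
  symm
  refine Finset.card_equiv e fun a => ?_
  simp

private lemma TBD_fst {A B : Type} [Fintype A] [Fintype B] [Nonempty B] (p : A → Bool) :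
    (pr fun x : A × B => p x.1) = pr p := by
  unfold pr
  have h1 : (Finset.univ.filter fun x : A × B => p x.1 = true) =
      (Finset.univ.filter fun x : A => p x = true) ×ˢ (Finset.univ : Finset B) := by
    ext x
    simp
  rw [h1, Finset.card_product, Fintype.card_prod, Finset.card_univ]
  push_cast
  have hB : (Fintype.card B : ℝ) ≠ 0 := by
    have := Fintype.card_pos (α := B)
    positivity
  exact mul_div_mul_right _ _ hB

private lemma TBD_snd {A B : Type} [Fintype A] [Fintype B] [Nonempty A] (p : B → Bool) :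
    (pr fun x : A × B => p x.2) = pr p := by
  rw [TBD_equiv (Equiv.prodComm B A)]
  exact TBD_fst p

private lemma TBD_le {A : Type} [Fintype A] (p q r : A → Bool)
    (h : ∀ x, p x = true → q x = true ∨ r x = true) : pr p ≤ pr q + pr r := by
  classical
  unfold pr
  rw [← add_div]
  refine div_le_div_of_nonneg_right ?_ (Nat.cast_nonneg _)
  have h1 : (Finset.univ.filter fun x => p x = true).card ≤
      (Finset.univ.filter fun x => q x = true).card +
        (Finset.univ.filter fun x => r x = true).card := by
    refine le_trans (Finset.card_le_card ?_) (Finset.card_union_le _ _)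
    intro x hx
    simp only [Finset.mem_union, Finset.mem_filter, Finset.mem_univ, true_and] at hx ⊢
    exact h x hx
  exact_mod_cast h1

private lemma TBD_main (N a e : ℕ) (hN : N = a + e) (p q : List Bool → List Bool → Bool)
    (v : List Bool → Bool)
    (hp : ∀ y y' rs rr : List Bool, y.length = a → y'.length = a → p (y ++ rs) (y' ++ rr) = true →
      v y = true ∨ v y' = true ∨ q rs rr = true) :
    (pr fun w : (Fin N → Bool) × (Fin N → Bool) => p (List.ofFn w.1) (List.ofFn w.2)) ≤
      2 * (pr fun y : Fin a → Bool => v (List.ofFn y)) +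
        pr fun w : (Fin e → Bool) × (Fin e → Bool) => q (List.ofFn w.1) (List.ofFn w.2) := by
  subst hN
  rw [TBD_equiv (Equiv.prodCongr (Fin.appendEquiv a e) (Fin.appendEquiv a e))]
  have h1 : (pr fun x : ((Fin a → Bool) × (Fin e → Bool)) × ((Fin a → Bool) × (Fin e → Bool)) =>
      v (List.ofFn x.1.1)) = pr fun y : Fin a → Bool => v (List.ofFn y) := by
    rw [TBD_fst (B := (Fin a → Bool) × (Fin e → Bool))
      (fun x : (Fin a → Bool) × (Fin e → Bool) => v (List.ofFn x.1))]
    exact TBD_fst (B := Fin e → Bool) (fun y : Fin a → Bool => v (List.ofFn y))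
  have h2 : (pr fun x : ((Fin a → Bool) × (Fin e → Bool)) × ((Fin a → Bool) × (Fin e → Bool)) =>
      v (List.ofFn x.2.1)) = pr fun y : Fin a → Bool => v (List.ofFn y) := by
    rw [TBD_snd (A := (Fin a → Bool) × (Fin e → Bool))
      (fun x : (Fin a → Bool) × (Fin e → Bool) => v (List.ofFn x.1))]
    exact TBD_fst (B := Fin e → Bool) (fun y : Fin a → Bool => v (List.ofFn y))
  have h3 : (pr fun x : ((Fin a → Bool) × (Fin e → Bool)) × ((Fin a → Bool) × (Fin e → Bool)) =>
      q (List.ofFn x.1.2) (List.ofFn x.2.2)) =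
      pr fun w : (Fin e → Bool) × (Fin e → Bool) => q (List.ofFn w.1) (List.ofFn w.2) := by
    rw [TBD_equiv (Equiv.prodProdProdComm (Fin a → Bool) (Fin a → Bool) (Fin e → Bool)
      (Fin e → Bool))]
    exact TBD_snd (A := (Fin a → Bool) × (Fin a → Bool))
      (fun w : (Fin e → Bool) × (Fin e → Bool) => q (List.ofFn w.1) (List.ofFn w.2))
  have h4 := TBD_le
    (fun x : ((Fin a → Bool) × (Fin e → Bool)) × ((Fin a → Bool) × (Fin e → Bool)) =>
      p (List.ofFn ((Equiv.prodCongr (Fin.appendEquiv a e) (Fin.appendEquiv a e)) x).1)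
        (List.ofFn ((Equiv.prodCongr (Fin.appendEquiv a e) (Fin.appendEquiv a e)) x).2))
    (fun x => v (List.ofFn x.1.1))
    (fun x => v (List.ofFn x.2.1) || q (List.ofFn x.1.2) (List.ofFn x.2.2)) (by
      rintro ⟨⟨y, rs⟩, ⟨y', rr⟩⟩ hx
      simp only [Equiv.prodCongr_apply, Prod.map_fst, Prod.map_snd, Fin.appendEquiv,
        Equiv.coe_fn_mk, List.ofFn_fin_append] at hx
      have := hp (List.ofFn y) (List.ofFn y') (List.ofFn rs) (List.ofFn rr) (by simp) (by simp) hx
      simpa [Bool.or_eq_true] using this)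
  have h5 := TBD_le
    (fun x : ((Fin a → Bool) × (Fin e → Bool)) × ((Fin a → Bool) × (Fin e → Bool)) =>
      v (List.ofFn x.2.1) || q (List.ofFn x.1.2) (List.ofFn x.2.2))
    (fun x => v (List.ofFn x.2.1))
    (fun x => q (List.ofFn x.1.2) (List.ofFn x.2.2)) (by
      intro x hx
      simpa [Bool.or_eq_true] using hx)
  rw [h1] at h4
  rw [h2, h3] at h5
  linarith

theorem t_TBD (h1 : S_VAL) (h2 : S_TBR) : S_TBD := by
  intro τ P sndB rcvB outB hS n hn b₀ b₁ c
  have hN : (pro P sndB rcvB outB).e.eval n = 2 * n + P.e.eval n := by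
    simp [pro]
  have h3 := TBD_main ((pro P sndB rcvB outB).e.eval n) (2 * n) (P.e.eval n) hN
    (fun R R' => decide ((pro P sndB rcvB outB).out (c4 (ones n) [c] R'
      ((pro P sndB rcvB outB).run n b₀ b₁ c R R')) ≠ [bif c then b₁ else b₀]))
    (fun rs rr => decide (P.out (c4 (ones n) [c] rr
      (P.run n b₀ b₁ c rs rr)) ≠ [bif c then b₁ else b₀]))
    (fun y => !(valid n y)) (by
      intro y y' rs rr hy hy' h
      by_cases hv : valid n y = true
      · by_cases hv' : valid n y' = true
        · right; right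
          have h4 := h2 τ P sndB rcvB outB hS n b₀ b₁ c y y' rs rr hn hy hy' hv hv'
            (P.rounds.eval n)
          have h5 : (pro P sndB rcvB outB).out (c4 (ones n) [c] (y' ++ rr)
              ((pro P sndB rcvB outB).run n b₀ b₁ c (y ++ rs) (y' ++ rr))) =
              P.out (c4 (ones n) [c] rr (P.run n b₀ b₁ c rs rr)) := by
            show outB (c4 (ones n) [c] (y' ++ rr)
              ((pro P sndB rcvB outB).tr n b₀ b₁ c (y ++ rs) (y' ++ rr) (P.rounds.eval n))) = _
            rw [hS.2.2, h4.1, h4.2, ← hy', List.drop_left]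
            rfl
          rw [h5] at h
          exact h
        · right; left
          simpa using hv'
      · left
        simpa using hv)
  rw [h1 n] at h3
  exact h3

end Pool.Agent.H547S1
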