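import Pool.Agent.H547S1.Stm

/-!
# The transcript of the protocol over `B` (task TBR, helper613)
-/

set_option autoImplicit false

namespace Pool.Agent.H547S1

open Pool.Agent.H547R6 Pool.Agent.H547R7 Pool.Agent.H547R8 Pool.Agent.NPC Pool.Agent.H583R2

theorem TBR_fit_len (m : ℕ) (l : List Bool) : (fit m l).length = m := by
  unfold fit
  rw [List.length_take, List.length_append, List.length_replicate]
  omega

theorem TBR_fit_id {m : ℕ} {l : List Bool} (h : l.length = m) : fit m l = l := by
  unfold fit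
  subst h
  exact List.take_left

theorem TBR_piece {v w : List Bool} {L i M : ℕ} (hv : v.length = M * L) (hi : i < M) :
    ((v ++ w).drop (i * L)).take L = (v.drop (i * L)).take L := by
  have h1 : (i + 1) * L ≤ M * L := Nat.mul_le_mul_right _ hi
  have h2 : (i + 1) * L = i * L + L := by ring
  rw [List.drop_append_of_le_length (by omega),
    List.take_append_of_le_length (by rw [List.length_drop]; omega)]

theorem TBR_last {v w : List Bool} {L M : ℕ} (hv : v.length = M * L) (hw : w.length = L) :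
    ((v ++ w).drop (M * L)).take L = w := by
  rw [← hv, List.drop_left, ← hw, List.take_length]

theorem TBR_dcd {n m M : ℕ} {v w : List Bool} (hL : 0 < 2 * n + n * m)
    (hv : v.length = M * (2 * n + n * m)) (hw : w.length = 2 * n + n * m) :
    dcd n m (v ++ w) = dcd n m v ++ dm n m w := by
  unfold dcd
  have e1 : (v ++ w).length / (2 * n + n * m) = M + 1 := by
    rw [List.length_append, hv, hw, ← Nat.succ_mul, Nat.mul_div_cancel _ hL]
  have e2 : v.length / (2 * n + n * m) = M := by
    rw [hv, Nat.mul_div_cancel _ hL]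
  rw [e1, e2, List.range_succ, List.flatMap_append]
  congr 1
  · apply List.flatMap_congr
    intro i hi
    rw [List.mem_range] at hi
    rw [TBR_piece hv hi]
  · rw [List.flatMap_cons, List.flatMap_nil, List.append_nil, TBR_last hv hw]

theorem TBR_enT {τ : Fin 3} {n m M : ℕ} {y y' u w : List Bool} (hu : u.length = M * m)
    (hw : w.length = m) :
    enT τ n m (M + 1) y y' (u ++ w) =
      enT τ n m M y y' u ++ em τ n (if M % 2 = 0 then y else y') w w := by
  unfold enT
  rw [List.range_succ, List.flatMap_append]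
  congr 1
  · apply List.flatMap_congr
    intro i hi
    rw [List.mem_range] at hi
    rw [TBR_piece hu hi]
  · rw [List.flatMap_cons, List.flatMap_nil, List.append_nil, TBR_last hu hw]

/-- one more message -/
theorem TBR_step (h : S_DEM) {τ : Fin 3} {n m M : ℕ} {y y' u w : List Bool} (hn : 1 ≤ n)
    (hy : y.length = 2 * n) (hy' : y'.length = 2 * n) (hv : valid n y = true)
    (hv' : valid n y' = true) (hu : u.length = M * m) (hw : w.length = m)
    (h1 : (enT τ n m M y y' u).length = M * (2 * n + n * m))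
    (h2 : dcd n m (enT τ n m M y y' u) = u) :
    enT τ n m (M + 1) y y' (u ++ w) =
      enT τ n m M y y' u ++ em τ n (if M % 2 = 0 then y else y') w w ∧
    (u ++ w).length = (M + 1) * m ∧
    (enT τ n m (M + 1) y y' (u ++ w)).length = (M + 1) * (2 * n + n * m) ∧
    dcd n m (enT τ n m (M + 1) y y' (u ++ w)) = u ++ w := by
  have e1 := TBR_enT (τ := τ) (n := n) (y := y) (y' := y') hu hw
  have hz : (if M % 2 = 0 then y else y').length = 2 * n := by split_ifs <;> assumption
  have hzv : valid n (if M % 2 = 0 then y else y') = true := by split_ifs <;> assumption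
  obtain ⟨d1, d2, -, -⟩ := h τ n m _ w w hz hw hw
  refine ⟨e1, ?_, ?_, ?_⟩
  · rw [List.length_append, hu, hw]; ring
  · rw [e1, List.length_append, h1, d1]; ring
  · rw [e1, TBR_dcd (by omega) h1 d1, h2, d2 hzv]

theorem t_TBR (h : S_DEM) : S_TBR := by
  intro τ P sndB rcvB outB hS n b₀ b₁ c y y' rs rr hn hy hy' hv hv' i
  set m := P.len.eval n with hm
  have hlen : (pro P sndB rcvB outB).len.eval n = 2 * n + n * m := by
    simp [pro, hm]
  have hms : ∀ u, (pro P sndB rcvB outB).ms n b₀ b₁ (y ++ rs) u =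
      em τ n y (P.ms n b₀ b₁ rs (dcd n m u)) (P.ms n b₀ b₁ rs (dcd n m u)) := by
    intro u
    unfold Protocol.ms
    rw [hlen]
    have e1 := hS.1 n b₀ b₁ (y ++ rs) u
    have e2 : (y ++ rs).take (2 * n) = y := by rw [← hy]; exact List.take_left
    have e3 : (y ++ rs).drop (2 * n) = rs := by rw [← hy]; exact List.drop_left
    rw [e2, e3] at e1
    change fit (2 * n + n * m) (sndB _) = _
    rw [e1]
    have e4 : (P.ms n b₀ b₁ rs (dcd n m u)).length = m := TBR_fit_len _ _
    exact TBR_fit_id (h τ n m y _ _ hy e4 e4).1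
  have hmr : ∀ u, (pro P sndB rcvB outB).mr n c (y' ++ rr) u =
      em τ n y' (P.mr n c rr (dcd n m u)) (P.mr n c rr (dcd n m u)) := by
    intro u
    unfold Protocol.mr
    rw [hlen]
    have e1 := hS.2.1 n c (y' ++ rr) u
    have e2 : (y' ++ rr).take (2 * n) = y' := by rw [← hy']; exact List.take_left
    have e3 : (y' ++ rr).drop (2 * n) = rr := by rw [← hy']; exact List.drop_left
    rw [e2, e3] at e1
    change fit (2 * n + n * m) (rcvB _) = _
    rw [e1]
    have e4 : (P.mr n c rr (dcd n m u)).length = m := TBR_fit_len _ _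
    exact TBR_fit_id (h τ n m y' _ _ hy' e4 e4).1
  have key : ∀ i, (pro P sndB rcvB outB).tr n b₀ b₁ c (y ++ rs) (y' ++ rr) i =
      enT τ n m (2 * i) y y' (P.tr n b₀ b₁ c rs rr i) ∧
      (P.tr n b₀ b₁ c rs rr i).length = (2 * i) * m ∧
      (enT τ n m (2 * i) y y' (P.tr n b₀ b₁ c rs rr i)).length = (2 * i) * (2 * n + n * m) ∧
      dcd n m (enT τ n m (2 * i) y y' (P.tr n b₀ b₁ c rs rr i)) =
        P.tr n b₀ b₁ c rs rr i := by
    intro i
    induction i with
    | zero =>
      refine ⟨rfl, by simp [Protocol.tr], by simp [enT], ?_⟩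
      simp [Protocol.tr, enT, dcd]
    | succ i ih =>
      obtain ⟨i1, i2, i3, i4⟩ := ih
      set u := P.tr n b₀ b₁ c rs rr i with hu
      have w1 : (P.ms n b₀ b₁ rs u).length = m := TBR_fit_len _ _
      obtain ⟨s1, s2, s3, s4⟩ := TBR_step h (τ := τ) hn hy hy' hv hv' i2 w1 i3 i4
      have w2 : (P.mr n c rr (u ++ P.ms n b₀ b₁ rs u)).length = m := TBR_fit_len _ _
      obtain ⟨t1, t2, t3, t4⟩ := TBR_step h (τ := τ) hn hy hy' hv hv' s2 w2 s3 s4
      have hA : (pro P sndB rcvB outB).tr n b₀ b₁ c (y ++ rs) (y' ++ rr) i ++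
          (pro P sndB rcvB outB).ms n b₀ b₁ (y ++ rs)
            ((pro P sndB rcvB outB).tr n b₀ b₁ c (y ++ rs) (y' ++ rr) i) =
          enT τ n m (2 * i + 1) y y' (u ++ P.ms n b₀ b₁ rs u) := by
        rw [hms, i1, i4, s1]
        have e : 2 * i % 2 = 0 := by omega
        rw [if_pos e]
      have e2 : 2 * (i + 1) = 2 * i + 1 + 1 := by ring
      have hT : P.tr n b₀ b₁ c rs rr (i + 1) =
          (u ++ P.ms n b₀ b₁ rs u) ++ P.mr n c rr (u ++ P.ms n b₀ b₁ rs u) := rfl
      rw [hT, e2]
      refine ⟨?_, t2, t3, t4⟩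
      have hP : (pro P sndB rcvB outB).tr n b₀ b₁ c (y ++ rs) (y' ++ rr) (i + 1) =
          ((pro P sndB rcvB outB).tr n b₀ b₁ c (y ++ rs) (y' ++ rr) i ++
          (pro P sndB rcvB outB).ms n b₀ b₁ (y ++ rs)
            ((pro P sndB rcvB outB).tr n b₀ b₁ c (y ++ rs) (y' ++ rr) i)) ++
          (pro P sndB rcvB outB).mr n c (y' ++ rr)
            ((pro P sndB rcvB outB).tr n b₀ b₁ c (y ++ rs) (y' ++ rr) i ++
            (pro P sndB rcvB outB).ms n b₀ b₁ (y ++ rs)
              ((pro P sndB rcvB outB).tr n b₀ b₁ c (y ++ rs) (y' ++ rr) i)) := rfl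
      rw [hP, hA, hmr, s4, t1]
      have e : ¬ (2 * i + 1) % 2 = 0 := by omega
      rw [if_neg e]
  exact ⟨(key i).1, (key i).2.2.2⟩

end Pool.Agent.H547S1
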