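import Pool.Agent.H547S1.Stm

/-!
# The algorithms of the protocol over a gate set
-/

set_option autoImplicit false

namespace Pool.Agent.H547S1

open Pool.Agent.H547R6 Pool.Agent.H547R7 Pool.Agent.H547R8 Pool.Agent.NPC
open Pool.Agent.H583R2 Pool.Agent.H545R2.KS

section

variable {α : Type} [H583R2.TEnc α]

theorem TBT_pf_Tf (τ : Fin 3) {y0 y1 c c' : α → Bool} (hy0 : PF y0) (hy1 : PF y1) (hc : PF c)
    (hc' : PF c') : PF (fun a => Tf τ (y0 a) (y1 a) (c a) (c' a)) := by
  by_cases h0 : τ = 0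
  · exact (PF.or hy0 (PF.and hy1 hc)).congr (fun a => by simp [Tf, h0])
  · by_cases h1 : τ = 1
    · exact (PF.and hy1 (PF.or hy0 hc)).congr (fun a => by simp [Tf, h1])
    · exact (PF.ite (PF.beqBool hy0 hy1) hy0 (PF.ite hy1 hc (PF.not hc'))).congr
        (fun a => by simp [Tf, h0, h1])

theorem TBT_zip (f : Bool → Bool → Bool) (c c' : List Bool) :
    (List.range (min c.length c'.length)).map (fun i => f (c.getD i false) (c'.getD i false)) =
      List.zipWith f c c' := by
  apply List.ext_getElem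
  · simp
  · intro i h1 h2
    have h3 : i < c.length ∧ i < c'.length := by
      simp only [List.length_zipWith] at h2
      omega
    simp [List.getElem?_eq_getElem h3.1, List.getElem?_eq_getElem h3.2]

theorem TBT_pf_zip (τ : Fin 3) {y0 y1 : α → Bool} {c c' : α → List Bool} (hy0 : PF y0)
    (hy1 : PF y1) (hc : PF c) (hc' : PF c') :
    PF (fun a => List.zipWith (Tf τ (y0 a) (y1 a)) (c a) (c' a)) := by
  refine (PF.map (f := fun a i => Tf τ (y0 a) (y1 a) ((c a).getD i false) ((c' a).getD i false))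
    (PF.range (PF.min (PF.length hc) (PF.length hc'))) ?_).congr (fun a => TBT_zip _ _ _)
  exact TBT_pf_Tf τ (hy0.comp PF.fst) (hy1.comp PF.fst)
    (PF.listGetD PF.snd (hc.comp PF.fst) (PF.const false))
    (PF.listGetD PF.snd (hc'.comp PF.fst) (PF.const false))

theorem TBT_pf_em (τ : Fin 3) {k : α → ℕ} {y c c' : α → List Bool} (hk : PF k) (hy : PF y)
    (hc : PF c) (hc' : PF c') : PF (fun a => em τ (k a) (y a) (c a) (c' a)) := by
  unfold em
  refine PF.append hy (PF.flatMap (f := fun a i => List.zipWith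
    (Tf τ ((y a).getD (2 * i) false) ((y a).getD (2 * i + 1) false)) (c a) (c' a))
    (PF.range hk) ?_)
  have h2 : PF (fun p : α × ℕ => 2 * p.2) := PF.mul (PF.const 2) PF.snd
  exact TBT_pf_zip τ (PF.listGetD h2 (hy.comp PF.fst) (PF.const false))
    (PF.listGetD (PF.succ h2) (hy.comp PF.fst) (PF.const false)) (hc.comp PF.fst)
    (hc'.comp PF.fst)

theorem TBT_pf_good {u : α → List Bool} {i : α → ℕ} (hu : PF u) (hi : PF i) :
    PF (fun a => good (u a) (i a)) := by
  unfold good
  have h2 : PF (fun a => 2 * i a) := PF.mul (PF.const 2) hi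
  exact PF.and (PF.not (PF.listGetD h2 hu (PF.const false)))
    (PF.listGetD (PF.succ h2) hu (PF.const false))

theorem TBT_pf_dm {k m : α → ℕ} {u : α → List Bool} (hk : PF k) (hm : PF m) (hu : PF u) :
    PF (fun a => dm (k a) (m a) (u a)) := by
  unfold dm
  refine PF.optCase (l := fun a => (List.range (k a)).find? (good (u a)))
    (g := fun a => List.replicate (m a) false)
    (h := fun a i => ((u a).drop (2 * k a + i * m a)).take (m a)) ?_ ?_ ?_ |>.congr ?_
  · exact PF.find (f := fun a i => good (u a) i) (PF.range hk)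
      (TBT_pf_good (hu.comp PF.fst) PF.snd)
  · exact PF.replicate hm (PF.const false)
  · exact PF.take (hm.comp PF.fst) (PF.drop (PF.add (PF.mul (PF.const 2) (hk.comp PF.fst))
      (PF.mul PF.snd (hm.comp PF.fst))) (hu.comp PF.fst))
  · intro a
    cases (List.range (k a)).find? (good (u a)) <;> rfl

theorem TBT_filter_lt (n k : ℕ) (g : ℕ → Bool) (h1 : ∀ i < n, g i = true)
    (h2 : ∀ i < k, g (n + i) = false) : (List.range (n + k)).filter g = List.range n := by
  rw [List.range_add, List.filter_append]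
  have e1 : (List.range n).filter g = List.range n := by
    rw [List.filter_eq_self]
    intro i hi
    exact h1 i (List.mem_range.1 hi)
  have e2 : ((List.range k).map (n + ·)).filter g = [] := by
    rw [List.filter_eq_nil_iff]
    intro i hi
    obtain ⟨j, hj, rfl⟩ := List.mem_map.1 hi
    simp [h2 j (List.mem_range.1 hj)]
  rw [e1, e2, List.append_nil]

theorem TBT_div (a b : ℕ) : ((List.range a).filter fun i => !(decide (b = 0)) &&
    decide ((i + 1) * b ≤ a)).length = a / b := by
  rcases Nat.eq_zero_or_pos b with hb | hb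
  · subst hb
    simp
  · have h1 : a / b ≤ a := Nat.div_le_self a b
    obtain ⟨k, hk⟩ := Nat.exists_eq_add_of_le h1
    have h2 := TBT_filter_lt (a / b) k (fun i => !(decide (b = 0)) &&
      decide ((i + 1) * b ≤ a)) (by
        intro i hi
        have h3 : (i + 1) * b ≤ a := by
          calc (i + 1) * b ≤ a / b * b := Nat.mul_le_mul_right b hi
            _ ≤ a := Nat.div_mul_le_self a b
        simp [hb.ne', h3]) (by
        intro i _
        have h3 : ¬ ((a / b + i + 1) * b ≤ a) := by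
          intro h4
          have h5 := (Nat.le_div_iff_mul_le hb).2 h4
          omega
        simp [h3])
    rw [← hk] at h2
    rw [h2, List.length_range]

theorem TBT_pf_div {m n : α → ℕ} (hm : PF m) (hn : PF n) : PF (fun a => m a / n a) := by
  refine (PF.length (PF.filter (f := fun a i => !(decide (n a = 0)) &&
    decide ((i + 1) * n a ≤ m a)) (PF.range hm) ?_)).congr (fun a => TBT_div _ _)
  exact PF.and (PF.not (PF.isZero (hn.comp PF.fst)))
    (PF.le (PF.mul (PF.succ PF.snd) (hn.comp PF.fst)) (hm.comp PF.fst))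

theorem TBT_pf_dcd {n m : α → ℕ} {u : α → List Bool} (hn : PF n) (hm : PF m) (hu : PF u) :
    PF (fun a => dcd (n a) (m a) (u a)) := by
  unfold dcd
  have hb : PF (fun a => 2 * n a + n a * m a) :=
    PF.add (PF.mul (PF.const 2) hn) (PF.mul hn hm)
  refine PF.flatMap (f := fun a i => dm (n a) (m a) (((u a).drop (i * (2 * n a + n a * m a))).take
    (2 * n a + n a * m a))) (PF.range (TBT_pf_div (PF.length hu) hb)) ?_
  exact TBT_pf_dm (hn.comp PF.fst) (hm.comp PF.fst) (PF.take (hb.comp PF.fst)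
    (PF.drop (PF.mul PF.snd (hb.comp PF.fst)) (hu.comp PF.fst)))

theorem TBT_pf_ones {n : α → ℕ} (hn : PF n) : PF (fun a => ones (n a)) := by
  unfold ones
  exact PF.replicate hn (PF.const true)

theorem TBT_pf_c4 {x y z w : α → List Bool} (hx : PF x) (hy : PF y) (hz : PF z) (hw : PF w) :
    PF (fun a => c4 (x a) (y a) (z a) (w a)) := by
  unfold c4
  exact pf_pairBits hx (pf_pairBits hy (pf_pairBits hz hw))

theorem TBT_pf_fit {m : α → ℕ} {l : α → List Bool} (hm : PF m) (hl : PF l) :
    PF (fun a => fit (m a) (l a)) := by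
  unfold fit
  exact PF.take hm (PF.append hl (PF.replicate hm (PF.const false)))

end

/-- security parameter -/
def TBT_n (z : List Bool) : ℕ := (spl z).1.length
/-- input of the party -/
def TBT_b (z : List Bool) : List Bool := (spl (spl z).2).1
/-- coins -/
def TBT_R (z : List Bool) : List Bool := (spl (spl (spl z).2).2).1
/-- transcript -/
def TBT_u (z : List Bool) : List Bool := (spl (spl (spl z).2).2).2

theorem TBT_dec (n : ℕ) (b R u : List Bool) : TBT_n (c4 (ones n) b R u) = n ∧
    TBT_b (c4 (ones n) b R u) = b ∧ TBT_R (c4 (ones n) b R u) = R ∧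
    TBT_u (c4 (ones n) b R u) = u := by
  unfold TBT_n TBT_b TBT_R TBT_u c4
  simp [spl_pairBits, ones]

theorem TBT_pf_n : PF TBT_n := PF.length (PF.fst' (PF.spl PF.id))
theorem TBT_pf_b : PF TBT_b := PF.fst' (PF.spl (PF.snd' (PF.spl PF.id)))
theorem TBT_pf_R : PF TBT_R := PF.fst' (PF.spl (PF.snd' (PF.spl (PF.snd' (PF.spl PF.id)))))
theorem TBT_pf_u : PF TBT_u := PF.snd' (PF.spl (PF.snd' (PF.spl (PF.snd' (PF.spl PF.id)))))

/-- input of the algorithms of the original protocol -/
noncomputable def TBT_in (p : Polynomial ℕ) (z : List Bool) : List Bool :=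
  c4 (ones (TBT_n z)) (TBT_b z) ((TBT_R z).drop (2 * TBT_n z))
    (dcd (TBT_n z) (p.eval (TBT_n z)) (TBT_u z))

theorem TBT_pf_in (p : Polynomial ℕ) : PF (TBT_in p) := by
  unfold TBT_in
  exact TBT_pf_c4 (TBT_pf_ones TBT_pf_n) TBT_pf_b
    (PF.drop (PF.mul (PF.const 2) TBT_pf_n) TBT_pf_R)
    (TBT_pf_dcd TBT_pf_n (pf_eval TBT_pf_n p) TBT_pf_u)

/-- message algorithm -/
noncomputable def TBT_msg (τ : Fin 3) (p : Polynomial ℕ) (f : List Bool → List Bool)
    (z : List Bool) : List Bool :=
  em τ (TBT_n z) ((TBT_R z).take (2 * TBT_n z)) (fit (p.eval (TBT_n z)) (f (TBT_in p z)))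
    (fit (p.eval (TBT_n z)) (f (TBT_in p z)))

theorem TBT_pf_msg (τ : Fin 3) (p : Polynomial ℕ) {f : List Bool → List Bool} (hf : PolyTime f) :
    PolyTime (TBT_msg τ p f) := by
  apply polyTime_of_pf
  unfold TBT_msg
  have h1 : PF (fun z => fit (p.eval (TBT_n z)) (f (TBT_in p z))) :=
    TBT_pf_fit (pf_eval TBT_pf_n p) ((pf_of_polyTime hf).comp (TBT_pf_in p))
  exact TBT_pf_em τ TBT_pf_n (PF.take (PF.mul (PF.const 2) TBT_pf_n) TBT_pf_R) h1 h1

theorem TBT_in_eq (p : Polynomial ℕ) (n : ℕ) (b R u : List Bool) :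
    TBT_in p (c4 (ones n) b R u) = c4 (ones n) b (R.drop (2 * n)) (dcd n (p.eval n) u) := by
  obtain ⟨h1, h2, h3, h4⟩ := TBT_dec n b R u
  unfold TBT_in
  rw [h1, h2, h3, h4]

theorem TBT_msg_eq (τ : Fin 3) (p : Polynomial ℕ) (f : List Bool → List Bool) (n : ℕ)
    (b R u : List Bool) : TBT_msg τ p f (c4 (ones n) b R u) = em τ n (R.take (2 * n))
      (fit (p.eval n) (f (c4 (ones n) b (R.drop (2 * n)) (dcd n (p.eval n) u))))
      (fit (p.eval n) (f (c4 (ones n) b (R.drop (2 * n)) (dcd n (p.eval n) u)))) := by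
  obtain ⟨h1, h2, h3, h4⟩ := TBT_dec n b R u
  unfold TBT_msg
  rw [TBT_in_eq, h1, h3]

theorem t_TBT : S_TBT := by
  intro τ P h1 h2 h3
  refine ⟨TBT_msg τ P.len P.snd, TBT_msg τ P.len P.rcv, fun z => P.out (TBT_in P.len z),
    TBT_pf_msg τ _ h1, TBT_pf_msg τ _ h2, ?_, ?_, ?_, ?_⟩
  · exact polyTime_of_pf ((pf_of_polyTime h3).comp (TBT_pf_in _))
  · intro n b₀ b₁ R u
    rw [TBT_msg_eq]
    rfl
  · intro n c R u
    rw [TBT_msg_eq]
    rfl
  · intro n c R u
    show P.out (TBT_in P.len (c4 (ones n) [c] R u)) = _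
    rw [TBT_in_eq]

end Pool.Agent.H547S1
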