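import Pool.Agent.H547S1.Stm

/-!
# TMO: no oblivious transfer over monotone gates (helper398)
-/

set_option autoImplicit false

namespace Pool.Agent.H547S1

open Pool.Agent.H547R6 Pool.Agent.H547R7 Pool.Agent.H547R8 Pool.Agent.NPC Pool.Agent.H583R2

namespace TMO

/-! ### probabilities -/

theorem pr_le_of {Ω : Type} [Fintype Ω] {p q : Ω → Bool} (h : ∀ x, p x = true → q x = true) :
    pr p ≤ pr q := by
  unfold pr
  apply div_le_div_of_nonneg_right _ (Nat.cast_nonneg _)
  exact_mod_cast Finset.card_le_card (Finset.monotone_filter_right _ (fun x _ hx => h x hx))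

theorem pr_nonneg' {Ω : Type} [Fintype Ω] (p : Ω → Bool) : 0 ≤ pr p := by
  unfold pr; positivity

theorem pr_or_le {Ω : Type} [Fintype Ω] (p q : Ω → Bool) :
    pr (fun x => p x || q x) ≤ pr p + pr q := by
  classical
  unfold pr
  rw [← add_div]
  apply div_le_div_of_nonneg_right _ (Nat.cast_nonneg _)
  have h : (Finset.univ.filter fun x => (p x || q x) = true) =
      (Finset.univ.filter fun x => p x = true) ∪ (Finset.univ.filter fun x => q x = true) := by
    ext x; simp
  rw [h]
  exact_mod_cast Finset.card_union_le _ _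

theorem pr_not' {Ω : Type} [Fintype Ω] [Nonempty Ω] (p : Ω → Bool) :
    1 - pr p = pr (fun x => !p x) := by
  unfold pr
  have h : (Finset.univ.filter fun x => p x = true).card +
      (Finset.univ.filter fun x => (!p x) = true).card = Fintype.card Ω := by
    have := Finset.card_filter_add_card_filter_not (s := (Finset.univ : Finset Ω))
      (fun x => p x = true)
    rw [Finset.card_univ] at this
    rw [← this]
    congr 2
    ext x
    simp
  have h0 : (0 : ℝ) < Fintype.card Ω := by exact_mod_cast Fintype.card_pos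
  rw [eq_div_iff h0.ne', sub_mul, one_mul, div_mul_cancel₀ _ h0.ne', ← h]
  push_cast
  ring

/-- probabilities of implied events -/
theorem pr_diff {Ω : Type} [Fintype Ω] {p q : Ω → Bool} (h : ∀ x, p x = true → q x = true) :
    pr (fun x => q x && !p x) ≤ pr q - pr p := by
  classical
  have h1 : (Finset.univ.filter fun x => p x = true).card +
      (Finset.univ.filter fun x => (q x && !p x) = true).card ≤
      (Finset.univ.filter fun x => q x = true).card := by
    rw [← Finset.card_union_of_disjoint]
    · apply Finset.card_le_card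
      intro x hx
      simp only [Finset.mem_union, Finset.mem_filter, Finset.mem_univ, true_and,
        Bool.and_eq_true] at hx ⊢
      rcases hx with hx | hx
      · exact h x hx
      · exact hx.1
    · rw [Finset.disjoint_left]
      intro x hx hx2
      simp only [Finset.mem_filter, Finset.mem_univ, true_and] at hx hx2
      rw [hx] at hx2
      simp at hx2
  unfold pr
  rw [← sub_div]
  apply div_le_div_of_nonneg_right _ (Nat.cast_nonneg _)
  have h2 : ((Finset.univ.filter fun x => p x = true).card : ℝ) +
      ((Finset.univ.filter fun x => (q x && !p x) = true).card : ℝ) ≤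
      ((Finset.univ.filter fun x => q x = true).card : ℝ) := by exact_mod_cast h1
  linarith

theorem card3 {α β γ : Type} [Fintype α] [Fintype β] [Fintype γ] (Q : α × β × γ → Bool) :
    (Finset.univ.filter fun w => Q w = true).card =
      ∑ a, ∑ b, (Finset.univ.filter fun c => Q (a, b, c) = true).card := by
  rw [Finset.card_filter, Fintype.sum_prod_type]
  apply Finset.sum_congr rfl
  intro a _
  rw [Fintype.sum_prod_type]
  apply Finset.sum_congr rfl
  intro b _
  rw [Finset.card_filter]

theorem card2 {α β : Type} [Fintype α] [Fintype β] (Q : α × β → Bool) :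
    (Finset.univ.filter fun w => Q w = true).card =
      ∑ a, ∑ b, (if Q (a, b) = true then 1 else 0) := by
  rw [Finset.card_filter, Fintype.sum_prod_type]

/-- the third component is not used -/
theorem pr_third {α β γ : Type} [Fintype α] [Fintype β] [Fintype γ] [Nonempty γ]
    (f : α × β → Bool) : pr (fun w : α × β × γ => f (w.1, w.2.1)) = pr f := by
  unfold pr
  have h1 : (Finset.univ.filter fun w : α × β × γ => f (w.1, w.2.1) = true).card =
      (Finset.univ.filter fun w => f w = true).card * Fintype.card γ := by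
    rw [card3 (fun w : α × β × γ => f (w.1, w.2.1)), card2, Finset.sum_mul]
    apply Finset.sum_congr rfl
    intro a _
    rw [Finset.sum_mul]
    apply Finset.sum_congr rfl
    intro b _
    by_cases h : f (a, b) = true
    · simp [h]
    · simp [h]
  have h2 : Fintype.card (α × β × γ) = Fintype.card (α × β) * Fintype.card γ := by
    simp only [Fintype.card_prod]
    ring
  rw [h1, h2]
  push_cast
  have h0 : (0 : ℝ) < Fintype.card γ := by exact_mod_cast Fintype.card_pos
  rw [mul_div_mul_right _ _ h0.ne']

/-- a large part of the third component -/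
theorem pr_part {α β γ : Type} [Fintype α] [Fintype β] [Fintype γ] [Nonempty γ] (K : ℕ)
    (f : α × β → Bool) (Q : α × β × γ → Bool)
    (h : ∀ a b, f (a, b) = true →
      Fintype.card γ ≤ K * (Finset.univ.filter fun c => Q (a, b, c) = true).card) :
    pr f ≤ K * pr Q := by
  unfold pr
  have h1 : (Finset.univ.filter fun w => f w = true).card * Fintype.card γ ≤
      K * (Finset.univ.filter fun w => Q w = true).card := by
    rw [card3, card2, Finset.sum_mul, Finset.mul_sum]
    apply Finset.sum_le_sum
    intro a _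
    rw [Finset.sum_mul, Finset.mul_sum]
    apply Finset.sum_le_sum
    intro b _
    by_cases hf : f (a, b) = true
    · rw [if_pos hf, one_mul]
      exact h a b hf
    · rw [if_neg hf, zero_mul]
      exact Nat.zero_le _
  have h2 : Fintype.card (α × β × γ) = Fintype.card (α × β) * Fintype.card γ := by
    simp only [Fintype.card_prod]
    ring
  have h0 : (0 : ℝ) < Fintype.card γ := by exact_mod_cast Fintype.card_pos
  have h3 : ((Finset.univ.filter fun w => f w = true).card : ℝ) * Fintype.card γ ≤
      K * (Finset.univ.filter fun w => Q w = true).card := by exact_mod_cast h1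
  rw [h2]
  push_cast
  rcases Nat.eq_zero_or_pos (Fintype.card (α × β)) with h4 | h4
  · rw [h4]; simp
  · have h5 : (0 : ℝ) < Fintype.card (α × β) := by exact_mod_cast h4
    rw [← mul_div_assoc, div_le_div_iff₀ h5 (mul_pos h5 h0)]
    calc ((Finset.univ.filter fun w => f w = true).card : ℝ) *
          (Fintype.card (α × β) * Fintype.card γ)
        = (((Finset.univ.filter fun w => f w = true).card : ℝ) * Fintype.card γ) *
          Fintype.card (α × β) := by ring
      _ ≤ _ := mul_le_mul_of_nonneg_right h3 h5.le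

/-! ### a random index -/

/-- value of a list of bits -/
def hv (l : List Bool) : ℕ := l.foldl (fun v b => 2 * v + bn b) 0

/-- one step modulo `T` -/
def stp (T v : ℕ) (b : Bool) : ℕ :=
  min (if decide (2 * v + bn b < T) = true then 2 * v + bn b else 2 * v + bn b - T) T

/-- value modulo `T` -/
def hm (T : ℕ) (l : List Bool) : ℕ := l.foldl (stp T) 0

theorem bn_le (b : Bool) : bn b ≤ 1 := by cases b <;> simp [bn]

theorem hm_eq {T : ℕ} (hT : 0 < T) (l : List Bool) : hm T l = hv l % T := by
  induction l using List.reverseRecOn with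
  | nil => simp [hm, hv]
  | append_singleton l b ih =>
    have h1 : hm T (l ++ [b]) = stp T (hm T l) b := by
      unfold hm; rw [List.foldl_append]; rfl
    have h2 : hv (l ++ [b]) = 2 * hv l + bn b := by
      unfold hv; rw [List.foldl_append]; rfl
    rw [h1, h2, ih]
    have h3 : (2 * hv l + bn b) % T = (2 * (hv l % T) + bn b) % T := by
      rw [Nat.add_mod, Nat.mul_mod, Nat.add_mod (2 * (hv l % T)), Nat.mul_mod 2 (hv l % T),
        Nat.mod_mod]
    rw [h3]
    have h4 := Nat.mod_lt (hv l) hT
    have h5 := bn_le b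
    unfold stp
    by_cases h6 : 2 * (hv l % T) + bn b < T
    · rw [if_pos (by simpa using h6), Nat.mod_eq_of_lt h6]
      exact min_eq_left h6.le
    · rw [if_neg (by simpa using h6)]
      have h7 : (2 * (hv l % T) + bn b) % T = 2 * (hv l % T) + bn b - T := by
        rw [Nat.mod_eq_sub_mod (by omega), Nat.mod_eq_of_lt (by omega)]
      rw [h7]
      exact min_eq_left (by omega)

theorem hv_surj (t : ℕ) : ∀ m, m < 2 ^ t → ∃ l : List Bool, l.length = t ∧ hv l = m := by
  induction t with
  | zero =>
    intro m hm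
    exact ⟨[], rfl, by simp [hv]; omega⟩
  | succ t ih =>
    intro m hm
    rw [pow_succ] at hm
    obtain ⟨l, hl, hl2⟩ := ih (m / 2) (by omega)
    refine ⟨l ++ [decide (m % 2 = 1)], by simp [hl], ?_⟩
    have h2 : hv (l ++ [decide (m % 2 = 1)]) = 2 * hv l + bn (decide (m % 2 = 1)) := by
      unfold hv; rw [List.foldl_append]; rfl
    rw [h2, hl2]
    unfold bn
    by_cases h : m % 2 = 1
    · simp only [h, decide_true, if_true]; omega
    · simp only [h, decide_false, Bool.false_eq_true, if_false]; omega

theorem exists_fn {t : ℕ} {l : List Bool} (hl : l.length = t) :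
    ∃ w : Fin t → Bool, List.ofFn w = l := by
  subst hl
  exact ⟨fun i => l.get i, List.ofFn_get l⟩

/-- every index has its share -/
theorem count_idx {T t j : ℕ} (hT : 0 < T) (hTt : T ≤ 2 ^ t) (hj : j < T) :
    2 ^ t ≤ 2 * T * (Finset.univ.filter fun w : Fin t → Bool => hm T (List.ofFn w) = j).card := by
  obtain ⟨q, hq⟩ : ∃ q, q = 2 ^ t / T := ⟨_, rfl⟩
  have h1 : 1 ≤ q := by
    rw [hq]; exact (Nat.one_le_div_iff hT).2 hTt
  have h2 : T * q ≤ 2 ^ t := by rw [hq]; exact Nat.mul_div_le _ _
  have h3 : 2 ^ t < T * (q + 1) := by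
    rw [hq]; exact Nat.lt_mul_div_succ _ hT
  have hex : ∀ i : Fin q, ∃ w : Fin t → Bool, hv (List.ofFn w) = j + T * i := by
    intro i
    have hi := i.2
    have h4 : T * (i + 1) ≤ T * q := Nat.mul_le_mul_left _ hi
    obtain ⟨l, hl, hl2⟩ := hv_surj t (j + T * i) (by rw [Nat.mul_add] at h4; omega)
    obtain ⟨w, hw⟩ := exists_fn hl
    exact ⟨w, by rw [hw, hl2]⟩
  choose g hg using hex
  have h5 : q ≤ (Finset.univ.filter fun w : Fin t → Bool => hm T (List.ofFn w) = j).card := by
    have h6 := Finset.card_le_card_of_injOn (s := (Finset.univ : Finset (Fin q)))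
      (t := Finset.univ.filter fun w : Fin t → Bool => hm T (List.ofFn w) = j) g
      (by
        intro i _
        rw [Finset.mem_coe, Finset.mem_filter]
        refine ⟨Finset.mem_univ _, ?_⟩
        rw [hm_eq hT, hg, Nat.add_mul_mod_self_left, Nat.mod_eq_of_lt hj])
      (by
        intro i _ i' _ h
        have h7 := hg i
        rw [h, hg i'] at h7
        have h8 : T * (i' : ℕ) = T * (i : ℕ) := by omega
        exact Fin.ext (Nat.eq_of_mul_eq_mul_left hT h8).symm)
    rwa [Finset.card_univ, Fintype.card_fin] at h6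
  have h9 : 2 * T * q ≤
      2 * T * (Finset.univ.filter fun w : Fin t → Bool => hm T (List.ofFn w) = j).card :=
    Nat.mul_le_mul_left _ h5
  nlinarith

/-! ### polynomial time -/

theorem pf_hm {α : Type} [H583R2.TEnc α] {T : α → ℕ} {l : α → List Bool} (hT : PF T) (hl : PF l) :
    PF (fun a => hm (T a) (l a)) := by
  have h := PF.foldlAdd (l := l) (s := fun _ => 0)
    (f := fun a v b => stp (T a) v b) hl
    (PF.const 0)
    (PF.min (PF.ite (PF.lt (PF.add (PF.mul (PF.const 2) (PF.fst' PF.snd))
        (PF.ite (PF.snd' PF.snd) (PF.const 1) (PF.const 0))) (hT.comp PF.fst))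
      (PF.add (PF.mul (PF.const 2) (PF.fst' PF.snd))
        (PF.ite (PF.snd' PF.snd) (PF.const 1) (PF.const 0)))
      (PF.sub (PF.add (PF.mul (PF.const 2) (PF.fst' PF.snd))
        (PF.ite (PF.snd' PF.snd) (PF.const 1) (PF.const 0))) (hT.comp PF.fst))) (hT.comp PF.fst))
    (inc := fun _ => 0) (bnd := fun a => H583R2.sz (T a)) (PB.const 0) hT.size (by
      intro a b _ st
      refine le_trans ?_ (le_max_right _ _)
      rw [H583R2.sz_nat, H583R2.sz_nat]
      have : stp (T a) st b ≤ T a := min_le_right _ _
      omega)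
  exact h.congr (fun a => rfl)

/-- the transcript in the code of a view -/
def vu (z : List Bool) : List Bool := (spl (spl (spl z).2).2).1

/-- the coins in the code of a view -/
def vw (z : List Bool) : List Bool := (spl (spl (spl z).2).2).2

theorem vu_c4 (a b c d : List Bool) : vu (c4 a b c d) = c := by
  unfold vu c4
  rw [H545R2.KS.spl_pairBits, H545R2.KS.spl_pairBits, H545R2.KS.spl_pairBits]

theorem vw_c4 (a b c d : List Bool) : vw (c4 a b c d) = d := by
  unfold vw c4
  rw [H545R2.KS.spl_pairBits, H545R2.KS.spl_pairBits, H545R2.KS.spl_pairBits]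

/-- a random bit of the transcript -/
def A1 (z : List Bool) : List Bool := [(vu z).getD (hm (vu z).length (vw z)) false]

theorem poly_A1 : PolyTime A1 := by
  apply H545R2.KS.polyTime_of_pf
  have hu : PF vu := PF.fst' (PF.spl (PF.snd' (PF.spl (PF.snd' (PF.spl PF.id)))))
  have hw : PF vw := PF.snd' (PF.spl (PF.snd' (PF.spl (PF.snd' (PF.spl PF.id)))))
  exact PF.cons (PF.listGetD (pf_hm (PF.length hu) hw) hu (PF.const false)) (PF.const [])

/-- the output for the other choice -/
def A2 (out : List Bool → List Bool) (z : List Bool) : List Bool :=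
  out (c4 (spl z).1 [true] (spl (spl z).2).1 (vu z))

theorem poly_A2 {out : List Bool → List Bool} (h : PolyTime out) : PolyTime (A2 out) := by
  apply H545R2.KS.polyTime_of_pf
  have hu : PF vu := PF.fst' (PF.spl (PF.snd' (PF.spl (PF.snd' (PF.spl PF.id)))))
  have h1 : PF (fun z : List Bool => (spl z).1) := PF.fst' (PF.spl PF.id)
  have h2 : PF (fun z : List Bool => (spl (spl z).2).1) :=
    PF.fst' (PF.spl (PF.snd' (PF.spl PF.id)))
  exact (H545R2.KS.pf_of_polyTime h).comp (H545R2.KS.pf_pairBits h1
    (H545R2.KS.pf_pairBits (PF.const [true]) (H545R2.KS.pf_pairBits h2 hu)))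

theorem A2_c4 (out : List Bool → List Bool) (a b c d : List Bool) :
    A2 out (c4 a b c d) = out (c4 a [true] b c) := by
  unfold A2
  rw [vu_c4]
  unfold c4
  rw [H545R2.KS.spl_pairBits, H545R2.KS.spl_pairBits]

/-! ### monotonicity -/

/-- bitwise comparison -/
def Le (u v : List Bool) : Prop := ∀ j, u.getD j false = true → v.getD j false = true

theorem Le.append {u u' v v' : List Bool} (hl : u.length = u'.length) (h1 : Le u u')
    (h2 : Le v v') : Le (u ++ v) (u' ++ v') := by
  intro j hj
  rcases Nat.lt_or_ge j u.length with h | h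
  · rw [List.getD_append _ _ _ _ h] at hj
    rw [List.getD_append _ _ _ _ (by omega)]
    exact h1 j hj
  · rw [List.getD_append_right _ _ _ _ h] at hj
    rw [List.getD_append_right _ _ _ _ (by omega), ← hl]
    exact h2 _ hj

theorem fit_length (m : ℕ) (l : List Bool) : (fit m l).length = m := by
  unfold fit
  rw [List.length_take, List.length_append, List.length_replicate]
  omega

theorem ofFn_getD {N : ℕ} {l : List Bool} (hl : l.length = N) :
    List.ofFn (fun k : Fin N => l.getD k false) = l := by
  subst hl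
  apply List.ext_getElem
  · simp
  · intro i h1 h2
    simp [List.getD_eq_getElem?_getD]

section mono

variable {B : Set BFun} (hB : ∀ (n s : ℕ) (C : BF n), Computes B n s C → (⟨n, C⟩ : BFun) ∈ Mon)
  {P : Protocol} {q : Polynomial ℕ}
  (hq : ∀ n, 1 ≤ n → ∀ i, i < P.rounds.eval n → ∀ j, j < P.len.eval n →
      (Computes B (2 + (P.e.eval n + 2 * i * P.len.eval n)) (q.eval n) fun z =>
        (P.ms n ((List.ofFn z).getD 0 false) ((List.ofFn z).getD 1 false)
          (((List.ofFn z).drop 2).take (P.e.eval n))
          ((List.ofFn z).drop (2 + P.e.eval n))).getD j false) ∧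
      (Computes B (1 + (P.e.eval n + (2 * i + 1) * P.len.eval n)) (q.eval n) fun z =>
        (P.mr n ((List.ofFn z).getD 0 false)
          (((List.ofFn z).drop 1).take (P.e.eval n))
          ((List.ofFn z).drop (1 + P.e.eval n))).getD j false))

include hB hq

theorem ms_mono {n i : ℕ} (hn : 1 ≤ n) (hi : i < P.rounds.eval n) (b₀ b₁ : Bool)
    {rs u u' : List Bool} (hrs : rs.length = P.e.eval n) (hu : u.length = 2 * i * P.len.eval n)
    (hu' : u'.length = 2 * i * P.len.eval n) (h : Le u u') :
    Le (P.ms n b₀ b₁ rs u) (P.ms n b₀ b₁ rs u') := by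
  intro j hj
  have hjl : j < P.len.eval n := by
    by_contra hcon
    rw [List.getD_eq_default _ _ (by
      rw [Protocol.ms, fit_length]; omega)] at hj
    exact Bool.false_ne_true hj
  have h1 := hB _ _ _ (hq n hn i hi j hjl).1
  have key : ∀ v : List Bool, v.length = 2 * i * P.len.eval n →
      (fun z : Fin (2 + (P.e.eval n + 2 * i * P.len.eval n)) → Bool =>
        (P.ms n ((List.ofFn z).getD 0 false) ((List.ofFn z).getD 1 false)
          (((List.ofFn z).drop 2).take (P.e.eval n))
          ((List.ofFn z).drop (2 + P.e.eval n))).getD j false)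
        (fun k => (b₀ :: b₁ :: (rs ++ v)).getD k false) =
      (P.ms n b₀ b₁ rs v).getD j false := by
    intro v hv
    have hl : (b₀ :: b₁ :: (rs ++ v)).length = 2 + (P.e.eval n + 2 * i * P.len.eval n) := by
      simp only [List.length_cons, List.length_append, hrs, hv]
      omega
    simp only [ofFn_getD hl]
    have e1 : List.drop 2 (b₀ :: b₁ :: (rs ++ v)) = rs ++ v := rfl
    have e2 : List.drop (2 + P.e.eval n) (b₀ :: b₁ :: (rs ++ v)) = v := by
      rw [← List.drop_drop, e1, ← hrs, List.drop_left]
    rw [e1, e2, ← hrs, List.take_left]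
    rfl
  have h2 := h1 (fun k => (b₀ :: b₁ :: (rs ++ u)).getD k false)
    (fun k => (b₀ :: b₁ :: (rs ++ u')).getD k false) (by
      intro k hk
      have h3 : Le (([b₀, b₁] ++ rs) ++ u) (([b₀, b₁] ++ rs) ++ u') :=
        Le.append rfl (fun _ h => h) h
      have e : ∀ v : List Bool, b₀ :: b₁ :: (rs ++ v) = ([b₀, b₁] ++ rs) ++ v := by
        intro v; simp
      rw [e] at hk ⊢
      exact h3 _ hk)
  have h4 := key u hu
  have h5 := key u' hu'
  rw [← h5]
  apply h2
  rw [← h4] at hj
  exact hj

theorem mr_mono {n i : ℕ} (hn : 1 ≤ n) (hi : i < P.rounds.eval n) {c c' : Bool}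
    (hc : c = true → c' = true)
    {rr u u' : List Bool} (hrr : rr.length = P.e.eval n)
    (hu : u.length = (2 * i + 1) * P.len.eval n)
    (hu' : u'.length = (2 * i + 1) * P.len.eval n) (h : Le u u') :
    Le (P.mr n c rr u) (P.mr n c' rr u') := by
  intro j hj
  have hjl : j < P.len.eval n := by
    by_contra hcon
    rw [List.getD_eq_default _ _ (by
      rw [Protocol.mr, fit_length]; omega)] at hj
    exact Bool.false_ne_true hj
  have h1 := hB _ _ _ (hq n hn i hi j hjl).2
  have key : ∀ (d : Bool) (v : List Bool), v.length = (2 * i + 1) * P.len.eval n →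
      (fun z : Fin (1 + (P.e.eval n + (2 * i + 1) * P.len.eval n)) → Bool =>
        (P.mr n ((List.ofFn z).getD 0 false)
          (((List.ofFn z).drop 1).take (P.e.eval n))
          ((List.ofFn z).drop (1 + P.e.eval n))).getD j false)
        (fun k => (d :: (rr ++ v)).getD k false) =
      (P.mr n d rr v).getD j false := by
    intro d v hv
    have hl : (d :: (rr ++ v)).length = 1 + (P.e.eval n + (2 * i + 1) * P.len.eval n) := by
      simp only [List.length_cons, List.length_append, hrr, hv]
      omega
    simp only [ofFn_getD hl]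
    have e1 : List.drop 1 (d :: (rr ++ v)) = rr ++ v := rfl
    have e2 : List.drop (1 + P.e.eval n) (d :: (rr ++ v)) = v := by
      rw [← List.drop_drop, e1, ← hrr, List.drop_left]
    rw [e1, e2, ← hrr, List.take_left]
    rfl
  have h2 := h1 (fun k => (c :: (rr ++ u)).getD k false)
    (fun k => (c' :: (rr ++ u')).getD k false) (by
      intro k hk
      have h3 : Le (([c] ++ rr) ++ u) (([c'] ++ rr) ++ u') := by
        apply Le.append (by simp) _ h
        apply Le.append (by simp) _ (fun _ h => h)
        intro j hj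
        rcases j with _ | j
        · simpa using hc (by simpa using hj)
        · simp at hj
      have e : ∀ (d : Bool) (v : List Bool), d :: (rr ++ v) = ([d] ++ rr) ++ v := by
        intro d v; simp
      rw [e] at hk ⊢
      exact h3 _ hk)
  have h4 := key c u hu
  have h5 := key c' u' hu'
  rw [← h5]
  apply h2
  rw [← h4] at hj
  exact hj

omit hB hq in
theorem tr_length (n : ℕ) (b₀ b₁ c : Bool) (rs rr : List Bool) (i : ℕ) :
    (P.tr n b₀ b₁ c rs rr i).length = 2 * i * P.len.eval n := by
  induction i with
  | zero => simp [Protocol.tr]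
  | succ i ih =>
    rw [Protocol.tr, List.length_append, List.length_append, ih, Protocol.ms, Protocol.mr,
      fit_length, fit_length]
    ring

theorem tr_mono {n : ℕ} (hn : 1 ≤ n) (b₀ b₁ : Bool) {rs rr : List Bool}
    (hrs : rs.length = P.e.eval n) (hrr : rr.length = P.e.eval n) (i : ℕ)
    (hi : i ≤ P.rounds.eval n) :
    Le (P.tr n b₀ b₁ false rs rr i) (P.tr n b₀ b₁ true rs rr i) := by
  induction i with
  | zero => exact fun _ h => h
  | succ i ih =>
    have h1 := ih (by omega)
    have hl1 := tr_length (P := P) n b₀ b₁ false rs rr i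
    have hl2 := tr_length (P := P) n b₀ b₁ true rs rr i
    have h2 := ms_mono hB hq hn (i := i) (by omega) b₀ b₁ hrs hl1 hl2 h1
    have h3 := Le.append (by rw [hl1, hl2]) h1 h2
    have h4 : ∀ c, (P.tr n b₀ b₁ c rs rr i ++ P.ms n b₀ b₁ rs (P.tr n b₀ b₁ c rs rr i)).length =
        (2 * i + 1) * P.len.eval n := by
      intro c
      rw [List.length_append, tr_length, Protocol.ms, fit_length]
      ring
    rw [Protocol.tr, Protocol.tr]
    apply Le.append (by rw [h4, h4]) h3
    exact mr_mono hB hq hn (i := i) (by omega) (fun _ => rfl) hrr (h4 _) (h4 _) h3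

/-- the transcripts for the two choices differ with small probability -/
theorem diff_le {n : ℕ} (hn : 1 ≤ n) (b₀ b₁ : Bool) :
    pr (fun w : (Fin (P.e.eval n) → Bool) × (Fin (P.e.eval n) → Bool) =>
      decide (P.run n b₀ b₁ false (List.ofFn w.1) (List.ofFn w.2) ≠
        P.run n b₀ b₁ true (List.ofFn w.1) (List.ofFn w.2))) ≤
    (((2 * (2 * P.rounds * P.len) : Polynomial ℕ).eval n : ℕ) : ℝ) *
      (P.acs A1 (2 * P.rounds * P.len) n b₀ b₁ true -
        P.acs A1 (2 * P.rounds * P.len) n b₀ b₁ false) := by
  obtain ⟨T, hT⟩ : ∃ T, T = 2 * P.rounds.eval n * P.len.eval n := ⟨_, rfl⟩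
  have hTe : (2 * P.rounds * P.len : Polynomial ℕ).eval n = T := by
    rw [hT]; simp [Polynomial.eval_mul]
  have hTe2 : (2 * (2 * P.rounds * P.len) : Polynomial ℕ).eval n = 2 * T := by
    rw [Polynomial.eval_mul, hTe]; simp
  have hrl : ∀ c rs rr, (P.run n b₀ b₁ c rs rr).length = T := by
    intro c rs rr
    rw [Protocol.run, tr_length, hT]
  have hA : ∀ (c : Bool) (w : (Fin (P.e.eval n) → Bool) × (Fin (P.e.eval n) → Bool) ×
      (Fin ((2 * P.rounds * P.len : Polynomial ℕ).eval n) → Bool)),
      decide (A1 (c4 (ones n) (List.ofFn w.1)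
        (P.run n b₀ b₁ c (List.ofFn w.1) (List.ofFn w.2.1)) (List.ofFn w.2.2)) = [true]) =
      (P.run n b₀ b₁ c (List.ofFn w.1) (List.ofFn w.2.1)).getD (hm T (List.ofFn w.2.2)) false := by
    intro c w
    unfold A1
    rw [vu_c4, vw_c4, hrl]
    cases h : (P.run n b₀ b₁ c (List.ofFn w.1) (List.ofFn w.2.1)).getD
      (hm T (List.ofFn w.2.2)) false <;> simp
  have hmono : ∀ (rs rr : Fin (P.e.eval n) → Bool),
      Le (P.run n b₀ b₁ false (List.ofFn rs) (List.ofFn rr))
        (P.run n b₀ b₁ true (List.ofFn rs) (List.ofFn rr)) := fun rs rr =>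
    tr_mono hB hq hn b₀ b₁ (List.length_ofFn) (List.length_ofFn) _ le_rfl
  have hd := pr_diff (Ω := (Fin (P.e.eval n) → Bool) × (Fin (P.e.eval n) → Bool) ×
      (Fin ((2 * P.rounds * P.len : Polynomial ℕ).eval n) → Bool))
    (p := fun w => (P.run n b₀ b₁ false (List.ofFn w.1) (List.ofFn w.2.1)).getD
      (hm T (List.ofFn w.2.2)) false)
    (q := fun w => (P.run n b₀ b₁ true (List.ofFn w.1) (List.ofFn w.2.1)).getD
      (hm T (List.ofFn w.2.2)) false)
    (fun w hw => hmono w.1 w.2.1 _ hw)
  have hacs : ∀ c, P.acs A1 (2 * P.rounds * P.len) n b₀ b₁ c =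
      pr (fun w : (Fin (P.e.eval n) → Bool) × (Fin (P.e.eval n) → Bool) ×
        (Fin ((2 * P.rounds * P.len : Polynomial ℕ).eval n) → Bool) =>
        (P.run n b₀ b₁ c (List.ofFn w.1) (List.ofFn w.2.1)).getD
          (hm T (List.ofFn w.2.2)) false) := by
    intro c
    unfold Protocol.acs
    congr 1
    funext w
    exact hA c w
  rw [hacs, hacs, hTe2]
  have hpart := pr_part (2 * T)
    (fun w : (Fin (P.e.eval n) → Bool) × (Fin (P.e.eval n) → Bool) =>
      decide (P.run n b₀ b₁ false (List.ofFn w.1) (List.ofFn w.2) ≠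
        P.run n b₀ b₁ true (List.ofFn w.1) (List.ofFn w.2)))
    (fun w : (Fin (P.e.eval n) → Bool) × (Fin (P.e.eval n) → Bool) ×
        (Fin ((2 * P.rounds * P.len : Polynomial ℕ).eval n) → Bool) =>
      (P.run n b₀ b₁ true (List.ofFn w.1) (List.ofFn w.2.1)).getD
          (hm T (List.ofFn w.2.2)) false &&
        !(P.run n b₀ b₁ false (List.ofFn w.1) (List.ofFn w.2.1)).getD
          (hm T (List.ofFn w.2.2)) false)
    (by
      intro rs rr hne
      rw [decide_eq_true_eq] at hne
      have hex : ∃ j, (P.run n b₀ b₁ false (List.ofFn rs) (List.ofFn rr)).getD j false ≠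
          (P.run n b₀ b₁ true (List.ofFn rs) (List.ofFn rr)).getD j false := by
        by_contra hcon
        push Not at hcon
        apply hne
        apply List.ext_getElem
        · rw [hrl, hrl]
        · intro j h1 h2
          have := hcon j
          rwa [List.getD_eq_getElem _ _ h1, List.getD_eq_getElem _ _ h2] at this
      obtain ⟨j, hj⟩ := hex
      have hm1 := hmono rs rr j
      have hjf : (P.run n b₀ b₁ false (List.ofFn rs) (List.ofFn rr)).getD j false = false := by
        cases h : (P.run n b₀ b₁ false (List.ofFn rs) (List.ofFn rr)).getD j false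
        · rfl
        · exact absurd (by rw [h, hm1 h]) hj
      have hjt : (P.run n b₀ b₁ true (List.ofFn rs) (List.ofFn rr)).getD j false = true := by
        cases h : (P.run n b₀ b₁ true (List.ofFn rs) (List.ofFn rr)).getD j false
        · exact absurd (by rw [h, hjf]) hj
        · rfl
      have hjT : j < T := by
        by_contra hcon
        rw [List.getD_eq_default _ _ (by rw [hrl]; omega)] at hjt
        exact Bool.false_ne_true hjt
      have hc := count_idx (T := T) (t := (2 * P.rounds * P.len : Polynomial ℕ).eval n) (j := j)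
        (by omega) (by rw [hTe]; exact Nat.lt_two_pow_self.le) hjT
      rw [Fintype.card_fun, Fintype.card_bool, Fintype.card_fin]
      refine hc.trans (Nat.mul_le_mul_left _ (Finset.card_le_card ?_))
      intro w hw
      rw [Finset.mem_filter] at hw ⊢
      refine ⟨Finset.mem_univ _, ?_⟩
      simp only [hw.2, hjt, hjf]
      rfl)
  refine hpart.trans ?_
  exact mul_le_mul_of_nonneg_left hd (Nat.cast_nonneg _)

end mono

end TMO

open TMO in
theorem t_TMO (h1 : S_NEG) (h2 : S_GL3) : S_TMO := by
  intro B hBM hOT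
  obtain ⟨P, q, ⟨⟨-, -, hout⟩, herr, hsnd, hrcv⟩, hq⟩ := hOT
  obtain ⟨nadd, ndom, -, npoly, -, nconst⟩ := h1
  have hB : ∀ (n s : ℕ) (C : BF n), Computes B n s C → (⟨n, C⟩ : BFun) ∈ Mon :=
    h2 B Mon (Or.inr (Or.inr (Or.inr (Or.inr rfl)))) hBM
  -- the transcripts for the two choices are equal with high probability
  obtain ⟨D, hD⟩ : ∃ D : Bool → ℕ → ℝ, D = fun b n =>
    pr (fun w : (Fin (P.e.eval n) → Bool) × (Fin (P.e.eval n) → Bool) =>
      decide (P.run n false b false (List.ofFn w.1) (List.ofFn w.2) ≠
        P.run n false b true (List.ofFn w.1) (List.ofFn w.2))) := ⟨_, rfl⟩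
  have hDneg : ∀ b, Neg (D b) := by
    intro b
    have h3 := hsnd A1 (2 * P.rounds * P.len) poly_A1 false b
    have h4 := npoly _ (2 * (2 * P.rounds * P.len)) h3
    refine ndom (D b) _ 1 h4 (fun n hn => ?_)
    have h5 : D b n = pr (fun w : (Fin (P.e.eval n) → Bool) × (Fin (P.e.eval n) → Bool) =>
      decide (P.run n false b false (List.ofFn w.1) (List.ofFn w.2) ≠
        P.run n false b true (List.ofFn w.1) (List.ofFn w.2))) := by rw [hD]
    rw [h5, abs_of_nonneg (pr_nonneg' _)]
    exact diff_le hB hq hn false b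
  have h6 := (hrcv (A2 P.out) 0 (poly_A2 hout)).1 false
  have hsum := nadd _ _ (nadd _ _ (nadd _ _ (nadd _ _ h6 (herr false true true)) (hDneg true))
    (herr false false true)) (hDneg false)
  refine nconst 1 one_pos (ndom (fun _ => (1 : ℝ)) _ 1 hsum (fun n _ => ?_))
  rw [abs_one]
  have hA : ∀ (b : Bool) (w : (Fin (P.e.eval n) → Bool) × (Fin (P.e.eval n) → Bool) ×
      (Fin ((0 : Polynomial ℕ).eval n) → Bool)),
      A2 P.out (c4 (ones n) (List.ofFn w.2.1)
        (P.run n false b false (List.ofFn w.1) (List.ofFn w.2.1)) (List.ofFn w.2.2)) =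
      P.out (c4 (ones n) [true] (List.ofFn w.2.1)
        (P.run n false b false (List.ofFn w.1) (List.ofFn w.2.1))) := fun b w => A2_c4 _ _ _ _ _
  obtain ⟨F, hF⟩ : ∃ F : Bool → (Fin (P.e.eval n) → Bool) × (Fin (P.e.eval n) → Bool) → Bool,
      F = fun b w => decide (P.out (c4 (ones n) [true] (List.ofFn w.2)
        (P.run n false b false (List.ofFn w.1) (List.ofFn w.2))) = [true]) := ⟨_, rfl⟩
  have hacr : ∀ b, P.acr (A2 P.out) 0 n false b false = pr (F b) := by
    intro b
    rw [← pr_third (γ := Fin ((0 : Polynomial ℕ).eval n) → Bool) (F b), hF]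
    unfold Protocol.acr
    congr 1
    funext w
    rw [hA b w]
  -- b₁ = 1
  have hone : 1 - pr (F true) ≤ P.err n false true true + D true n := by
    rw [pr_not', hD]
    unfold Protocol.err
    refine le_trans (pr_le_of ?_) (pr_or_le _ _)
    intro w hw
    rw [Bool.or_eq_true, decide_eq_true_eq, decide_eq_true_eq]
    by_contra hcon
    push Not at hcon
    rw [hF] at hw
    simp only [hcon.2, hcon.1] at hw
    simp at hw
  have hzero : pr (F false) ≤ P.err n false false true + D false n := by
    rw [hD]
    unfold Protocol.err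
    refine le_trans (pr_le_of ?_) (pr_or_le _ _)
    intro w hw
    rw [Bool.or_eq_true, decide_eq_true_eq, decide_eq_true_eq]
    by_contra hcon
    push Not at hcon
    rw [hF] at hw
    simp only [hcon.2, hcon.1] at hw
    simp at hw
  rw [hacr, hacr]
  linarith

end Pool.Agent.H547S1
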