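import Pool.Agent.H547S1.Stm

/-!
# Probabilities in the reductions for the oblivious transfer protocol
-/

set_option autoImplicit false

namespace Pool.Agent.H547S1

open Pool.Agent.H547R6 Pool.Agent.H547R7 Pool.Agent.H547R8 Pool.Agent.NPC Pool.Agent.H583R2

namespace TRP

theorem pr_equiv {α β : Type} [Fintype α] [Fintype β] (φ : α ≃ β) (p : β → Bool) :
    pr (fun x => p (φ x)) = pr p := by
  unfold pr
  rw [Fintype.card_congr φ]
  congr 2
  apply Finset.card_bij (fun x _ => φ x)
  · intro a ha
    simpa using ha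
  · intro a _ b _ h
    exact φ.injective h
  · intro b hb
    exact ⟨φ.symm b, by simpa using hb, by simp⟩

theorem pr_union {α : Type} [Fintype α] (p q r s : α → Bool)
    (h : ∀ x, r x = false → s x = false → p x = q x) :
    |pr p - pr q| ≤ pr r + pr s := by
  classical
  unfold pr
  rw [← sub_div, ← add_div, abs_div, abs_of_nonneg (Nat.cast_nonneg (Fintype.card α) : (0:ℝ) ≤ _)]
  apply div_le_div_of_nonneg_right _ (Nat.cast_nonneg _)
  have h1 : ∀ p q : α → Bool, (∀ x, r x = false → s x = false → p x = q x) →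
      ((Finset.univ.filter fun x => p x = true).card : ℝ) ≤
      (Finset.univ.filter fun x => q x = true).card +
      ((Finset.univ.filter fun x => r x = true).card +
      (Finset.univ.filter fun x => s x = true).card) := by
    intro p q h
    have h2 : (Finset.univ.filter fun x => p x = true) ⊆
        (Finset.univ.filter fun x => q x = true) ∪
        ((Finset.univ.filter fun x => r x = true) ∪ (Finset.univ.filter fun x => s x = true)) := by
      intro x hx
      simp only [Finset.mem_filter, Finset.mem_univ, true_and, Finset.mem_union] at hx ⊢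
      cases hr : r x
      · cases hs : s x
        · left
          rw [← h x hr hs]
          exact hx
        · right; right; rfl
      · right; left; rfl
    have h3 := Finset.card_le_card h2
    have h4 := Finset.card_union_le (Finset.univ.filter fun x => q x = true)
      ((Finset.univ.filter fun x => r x = true) ∪ (Finset.univ.filter fun x => s x = true))
    have h5 := Finset.card_union_le (Finset.univ.filter fun x => r x = true)
      (Finset.univ.filter fun x => s x = true)
    have h6 := h3.trans (h4.trans (Nat.add_le_add_left h5 _))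
    exact_mod_cast h6
  rw [abs_le]
  have a1 := h1 p q h
  have a2 := h1 q p (fun x hr hs => (h x hr hs).symm)
  constructor <;> linarith

theorem pr_fst {α β : Type} [Fintype α] [Fintype β] [Nonempty β] (p : α → Bool) :
    pr (fun x : α × β => p x.1) = pr p := by
  unfold pr
  have h : (Finset.univ.filter fun x : α × β => p x.1 = true) =
      (Finset.univ.filter fun x : α => p x = true) ×ˢ (Finset.univ : Finset β) := by
    ext x
    simp
  rw [h, Finset.card_product, Fintype.card_prod, Finset.card_univ]
  push_cast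
  rw [mul_div_mul_right]
  exact_mod_cast Fintype.card_ne_zero

/-- probability over the coins of both parties and of the algorithm -/
noncomputable def pr3 (E T : ℕ) (F : List Bool → List Bool → List Bool → Bool) : ℝ :=
  pr fun w : (Fin E → Bool) × (Fin E → Bool) × (Fin T → Bool) =>
    F (List.ofFn w.1) (List.ofFn w.2.1) (List.ofFn w.2.2)

/-- the same with separate masks -/
noncomputable def pr5 (k E T : ℕ)
    (F : List Bool → List Bool → List Bool → List Bool → List Bool → Bool) : ℝ :=
  pr fun w : (Fin k → Bool) × (Fin k → Bool) × (Fin E → Bool) × (Fin E → Bool) ×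
      (Fin T → Bool) =>
    F (List.ofFn w.1) (List.ofFn w.2.1) (List.ofFn w.2.2.1) (List.ofFn w.2.2.2.1)
      (List.ofFn w.2.2.2.2)

/-- rearrangement of the coins -/
def eq1 (A B C D T : Type) : A × B × C × D × T ≃ (A × C) × (B × D) × T where
  toFun x := ((x.1, x.2.2.1), (x.2.1, x.2.2.2.1), x.2.2.2.2)
  invFun x := (x.1.1, x.2.1.1, x.1.2, x.2.1.2, x.2.2)
  left_inv _ := rfl
  right_inv _ := rfl

/-- rearrangement of the coins -/
def eq2 (A B C D T : Type) : A × B × C × D × T ≃ C × D × (A × (B × T)) where
  toFun x := (x.2.2.1, x.2.2.2.1, x.1, x.2.1, x.2.2.2.2)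
  invFun x := (x.2.2.1, x.2.2.2.1, x.1, x.2.1, x.2.2.2.2)
  left_inv _ := rfl
  right_inv _ := rfl

theorem pr3_split (k E T : ℕ) (F : List Bool → List Bool → List Bool → Bool) :
    pr3 (k + E) T F = pr5 k E T fun y y' r s w => F (y ++ r) (y' ++ s) w := by
  unfold pr3 pr5
  rw [← pr_equiv ((eq1 (Fin k → Bool) (Fin k → Bool) (Fin E → Bool) (Fin E → Bool)
    (Fin T → Bool)).trans (Equiv.prodCongr (Fin.appendEquiv k E)
      (Equiv.prodCongr (Fin.appendEquiv k E) (Equiv.refl _))))]
  congr 1
  funext w
  simp [eq1, Fin.appendEquiv, List.ofFn_fin_append]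

theorem pr3_merge (k E T : ℕ) (F : List Bool → List Bool → List Bool → Bool) :
    pr3 E (k + (k + T)) F = pr5 k E T fun y y' r s w => F r s (y ++ (y' ++ w)) := by
  unfold pr3 pr5
  rw [← pr_equiv ((eq2 (Fin k → Bool) (Fin k → Bool) (Fin E → Bool) (Fin E → Bool)
    (Fin T → Bool)).trans (Equiv.prodCongr (Equiv.refl _)
      (Equiv.prodCongr (Equiv.refl _) ((Equiv.prodCongr (Equiv.refl _)
        (Fin.appendEquiv k T)).trans (Fin.appendEquiv k (k + T))))))]
  congr 1
  funext w
  simp [eq2, Fin.appendEquiv, List.ofFn_fin_append]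

/-- exchange of the two masks -/
def eq3 (A C D T : Type) : A × A × C × D × T ≃ A × A × C × D × T where
  toFun x := (x.2.1, x.1, x.2.2.1, x.2.2.2.1, x.2.2.2.2)
  invFun x := (x.2.1, x.1, x.2.2.1, x.2.2.2.1, x.2.2.2.2)
  left_inv _ := rfl
  right_inv _ := rfl

theorem main (h1 : S_VAL) (n E T : ℕ)
    (F G : List Bool → List Bool → List Bool → List Bool → List Bool → Bool)
    (h : ∀ y y' r s w : List Bool, y.length = 2 * n → y'.length = 2 * n → r.length = E →
      s.length = E → w.length = T → valid n y = true → valid n y' = true →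
      F y y' r s w = G y y' r s w) :
    |pr5 (2 * n) E T F - pr5 (2 * n) E T G| ≤ 2 * (3 / 4 : ℝ) ^ n := by
  unfold pr5
  have h2 := pr_union
    (fun w : (Fin (2 * n) → Bool) × (Fin (2 * n) → Bool) × (Fin E → Bool) × (Fin E → Bool) ×
      (Fin T → Bool) =>
      F (List.ofFn w.1) (List.ofFn w.2.1) (List.ofFn w.2.2.1) (List.ofFn w.2.2.2.1)
      (List.ofFn w.2.2.2.2))
    (fun w => G (List.ofFn w.1) (List.ofFn w.2.1) (List.ofFn w.2.2.1) (List.ofFn w.2.2.2.1)
      (List.ofFn w.2.2.2.2))
    (fun w => !(valid n (List.ofFn w.1))) (fun w => !(valid n (List.ofFn w.2.1)))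
    (by
      intro w hr hs
      apply h
      all_goals first | (simp; done) | skip
      · simpa using hr
      · simpa using hs)
  refine h2.trans ?_
  have h3 := pr_fst (β := (Fin (2 * n) → Bool) × (Fin E → Bool) × (Fin E → Bool) ×
      (Fin T → Bool)) (fun y : Fin (2 * n) → Bool => !(valid n (List.ofFn y)))
  have h4 := pr_equiv (eq3 (Fin (2 * n) → Bool) (Fin E → Bool) (Fin E → Bool)
      (Fin T → Bool)) (fun w => !(valid n (List.ofFn w.1)))
  rw [h1] at h3
  have h5 : pr (fun w : (Fin (2 * n) → Bool) × (Fin (2 * n) → Bool) × (Fin E → Bool) ×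
      (Fin E → Bool) × (Fin T → Bool) => !(valid n (List.ofFn w.2.1))) = (3 / 4 : ℝ) ^ n :=
    h4.trans h3
  rw [h3, h5]
  linarith

end TRP

open TRP in
theorem t_TRP (h1 : S_VAL) (h2 : S_TBR) : S_TRP := by
  intro τ P sndB rcvB outB A As Ar t hO hAs hAr n hn b₀ b₁ c
  have e1 : (pro P sndB rcvB outB).e.eval n = 2 * n + P.e.eval n := by
    simp [pro]
  have e2 : (2 * Polynomial.X + (2 * Polynomial.X + t) : Polynomial ℕ).eval n =
      2 * n + (2 * n + t.eval n) := by
    simp
  have key : ∀ (y y' rs rr : List Bool), y.length = 2 * n → y'.length = 2 * n →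
      valid n y = true → valid n y' = true →
      (pro P sndB rcvB outB).run n b₀ b₁ c (y ++ rs) (y' ++ rr) =
        enT τ n (P.len.eval n) (2 * P.rounds.eval n) y y' (P.run n b₀ b₁ c rs rr) := by
    intro y y' rs rr hy hy' hv hv'
    exact (h2 τ P sndB rcvB outB hO n b₀ b₁ c y y' rs rr hn hy hy' hv hv' (P.rounds.eval n)).1
  constructor
  · have a1 : (pro P sndB rcvB outB).acs A t n b₀ b₁ c =
        pr3 ((pro P sndB rcvB outB).e.eval n) (t.eval n) fun r s w =>
          decide (A (c4 (ones n) r ((pro P sndB rcvB outB).run n b₀ b₁ c r s) w) = [true]) := rfl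
    have a2 : P.acs As (2 * Polynomial.X + (2 * Polynomial.X + t)) n b₀ b₁ c =
        pr3 (P.e.eval n) ((2 * Polynomial.X + (2 * Polynomial.X + t) : Polynomial ℕ).eval n)
          fun r s w => decide (As (c4 (ones n) r (P.run n b₀ b₁ c r s) w) = [true]) := rfl
    rw [a1, a2, e1, e2, pr3_split, pr3_merge]
    apply main h1
    intro y y' r s w hy hy' _ _ hw hv hv'
    rw [key y y' r s hy hy' hv hv', hAs n r _ y y' w hy hy' hw]
  · have a1 : (pro P sndB rcvB outB).acr A t n b₀ b₁ c =
        pr3 ((pro P sndB rcvB outB).e.eval n) (t.eval n) fun r s w =>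
          decide (A (c4 (ones n) s ((pro P sndB rcvB outB).run n b₀ b₁ c r s) w) = [true]) := rfl
    have a2 : P.acr Ar (2 * Polynomial.X + (2 * Polynomial.X + t)) n b₀ b₁ c =
        pr3 (P.e.eval n) ((2 * Polynomial.X + (2 * Polynomial.X + t) : Polynomial ℕ).eval n)
          fun r s w => decide (Ar (c4 (ones n) s (P.run n b₀ b₁ c r s) w) = [true]) := rfl
    rw [a1, a2, e1, e2, pr3_split, pr3_merge]
    apply main h1
    intro y y' r s w hy hy' _ _ hw hv hv'
    rw [key y y' r s hy hy' hv hv', hAr n s _ y y' w hy hy' hw]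

end Pool.Agent.H547S1
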