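import Pool.Agent.H547S1.Stm

/-!
# The reductions in polynomial time
-/

set_option autoImplicit false

namespace Pool.Agent.H547S1

open Pool.Agent.H547R6 Pool.Agent.H547R7 Pool.Agent.H547R8 Pool.Agent.NPC
open Pool.Agent.H583R2 Pool.Agent.H545R2.KS

section lib

variable {α : Type} [H583R2.TEnc α]

theorem TRT_pf_Tf (τ : Fin 3) {a b c d : α → Bool} (ha : PF a) (hb : PF b) (hc : PF c)
    (hd : PF d) : PF (fun i => Tf τ (a i) (b i) (c i) (d i)) := by
  have h3 : PF (fun i => if (a i == b i) = true then a i else if b i = true then c i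
      else !(d i)) := PF.ite (PF.beqBool ha hb) ha (PF.ite hb hc (PF.not hd))
  fin_cases τ
  · exact PF.or ha (PF.and hb hc)
  · exact PF.and hb (PF.or ha hc)
  · refine h3.congr fun i => ?_
    cases a i <;> cases b i <;> rfl

theorem TRT_pf_zip {α : Type} [H583R2.TEnc α] (f : α → Bool → Bool → Bool)
    (hf : PF (fun p : α × Bool × Bool => f p.1 p.2.1 p.2.2)) {c c' : α → List Bool} (hc : PF c)
    (hc' : PF c') : PF (fun i => List.zipWith (f i) (c i) (c' i)) := by
  have h1 : PF (fun i => (List.range (min (c i).length (c' i).length)).map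
      (fun l => f i ((c i).getD l false) ((c' i).getD l false))) := by
    refine PF.map (f := fun i l => f i ((c i).getD l false) ((c' i).getD l false))
      (PF.range (PF.min (PF.length hc) (PF.length hc'))) ?_
    exact hf.comp (PF.pair PF.fst (PF.pair (PF.listGetD PF.snd (hc.comp PF.fst) (PF.const false))
      (PF.listGetD PF.snd (hc'.comp PF.fst) (PF.const false))))
  refine h1.congr fun i => ?_
  refine List.ext_getElem (by simp) fun l h2 h3 => ?_
  rw [List.length_map, List.length_range] at h2
  rw [List.getElem_map, List.getElem_range, List.getElem_zipWith,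
    List.getD_eq_getElem _ _ (by omega), List.getD_eq_getElem _ _ (by omega)]

theorem TRT_pf_em (τ : Fin 3) {k : α → ℕ} {y c c' : α → List Bool} (hk : PF k) (hy : PF y)
    (hc : PF c) (hc' : PF c') : PF (fun a => em τ (k a) (y a) (c a) (c' a)) := by
  unfold em
  refine PF.append hy (PF.flatMap (f := fun a i => List.zipWith (Tf τ ((y a).getD (2 * i) false)
    ((y a).getD (2 * i + 1) false)) (c a) (c' a)) (PF.range hk) ?_)
  have h2 : PF (fun p : α × ℕ => 2 * p.2) := PF.mul (PF.const 2) PF.snd
  have hb0 : PF (fun p : α × ℕ => (y p.1).getD (2 * p.2) false) :=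
    PF.listGetD h2 (hy.comp PF.fst) (PF.const false)
  have hb1 : PF (fun p : α × ℕ => (y p.1).getD (2 * p.2 + 1) false) :=
    PF.listGetD (PF.succ h2) (hy.comp PF.fst) (PF.const false)
  exact TRT_pf_zip (fun p : α × ℕ => Tf τ ((y p.1).getD (2 * p.2) false)
    ((y p.1).getD (2 * p.2 + 1) false))
    (TRT_pf_Tf τ (hb0.comp PF.fst) (hb1.comp PF.fst) (PF.fst' PF.snd) (PF.snd' PF.snd))
    (hc.comp PF.fst) (hc'.comp PF.fst)

theorem TRT_even (i : ℕ) : (List.range (i + 1)).any (fun k => decide (k + k = i)) =
    decide (i % 2 = 0) := by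
  rw [Bool.eq_iff_iff, List.any_eq_true, decide_eq_true_eq]
  constructor
  · rintro ⟨k, -, h⟩
    rw [decide_eq_true_eq] at h
    omega
  · intro h
    refine ⟨i / 2, ?_, ?_⟩
    · rw [List.mem_range]
      omega
    · rw [decide_eq_true_eq]
      omega

theorem TRT_pf_even {m : α → ℕ} (hm : PF m) : PF (fun a => decide (m a % 2 = 0)) := by
  have h1 : PF (fun a => (List.range (m a + 1)).any (fun k => decide (k + k = m a))) :=
    PF.any (f := fun a k => decide (k + k = m a)) (PF.range (PF.succ hm))
      (PF.natEq (PF.add PF.snd PF.snd) (hm.comp PF.fst))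
  exact h1.congr fun a => TRT_even (m a)

theorem TRT_pf_enT (τ : Fin 3) {n m M : α → ℕ} {y y' u : α → List Bool} (hn : PF n) (hm : PF m)
    (hM : PF M) (hy : PF y) (hy' : PF y') (hu : PF u) :
    PF (fun a => enT τ (n a) (m a) (M a) (y a) (y' a) (u a)) := by
  unfold enT
  refine PF.flatMap (f := fun a i => em τ (n a) (if i % 2 = 0 then y a else y' a)
    (((u a).drop (i * m a)).take (m a)) (((u a).drop (i * m a)).take (m a))) (PF.range hM) ?_
  have h1 : PF (fun p : α × ℕ => if decide (p.2 % 2 = 0) = true then y p.1 else y' p.1) :=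
    PF.ite (TRT_pf_even PF.snd) (hy.comp PF.fst) (hy'.comp PF.fst)
  have h2 : PF (fun p : α × ℕ => if p.2 % 2 = 0 then y p.1 else y' p.1) := by
    simpa only [decide_eq_true_eq] using h1
  have h3 : PF (fun p : α × ℕ => ((u p.1).drop (p.2 * m p.1)).take (m p.1)) :=
    PF.take (hm.comp PF.fst) (PF.drop (PF.mul PF.snd (hm.comp PF.fst)) (hu.comp PF.fst))
  exact TRT_pf_em τ (hn.comp PF.fst) h2 h3 h3

end lib

/-- the reduction -/
noncomputable def TRT_A (τ : Fin 3) (P : Protocol) (A : List Bool → List Bool) (sd : Bool)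
    (n : ℕ) (r u W : List Bool) : List Bool :=
  A (c4 (ones n) ((bif sd then W.take (2 * n) else (W.drop (2 * n)).take (2 * n)) ++ r)
    (enT τ n (P.len.eval n) (2 * P.rounds.eval n) (W.take (2 * n))
      ((W.drop (2 * n)).take (2 * n)) u) ((W.drop (2 * n)).drop (2 * n)))

theorem t_TRT : S_TRT := by
  intro τ P A t hA sd
  refine ⟨fun z => TRT_A τ P A sd (spl z).1.length (spl (spl z).2).1 (spl (spl (spl z).2).2).1
    (spl (spl (spl z).2).2).2, ?_, ?_⟩
  · apply polyTime_of_pf
    have hA' := pf_of_polyTime hA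
    have h1 : PF (fun z : List Bool => spl z) := PF.spl PF.id
    have hn : PF (fun z : List Bool => (spl z).1.length) := PF.length (PF.fst' h1)
    have h2 : PF (fun z : List Bool => spl (spl z).2) := PF.spl (PF.snd' h1)
    have h3 : PF (fun z : List Bool => spl (spl (spl z).2).2) := PF.spl (PF.snd' h2)
    have hr : PF (fun z : List Bool => (spl (spl z).2).1) := PF.fst' h2
    have hu : PF (fun z : List Bool => (spl (spl (spl z).2).2).1) := PF.fst' h3
    have hW : PF (fun z : List Bool => (spl (spl (spl z).2).2).2) := PF.snd' h3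
    have h2n : PF (fun z : List Bool => 2 * (spl z).1.length) := PF.mul (PF.const 2) hn
    have hy := PF.take h2n hW
    have hd := PF.drop h2n hW
    have hy' := PF.take h2n hd
    have hw := PF.drop h2n hd
    have hT := TRT_pf_enT τ hn (pf_eval hn P.len) (PF.mul (PF.const 2) (pf_eval hn P.rounds)) hy
      hy' hu
    have hb := PF.ite (b := fun _ : List Bool => sd) (PF.const sd) hy hy'
    have hb' : PF (fun z : List Bool => (bif sd then
        ((spl (spl (spl z).2).2).2).take (2 * (spl z).1.length) else
        (((spl (spl (spl z).2).2).2).drop (2 * (spl z).1.length)).take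
          (2 * (spl z).1.length))) := by
      refine hb.congr fun z => ?_
      cases sd <;> rfl
    unfold TRT_A c4 ones
    exact hA'.comp (pf_pairBits (PF.replicate hn (PF.const true)) (pf_pairBits
      (PF.append hb' hr) (pf_pairBits hT hw)))
  · intro n r u y y' w hy hy' _
    unfold c4
    simp only [spl_pairBits]
    unfold TRT_A c4 ones
    rw [List.length_replicate, ← hy, List.take_left, List.drop_left, hy, ← hy', List.take_left,
      List.drop_left]

end Pool.Agent.H547S1
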