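import Pool.Agent.H547S1.Stm

/-!
# No oblivious transfer over self-dual gates
-/

set_option autoImplicit false

namespace Pool.Agent.H547S1

open Pool.Agent.H547R6 Pool.Agent.H547R7 Pool.Agent.H547R8 Pool.Agent.NPC
open Pool.Agent.H583R2 Pool.Agent.H545R2.KS

theorem TSD_cpl_length (l : List Bool) : (cpl l).length = l.length := List.length_map _

theorem TSD_cpl_append (a b : List Bool) : cpl (a ++ b) = cpl a ++ cpl b := List.map_append

theorem TSD_cpl_cpl (l : List Bool) : cpl (cpl l) = l := by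
  unfold cpl
  rw [List.map_map]
  conv_rhs => rw [← List.map_id l]
  congr 1
  funext b
  simp

theorem TSD_getD_cpl (l : List Bool) (j : ℕ) (h : j < l.length) :
    (cpl l).getD j false = !(l.getD j false) := by
  have h' : j < (cpl l).length := by rw [TSD_cpl_length]; exact h
  rw [List.getD_eq_getElem _ _ h', List.getD_eq_getElem _ _ h]
  simp [cpl]

theorem TSD_fit_length (m : ℕ) (l : List Bool) : (fit m l).length = m := by
  unfold fit
  simp

theorem TSD_ofFn (n : ℕ) (l : List Bool) (h : l.length = n) : List.ofFn (vec n l) = l := by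
  subst h
  apply List.ext_getElem
  · simp
  · intro i h1 h2
    simp only [List.getElem_ofFn, vec]
    rw [List.getD_eq_getElem _ _ h2]

theorem TSD_vec_cpl (n : ℕ) (l : List Bool) (h : l.length = n) :
    vec n (cpl l) = fun i => !vec n l i := by
  funext i
  unfold vec
  exact TSD_getD_cpl l i (by rw [h]; exact i.isLt)

theorem TSD_eq {l l' : List Bool} {m : ℕ} (h : l.length = m) (h' : l'.length = m)
    (hj : ∀ j < m, l'.getD j false = !(l.getD j false)) : l' = cpl l := by
  apply List.ext_getElem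
  · rw [TSD_cpl_length, h, h']
  · intro j h1 h2
    have h3 : j < l.length := by rw [h, ← h']; exact h1
    have h4 := hj j (by rw [← h']; exact h1)
    rw [List.getD_eq_getElem _ _ h1, List.getD_eq_getElem _ _ h3] at h4
    rw [h4]
    simp [cpl]

/-- self-dual functions -/
theorem TSD_sd {B : Set BFun} (hB : B ⊆ SelfDual) (h2 : S_GL3) {N s : ℕ} {F : BF N}
    (hF : Computes B N s F) (x : List Bool) (hx : x.length = N) :
    F (vec N (cpl x)) = !F (vec N x) := by
  have h := h2 B SelfDual (Or.inr (Or.inr (Or.inr (Or.inl rfl)))) hB N s F hF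
  have h3 := h (vec N x)
  rw [TSD_vec_cpl N x hx]
  exact h3

theorem TSD_ms {B : Set BFun} (hB : B ⊆ SelfDual) (h2 : S_GL3) (P : Protocol) (n i q : ℕ)
    (h : ∀ j, j < P.len.eval n →
      Computes B (2 + (P.e.eval n + 2 * i * P.len.eval n)) q fun z =>
        (P.ms n ((List.ofFn z).getD 0 false) ((List.ofFn z).getD 1 false)
          (((List.ofFn z).drop 2).take (P.e.eval n))
          ((List.ofFn z).drop (2 + P.e.eval n))).getD j false)
    (b₀ b₁ : Bool) (r u : List Bool) (hr : r.length = P.e.eval n)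
    (hu : u.length = 2 * i * P.len.eval n) :
    P.ms n (!b₀) (!b₁) (cpl r) (cpl u) = cpl (P.ms n b₀ b₁ r u) := by
  refine TSD_eq (m := P.len.eval n) (TSD_fit_length _ _) (TSD_fit_length _ _) ?_
  intro j hj
  have hx : (b₀ :: b₁ :: (r ++ u)).length = 2 + (P.e.eval n + 2 * i * P.len.eval n) := by
    simp [hr, hu]; omega
  have h3 := TSD_sd hB h2 (h j hj) (b₀ :: b₁ :: (r ++ u)) hx
  have hx' : (cpl (b₀ :: b₁ :: (r ++ u))).length =
      2 + (P.e.eval n + 2 * i * P.len.eval n) := by rw [TSD_cpl_length, hx]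
  simp only [TSD_ofFn _ _ hx, TSD_ofFn _ _ hx'] at h3
  have e1 : cpl (b₀ :: b₁ :: (r ++ u)) = (!b₀) :: (!b₁) :: (cpl r ++ cpl u) := by
    rw [← TSD_cpl_append]; rfl
  rw [e1] at h3
  have e2 : ∀ (c₀ c₁ : Bool) (s v : List Bool), s.length = P.e.eval n →
      ((c₀ :: c₁ :: (s ++ v)).getD 0 false = c₀ ∧ (c₀ :: c₁ :: (s ++ v)).getD 1 false = c₁ ∧
      ((c₀ :: c₁ :: (s ++ v)).drop 2).take (P.e.eval n) = s ∧
      (c₀ :: c₁ :: (s ++ v)).drop (2 + P.e.eval n) = v) := by
    intro c₀ c₁ s v hs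
    refine ⟨rfl, rfl, ?_, ?_⟩
    · show (s ++ v).take (P.e.eval n) = s
      exact List.take_left' hs
    · rw [Nat.add_comm 2]
      show (s ++ v).drop (P.e.eval n) = v
      exact List.drop_left' hs
  obtain ⟨g1, g2, g3, g4⟩ := e2 b₀ b₁ r u hr
  obtain ⟨k1, k2, k3, k4⟩ := e2 (!b₀) (!b₁) (cpl r) (cpl u) (by rw [TSD_cpl_length, hr])
  rw [g1, g2, g3, g4, k1, k2, k3, k4] at h3
  exact h3

theorem TSD_mr {B : Set BFun} (hB : B ⊆ SelfDual) (h2 : S_GL3) (P : Protocol) (n i q : ℕ)
    (h : ∀ j, j < P.len.eval n →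
      Computes B (1 + (P.e.eval n + (2 * i + 1) * P.len.eval n)) q fun z =>
        (P.mr n ((List.ofFn z).getD 0 false)
          (((List.ofFn z).drop 1).take (P.e.eval n))
          ((List.ofFn z).drop (1 + P.e.eval n))).getD j false)
    (c : Bool) (r u : List Bool) (hr : r.length = P.e.eval n)
    (hu : u.length = (2 * i + 1) * P.len.eval n) :
    P.mr n (!c) (cpl r) (cpl u) = cpl (P.mr n c r u) := by
  refine TSD_eq (m := P.len.eval n) (TSD_fit_length _ _) (TSD_fit_length _ _) ?_
  intro j hj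
  have hx : (c :: (r ++ u)).length = 1 + (P.e.eval n + (2 * i + 1) * P.len.eval n) := by
    simp [hr, hu]; omega
  have h3 := TSD_sd hB h2 (h j hj) (c :: (r ++ u)) hx
  have hx' : (cpl (c :: (r ++ u))).length =
      1 + (P.e.eval n + (2 * i + 1) * P.len.eval n) := by rw [TSD_cpl_length, hx]
  simp only [TSD_ofFn _ _ hx, TSD_ofFn _ _ hx'] at h3
  have e1 : cpl (c :: (r ++ u)) = (!c) :: (cpl r ++ cpl u) := by
    rw [← TSD_cpl_append]; rfl
  rw [e1] at h3
  have e2 : ∀ (c₀ : Bool) (s v : List Bool), s.length = P.e.eval n →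
      ((c₀ :: (s ++ v)).getD 0 false = c₀ ∧
      ((c₀ :: (s ++ v)).drop 1).take (P.e.eval n) = s ∧
      (c₀ :: (s ++ v)).drop (1 + P.e.eval n) = v) := by
    intro c₀ s v hs
    refine ⟨rfl, ?_, ?_⟩
    · show (s ++ v).take (P.e.eval n) = s
      exact List.take_left' hs
    · rw [Nat.add_comm 1]
      show (s ++ v).drop (P.e.eval n) = v
      exact List.drop_left' hs
  obtain ⟨g1, g3, g4⟩ := e2 c r u hr
  obtain ⟨k1, k3, k4⟩ := e2 (!c) (cpl r) (cpl u) (by rw [TSD_cpl_length, hr])
  rw [g1, g3, g4, k1, k3, k4] at h3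
  exact h3

/-- the hypothesis on the protocol -/
def TSD_H (B : Set BFun) (P : Protocol) (q : Polynomial ℕ) : Prop :=
  ∀ n, 1 ≤ n → ∀ i, i < P.rounds.eval n → ∀ j, j < P.len.eval n →
      (Computes B (2 + (P.e.eval n + 2 * i * P.len.eval n)) (q.eval n) fun z =>
        (P.ms n ((List.ofFn z).getD 0 false) ((List.ofFn z).getD 1 false)
          (((List.ofFn z).drop 2).take (P.e.eval n))
          ((List.ofFn z).drop (2 + P.e.eval n))).getD j false) ∧
      (Computes B (1 + (P.e.eval n + (2 * i + 1) * P.len.eval n)) (q.eval n) fun z =>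
        (P.mr n ((List.ofFn z).getD 0 false)
          (((List.ofFn z).drop 1).take (P.e.eval n))
          ((List.ofFn z).drop (1 + P.e.eval n))).getD j false)

theorem TSD_tr {B : Set BFun} (hB : B ⊆ SelfDual) (h2 : S_GL3) (P : Protocol)
    (q : Polynomial ℕ) (h : TSD_H B P q) (n : ℕ) (hn : 1 ≤ n) (b₀ b₁ c : Bool)
    (rs rr : List Bool) (hrs : rs.length = P.e.eval n) (hrr : rr.length = P.e.eval n) :
    ∀ i, i ≤ P.rounds.eval n →
      (P.tr n b₀ b₁ c rs rr i).length = 2 * i * P.len.eval n ∧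
      P.tr n (!b₀) (!b₁) (!c) (cpl rs) (cpl rr) i = cpl (P.tr n b₀ b₁ c rs rr i) := by
  intro i
  induction i with
  | zero => intro _; exact ⟨by simp [Protocol.tr], by simp [Protocol.tr, cpl]⟩
  | succ i ih =>
    intro hi
    obtain ⟨ih1, ih2⟩ := ih (by omega)
    have hs := TSD_ms hB h2 P n i (q.eval n) (fun j hj => (h n hn i (by omega) j hj).1)
      b₀ b₁ rs (P.tr n b₀ b₁ c rs rr i) hrs ih1
    have hl : (P.tr n b₀ b₁ c rs rr i ++
        P.ms n b₀ b₁ rs (P.tr n b₀ b₁ c rs rr i)).length = (2 * i + 1) * P.len.eval n := by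
      rw [List.length_append, ih1, Protocol.ms, TSD_fit_length]; ring
    have hr := TSD_mr hB h2 P n i (q.eval n) (fun j hj => (h n hn i (by omega) j hj).2)
      c rr (P.tr n b₀ b₁ c rs rr i ++ P.ms n b₀ b₁ rs (P.tr n b₀ b₁ c rs rr i)) hrr hl
    refine ⟨?_, ?_⟩
    · rw [Protocol.tr, List.length_append, hl, Protocol.mr, TSD_fit_length]; ring
    · rw [Protocol.tr, Protocol.tr, ih2, hs, ← TSD_cpl_append, hr, ← TSD_cpl_append]

theorem TSD_run {B : Set BFun} (hB : B ⊆ SelfDual) (h2 : S_GL3) (P : Protocol)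
    (q : Polynomial ℕ) (h : TSD_H B P q) (n : ℕ) (hn : 1 ≤ n) (b₀ b₁ c : Bool)
    (rs rr : List Bool) (hrs : rs.length = P.e.eval n) (hrr : rr.length = P.e.eval n) :
    cpl (P.run n b₀ b₁ c rs rr) = P.run n (!b₀) (!b₁) (!c) (cpl rs) (cpl rr) :=
  ((TSD_tr hB h2 P q h n hn b₀ b₁ c rs rr hrs hrr _ le_rfl).2).symm

theorem TSD_cpl_ofFn {m : ℕ} (x : Fin m → Bool) :
    cpl (List.ofFn x) = List.ofFn fun i => !x i := by
  unfold cpl
  rw [List.map_ofFn]
  rfl

/-! ### probabilities -/

theorem TSD_pr_equiv {Ω Ω' : Type} [Fintype Ω] [Fintype Ω'] (e : Ω ≃ Ω') (p : Ω' → Bool) :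
    pr (fun x => p (e x)) = pr p := by
  unfold pr
  rw [Fintype.card_congr e]
  congr 2
  refine Finset.card_bij (fun x _ => e x) ?_ ?_ ?_
  · intro x hx
    simpa using hx
  · intro x _ y _ hxy
    exact e.injective hxy
  · intro y hy
    refine ⟨e.symm y, ?_, e.apply_symm_apply y⟩
    simpa using hy

/-- complement of all coins; the third component has no coins -/
def TSD_e (m k : ℕ) (hk : k = 0) : (Fin m → Bool) × (Fin m → Bool) × (Fin k → Bool) ≃
    (Fin m → Bool) × (Fin m → Bool) where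
  toFun w := (fun i => !w.1 i, fun i => !w.2.1 i)
  invFun w := (fun i => !w.1 i, fun i => !w.2 i, fun i => (by
    have := i.isLt
    omega))
  left_inv w := by
    refine Prod.ext (by funext i; simp) (Prod.ext (by funext i; simp) ?_)
    funext i
    have := i.isLt
    omega
  right_inv w := by
    refine Prod.ext (by funext i; simp) (by funext i; simp)

theorem TSD_pr_compl {Ω : Type} [Fintype Ω] [Nonempty Ω] (p : Ω → Bool) :
    pr (fun x => !p x) = 1 - pr p := by
  unfold pr
  have h := Finset.card_filter_add_card_filter_not (s := (Finset.univ : Finset Ω))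
    (fun x => p x = true)
  have h0 : (Fintype.card Ω : ℝ) ≠ 0 := by exact_mod_cast Fintype.card_ne_zero
  have h1 : ((Finset.univ.filter fun x => p x = true).card : ℝ) +
      ((Finset.univ.filter fun x => ¬ p x = true).card : ℝ) = Fintype.card Ω := by
    rw [← Finset.card_univ]
    exact_mod_cast h
  have h2 : (Finset.univ.filter fun x => (!p x) = true) =
      Finset.univ.filter fun x => ¬ p x = true := by
    refine Finset.filter_congr fun x _ => ?_
    simp
  rw [h2]
  field_simp
  linarith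

theorem TSD_pr_mono {Ω : Type} [Fintype Ω] {p q : Ω → Bool} (h : ∀ x, p x = true → q x = true) :
    pr p ≤ pr q := by
  unfold pr
  refine div_le_div_of_nonneg_right ?_ (Nat.cast_nonneg _)
  exact_mod_cast Finset.card_le_card (Finset.monotone_filter_right _ fun x _ => h x)

theorem TSD_zero_eval (n : ℕ) : (0 : Polynomial ℕ).eval n = 0 := by simp

/-! ### the adversary -/

/-- the adversary -/
def TSD_A (P : Protocol) (z : List Bool) : List Bool :=
  [P.out (c4 (spl z).1 [true] (cpl (spl (spl z).2).1) (cpl (spl (spl (spl z).2).2).1)) ==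
    [false]]

theorem TSD_A_c4 (P : Protocol) (a b c d : List Bool) :
    TSD_A P (c4 a b c d) = [P.out (c4 a [true] (cpl b) (cpl c)) == [false]] := by
  unfold TSD_A c4
  simp only [spl_pairBits]

theorem TSD_A_pf (P : Protocol) (h : PolyTime P.out) : PolyTime (TSD_A P) := by
  apply polyTime_of_pf
  unfold TSD_A c4 cpl
  have hz : PF (fun z : List Bool => spl z) := PF.spl PF.id
  have h2 : PF (fun z : List Bool => spl (spl z).2) := PF.spl (PF.snd' hz)
  have h3 : PF (fun z : List Bool => spl (spl (spl z).2).2) := PF.spl (PF.snd' h2)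
  refine PF.cons (PF.beqStr ((pf_of_polyTime h).comp (pf_pairBits (PF.fst' hz)
    (pf_pairBits (PF.const [true]) (pf_pairBits (PF.map (PF.fst' h2) (PF.not PF.snd))
      (PF.map (PF.fst' h3) (PF.not PF.snd)))))) (PF.const [false])) (PF.const [])

theorem TSD_acr {B : Set BFun} (hB : B ⊆ SelfDual) (h2 : S_GL3) (P : Protocol)
    (q : Polynomial ℕ) (h : TSD_H B P q) (n : ℕ) (hn : 1 ≤ n) (b₁ : Bool) :
    P.acr (TSD_A P) 0 n false b₁ false =
      pr fun w : (Fin (P.e.eval n) → Bool) × (Fin (P.e.eval n) → Bool) =>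
        decide (P.out (c4 (ones n) [true] (List.ofFn w.2)
          (P.run n true (!b₁) true (List.ofFn w.1) (List.ofFn w.2))) = [false]) := by
  unfold Protocol.acr
  have key := TSD_pr_equiv (TSD_e (P.e.eval n) ((0 : Polynomial ℕ).eval n) (TSD_zero_eval n)) (fun w : (Fin (P.e.eval n) → Bool) ×
    (Fin (P.e.eval n) → Bool) => decide (P.out (c4 (ones n) [true] (List.ofFn w.2)
          (P.run n true (!b₁) true (List.ofFn w.1) (List.ofFn w.2))) = [false]))
  rw [← key]
  congr 1
  funext w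
  rw [TSD_A_c4]
  have hr := TSD_run hB h2 P q h n hn false b₁ false (List.ofFn w.1) (List.ofFn w.2.1)
    List.length_ofFn List.length_ofFn
  rw [hr, TSD_cpl_ofFn, TSD_cpl_ofFn]
  simp only [Bool.not_false]
  show decide ([P.out (c4 (ones n) [true] (List.ofFn fun i => !w.2.1 i)
    (P.run n true (!b₁) true (List.ofFn fun i => !w.1 i) (List.ofFn fun i => !w.2.1 i))) ==
      [false]] = [true]) = decide (P.out (c4 (ones n) [true] (List.ofFn fun i => !w.2.1 i)
    (P.run n true (!b₁) true (List.ofFn fun i => !w.1 i) (List.ofFn fun i => !w.2.1 i))) =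
      [false])
  simp

theorem t_TSD (h1 : S_NEG) (h2 : S_GL3) : S_TSD := by
  rintro B hB ⟨P, q, ⟨⟨_, _, hout⟩, herr, _, hpriv⟩, hc⟩
  obtain ⟨n1, n2, _, _, _, n6⟩ := h1
  have hH : TSD_H B P q := hc
  have ha := (hpriv (TSD_A P) 0 (TSD_A_pf P hout)).1 false
  have e1 := herr true false true
  have e2 := herr true true true
  have hs := n1 _ _ (n1 _ _ ha e1) e2
  refine n6 1 one_pos (n2 _ _ 1 hs ?_)
  intro n hn
  rw [TSD_acr hB h2 P q hH n hn true, TSD_acr hB h2 P q hH n hn false]
  have g1 : 1 - P.err n true false true ≤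
      pr fun w : (Fin (P.e.eval n) → Bool) × (Fin (P.e.eval n) → Bool) =>
        decide (P.out (c4 (ones n) [true] (List.ofFn w.2)
          (P.run n true (!true) true (List.ofFn w.1) (List.ofFn w.2))) = [false]) := by
    unfold Protocol.err
    rw [← TSD_pr_compl]
    refine TSD_pr_mono fun w hw => ?_
    simpa using hw
  have g2 : (pr fun w : (Fin (P.e.eval n) → Bool) × (Fin (P.e.eval n) → Bool) =>
        decide (P.out (c4 (ones n) [true] (List.ofFn w.2)
          (P.run n true (!false) true (List.ofFn w.1) (List.ofFn w.2))) = [false])) ≤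
      P.err n true true true := by
    unfold Protocol.err
    refine TSD_pr_mono fun w hw => ?_
    have hw' := of_decide_eq_true hw
    simp only [Bool.not_false] at hw'
    rw [hw']
    simp
  rw [abs_one]
  linarith

end Pool.Agent.H547S1
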