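import Pool.Agent.H547S1.AsmO
import Pool.Agent.H547R7.T_SLI
import Pool.Agent.H547R7.T_THR
import Pool.Agent.H547R8.T_CKT
import Pool.Agent.H547R8.T_LAY
import Pool.Agent.H547S1.T_C4
import Pool.Agent.H547S1.T_C5
import Pool.Agent.H547S1.T_CK3
import Pool.Agent.H547S1.T_DEM
import Pool.Agent.H547S1.T_GDC
import Pool.Agent.H547S1.T_GDM
import Pool.Agent.H547S1.T_GL3
import Pool.Agent.H547S1.T_LN1
import Pool.Agent.H547S1.T_LN2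
import Pool.Agent.H547S1.T_NEG
import Pool.Agent.H547S1.T_OAFb
import Pool.Agent.H547S1.T_OBC
import Pool.Agent.H547S1.T_OBL
import Pool.Agent.H547S1.T_OBN
import Pool.Agent.H547S1.T_OBP
import Pool.Agent.H547S1.T_OBT
import Pool.Agent.H547S1.T_OCO
import Pool.Agent.H547S1.T_ODI
import Pool.Agent.H547S1.T_OIT
import Pool.Agent.H547S1.T_OPL
import Pool.Agent.H547S1.T_PAF
import Pool.Agent.H547S1.T_PBC
import Pool.Agent.H547S1.T_PBD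
import Pool.Agent.H547S1.T_PBT
import Pool.Agent.H547S1.T_PMO
import Pool.Agent.H547S1.T_PRP
import Pool.Agent.H547S1.T_PRT
import Pool.Agent.H547S1.T_TAF
import Pool.Agent.H547S1.T_TBC
import Pool.Agent.H547S1.T_TBD
import Pool.Agent.H547S1.T_TBR
import Pool.Agent.H547S1.T_TBT
import Pool.Agent.H547S1.T_TMO
import Pool.Agent.H547S1.T_TRP
import Pool.Agent.H547S1.T_TRT
import Pool.Agent.H547S1.T_TSD
import Pool.Agent.H547S1.T_VAL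

namespace Pool.Agent.H547S1

open Pool.Agent.H547R6 Pool.Agent.H547R7 Pool.Agent.H547R8 Pool.Agent.H547R9 Pool.Agent.NPC

theorem cls_pke (B : Set BFun) : PkeOver B ↔ ¬ (B ⊆ Mon ∨ B ⊆ Aff) ∧ PKE := by
  have hck : S_CK3 := t_CK3 (H547R8.t_CKT H547R8.t_LAY)
  exact pke_main t_NEG (t_PMO t_NEG t_GL3) (t_PAF t_NEG t_GL3 t_LN1 t_LN2) t_PBT
    (t_PBC hck t_GDC t_DEM) (t_PBD t_VAL t_DEM) t_PRT (t_PRP t_DEM) B

theorem cls_ot (B : Set BFun) : OtOver B ↔ ¬ (B ⊆ Mon ∨ B ⊆ Aff ∨ B ⊆ SelfDual) ∧ OT := by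
  have hck : S_CK3 := t_CK3 (H547R8.t_CKT H547R8.t_LAY)
  exact ot_main t_NEG t_C4 (t_TMO t_NEG t_GL3) (t_TSD t_NEG t_GL3)
    (t_TAF t_NEG t_GL3 t_LN1 t_LN2) t_TBT (t_TBC hck t_GDC t_DEM) (t_TBD t_VAL (t_TBR t_DEM))
    t_TRT (t_TRP t_VAL (t_TBR t_DEM)) B

theorem cls_owf (B : Set BFun) :
    OwfOver B ↔ ¬ (B ⊆ Aff ∨ B ⊆ Conj ∨ B ⊆ Disj) ∧ OWF := by
  have hck : S_CK3 := t_CK3 (H547R8.t_CKT H547R8.t_LAY)
  have hsli : S_SLI := H547R7.t_SLI H547R7.t_THR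
  exact owf_main t_NEG (t_OAFb t_NEG t_GL3 t_LN1 t_LN2) (t_OCO t_NEG t_GL3) (t_ODI t_NEG t_GL3) t_OPL t_C5 t_OBT
    (t_OBC hck t_GDM hsli) t_OBL t_OBN t_OIT (t_OBP t_OBN) B

end Pool.Agent.H547S1
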