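import Pool.Agent.H547R9.Defs

/-!
# Cryptographic primitives over sets of Boolean functions: definitions
-/

set_option autoImplicit false

namespace Pool.Agent.H547S1

open Pool.Agent.H547R6 Pool.Agent.H547R7 Pool.Agent.H547R8 Pool.Agent.NPC

/-- the security parameter in unary: `1^n` -/
def ones (n : ℕ) : List Bool := List.replicate n true

/-- code of a triple of strings -/
def c3 (a b c : List Bool) : List Bool := pairBits a (pairBits b c)

/-- code of a quadruple of strings -/
def c4 (a b c d : List Bool) : List Bool := pairBits a (pairBits b (pairBits c d))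

/-- the first `m` bits of a string, filled up with zeros -/
def fit (m : ℕ) (l : List Bool) : List Bool := (l ++ List.replicate m false).take m

/-- negligible functions: smaller than `n ^ (-c)` in absolute value, for all `c` and large `n` -/
def Neg (ε : ℕ → ℝ) : Prop := ∀ c : ℕ, ∃ N : ℕ, ∀ n, N ≤ n → |ε n| ≤ 1 / (n : ℝ) ^ c

/-! ### one-way functions -/

/-- `f` is a one-way function -/
def IsOwf (f : List Bool → List Bool) : Prop :=
  PolyTime f ∧ ∀ (A : List Bool → List Bool) (t : Polynomial ℕ), PolyTime A →
    Neg fun n => pr fun w : (Fin n → Bool) × (Fin (t.eval n) → Bool) =>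
      decide (f (A (c3 (ones n) (f (List.ofFn w.1)) (List.ofFn w.2))) = f (List.ofFn w.1))

/-- There is a one-way function. -/
def OWF : Prop := ∃ f, IsOwf f

/-- There is a one-way function over `B`: functions `x ↦ f (1^n, x)` from `e n` to `m n` bits
(`e` a polynomial), with `f` computable in polynomial time, each output bit of which is computed
by a circuit over `B` of size polynomial in `n`, and such that no probabilistic polynomial-time
algorithm inverts them with more than negligible probability. -/
def OwfOver (B : Set BFun) : Prop :=
  ∃ (f : List Bool → List Bool) (e q : Polynomial ℕ) (m : ℕ → ℕ), PolyTime f ∧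
    (∀ n, 1 ≤ n → ∀ x : Fin (e.eval n) → Bool,
      (f (pairBits (ones n) (List.ofFn x))).length = m n) ∧
    (∀ n, 1 ≤ n → ∀ j, j < m n → Computes B (e.eval n) (q.eval n)
      fun x => (f (pairBits (ones n) (List.ofFn x))).getD j false) ∧
    ∀ (A : List Bool → List Bool) (t : Polynomial ℕ), PolyTime A →
      Neg fun n => pr fun w : (Fin (e.eval n) → Bool) × (Fin (t.eval n) → Bool) =>
        decide (∃ x : Fin (e.eval n) → Bool,
          A (c3 (ones n) (f (pairBits (ones n) (List.ofFn w.1))) (List.ofFn w.2)) =
            List.ofFn x ∧
          f (pairBits (ones n) (List.ofFn x)) = f (pairBits (ones n) (List.ofFn w.1)))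

/-! ### public-key encryption -/

/-- An encryption scheme for one bit: the public and the secret key are `pk (1^n, s)` and
`sk (1^n, s)` for a random string `s` of length `g n`, the ciphertext of `b` is
`enc (1^n, pk, b, r)`, brought to the length `len n`, for a random string `r` of length `e n`,
and `dec (1^n, sk, c)` is the decryption. -/
structure Scheme where
  /-- public key -/
  pk : List Bool → List Bool
  /-- secret key -/
  sk : List Bool → List Bool
  /-- encryption -/
  enc : List Bool → List Bool
  /-- decryption -/
  dec : List Bool → List Bool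
  /-- number of coins for the keys -/
  g : Polynomial ℕ
  /-- number of coins for the encryption -/
  e : Polynomial ℕ
  /-- length of the ciphertexts -/
  len : Polynomial ℕ

/-- the ciphertext of `b`, for the coins `s` of the keys and `r` of the encryption -/
def Scheme.ct (S : Scheme) (n : ℕ) (s : List Bool) (b : Bool) (r : List Bool) : List Bool :=
  fit (S.len.eval n) (S.enc (c4 (ones n) (S.pk (pairBits (ones n) s)) [b] r))

/-- the probability that the algorithm `A` with `t n` coins accepts an encryption of `b` -/
noncomputable def Scheme.acp (S : Scheme) (A : List Bool → List Bool) (t : Polynomial ℕ) (n : ℕ)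
    (b : Bool) : ℝ :=
  pr fun w : (Fin (S.g.eval n) → Bool) × (Fin (S.e.eval n) → Bool) × (Fin (t.eval n) → Bool) =>
    decide (A (c4 (ones n) (S.pk (pairBits (ones n) (List.ofFn w.1)))
      (S.ct n (List.ofFn w.1) b (List.ofFn w.2.1)) (List.ofFn w.2.2)) = [true])

/-- the probability that the encryption of `b` is not decrypted to `b` -/
noncomputable def Scheme.err (S : Scheme) (n : ℕ) (b : Bool) : ℝ :=
  pr fun w : (Fin (S.g.eval n) → Bool) × (Fin (S.e.eval n) → Bool) =>
    decide (S.dec (c3 (ones n) (S.sk (pairBits (ones n) (List.ofFn w.1)))
      (S.ct n (List.ofFn w.1) b (List.ofFn w.2))) ≠ [b])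

/-- `S` is a correct and semantically secure public-key encryption scheme -/
def IsPke (S : Scheme) : Prop :=
  (PolyTime S.pk ∧ PolyTime S.sk ∧ PolyTime S.enc ∧ PolyTime S.dec) ∧
  (∀ b, Neg fun n => S.err n b) ∧
  ∀ (A : List Bool → List Bool) (t : Polynomial ℕ), PolyTime A →
    Neg fun n => S.acp A t n true - S.acp A t n false

/-- There is a public-key encryption scheme. -/
def PKE : Prop := ∃ S, IsPke S

/-- There is a public-key encryption scheme such that for each public key, each bit of the
ciphertext, as a function of the message bit and of the coins of the encryption, is computed by a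
circuit over `B` of size polynomial in `n`. -/
def PkeOver (B : Set BFun) : Prop :=
  ∃ (S : Scheme) (q : Polynomial ℕ), IsPke S ∧
    ∀ n, 1 ≤ n → ∀ s : List Bool, s.length = S.g.eval n → ∀ j, j < S.len.eval n →
      Computes B (S.e.eval n + 1) (q.eval n)
        fun z => (S.ct n s (z 0) (List.ofFn fun i => z i.succ)).getD j false

/-! ### oblivious transfer -/

/-- A two-party protocol with `rounds n` rounds. In each round first the sender, then the receiver
sends a message of length `len n`: `snd (1^n, b₀ b₁, r, u)`, respectively `rcv (1^n, c, r, u)`,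
brought to this length, where `r` are the `e n` coins of the party and `u` is the transcript so
far. The output of the receiver is `out (1^n, c, r, u)`, `u` the whole transcript. -/
structure Protocol where
  /-- messages of the sender -/
  snd : List Bool → List Bool
  /-- messages of the receiver -/
  rcv : List Bool → List Bool
  /-- output of the receiver -/
  out : List Bool → List Bool
  /-- number of coins of each party -/
  e : Polynomial ℕ
  /-- number of rounds -/
  rounds : Polynomial ℕ
  /-- length of the messages -/
  len : Polynomial ℕ

/-- the message of the sender with inputs `b₀`, `b₁` and coins `r` after the transcript `u` -/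
def Protocol.ms (P : Protocol) (n : ℕ) (b₀ b₁ : Bool) (r u : List Bool) : List Bool :=
  fit (P.len.eval n) (P.snd (c4 (ones n) [b₀, b₁] r u))

/-- the message of the receiver with input `c` and coins `r` after the transcript `u` -/
def Protocol.mr (P : Protocol) (n : ℕ) (c : Bool) (r u : List Bool) : List Bool :=
  fit (P.len.eval n) (P.rcv (c4 (ones n) [c] r u))

/-- the transcript of the first `i` rounds -/
def Protocol.tr (P : Protocol) (n : ℕ) (b₀ b₁ c : Bool) (rs rr : List Bool) : ℕ → List Bool
  | 0 => []
  | i + 1 =>
    (P.tr n b₀ b₁ c rs rr i ++ P.ms n b₀ b₁ rs (P.tr n b₀ b₁ c rs rr i)) ++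
      P.mr n c rr (P.tr n b₀ b₁ c rs rr i ++ P.ms n b₀ b₁ rs (P.tr n b₀ b₁ c rs rr i))

/-- the whole transcript -/
def Protocol.run (P : Protocol) (n : ℕ) (b₀ b₁ c : Bool) (rs rr : List Bool) : List Bool :=
  P.tr n b₀ b₁ c rs rr (P.rounds.eval n)

/-- the probability that the receiver's output is wrong -/
noncomputable def Protocol.err (P : Protocol) (n : ℕ) (b₀ b₁ c : Bool) : ℝ :=
  pr fun w : (Fin (P.e.eval n) → Bool) × (Fin (P.e.eval n) → Bool) =>
    decide (P.out (c4 (ones n) [c] (List.ofFn w.2)
      (P.run n b₀ b₁ c (List.ofFn w.1) (List.ofFn w.2))) ≠ [bif c then b₁ else b₀])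

/-- the probability that `A`, with `t n` coins, accepts the view of the sender -/
noncomputable def Protocol.acs (P : Protocol) (A : List Bool → List Bool) (t : Polynomial ℕ)
    (n : ℕ) (b₀ b₁ c : Bool) : ℝ :=
  pr fun w : (Fin (P.e.eval n) → Bool) × (Fin (P.e.eval n) → Bool) × (Fin (t.eval n) → Bool) =>
    decide (A (c4 (ones n) (List.ofFn w.1)
      (P.run n b₀ b₁ c (List.ofFn w.1) (List.ofFn w.2.1)) (List.ofFn w.2.2)) = [true])

/-- the probability that `A`, with `t n` coins, accepts the view of the receiver -/
noncomputable def Protocol.acr (P : Protocol) (A : List Bool → List Bool) (t : Polynomial ℕ)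
    (n : ℕ) (b₀ b₁ c : Bool) : ℝ :=
  pr fun w : (Fin (P.e.eval n) → Bool) × (Fin (P.e.eval n) → Bool) × (Fin (t.eval n) → Bool) =>
    decide (A (c4 (ones n) (List.ofFn w.2.1)
      (P.run n b₀ b₁ c (List.ofFn w.1) (List.ofFn w.2.1)) (List.ofFn w.2.2)) = [true])

/-- `P` is a semi-honest oblivious transfer protocol: the receiver's output is `b_c`, the view of
the sender hides `c`, and the view of the receiver hides `b_(1-c)`. -/
def IsOt (P : Protocol) : Prop :=
  (PolyTime P.snd ∧ PolyTime P.rcv ∧ PolyTime P.out) ∧
  (∀ b₀ b₁ c, Neg fun n => P.err n b₀ b₁ c) ∧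
  (∀ (A : List Bool → List Bool) (t : Polynomial ℕ), PolyTime A → ∀ b₀ b₁,
    Neg fun n => P.acs A t n b₀ b₁ true - P.acs A t n b₀ b₁ false) ∧
  ∀ (A : List Bool → List Bool) (t : Polynomial ℕ), PolyTime A →
    (∀ b, Neg fun n => P.acr A t n b true false - P.acr A t n b false false) ∧
    ∀ b, Neg fun n => P.acr A t n true b true - P.acr A t n false b true

/-- There is an oblivious transfer protocol. -/
def OT : Prop := ∃ P, IsOt P

/-- There is an oblivious transfer protocol in which each bit of each message, as a function of
the input bits and the coins of the party that sends it and of the bits of the transcript so far,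
is computed by a circuit over `B` of size polynomial in `n`. -/
def OtOver (B : Set BFun) : Prop :=
  ∃ (P : Protocol) (q : Polynomial ℕ), IsOt P ∧
    ∀ n, 1 ≤ n → ∀ i, i < P.rounds.eval n → ∀ j, j < P.len.eval n →
      (Computes B (2 + (P.e.eval n + 2 * i * P.len.eval n)) (q.eval n) fun z =>
        (P.ms n ((List.ofFn z).getD 0 false) ((List.ofFn z).getD 1 false)
          (((List.ofFn z).drop 2).take (P.e.eval n))
          ((List.ofFn z).drop (2 + P.e.eval n))).getD j false) ∧
      (Computes B (1 + (P.e.eval n + (2 * i + 1) * P.len.eval n)) (q.eval n) fun z =>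
        (P.mr n ((List.ofFn z).getD 0 false)
          (((List.ofFn z).drop 1).take (P.e.eval n))
          ((List.ofFn z).drop (1 + P.e.eval n))).getD j false)

/-! ### auxiliary notions for the proofs -/

/-- the three gadgets -/
def Tf (τ : Fin 3) (y₀ y₁ c c' : Bool) : Bool :=
  if τ = 0 then y₀ || (y₁ && c)
  else if τ = 1 then y₁ && (y₀ || c)
  else if y₀ = y₁ then y₀ else if y₁ = true then c else !c'

/-- `k` masked copies of the string `c` -/
def em (τ : Fin 3) (k : ℕ) (y c c' : List Bool) : List Bool :=
  y ++ (List.range k).flatMap fun i =>
    List.zipWith (Tf τ (y.getD (2 * i) false) (y.getD (2 * i + 1) false)) c c'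

/-- the pair number `i` is `0, 1` -/
def good (y : List Bool) (i : ℕ) : Bool := !(y.getD (2 * i) false) && y.getD (2 * i + 1) false

/-- some pair is `0, 1` -/
def valid (k : ℕ) (y : List Bool) : Bool := (List.range k).any (good y)

/-- unmasking -/
def dm (k m : ℕ) (u : List Bool) : List Bool :=
  match (List.range k).find? (good u) with
  | some i => (u.drop (2 * k + i * m)).take m
  | none => List.replicate m false

/-- bitwise negation -/
def cpl (l : List Bool) : List Bool := l.map fun b => !b

/-- sum of two vectors modulo two -/
def xorL (u v : List Bool) : List Bool := List.zipWith xor u v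

/-- sum of the vectors of the list `vs` selected by `c` -/
def comb (m : ℕ) : List Bool → List (List Bool) → List Bool
  | b :: c, v :: vs => bif b then xorL v (comb m c vs) else comb m c vs
  | _, _ => List.replicate m false

/-- the position of the first one -/
def piv (v : List Bool) : ℕ := (v.takeWhile fun b => !b).length

/-- reduction of `s` (a vector with its coefficients) by `w` -/
def red1 (s w : List Bool × List Bool) : List Bool × List Bool :=
  bif s.1.getD (piv w.1) false then (xorL s.1 w.1, xorL s.2 w.2) else s

/-- reduction by a list -/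
def redL (bs : List (List Bool × List Bool)) (s : List Bool × List Bool) :
    List Bool × List Bool := bs.foldl red1 s

/-- insertion of a vector into a basis -/
def insL (bs : List (List Bool × List Bool)) (s : List Bool × List Bool) :
    List (List Bool × List Bool) :=
  bif (redL bs s).1.any id then bs ++ [redL bs s] else bs

/-- unit vector -/
def unitL (k i : ℕ) : List Bool := (List.range k).map fun j => decide (j = i)

/-- basis of the span of the vectors of the list -/
def baseL (vs : List (List Bool)) : List (List Bool × List Bool) :=
  (List.range vs.length).foldl (fun bs i => insL bs (vs.getD i [], unitL vs.length i)) []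

/-- solution of a linear system: coefficients `c` with `comb c vs = z` -/
def solveL (vs : List (List Bool)) (z : List Bool) : Option (List Bool) :=
  bif (redL (baseL vs) (z, List.replicate vs.length false)).1.any id then none
  else some (redL (baseL vs) (z, List.replicate vs.length false)).2

/-- the gates -/
def Gt (τ : Fin 3) (a b c : Bool) : Bool :=
  if τ = 0 then a || (b && !c) else if τ = 1 then a && (b || !c) else bmaj a b (!c)

/-- encryption with two strings of coins, one for each bit -/
def enc1 (S : Scheme) (n : ℕ) (pk : List Bool) (b : Bool) (R : List Bool) : List Bool :=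
  fit (S.len.eval n) (S.enc (c4 (ones n) pk [b]
    (bif b then (R.drop (2 * n)).take (S.e.eval n)
      else (R.drop (2 * n + S.e.eval n)).take (S.e.eval n))))

/-- the scheme over `B` -/
noncomputable def sch (S : Scheme) (encB decB : List Bool → List Bool) : Scheme where
  pk := S.pk
  sk := S.sk
  enc := encB
  dec := decB
  g := S.g
  e := 2 * Polynomial.X + 2 * S.e
  len := 2 * Polynomial.X + Polynomial.X * S.len

/-- what the algorithms of the scheme over `B` compute -/
def SpE (τ : Fin 3) (S : Scheme) (encB decB : List Bool → List Bool) : Prop :=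
  (∀ n pk b R, encB (c4 (ones n) pk [b] R) =
    em τ n (R.take (2 * n)) (enc1 S n pk b R) (enc1 S n pk (!b) (cpl R))) ∧
  ∀ n sk u, decB (c3 (ones n) sk u) = S.dec (c3 (ones n) sk (dm n (S.len.eval n) u))

/-- the reduction for the security of the scheme over `B` -/
def redP (τ : Fin 3) (S : Scheme) (A : List Bool → List Bool) (n : ℕ) (pk c : List Bool)
    (a : Bool) (y r w : List Bool) : Bool :=
  bif a then decide (A (c4 (ones n) pk
    (em τ n y c (fit (S.len.eval n) (S.enc (c4 (ones n) pk [true] r)))) w) = [true])
  else !decide (A (c4 (ones n) pk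
    (em τ n y (fit (S.len.eval n) (S.enc (c4 (ones n) pk [true] r))) c) w) = [true])

/-- unmasking of a transcript whose messages have length `2 n + n m` -/
def dcd (n m : ℕ) (u : List Bool) : List Bool :=
  (List.range (u.length / (2 * n + n * m))).flatMap fun i =>
    dm n m ((u.drop (i * (2 * n + n * m))).take (2 * n + n * m))

/-- masking of a transcript with `M` messages of length `m` -/
def enT (τ : Fin 3) (n m M : ℕ) (y y' u : List Bool) : List Bool :=
  (List.range M).flatMap fun i =>
    em τ n (if i % 2 = 0 then y else y') ((u.drop (i * m)).take m) ((u.drop (i * m)).take m)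

/-- the protocol over `B` -/
noncomputable def pro (P : Protocol) (sndB rcvB outB : List Bool → List Bool) : Protocol where
  snd := sndB
  rcv := rcvB
  out := outB
  e := 2 * Polynomial.X + P.e
  rounds := P.rounds
  len := 2 * Polynomial.X + Polynomial.X * P.len

/-- what the algorithms of the protocol over `B` compute -/
def SpO (τ : Fin 3) (P : Protocol) (sndB rcvB outB : List Bool → List Bool) : Prop :=
  (∀ n b₀ b₁ R u, sndB (c4 (ones n) [b₀, b₁] R u) = em τ n (R.take (2 * n))
    (P.ms n b₀ b₁ (R.drop (2 * n)) (dcd n (P.len.eval n) u))
    (P.ms n b₀ b₁ (R.drop (2 * n)) (dcd n (P.len.eval n) u))) ∧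
  (∀ n c R u, rcvB (c4 (ones n) [c] R u) = em τ n (R.take (2 * n))
    (P.mr n c (R.drop (2 * n)) (dcd n (P.len.eval n) u))
    (P.mr n c (R.drop (2 * n)) (dcd n (P.len.eval n) u))) ∧
  ∀ n c R u, outB (c4 (ones n) [c] R u) =
    P.out (c4 (ones n) [c] (R.drop (2 * n)) (dcd n (P.len.eval n) u))

/-! one-way functions over monotone gates -/

/-- the value of `f`, brought to the length `2 K + 2` -/
def fbar (K : ℕ) (v : List Bool) : List Bool :=
  true :: pairBits v (List.replicate (2 * (K - v.length)) false)

/-- the slice version of `f` on `z`, `z` of length `2 h` -/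
def midL (f : List Bool → List Bool) (K n h : ℕ) (z : List Bool) : List Bool :=
  if h < z.count true then List.replicate (2 * K + 2) true
  else if z.count true = h then fbar K (f (z.take n)) else List.replicate (2 * K + 2) false

/-- half length of the second part of a block -/
def hF (n : ℕ) : ℕ := H547R9.hh n

/-- length of a block -/
def lF (n : ℕ) : ℕ := 2 + 2 * hF n

/-- number of blocks -/
def kF (n : ℕ) : ℕ := 4 * n * (2 * hF n + 1)

/-- the output of a block -/
def blkF (τ : Fin 3) (f : List Bool → List Bool) (K n : ℕ) (β : List Bool) : List Bool :=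
  β.getD 0 false :: β.getD 1 false ::
    List.zipWith (Tf τ (β.getD 0 false) (β.getD 1 false)) (midL f K n (hF n) (β.drop 2))
      (midL f K n (hF n) (cpl (β.drop 2)))

/-- block number `i` of `X` -/
def bk (n i : ℕ) (X : List Bool) : List Bool := (X.drop (i * lF n)).take (lF n)

/-- the one-way function -/
def owF (τ : Fin 3) (f : List Bool → List Bool) (K n : ℕ) (X : List Bool) : List Bool :=
  (List.range (kF n)).flatMap fun i => blkF τ f K n (bk n i X)

/-- a block is valid -/
def vb (n : ℕ) (β : List Bool) : Bool :=
  !(β.getD 0 false) && β.getD 1 false && decide ((β.drop 2).count true = hF n)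

/-- the first valid block -/
def fv (n : ℕ) (X : List Bool) : Option ℕ := (List.range (kF n)).find? fun i => vb n (bk n i X)

/-- the output for the blocks `X` with the block number `i` replaced by a valid block with the
value `v` of `f` -/
def plant (τ : Fin 3) (f : List Bool → List Bool) (K n i : ℕ) (v X : List Bool) : List Bool :=
  (List.range (kF n)).flatMap fun l =>
    if l = i then false :: true :: fbar K v else blkF τ f K n (bk n l X)

/-- the monotone gates -/
def Gm (τ : Fin 3) (a b c : Bool) : Bool :=
  if τ = 0 then a || (b && c) else if τ = 1 then a && (b || c) else bmaj a b c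

end Pool.Agent.H547S1
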