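import Pool.Agent.H547S1.Defs
import Pool.Agent.H547R9.Stm
import Pool.Agent.H545R2.KS.Base

/-!
# Statements of the tasks
-/

set_option autoImplicit false

namespace Pool.Agent.H547S1

open Pool.Agent.H547R6 Pool.Agent.H547R7 Pool.Agent.H547R8 Pool.Agent.NPC Pool.Agent.H583R2

/-! ### general tools -/

/-- negligible functions -/
def S_NEG : Prop :=
  (∀ ε δ : ℕ → ℝ, Neg ε → Neg δ → Neg fun n => ε n + δ n) ∧
  (∀ (ε δ : ℕ → ℝ) (N : ℕ), Neg δ → (∀ n, N ≤ n → |ε n| ≤ δ n) → Neg ε) ∧
  (∀ (ε : ℕ → ℝ) (K : ℝ), Neg ε → Neg fun n => K * ε n) ∧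
  (∀ (ε : ℕ → ℝ) (p : Polynomial ℕ), Neg ε → Neg fun n => ((p.eval n : ℕ) : ℝ) * ε n) ∧
  (Neg fun n => (3 / 4 : ℝ) ^ n) ∧ (∀ a : ℝ, 0 < a → ¬ Neg fun _ => a)

/-- probability that no pair is valid -/
def S_VAL : Prop := ∀ k : ℕ,
  pr (fun y : Fin (2 * k) → Bool => !(valid k (List.ofFn y))) = (3 / 4 : ℝ) ^ k

/-- masking and unmasking -/
def S_DEM : Prop := ∀ (τ : Fin 3) (k m : ℕ) (y c c' : List Bool), y.length = 2 * k →
  c.length = m → c'.length = m →
  (em τ k y c c').length = 2 * k + k * m ∧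
  (valid k y = true → dm k m (em τ k y c c') = c) ∧
  (∀ j, j < 2 * k → (em τ k y c c').getD j false = y.getD j false) ∧
  ∀ i l, i < k → l < m → (em τ k y c c').getD (2 * k + i * m + l) false =
    Tf τ (y.getD (2 * i) false) (y.getD (2 * i + 1) false) (c.getD l false) (c'.getD l false)

/-- the bits of functions computable in polynomial time have small circuits -/
def S_CK3 : Prop := ∀ F : List Bool → List Bool, PolyTime F → ∃ q : Polynomial ℕ,
  ∀ (x : List Bool) (m j : ℕ), 1 ≤ m → Comp0 m (q.eval (x.length + m + j))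
    fun r => (F (pairBits x (List.ofFn r))).getD j false

/-- circuits for the gadgets -/
def S_GDC : Prop := ∀ (B : Set BFun) (τ : Fin 3), Op3 B (Gt τ) → ∃ c : ℕ,
  ∀ (n s : ℕ) (C : BF n), Comp0 n s C → Computes B (n + 2) (c * (s + n + 1))
    fun y => Tf τ (y 0) (y 1) (C fun i => y i.succ.succ) (C fun i => !y i.succ.succ)

/-- correctness of the solution of linear systems -/
def S_LN1 : Prop := ∀ (m : ℕ) (vs : List (List Bool)) (z : List Bool),
  (∀ v ∈ vs, v.length = m) → z.length = m →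
  (∀ c, solveL vs z = some c → c.length = vs.length ∧ comb m c vs = z) ∧
  (solveL vs z = none → ∀ c : List Bool, c.length = vs.length → comb m c vs ≠ z)

/-- linear systems in polynomial time -/
def S_LN2 : Prop := PF fun p : List (List Bool) × List Bool => solveL p.1 p.2

/-- the classes are closed under composition -/
def S_GL3 : Prop := ∀ (B K : Set BFun), (K = Aff ∨ K = Conj ∨ K = Disj ∨ K = SelfDual ∨
  K = Mon) → B ⊆ K → ∀ (n s : ℕ) (C : BF n), Computes B n s C → (⟨n, C⟩ : BFun) ∈ K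

/-! ### public-key encryption -/

/-- no encryption over monotone gates -/
def S_PMO : Prop := ∀ B : Set BFun, B ⊆ Mon → ¬ PkeOver B

/-- no encryption over affine gates -/
def S_PAF : Prop := ∀ B : Set BFun, B ⊆ Aff → ¬ PkeOver B

/-- the algorithms of the scheme over `B` -/
def S_PBT : Prop := ∀ (τ : Fin 3) (S : Scheme), PolyTime S.enc → PolyTime S.dec →
  ∃ encB decB : List Bool → List Bool, PolyTime encB ∧ PolyTime decB ∧ SpE τ S encB decB

/-- the circuits of the scheme over `B` -/
def S_PBC : Prop := ∀ (B : Set BFun) (τ : Fin 3) (S : Scheme) (encB decB : List Bool → List Bool),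
  Op3 B (Gt τ) → PolyTime S.pk → PolyTime S.enc → SpE τ S encB decB →
  ∃ q : Polynomial ℕ, ∀ n, 1 ≤ n → ∀ s : List Bool, s.length = S.g.eval n →
    ∀ j, j < (sch S encB decB).len.eval n →
      Computes B ((sch S encB decB).e.eval n + 1) (q.eval n) fun z =>
        ((sch S encB decB).ct n s (z 0) (List.ofFn fun i => z i.succ)).getD j false

/-- correctness of the scheme over `B` -/
def S_PBD : Prop := ∀ (τ : Fin 3) (S : Scheme) (encB decB : List Bool → List Bool),
  SpE τ S encB decB → ∀ n b, (sch S encB decB).err n b ≤ (3 / 4 : ℝ) ^ n + S.err n b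

/-- the reduction in polynomial time -/
def S_PRT : Prop := ∀ (τ : Fin 3) (S : Scheme) (A : List Bool → List Bool) (t : Polynomial ℕ),
  PolyTime S.enc → PolyTime A → ∃ A' : List Bool → List Bool, PolyTime A' ∧
    ∀ (n : ℕ) (pk c : List Bool) (a : Bool) (y r w : List Bool), y.length = 2 * n →
      r.length = S.e.eval n → w.length = t.eval n →
      A' (c4 (ones n) pk c (a :: (y ++ (r ++ w)))) = [redP τ S A n pk c a y r w]

/-- the probabilities in the reduction -/
def S_PRP : Prop := ∀ (τ : Fin 3) (S : Scheme) (encB decB A A' : List Bool → List Bool)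
  (t : Polynomial ℕ), SpE τ S encB decB →
  (∀ (n : ℕ) (pk c : List Bool) (a : Bool) (y r w : List Bool), y.length = 2 * n →
      r.length = S.e.eval n → w.length = t.eval n →
      A' (c4 (ones n) pk c (a :: (y ++ (r ++ w)))) = [redP τ S A n pk c a y r w]) →
  ∀ n, S.acp A' (1 + (2 * Polynomial.X + (S.e + t))) n true -
      S.acp A' (1 + (2 * Polynomial.X + (S.e + t))) n false =
    1 / 2 * ((sch S encB decB).acp A t n true - (sch S encB decB).acp A t n false)

/-! ### oblivious transfer -/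

/-- gate sets -/
def S_C4 : Prop := ∀ B : Set BFun, ¬ B ⊆ Mon → ¬ B ⊆ Aff → ¬ B ⊆ SelfDual →
  Op3 B (Gt 0) ∨ Op3 B (Gt 1)

/-- no oblivious transfer over monotone gates -/
def S_TMO : Prop := ∀ B : Set BFun, B ⊆ Mon → ¬ OtOver B

/-- no oblivious transfer over self-dual gates -/
def S_TSD : Prop := ∀ B : Set BFun, B ⊆ SelfDual → ¬ OtOver B

/-- no oblivious transfer over affine gates -/
def S_TAF : Prop := ∀ B : Set BFun, B ⊆ Aff → ¬ OtOver B

/-- the algorithms of the protocol over `B` -/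
def S_TBT : Prop := ∀ (τ : Fin 3) (P : Protocol), PolyTime P.snd → PolyTime P.rcv →
  PolyTime P.out → ∃ sndB rcvB outB : List Bool → List Bool,
    PolyTime sndB ∧ PolyTime rcvB ∧ PolyTime outB ∧ SpO τ P sndB rcvB outB

/-- the circuits of the protocol over `B` -/
def S_TBC : Prop := ∀ (B : Set BFun) (τ : Fin 3) (P : Protocol)
  (sndB rcvB outB : List Bool → List Bool), (τ = 0 ∨ τ = 1) → Op3 B (Gt τ) → PolyTime P.snd →
  PolyTime P.rcv → SpO τ P sndB rcvB outB → ∃ q : Polynomial ℕ,
    ∀ n, 1 ≤ n → ∀ i, i < P.rounds.eval n → ∀ j, j < (pro P sndB rcvB outB).len.eval n →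
      (Computes B (2 + ((pro P sndB rcvB outB).e.eval n +
          2 * i * (pro P sndB rcvB outB).len.eval n)) (q.eval n) fun z =>
        ((pro P sndB rcvB outB).ms n ((List.ofFn z).getD 0 false) ((List.ofFn z).getD 1 false)
          (((List.ofFn z).drop 2).take ((pro P sndB rcvB outB).e.eval n))
          ((List.ofFn z).drop (2 + (pro P sndB rcvB outB).e.eval n))).getD j false) ∧
      (Computes B (1 + ((pro P sndB rcvB outB).e.eval n +
          (2 * i + 1) * (pro P sndB rcvB outB).len.eval n)) (q.eval n) fun z =>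
        ((pro P sndB rcvB outB).mr n ((List.ofFn z).getD 0 false)
          (((List.ofFn z).drop 1).take ((pro P sndB rcvB outB).e.eval n))
          ((List.ofFn z).drop (1 + (pro P sndB rcvB outB).e.eval n))).getD j false)

/-- the transcript of the protocol over `B` -/
def S_TBR : Prop := ∀ (τ : Fin 3) (P : Protocol) (sndB rcvB outB : List Bool → List Bool),
  SpO τ P sndB rcvB outB → ∀ (n : ℕ) (b₀ b₁ c : Bool) (y y' rs rr : List Bool), 1 ≤ n →
  y.length = 2 * n → y'.length = 2 * n → valid n y = true → valid n y' = true → ∀ i,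
  (pro P sndB rcvB outB).tr n b₀ b₁ c (y ++ rs) (y' ++ rr) i =
      enT τ n (P.len.eval n) (2 * i) y y' (P.tr n b₀ b₁ c rs rr i) ∧
    dcd n (P.len.eval n) (enT τ n (P.len.eval n) (2 * i) y y' (P.tr n b₀ b₁ c rs rr i)) =
      P.tr n b₀ b₁ c rs rr i

/-- correctness of the protocol over `B` -/
def S_TBD : Prop := ∀ (τ : Fin 3) (P : Protocol) (sndB rcvB outB : List Bool → List Bool),
  SpO τ P sndB rcvB outB → ∀ n, 1 ≤ n → ∀ b₀ b₁ c,
    (pro P sndB rcvB outB).err n b₀ b₁ c ≤ 2 * (3 / 4 : ℝ) ^ n + P.err n b₀ b₁ c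

/-- the reductions in polynomial time -/
def S_TRT : Prop := ∀ (τ : Fin 3) (P : Protocol) (A : List Bool → List Bool)
  (t : Polynomial ℕ), PolyTime A → ∀ sd : Bool, ∃ A' : List Bool → List Bool, PolyTime A' ∧
    ∀ (n : ℕ) (r u y y' w : List Bool), y.length = 2 * n → y'.length = 2 * n →
      w.length = t.eval n → A' (c4 (ones n) r u (y ++ (y' ++ w))) =
        A (c4 (ones n) ((bif sd then y else y') ++ r)
          (enT τ n (P.len.eval n) (2 * P.rounds.eval n) y y' u) w)

/-- the probabilities in the reductions -/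
def S_TRP : Prop := ∀ (τ : Fin 3) (P : Protocol) (sndB rcvB outB A As Ar : List Bool → List Bool)
  (t : Polynomial ℕ), SpO τ P sndB rcvB outB →
  (∀ (n : ℕ) (r u y y' w : List Bool), y.length = 2 * n → y'.length = 2 * n →
      w.length = t.eval n → As (c4 (ones n) r u (y ++ (y' ++ w))) =
        A (c4 (ones n) (y ++ r)
          (enT τ n (P.len.eval n) (2 * P.rounds.eval n) y y' u) w)) →
  (∀ (n : ℕ) (r u y y' w : List Bool), y.length = 2 * n → y'.length = 2 * n →
      w.length = t.eval n → Ar (c4 (ones n) r u (y ++ (y' ++ w))) =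
        A (c4 (ones n) (y' ++ r)
          (enT τ n (P.len.eval n) (2 * P.rounds.eval n) y y' u) w)) →
  ∀ n, 1 ≤ n → ∀ b₀ b₁ c,
    |(pro P sndB rcvB outB).acs A t n b₀ b₁ c -
      P.acs As (2 * Polynomial.X + (2 * Polynomial.X + t)) n b₀ b₁ c| ≤ 2 * (3 / 4 : ℝ) ^ n ∧
    |(pro P sndB rcvB outB).acr A t n b₀ b₁ c -
      P.acr Ar (2 * Polynomial.X + (2 * Polynomial.X + t)) n b₀ b₁ c| ≤ 2 * (3 / 4 : ℝ) ^ n

/-! ### one-way functions -/

/-- gate sets -/
def S_C5 : Prop := ∀ B : Set BFun, ¬ B ⊆ Aff → ¬ B ⊆ Conj → ¬ B ⊆ Disj →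
  ∃ τ : Fin 3, Op3 B (Gm τ)

/-- no one-way functions over affine gates -/
def S_OAF : Prop := ∀ B : Set BFun, B ⊆ Aff → ¬ OwfOver B

/-- no one-way functions over conjunctions -/
def S_OCO : Prop := ∀ B : Set BFun, B ⊆ Conj → ¬ OwfOver B

/-- no one-way functions over disjunctions -/
def S_ODI : Prop := ∀ B : Set BFun, B ⊆ Disj → ¬ OwfOver B

/-- from a family to a single function -/
def S_OPL : Prop := ∀ B : Set BFun, OwfOver B → OWF

/-- circuits for the gadgets, monotone gates -/
def S_GDM : Prop := ∀ (B : Set BFun) (τ : Fin 3), Op3 B (Gm τ) → ∃ c : ℕ,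
  ∀ (n s : ℕ) (M : BF n), Computes MB n s M → Computes B (n + 2) (c * (s + 1))
    fun y => Tf τ (y 0) (y 1) (M fun i => y i.succ.succ) (M fun i => !y i.succ.succ)

/-- the one-way function in polynomial time -/
def S_OBT : Prop := ∀ (τ : Fin 3) (f : List Bool → List Bool) (K : Polynomial ℕ), PolyTime f →
  ∃ F : List Bool → List Bool, PolyTime F ∧
    (∀ (n : ℕ) (X : List Bool), F (pairBits (ones n) X) = owF τ f (K.eval n) n X)

/-- circuits for the one-way function -/
def S_OBC : Prop := ∀ (B : Set BFun) (τ : Fin 3) (f : List Bool → List Bool) (K : Polynomial ℕ),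
  Op3 B (Gm τ) → PolyTime f → (∀ x : List Bool, (f x).length ≤ K.eval x.length) →
  ∃ q : Polynomial ℕ, ∀ n, 1 ≤ n → ∀ j, j < kF n * (2 + (2 * K.eval n + 2)) →
    Computes B (kF n * lF n) (q.eval n)
      fun x => (owF τ f (K.eval n) n (List.ofFn x)).getD j false

/-- lengths, and preimages of planted values -/
def S_OBL : Prop := ∀ (τ : Fin 3) (f : List Bool → List Bool) (K : Polynomial ℕ),
  (∀ x : List Bool, (f x).length ≤ K.eval x.length) → ∀ n, 1 ≤ n → ∀ X : List Bool,
  X.length = kF n * lF n → (owF τ f (K.eval n) n X).length = kF n * (2 + (2 * K.eval n + 2)) ∧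
  (∀ i, fv n X = some i → owF τ f (K.eval n) n X =
    plant τ f (K.eval n) n i (f (((bk n i X).drop 2).take n)) X) ∧
  ∀ (i : ℕ) (x Y : List Bool), i < kF n → x.length = n → Y.length = kF n * lF n →
    owF τ f (K.eval n) n Y = plant τ f (K.eval n) n i (f x) X →
    f (((bk n i Y).drop 2).take n) = f x

/-- the number of the strings of half weight with given first bits -/
def S_OBN : Prop := ∀ (n : ℕ), 1 ≤ n →
  (∀ x : Fin n → Bool, (((Finset.univ : Finset (Fin (2 * hF n) → Bool)).filter fun z =>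
      (List.ofFn z).count true = hF n ∧ (List.ofFn z).take n = List.ofFn x).card : ℝ) * 2 ^ n ≤
    2 * (((Finset.univ : Finset (Fin (2 * hF n) → Bool)).filter fun z =>
      (List.ofFn z).count true = hF n).card : ℝ)) ∧
  (pr fun X : Fin (kF n * lF n) → Bool => decide (fv n (List.ofFn X) = none)) ≤
    (3 / 4 : ℝ) ^ n

/-- the inverter in polynomial time -/
def S_OIT : Prop := ∀ (τ : Fin 3) (f : List Bool → List Bool) (K t : Polynomial ℕ)
  (A : List Bool → List Bool), PolyTime f → PolyTime A →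
  ∃ A' : List Bool → List Bool, PolyTime A' ∧ ∀ (n i : ℕ) (v X w : List Bool),
    X.length = kF n * lF n → w.length = t.eval n → fv n X = some i →
    A' (c3 (ones n) v (X ++ w)) =
      ((bk n i (A (c3 (ones n) (plant τ f (K.eval n) n i v X) w))).drop 2).take n

/-- the probabilities in the reduction -/
def S_OBP : Prop := ∀ (f : List Bool → List Bool) (n t : ℕ), 1 ≤ n →
  ∀ (good : (Fin n → Bool) → ℕ → (Fin (kF n * lF n) → Bool) → (Fin t → Bool) → Bool),
  (∀ x i X X' w, (∀ l, l ≠ i → bk n l (List.ofFn X) = bk n l (List.ofFn X')) →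
    good x i X w = good x i X' w) →
  (pr fun w : (Fin (kF n * lF n) → Bool) × (Fin t → Bool) =>
    match fv n (List.ofFn w.1) with
    | some i => good (vec n ((bk n i (List.ofFn w.1)).drop 2)) i w.1 w.2
    | none => false) ≤
  2 * pr fun w : (Fin n → Bool) × (Fin (kF n * lF n) → Bool) × (Fin t → Bool) =>
    match fv n (List.ofFn w.2.1) with
    | some i => good w.1 i w.2.1 w.2.2
    | none => false

end Pool.Agent.H547S1
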