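import Pool.Agent.H547S1.Stm

/-!
# Task LN2: Gaussian elimination in polynomial time
-/

set_option autoImplicit false

namespace Pool.Agent.H547S1

open Pool.Agent.H583R2

namespace T_LN2

variable {α : Type} [TEnc α]

theorem sz_str (l : List Bool) : sz l ≤ 4 * l.length + 1 := by
  induction l with
  | nil => simp [sz_nil]
  | cons x l ih =>
    have := sz_bool x
    rw [sz_cons, List.length_cons]
    omega

theorem pf_xor {b c : α → Bool} (hb : PF b) (hc : PF c) : PF (fun a => xor (b a) (c a)) :=
  (hb.beqBool hc).not.congr (fun a => by cases b a <;> cases c a <;> rfl)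

theorem pf_cond {β : Type} [TEnc β] {b : α → Bool} {f g : α → β} (hb : PF b) (hf : PF f)
    (hg : PF g) : PF (fun a => bif b a then f a else g a) :=
  (hb.ite hf hg).congr (fun a => by cases b a <;> rfl)

theorem xorL_eq (u v : List Bool) : xorL u v =
    (List.range (min u.length v.length)).map
      fun i => xor (u.getD i false) (v.getD i false) := by
  unfold xorL
  apply List.ext_getElem
  · simp
  · intro i h1 h2
    simp only [List.length_zipWith, lt_min_iff] at h1
    simp [List.getElem?_eq_getElem h1.1, List.getElem?_eq_getElem h1.2]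

theorem pf_xorL {u v : α → List Bool} (hu : PF u) (hv : PF v) : PF (fun a => xorL (u a) (v a)) := by
  have h := PF.map (l := fun a => List.range (min (u a).length (v a).length))
    (f := fun a i => xor ((u a).getD i false) ((v a).getD i false))
    (PF.range (hu.length.min hv.length))
    (pf_xor (PF.listGetD PF.snd (hu.comp PF.fst) (PF.const false))
      (PF.listGetD PF.snd (hv.comp PF.fst) (PF.const false)))
  exact h.congr (fun a => (xorL_eq (u a) (v a)).symm)

theorem piv_eq (v : List Bool) : piv v = v.foldr (fun x s => bif x then 0 else s + 1) 0 := by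
  unfold piv
  induction v with
  | nil => rfl
  | cons x v ih => cases x <;> simp_all

theorem pf_piv {v : α → List Bool} (hv : PF v) : PF (fun a => piv (v a)) := by
  have h := PF.foldrAdd (l := v) (s := fun _ => (0 : ℕ))
    (f := fun _ x s => bif x then 0 else s + 1) hv (PF.const 0)
    (pf_cond (PF.fst.comp PF.snd) (PF.const 0) (PF.succ (PF.snd.comp PF.snd)))
    (inc := fun _ => 2) (bnd := fun _ => 1) (PB.const 2) (PB.const 1)
    (by
      intro a x _ st
      cases x
      · change sz (st + 1) ≤ _
        rw [sz_succ]
        omega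
      · change sz (0 : ℕ) ≤ _
        rw [sz_zero]
        omega)
  exact h.congr (fun a => (piv_eq (v a)).symm)

theorem pf_red1 {s w : α → List Bool × List Bool} (hs : PF s) (hw : PF w) :
    PF (fun a => red1 (s a) (w a)) :=
  pf_cond (PF.listGetD (pf_piv hw.fst') hs.fst' (PF.const false))
    ((pf_xorL hs.fst' hw.fst').pair (pf_xorL hs.snd' hw.snd')) hs

theorem len_red1 (s w : List Bool × List Bool) :
    (red1 s w).1.length ≤ s.1.length ∧ (red1 s w).2.length ≤ s.2.length := by
  unfold red1
  cases s.1.getD (piv w.1) false
  · exact ⟨le_rfl, le_rfl⟩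
  · simp [xorL]

theorem len_redL (bs : List (List Bool × List Bool)) (s : List Bool × List Bool) :
    (redL bs s).1.length ≤ s.1.length ∧ (redL bs s).2.length ≤ s.2.length := by
  unfold redL
  induction bs generalizing s with
  | nil => exact ⟨le_rfl, le_rfl⟩
  | cons w bs ih =>
    rw [List.foldl_cons]
    have h1 := ih (red1 s w)
    have h2 := len_red1 s w
    exact ⟨h1.1.trans h2.1, h1.2.trans h2.2⟩

theorem sz_red1 (s w : List Bool × List Bool) : sz (red1 s w) ≤ max (sz s) (4 * sz w + 3) := by
  unfold red1
  cases s.1.getD (piv w.1) false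
  · exact le_max_left _ _
  · refine le_trans ?_ (le_max_right _ _)
    change sz (xorL s.1 w.1, xorL s.2 w.2) ≤ _
    rw [sz_pair, sz_prod w]
    have h1 := sz_str (xorL s.1 w.1)
    have h2 := sz_str (xorL s.2 w.2)
    have h3 : (xorL s.1 w.1).length ≤ w.1.length := by simp [xorL]
    have h4 : (xorL s.2 w.2).length ≤ w.2.length := by simp [xorL]
    have h5 := length_lt_sz w.1
    have h6 := length_lt_sz w.2
    omega

theorem pf_redL {bs : α → List (List Bool × List Bool)} {s : α → List Bool × List Bool}
    (hbs : PF bs) (hs : PF s) : PF (fun a => redL (bs a) (s a)) := by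
  refine PF.foldlAdd (l := bs) (s := s) (f := fun _ s w => red1 s w) hbs hs
    (pf_red1 (PF.fst.comp PF.snd) (PF.snd.comp PF.snd))
    (inc := fun _ => 0) (bnd := fun a => 4 * sz (bs a) + 3) (PB.const 0)
    (((PB.const 4).mul hbs.size).add (PB.const 3)) ?_
  intro a w hw st
  have h1 := sz_red1 st w
  have h2 := sz_mem hw
  refine h1.trans (max_le_max (by omega) (by omega))

theorem pf_insL {bs : α → List (List Bool × List Bool)} {s : α → List Bool × List Bool}
    (hbs : PF bs) (hs : PF s) : PF (fun a => insL (bs a) (s a)) :=
  pf_cond (PF.any (f := fun _ b => id b) (pf_redL hbs hs).fst' PF.snd)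
    (PF.append hbs (PF.cons (pf_redL hbs hs) (PF.const []))) hbs

theorem pf_unitL {k i : α → ℕ} (hk : PF k) (hi : PF i) : PF (fun a => unitL (k a) (i a)) :=
  PF.map (l := fun a => List.range (k a)) (f := fun a j => decide (j = i a)) (PF.range hk)
    (PF.natEq PF.snd (hi.comp PF.fst))

theorem sz_insL (bs : List (List Bool × List Bool)) (s : List Bool × List Bool) :
    sz (insL bs s) ≤ sz bs + (4 * (s.1.length + s.2.length) + 5) := by
  unfold insL
  cases (redL bs s).1.any id
  · exact Nat.le_add_right _ _
  · change sz (bs ++ [redL bs s]) ≤ _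
    have h1 := sz_append bs [redL bs s]
    have h2 := sz_prod (redL bs s)
    have h3 := sz_str (redL bs s).1
    have h4 := sz_str (redL bs s).2
    have h5 := len_redL bs s
    have h6 : sz [redL bs s] = 1 + sz (redL bs s) + 1 := by rw [sz_cons, sz_nil]
    omega

theorem pf_baseL {vs : α → List (List Bool)} (hvs : PF vs) : PF (fun a => baseL (vs a)) := by
  refine PF.foldlAdd (l := fun a => List.range (vs a).length)
    (s := fun _ => ([] : List (List Bool × List Bool)))
    (f := fun a bs i => insL bs ((vs a).getD i [], unitL (vs a).length i))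
    (PF.range hvs.length) (PF.const [])
    (pf_insL (PF.fst.comp PF.snd)
      ((PF.listGetD (PF.snd.comp PF.snd) (hvs.comp PF.fst) (PF.const [])).pair
        (pf_unitL (hvs.length.comp PF.fst) (PF.snd.comp PF.snd))))
    (inc := fun a => 8 * sz (vs a) + 5) (bnd := fun _ => 0)
    (((PB.const 8).mul hvs.size).add (PB.const 5)) (PB.const 0) ?_
  intro a i hi st
  have h1 := sz_insL st ((vs a).getD i [], unitL (vs a).length i)
  have h2 : ((vs a).getD i []).length ≤ sz (vs a) := by
    rw [List.mem_range] at hi
    rw [List.getD_eq_getElem _ _ hi]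
    have h3 := sz_mem (List.getElem_mem hi)
    have h4 := length_lt_sz ((vs a)[i])
    omega
  have h3 : (unitL (vs a).length i).length ≤ sz (vs a) := by
    have := length_lt_sz (vs a)
    simp only [unitL, List.length_map, List.length_range]
    omega
  refine le_trans ?_ (le_max_left _ _)
  simp only at h1
  omega

end T_LN2

open T_LN2 in
theorem t_LN2 : S_LN2 := by
  have hr : PF fun p : List (List Bool) × List Bool =>
      redL (baseL p.1) (p.2, List.replicate p.1.length false) :=
    pf_redL (pf_baseL PF.fst) (PF.snd.pair (PF.replicate (PF.fst.length) (PF.const false)))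
  exact pf_cond (PF.any (f := fun _ b => id b) hr.fst' PF.snd) (PF.const none)
    (PF.mkSome hr.snd')

end Pool.Agent.H547S1
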