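import Pool.Agent.H547S1.Stm

/-!
# Correctness of the scheme over `B`
-/

set_option autoImplicit false

namespace Pool.Agent.H547S1

open Pool.Agent.H547R6 Pool.Agent.H547R7 Pool.Agent.H547R8 Pool.Agent.NPC

section PBDgen

variable {Ω Ω' Ω'' : Type} [Fintype Ω] [Fintype Ω'] [Fintype Ω'']

private theorem PBD_equiv (e : Ω ≃ Ω') (p : Ω' → Bool) : pr (fun w => p (e w)) = pr p := by
  unfold pr
  rw [Fintype.card_congr e]
  congr 2
  apply Finset.card_bij (fun w _ => e w)
  · intro w hw
    simpa using hw
  · intro w _ w' _ h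
    exact e.injective h
  · intro v hv
    refine ⟨e.symm v, ?_, by simp⟩
    simpa using hv

private theorem PBD_fst [Nonempty Ω''] (p : Ω' → Bool) :
    pr (fun w : Ω' × Ω'' => p w.1) = pr p := by
  unfold pr
  have h : (Finset.univ.filter fun w : Ω' × Ω'' => p w.1 = true) =
      (Finset.univ.filter fun x : Ω' => p x = true) ×ˢ (Finset.univ : Finset Ω'') := by
    ext w
    simp
  rw [h, Finset.card_product, Fintype.card_prod, Finset.card_univ]
  push_cast
  have h0 : (Fintype.card Ω'' : ℝ) ≠ 0 := by
    have := Fintype.card_pos (α := Ω'')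
    exact_mod_cast this.ne'
  rw [mul_div_mul_right _ _ h0]

private theorem PBD_union (p q₁ q₂ : Ω → Bool)
    (h : ∀ w, p w = true → q₁ w = true ∨ q₂ w = true) : pr p ≤ pr q₁ + pr q₂ := by
  classical
  unfold pr
  rw [← add_div]
  apply div_le_div_of_nonneg_right _ (by positivity)
  have h1 : (Finset.univ.filter fun w => p w = true) ⊆
      (Finset.univ.filter fun w => q₁ w = true) ∪ (Finset.univ.filter fun w => q₂ w = true) := by
    intro w hw
    simp only [Finset.mem_filter, Finset.mem_univ, true_and, Finset.mem_union] at hw ⊢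
    exact h w hw
  have h2 := (Finset.card_le_card h1).trans (Finset.card_union_le _ _)
  exact_mod_cast h2

end PBDgen

private def PBD_e (G : Type) (a m c : ℕ) : G × (Fin (a + m + c) → Bool) ≃
    (G × (Fin m → Bool)) × ((Fin a → Bool) × (Fin c → Bool)) where
  toFun w := ((w.1, fun i => w.2 (Fin.castAdd c (Fin.natAdd a i))),
    (fun i => w.2 (Fin.castAdd c (Fin.castAdd m i)), fun i => w.2 (Fin.natAdd (a + m) i)))
  invFun v := (v.1.1, Fin.append (Fin.append v.2.1 v.1.2) v.2.2)
  left_inv := by
    rintro ⟨s, R⟩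
    simp only [Prod.mk.injEq, true_and]
    funext i
    refine Fin.addCases (fun j => ?_) (fun j => ?_) i
    · rw [Fin.append_left]
      refine Fin.addCases (fun l => ?_) (fun l => ?_) j
      · rw [Fin.append_left]
      · rw [Fin.append_right]
    · rw [Fin.append_right]
  right_inv := by
    rintro ⟨⟨s, r⟩, ⟨x, y⟩⟩
    simp [Fin.append_left, Fin.append_right]

private theorem PBD_proj {G : Type} [Fintype G] (p : G → List Bool → Bool) (N a m : ℕ)
    (h : a + m ≤ N) :
    pr (fun w : G × (Fin N → Bool) => p w.1 (((List.ofFn w.2).drop a).take m)) =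
      pr (fun w : G × (Fin m → Bool) => p w.1 (List.ofFn w.2)) := by
  obtain ⟨c, rfl⟩ := Nat.exists_eq_add_of_le h
  have h1 : (fun w : G × (Fin (a + m + c) → Bool) =>
      p w.1 (((List.ofFn w.2).drop a).take m)) =
      fun w => (fun v : (G × (Fin m → Bool)) × ((Fin a → Bool) × (Fin c → Bool)) =>
        p v.1.1 (List.ofFn v.1.2)) (PBD_e G a m c w) := by
    funext w
    have : ((List.ofFn w.2).drop a).take m =
        List.ofFn (fun i => w.2 (Fin.castAdd c (Fin.natAdd a i))) := by
      apply List.ext_getElem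
      · simp only [List.length_take, List.length_drop, List.length_ofFn]
        omega
      · intro i h1 h2
        simp only [List.getElem_take, List.getElem_drop, List.getElem_ofFn]
        congr 1
    simp only [PBD_e, Equiv.coe_fn_mk]
    rw [this]
  rw [h1, PBD_equiv (PBD_e G a m c)
    (fun v : (G × (Fin m → Bool)) × ((Fin a → Bool) × (Fin c → Bool)) =>
        p v.1.1 (List.ofFn v.1.2))]
  exact PBD_fst (Ω' := G × (Fin m → Bool)) (Ω'' := (Fin a → Bool) × (Fin c → Bool))
    (fun w => p w.1 (List.ofFn w.2))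

private theorem PBD_snd {G : Type} [Fintype G] [Nonempty G] (m : ℕ) (p : (Fin m → Bool) → Bool) :
    pr (fun w : G × (Fin m → Bool) => p w.2) = pr p := by
  rw [← PBD_fst (Ω'' := G) p, ← PBD_equiv (Equiv.prodComm G (Fin m → Bool))]
  rfl

theorem t_PBD (h1 : S_VAL) (h2 : S_DEM) : S_PBD := by
  intro τ S encB decB hSp n b
  obtain ⟨hE, hD⟩ := hSp
  have hg : (sch S encB decB).g = S.g := rfl
  have hN : (sch S encB decB).e.eval n = 2 * n + 2 * S.e.eval n := by
    simp [sch]
  have hL : (sch S encB decB).len.eval n = 2 * n + n * S.len.eval n := by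
    simp [sch]
  -- length of the ciphertext
  have hfit : ∀ (m : ℕ) (l : List Bool), (fit m l).length = m := by
    intro m l
    simp [fit]
  have hfitid : ∀ (m : ℕ) (l : List Bool), l.length = m → fit m l = l := by
    intro m l hl
    simp [fit, ← hl]
  -- the position of the coins which are used
  obtain ⟨o, ho, hob⟩ : ∃ o, o + S.e.eval n ≤ (sch S encB decB).e.eval n ∧
      ∀ s R, enc1 S n (S.pk (pairBits (ones n) s)) b R = S.ct n s b ((R.drop o).take (S.e.eval n)) := by
    cases b
    · exact ⟨2 * n + S.e.eval n, by omega, fun s R => rfl⟩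
    · exact ⟨2 * n, by omega, fun s R => rfl⟩
  have key : ∀ s R : List Bool, R.length = (sch S encB decB).e.eval n →
      valid n (R.take (2 * n)) = true →
      (sch S encB decB).dec (c3 (ones n) ((sch S encB decB).sk (pairBits (ones n) s))
        ((sch S encB decB).ct n s b R)) =
      S.dec (c3 (ones n) (S.sk (pairBits (ones n) s))
        (S.ct n s b ((R.drop o).take (S.e.eval n)))) := by
    intro s R hR hv
    have h3 := h2 τ n (S.len.eval n) (R.take (2 * n))
      (enc1 S n (S.pk (pairBits (ones n) s)) b R)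
      (enc1 S n (S.pk (pairBits (ones n) s)) (!b) (cpl R))
      (by rw [List.length_take]; omega) (hfit _ _) (hfit _ _)
    have h4 : (sch S encB decB).ct n s b R = em τ n (R.take (2 * n))
      (enc1 S n (S.pk (pairBits (ones n) s)) b R)
      (enc1 S n (S.pk (pairBits (ones n) s)) (!b) (cpl R)) := by
      unfold Scheme.ct
      rw [hL]
      change fit _ (encB _) = _
      rw [hE]
      exact hfitid _ _ h3.1
    rw [h4]
    change decB _ = _
    rw [hD, h3.2.1 hv, hob]
    rfl
  have hval : pr (fun w : (Fin (S.g.eval n) → Bool) × (Fin ((sch S encB decB).e.eval n) → Bool) =>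
      !(valid n (((List.ofFn w.2).drop 0).take (2 * n)))) = (3 / 4 : ℝ) ^ n := by
    rw [PBD_proj (G := Fin (S.g.eval n) → Bool) (fun _ l => !(valid n l)) _ 0 (2 * n) (by omega),
      PBD_snd (G := Fin (S.g.eval n) → Bool) (2 * n) (fun y => !(valid n (List.ofFn y)))]
    exact h1 n
  have herr : pr (fun w : (Fin (S.g.eval n) → Bool) × (Fin ((sch S encB decB).e.eval n) → Bool) =>
      decide (S.dec (c3 (ones n) (S.sk (pairBits (ones n) (List.ofFn w.1)))
        (S.ct n (List.ofFn w.1) b (((List.ofFn w.2).drop o).take (S.e.eval n)))) ≠ [b])) =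
      S.err n b := by
    rw [PBD_proj (G := Fin (S.g.eval n) → Bool) (fun s l =>
      decide (S.dec (c3 (ones n) (S.sk (pairBits (ones n) (List.ofFn s)))
        (S.ct n (List.ofFn s) b l)) ≠ [b])) _ o (S.e.eval n) ho]
    rfl
  rw [← hval, ← herr]
  apply PBD_union
  intro w hw
  by_cases hv : valid n ((List.ofFn w.2).take (2 * n)) = true
  · right
    rw [decide_eq_true_eq] at hw ⊢
    intro h
    exact hw ((key (List.ofFn w.1) (List.ofFn w.2) (by simp) hv).trans h)
  · left
    simp only [List.drop_zero, Bool.not_eq_true', Bool.not_eq_true] at hv ⊢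
    exact hv

end Pool.Agent.H547S1
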