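import Pool.Agent.H547S1.Stm

/-!
S_VAL: no pair is `0, 1` with probability `(3/4)^k` (helper17).
-/

set_option autoImplicit false

namespace Pool.Agent.H547S1

open Pool.Agent.H547R6 Pool.Agent.H547R7 Pool.Agent.H547R8 Pool.Agent.NPC Pool.Agent.H583R2

/-- no pair is `0, 1` -/
def VALp (k : ℕ) (y : Fin (2 * k) → Bool) : Prop :=
  ∀ (i : ℕ) (hi : i < k), ¬ (y ⟨2 * i, by omega⟩ = false ∧ y ⟨2 * i + 1, by omega⟩ = true)

theorem VAL_getD {n : ℕ} (y : Fin n → Bool) (j : ℕ) (hj : j < n) :
    (List.ofFn y).getD j false = y ⟨j, hj⟩ := by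
  rw [List.getD_eq_getElem?_getD, List.getElem?_ofFn, dif_pos hj]
  rfl

theorem VAL_iff (k : ℕ) (y : Fin (2 * k) → Bool) :
    ((!(valid k (List.ofFn y))) = true) ↔ VALp k y := by
  rw [Bool.not_eq_true', ← Bool.not_eq_true]
  unfold valid VALp
  rw [List.any_eq_true]
  constructor
  · intro h i hi hc
    apply h
    refine ⟨i, List.mem_range.mpr hi, ?_⟩
    unfold good
    rw [VAL_getD y (2 * i) (by omega), VAL_getD y (2 * i + 1) (by omega), hc.1, hc.2]
    rfl
  · rintro h ⟨i, hi, hg⟩
    have hi' := List.mem_range.mp hi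
    refine h i hi' ?_
    unfold good at hg
    rw [VAL_getD y (2 * i) (by omega), VAL_getD y (2 * i + 1) (by omega)] at hg
    simpa using hg

/-- splitting off the last pair -/
def VALe (k : ℕ) : (Fin (2 * (k + 1)) → Bool) ≃ (Fin (2 * k) → Bool) × (Bool × Bool) where
  toFun := fun y => (fun i => y ⟨i.1, by have := i.2; omega⟩,
    (y ⟨2 * k, by omega⟩, y ⟨2 * k + 1, by omega⟩))
  invFun := fun p i => if h : i.1 < 2 * k then p.1 ⟨i.1, h⟩ else
    if i.1 = 2 * k then p.2.1 else p.2.2
  left_inv := by
    intro y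
    funext i
    by_cases h : i.1 < 2 * k
    · simp [h]
    · by_cases h2 : i.1 = 2 * k
      · beta_reduce
        rw [dif_neg h, if_pos h2]
        exact congrArg y (Fin.ext h2.symm)
      · have h3 : i.1 = 2 * k + 1 := by have := i.2; omega
        beta_reduce
        rw [dif_neg h, if_neg h2]
        exact congrArg y (Fin.ext h3.symm)
  right_inv := by
    rintro ⟨y, a, b⟩
    refine Prod.ext ?_ (Prod.ext ?_ ?_)
    · funext i
      have := i.2
      simp
    · simp
    · simp

theorem VAL_step (k : ℕ) (y : Fin (2 * (k + 1)) → Bool) :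
    VALp (k + 1) y ↔ (VALp k (VALe k y).1 ∧ ¬ ((VALe k y).2.1 = false ∧ (VALe k y).2.2 = true)) := by
  constructor
  · intro h
    refine ⟨fun i hi hc => h i (by omega) hc, fun hc => h k (by omega) hc⟩
  · rintro ⟨h1, h2⟩ i hi hc
    rcases Nat.lt_succ_iff_lt_or_eq.mp hi with h | h
    · exact h1 i h hc
    · subst h
      exact h2 hc

open Classical in
theorem VAL_card (k : ℕ) :
    (Finset.univ.filter fun y : Fin (2 * k) → Bool => VALp k y).card = 3 ^ k := by
  induction k with
  | zero =>
    have : (Finset.univ.filter fun y : Fin (2 * 0) → Bool => VALp 0 y) = Finset.univ := by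
      apply Finset.filter_true_of_mem
      intro y _ i hi
      omega
    rw [this]
    simp
  | succ k ih =>
    have h1 : (Finset.univ.filter fun y : Fin (2 * (k + 1)) → Bool => VALp (k + 1) y).card
        = ((Finset.univ.filter fun y : Fin (2 * k) → Bool => VALp k y) ×ˢ
          (Finset.univ.filter fun q : Bool × Bool => ¬ (q.1 = false ∧ q.2 = true))).card := by
      apply Finset.card_equiv (VALe k)
      intro y
      rw [Finset.mem_product, Finset.mem_filter, Finset.mem_filter, Finset.mem_filter]
      simp only [Finset.mem_univ, true_and]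
      exact VAL_step k y
    rw [h1, Finset.card_product, ih, pow_succ]
    congr 1

theorem t_VAL : S_VAL := by
  classical
  intro k
  unfold pr
  have h1 : (Finset.univ.filter fun y : Fin (2 * k) → Bool => (!(valid k (List.ofFn y))) = true)
      = (Finset.univ.filter fun y : Fin (2 * k) → Bool => VALp k y) := by
    apply Finset.filter_congr
    intro y _
    exact VAL_iff k y
  have h2 : (Finset.univ.filter fun y : Fin (2 * k) → Bool => (!(valid k (List.ofFn y))) = true).card
      = 3 ^ k := by
    rw [h1]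
    convert VAL_card k
  rw [h2]
  have h3 : Fintype.card (Fin (2 * k) → Bool) = 4 ^ k := by
    rw [Fintype.card_fun, Fintype.card_bool, Fintype.card_fin, pow_mul]
    norm_num
  rw [h3, div_pow]
  push_cast
  ring

end Pool.Agent.H547S1
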